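import Pool.Agent.Lib_helper24.PD.Defs
import Pool.Agent.Lib_helper24.PD.Plain
set_option autoImplicit false
set_option linter.unusedSectionVars false
namespace Pool.Agent.PD
open Pool.Agent Pool.Agent.RSK Pool.Agent.RS2 Pool.Agent.AU
open NumberField IsDedekindDomain Filter Topology Complex
open scoped TensorProduct
section
variable {F H : Type} [Field F] [NumberField F] [Field H] [NumberField H] [Algebra F H]
  [IsGalois F H] {G : Type} [CommGroup G] [Fintype G] {p : ℕ} {ι : G ≃* (H ≃ₐ[F] H)}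
  {S : Finset (Pl F)} {T : Finset (HeightOneSpectrum (𝓞 F))} {r : ℕ} {w : Fin r → Pl H}
  {fr : HeightOneSpectrum (𝓞 F) → G}

theorem qa1_psiQ {S' T : Finset (HeightOneSpectrum (𝓞 F))}
    (ψ : Fin r → (UM ι S' T →ₗ[MonoidAlgebra ℤ G] MonoidAlgebra ℤ G))
    (U : (⋀[MonoidAlgebra ℤ G]^r (UM ι S' T)) ⊗[ℤ] ℚ) :
    qToR G (psiQ ψ U) = extQ (detMap (fun i =>
      (Algebra.linearMap (MonoidAlgebra ℤ G) (MonoidAlgebra ℝ G)).comp (ψ i))).toAddMonoidHom U := by
  have h3 := AU.ln_extQ (qToR G).toAddMonoidHom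
    ((toQ G).toAddMonoidHom.comp (detMap ψ).toAddMonoidHom) U
  have h4 : (qToR G).toAddMonoidHom.comp
      ((toQ G).toAddMonoidHom.comp (detMap ψ).toAddMonoidHom) =
        (detMap (fun i =>
      (Algebra.linearMap (MonoidAlgebra ℤ G) (MonoidAlgebra ℝ G)).comp (ψ i))).toAddMonoidHom := by
    ext1 n
    show qToR G (toQ G (detMap ψ n)) = detMap _ n
    rw [RB.qToR_toQ, RB.det_toR]
  rw [h4] at h3
  exact h3

/-- a formal sum with support in `U_{S,T}` represents an element of `ℚ ⊗ ⋀^r U_{S,T}` -/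
theorem qa_lift (ι : G ≃* (H ≃ₐ[F] H)) (S : Finset (Pl F)) (T : Finset (HeightOneSpectrum (𝓞 F)))
    (w : Fin r → Pl H) {u : (Fin r → Hˣ) →₀ MonoidAlgebra ℚ G}
    (hu : ∀ x ∈ u.support, ∀ i, RB.IsU S T (x i)) :
    ∃ U : (⋀[MonoidAlgebra ℤ G]^r (UM ι S.toRight T)) ⊗[ℤ] ℚ,
      (∀ χ : G →* ℂˣ, evR χ (extQ (detMap (fun i => wl ι S.toRight T (w i))).toAddMonoidHom U) =
        ∑ g : G, ((RB.dets ι (fun i x => Real.log (RB.nabs (w i) (x : H))) u).coeff g : ℂ) *
          χ g) ∧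
      (∀ f : Fin r → Hˣ → ℤ,
        (∀ i x y, RB.IsU S T x → RB.IsU S T y → f i (x * y) = f i x + f i y) →
        ∃ ψ : Fin r → (UM ι S.toRight T →ₗ[MonoidAlgebra ℤ G] MonoidAlgebra ℤ G),
          qToR G (psiQ ψ U) = RB.dets ι (fun i x => (f i x : ℝ)) u) ∧
      ∀ ψ : Fin r → (UM ι S.toRight T →ₗ[MonoidAlgebra ℤ G] MonoidAlgebra ℤ G),
        ∃ f : Fin r → Hˣ → ℤ,
          (∀ i x y, RB.IsU S T x → RB.IsU S T y → f i (x * y) = f i x + f i y) ∧
          qToR G (psiQ ψ U) = RB.dets ι (fun i x => (f i x : ℝ)) u := by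
  classical
  have hM := RB.isMod_wl ι S.toRight T w
  have hIU : ∀ m : UM ι S.toRight T, RB.IsU S T m.val := fun m =>
    (RB.isU_iff S T m.val).1 ((hM.range m.val).1 ⟨m, rfl⟩)
  obtain ⟨U, hU1, hU2⟩ := RB.rep_lift ι (fun m : UM ι S.toRight T => m.val) u
    (fun x hx i => (hM.range (x i)).2 ((RB.isU_iff S T (x i)).2 (hu x hx i)))
  refine ⟨U, ?_, ?_, ?_⟩
  · intro χ
    have h1 : extQ (detMap (fun i => wl ι S.toRight T (w i))).toAddMonoidHom U =
        RB.dets ι (fun i x => Real.log (RB.nabs (w i) (x : H))) u := by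
      apply hU2
      intro i m
      rw [hM.log i m]
      refine Finset.sum_congr rfl fun γ _ => ?_
      rw [RB.lg_inv]
    rw [h1, RB.evR_eq]
  · intro f hf
    let φ : Fin r → (UM ι S.toRight T →+ ℤ) := fun i =>
      AddMonoidHom.mk' (fun m => f i m.val) (fun m n => by
        show f i (m + n).val = f i m.val + f i n.val
        rw [UM.val_add]
        exact hf i _ _ (hIU m) (hIU n))
    refine ⟨fun i => RB.psi (φ i), ?_⟩
    rw [qa1_psiQ]
    apply hU2
    intro i m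
    show toR G (RB.psi (φ i) m) = _
    rw [RB.psi_apply, map_sum]
    refine Finset.sum_congr rfl fun γ _ => ?_
    have h1 : (MonoidAlgebra.single γ⁻¹ (1 : ℤ) • m).val = (ι γ)⁻¹ • m.val := by
      rw [hM.smul, map_inv]
    show toR G (MonoidAlgebra.single γ (f i (MonoidAlgebra.single γ⁻¹ (1 : ℤ) • m).val)) = _
    rw [h1]
    unfold toR
    rw [MonoidAlgebra.mapRingHom_single]
    rfl
  · intro ψ
    let f : Fin r → Hˣ → ℤ := fun i x =>
      if h : x ∈ Un (ovr H S.toRight) (ovr H T) then (ψ i (UM.mk x h)).coeff 1 else 0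
    have hf : ∀ i (m : UM ι S.toRight T), f i m.val = (ψ i m).coeff 1 := by
      intro i m
      have h : m.val ∈ Un (ovr H S.toRight) (ovr H T) := m.val_mem
      have h1 : UM.mk m.val h = m := UM.ext (UM.val_mk _ _)
      show (if h : m.val ∈ Un (ovr H S.toRight) (ovr H T) then (ψ i (UM.mk m.val h)).coeff 1 else 0) = _
      rw [dif_pos h, h1]
    refine ⟨f, ?_, ?_⟩
    · intro i x y hx hy
      have hx' := (RSK.isU_iff _ _ _).2 ((RB.isU_iff S T x).2 hx)
      have hy' := (RSK.isU_iff _ _ _).2 ((RB.isU_iff S T y).2 hy)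
      have h1 : x = (UM.mk (ι := ι) x hx').val := (UM.val_mk _ _).symm
      have h2 : y = (UM.mk (ι := ι) y hy').val := (UM.val_mk _ _).symm
      rw [h1, h2, ← UM.val_add, hf, hf, hf, map_add, MonoidAlgebra.coeff_add, Finsupp.add_apply]
    · rw [qa1_psiQ]
      apply hU2
      intro i m
      show toR G (ψ i m) = _
      have h2 : ψ i m = ∑ g : G, MonoidAlgebra.single g ((ψ i m).coeff g) := by
        conv_lhs => rw [← MonoidAlgebra.sum_coeff_single (ψ i m)]
        rw [Finsupp.sum_fintype _ _ (fun g => by simp)]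
      conv_lhs => rw [h2]
      rw [map_sum]
      refine Finset.sum_congr rfl fun γ _ => ?_
      have h1 : (MonoidAlgebra.single γ⁻¹ (1 : ℤ) • m).val = (ι γ)⁻¹ • m.val := by
        rw [hM.smul, map_inv]
      show _ = MonoidAlgebra.single γ ((f i ((ι γ)⁻¹ • m.val) : ℤ) : ℝ)
      rw [← h1, hf, map_smul, smul_eq_mul]
      unfold toR
      rw [MonoidAlgebra.mapRingHom_single]
      have h3 : (MonoidAlgebra.single γ⁻¹ (1 : ℤ) * ψ i m).coeff 1 = (ψ i m).coeff γ := by
        rw [MonoidAlgebra.coeff_single_mul_apply, inv_inv, mul_one, one_mul]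
      rw [h3]
      rfl
end
end Pool.Agent.PD
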