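import Pool.Agent.Lib_helper24.PD.Defs
import Pool.Agent.Lib_helper24.PD.Plain
import Pool.Agent.Lib_helper24.PD.P.QA1
set_option autoImplicit false
set_option linter.unusedSectionVars false
namespace Pool.Agent.PD
open Pool.Agent Pool.Agent.RSK Pool.Agent.RS2 Pool.Agent.AU
open NumberField IsDedekindDomain Filter Topology Complex
open scoped TensorProduct
section
variable {F H : Type} [Field F] [NumberField F] [Field H] [NumberField H] [Algebra F H]
  [IsGalois F H] {G : Type} [CommGroup G] [Fintype G] {p : ℕ} {ι : G ≃* (H ≃ₐ[F] H)}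
  {S : Finset (Pl F)} {T : Finset (HeightOneSpectrum (𝓞 F))} {r : ℕ} {w : Fin r → Pl H}
  {fr : HeightOneSpectrum (𝓞 F) → G}
theorem qa_one (hD : RB.Data ι S T w fr) (h1 : S.card = r + 1) :
    One ι S.toRight T r w fr :=
  ⟨RB.data_of hD, by rw [← RB.card_eq S hD.arch, h1]⟩

/-- `m y` has integral coefficients, in two forms -/
theorem qa2_int (m : ℕ) (y : MonoidAlgebra ℚ G) :
    (∀ g : G, ∃ n : ℤ, (m : ℝ) * (qToR G y).coeff g = n) ↔
      ∃ d : MonoidAlgebra ℤ G, (m : ℚ) • y = toQ G d := by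
  have hc : ∀ g : G, (qToR G y).coeff g = ((y.coeff g : ℚ) : ℝ) := by
    intro g
    unfold qToR
    rw [MonoidAlgebra.coeff_mapRingHom]
    rfl
  constructor
  · intro h
    choose n hn using h
    refine ⟨∑ g : G, MonoidAlgebra.single g (n g), ?_⟩
    ext g
    have h2 : (m : ℚ) * y.coeff g = (n g : ℚ) := by
      have h3 := hn g
      rw [hc g] at h3
      exact_mod_cast h3
    have h4 : toQ G (∑ g : G, MonoidAlgebra.single g (n g)) =
        ∑ g : G, MonoidAlgebra.single g ((n g : ℤ) : ℚ) := by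
      rw [map_sum]
      refine Finset.sum_congr rfl fun g _ => ?_
      unfold toQ
      rw [MonoidAlgebra.mapRingHom_single]
      rfl
    have h5 : (∑ g' : G, MonoidAlgebra.single g' ((n g' : ℤ) : ℚ)).coeff g =
        ((n g : ℤ) : ℚ) := by
      rw [MonoidAlgebra.coeff_sum, Finsupp.finset_sum_apply, Finset.sum_eq_single g]
      · rw [MonoidAlgebra.coeff_single, Finsupp.single_eq_same]
      · intro b _ hb
        rw [MonoidAlgebra.coeff_single, Finsupp.single_eq_of_ne (Ne.symm hb)]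
      · intro h
        exact absurd (Finset.mem_univ _) h
    rw [h4, h5, MonoidAlgebra.coeff_smul, Finsupp.smul_apply, smul_eq_mul, h2]
  · rintro ⟨d, hd⟩ g
    refine ⟨d.coeff g, ?_⟩
    have h1 : ((m : ℚ) • y).coeff g = (toQ G d).coeff g := by rw [hd]
    have h2 : (toQ G d).coeff g = ((d.coeff g : ℤ) : ℚ) := by
      unfold toQ
      rw [MonoidAlgebra.coeff_mapRingHom]
      rfl
    rw [h2, MonoidAlgebra.coeff_smul, Finsupp.smul_apply, smul_eq_mul] at h1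
    rw [hc g]
    exact_mod_cast h1

theorem qa2_onePlus (a : ℤ) : onePlus G (((a : ℚ) - 1) / p) = bA p G a := by
  unfold onePlus bA
  rw [px2_toQ_nrm, Finset.smul_sum]
  congr 1
  refine Finset.sum_congr rfl fun g _ => ?_
  rw [MonoidAlgebra.smul_single, smul_eq_mul, mul_one]

/-- a rational Stark element in the plain form -/
theorem qa_stk (hD : RB.Data ι S T w fr) (h1 : S.card = r + 1)
    {u : (Fin r → Hˣ) →₀ MonoidAlgebra ℚ G} (hu : RB.Stark ι S T w fr u) :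
    ∃ U : (⋀[MonoidAlgebra ℤ G]^r (UM ι S.toRight T)) ⊗[ℤ] ℚ, Stk ι S.toRight T w fr U ∧
      (∀ (q : ℕ) (b : MonoidAlgebra ℚ G), LatAt q b ι S T u ↔
        ∀ ψ : Fin r → (UM ι S.toRight T →ₗ[MonoidAlgebra ℤ G] MonoidAlgebra ℤ G),
          ∃ (m : ℕ) (d : MonoidAlgebra ℤ G), ¬ q ∣ m ∧ (m : ℚ) • (b * psiQ ψ U) = toQ G d) ∧
      ∀ a : ℤ, p.Prime → Nat.card G = p →
        (LatAt p (onePlus G (((a : ℚ) - 1) / p)) ι S T u ↔
          ∀ ψ : Fin r → (UM ι S.toRight T →ₗ[MonoidAlgebra ℤ G] MonoidAlgebra ℤ G),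
            psiQ ψ U ∈ Qa p G a) := by
  obtain ⟨hu1, ⟨c, hL, hval⟩, hu3⟩ := hu
  obtain ⟨U, hU1, hU2, hU3⟩ := qa_lift ι S T w hu1
  have key : ∀ (q : ℕ) (b : MonoidAlgebra ℚ G), LatAt q b ι S T u ↔
        ∀ ψ : Fin r → (UM ι S.toRight T →ₗ[MonoidAlgebra ℤ G] MonoidAlgebra ℤ G),
          ∃ (m : ℕ) (d : MonoidAlgebra ℤ G), ¬ q ∣ m ∧ (m : ℚ) • (b * psiQ ψ U) = toQ G d := by
    intro q b
    have hb : MonoidAlgebra.mapRingHom G (algebraMap ℚ ℝ) b = qToR G b := rfl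
    constructor
    · intro h ψ
      obtain ⟨f, hf, hfψ⟩ := hU3 ψ
      obtain ⟨m, hm, hm2⟩ := h f hf
      rw [← hfψ, hb, ← map_mul] at hm2
      obtain ⟨d, hd⟩ := (qa2_int m _).1 hm2
      exact ⟨m, d, hm, hd⟩
    · intro h f hf
      obtain ⟨ψ, hψ⟩ := hU2 f hf
      obtain ⟨m, d, hm, hd⟩ := h ψ
      refine ⟨m, hm, ?_⟩
      rw [← hψ, hb, ← map_mul]
      exact (qa2_int m _).2 ⟨d, hd⟩
  refine ⟨U, ⟨c, RB.lead_to hL, fun χ => by rw [hU1 χ, hval χ]⟩, key, ?_⟩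
  intro a hp _
  rw [key, qa2_onePlus]
  refine forall_congr' fun ψ => ?_
  constructor
  · rintro ⟨m, d, hm, hd⟩
    exact ⟨m, d, ((Nat.Prime.coprime_iff_not_dvd hp).2 hm).symm, hd⟩
  · rintro ⟨m, d, hm, hd⟩
    exact ⟨m, d, (Nat.Prime.coprime_iff_not_dvd hp).1 hm.symm, hd⟩

theorem qa_lat (hp : p.Prime) (u : (Fin r → Hˣ) →₀ MonoidAlgebra ℚ G) :
    LatAt p 1 ι S T u ↔ RB.IntAt p 1 ι S T u := by
  unfold LatAt RB.IntAt
  rw [map_one, map_one]
end
end Pool.Agent.PD
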