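import Pool.Agent.Lib_helper24.PD.Defs
import Pool.Agent.Lib_helper24.PD.Plain
set_option autoImplicit false
set_option linter.unusedSectionVars false
namespace Pool.Agent.PD
open Pool.Agent Pool.Agent.RSK Pool.Agent.RS2 Pool.Agent.AU
open NumberField IsDedekindDomain Filter Topology Complex
open scoped TensorProduct
section
variable {F H : Type} [Field F] [NumberField F] [Field H] [NumberField H] [Algebra F H]
  [IsGalois F H] {G : Type} [CommGroup G] [Fintype G] {p : ℕ} {ι : G ≃* (H ≃ₐ[F] H)}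
  {S : Finset (Pl F)} {T : Finset (HeightOneSpectrum (𝓞 F))} {r : ℕ} {w : Fin r → Pl H}
  {fr : HeightOneSpectrum (𝓞 F) → G}

theorem qc1_val (v : HeightOneSpectrum (𝓞 F)) {x : F} (hx : x ≠ 0) (n : ℤ) :
    RB.nabs (Sum.inr v) x = (Ideal.absNorm v.asIdeal : ℝ) ^ (-n) ↔ n = ordv v x := by
  have h1 : (1 : ℝ) < Ideal.absNorm v.asIdeal := by
    exact_mod_cast HeightOneSpectrum.one_lt_absNorm_nnreal v
  have h0 : (0 : ℝ) < Ideal.absNorm v.asIdeal := lt_trans zero_lt_one h1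
  have hlog : Real.log (Ideal.absNorm v.asIdeal : ℝ) ≠ 0 := (Real.log_pos h1).ne'
  have h2 : Real.log (RB.nabs (Sum.inr v) x) =
      -(ordv v x) * Real.log (Ideal.absNorm v.asIdeal : ℝ) := by
    rw [RB.log_nabs, lg_ordv v hx]
    rfl
  constructor
  · intro h
    rw [h, Real.log_zpow] at h2
    have h3 := mul_right_cancel₀ hlog h2
    have h4 : (-n : ℤ) = -(ordv v x) := by exact_mod_cast h3
    linarith
  · intro h
    refine Real.log_injOn_pos (Set.mem_Ioi.2 (RB.nabs_pos _ hx))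
      (Set.mem_Ioi.2 (zpow_pos h0 _)) ?_
    rw [h2, Real.log_zpow, h]
    push_cast
    ring

theorem qc_F (S : Finset (Pl F)) (T : Finset (HeightOneSpectrum (𝓞 F))) :
    clF S T = hA S.toRight T := by
  have hB : {D : Finsupp (HeightOneSpectrum (RingOfIntegers F)) ℤ |
      ∀ v ∈ {v : HeightOneSpectrum (RingOfIntegers F) | v ∈ T}, D v = 0} =
      ((Dv T : AddSubgroup (HeightOneSpectrum (𝓞 F) →₀ ℤ)) :
        Set (HeightOneSpectrum (𝓞 F) →₀ ℤ)) := rfl
  have hA' : {D : Finsupp (HeightOneSpectrum (RingOfIntegers F)) ℤ |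
      (∀ v ∈ {v : HeightOneSpectrum (RingOfIntegers F) | v ∈ T}, D v = 0) ∧
      (D ∈ (∅ : Set (Finsupp (HeightOneSpectrum (RingOfIntegers F)) ℤ)) ∨
        ∃ x : F, x ≠ 0 ∧ (∀ v ∈ {v : HeightOneSpectrum (RingOfIntegers F) | v ∈ T},
          RB.nabs (Sum.inr v) (x - 1) < 1) ∧
        ∀ v, v ∉ {v : HeightOneSpectrum (RingOfIntegers F) | Sum.inr v ∈ S} →
          RB.nabs (Sum.inr v) x = (Ideal.absNorm v.asIdeal : ℝ) ^ (-D v))} =
      ((Pr S.toRight T : AddSubgroup (HeightOneSpectrum (𝓞 F) →₀ ℤ)) :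
        Set (HeightOneSpectrum (𝓞 F) →₀ ℤ)) := by
    ext D
    constructor
    · rintro ⟨h1, h2 | ⟨x, hx, h3, h4⟩⟩
      · exact absurd h2 (Set.notMem_empty D)
      · refine ⟨h1, Units.mk0 x hx, ?_, ?_⟩
        · intro v hv
          exact (RB.nabs_fin_lt_one v _).1 (h3 v hv)
        · intro v hv
          have hv' : v ∉ {v : HeightOneSpectrum (RingOfIntegers F) | Sum.inr v ∈ S} :=
            fun h => hv (Finset.mem_toRight.2 h)
          exact (qc1_val v hx _).1 (h4 v hv')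
    · rintro ⟨h1, x, hx, h2⟩
      refine ⟨h1, Or.inr ⟨(x : F), x.ne_zero, ?_, ?_⟩⟩
      · intro v hv
        exact (RB.nabs_fin_lt_one v _).2 (hx v hv)
      · intro v hv
        have hv' : v ∉ S.toRight := fun h => hv (Finset.mem_toRight.1 h)
        exact (qc1_val v x.ne_zero _).2 (h2 v hv')
  unfold clF clNum hA
  rw [hA', hB, AddSubgroup.closure_eq, AddSubgroup.closure_eq]
end
end Pool.Agent.PD
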