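import Pool.Agent.Lib_helper24.PD.Defs
import Pool.Agent.Lib_helper24.PD.Plain
set_option autoImplicit false
set_option linter.unusedSectionVars false
namespace Pool.Agent.PD
open Pool.Agent Pool.Agent.RSK Pool.Agent.RS2 Pool.Agent.AU
open NumberField IsDedekindDomain Filter Topology Complex
open scoped TensorProduct
section
variable {F H : Type} [Field F] [NumberField F] [Field H] [NumberField H] [Algebra F H]
  [IsGalois F H] {G : Type} [CommGroup G] [Fintype G] {p : ℕ} {ι : G ≃* (H ≃ₐ[F] H)}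
  {S : Finset (Pl F)} {T : Finset (HeightOneSpectrum (𝓞 F))} {r : ℕ} {w : Fin r → Pl H}
  {fr : HeightOneSpectrum (𝓞 F) → G}

theorem qc2_nabs (W : HeightOneSpectrum (𝓞 H)) {x : H} (hx : x ≠ 0) (n : ℤ) :
    RB.nabs (Sum.inr W) x = (Ideal.absNorm W.asIdeal : ℝ) ^ (-n) ↔ n = ordv W x := by
  have h1 : (1 : ℝ) < (Ideal.absNorm W.asIdeal : ℝ) := by
    have h := HeightOneSpectrum.one_lt_absNorm_nnreal W
    exact_mod_cast h
  have h0 : (0 : ℝ) < (Ideal.absNorm W.asIdeal : ℝ) := lt_trans one_pos h1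
  have hl : 0 < Real.log (Ideal.absNorm W.asIdeal : ℝ) := Real.log_pos h1
  have e1 : Real.log (RB.nabs (Sum.inr W) x) =
      ((-ordv W x : ℤ) : ℝ) * Real.log (Ideal.absNorm W.asIdeal : ℝ) := by
    rw [RB.log_nabs, up1_lg, ordv, neg_neg]
    rfl
  have e2 : Real.log ((Ideal.absNorm W.asIdeal : ℝ) ^ (-n)) =
      ((-n : ℤ) : ℝ) * Real.log (Ideal.absNorm W.asIdeal : ℝ) := Real.log_zpow _ _
  constructor
  · intro h
    have e3 := congrArg Real.log h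
    rw [e1, e2] at e3
    have e4 := mul_right_cancel₀ hl.ne' e3
    have e5 : (-ordv W x : ℤ) = -n := by exact_mod_cast e4
    linarith
  · intro h
    have e3 : Real.log (RB.nabs (Sum.inr W) x) =
        Real.log ((Ideal.absNorm W.asIdeal : ℝ) ^ (-n)) := by
      rw [e1, e2, h]
    exact Real.log_injOn_pos (Set.mem_Ioi.2 (RB.nabs_pos _ hx)) (Set.mem_Ioi.2 (zpow_pos h0 _)) e3

theorem qc2_mem_S (S : Finset (Pl F)) (W : HeightOneSpectrum (𝓞 H)) :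
    W ∈ {W : HeightOneSpectrum (𝓞 H) | (Sum.inr (W.under (𝓞 F)) : Pl F) ∈ S} ↔
      W ∈ ovr H S.toRight := by
  rw [mem_ovr, Finset.mem_toRight]
  exact Iff.rfl

theorem qc2_Dv (T : Finset (HeightOneSpectrum (𝓞 F))) :
    AddSubgroup.closure {D : HeightOneSpectrum (𝓞 H) →₀ ℤ |
      ∀ v ∈ {W : HeightOneSpectrum (𝓞 H) | W.under (𝓞 F) ∈ T}, D v = 0} = Dv (ovr H T) := by
  have e : {D : HeightOneSpectrum (𝓞 H) →₀ ℤ |
      ∀ v ∈ {W : HeightOneSpectrum (𝓞 H) | W.under (𝓞 F) ∈ T}, D v = 0} =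
      (Dv (ovr H T) : Set (HeightOneSpectrum (𝓞 H) →₀ ℤ)) := by
    ext D
    constructor
    · intro h W hW
      exact h W (mem_ovr.1 hW)
    · intro h W hW
      exact h W (mem_ovr.2 hW)
  rw [e, AddSubgroup.closure_eq]

theorem qc2_Pr (S : Finset (Pl F)) (T : Finset (HeightOneSpectrum (𝓞 F)))
    (D : HeightOneSpectrum (𝓞 H) →₀ ℤ)
    (hT : ∀ v ∈ {W : HeightOneSpectrum (𝓞 H) | W.under (𝓞 F) ∈ T}, D v = 0) :
    (∃ x : H, x ≠ 0 ∧ (∀ v ∈ {W : HeightOneSpectrum (𝓞 H) | W.under (𝓞 F) ∈ T},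
      RB.nabs (Sum.inr v) (x - 1) < 1) ∧
      ∀ v, v ∉ {W : HeightOneSpectrum (𝓞 H) | (Sum.inr (W.under (𝓞 F)) : Pl F) ∈ S} →
        RB.nabs (Sum.inr v) x = (Ideal.absNorm v.asIdeal : ℝ) ^ (-D v)) ↔
      D ∈ Pr (ovr H S.toRight) (ovr H T) := by
  constructor
  · rintro ⟨x, hx, h1, h2⟩
    refine ⟨fun W hW => hT W (mem_ovr.1 hW), Units.mk0 x hx, fun W hW => ?_, fun W hW => ?_⟩
    · exact (RB.nabs_fin_lt_one W _).1 (h1 W (mem_ovr.1 hW))
    · exact (qc2_nabs W hx _).1 (h2 W fun h => hW ((qc2_mem_S S W).1 h))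
  · rintro ⟨_, x, h1, h2⟩
    refine ⟨x, x.ne_zero, fun W hW => ?_, fun W hW => ?_⟩
    · exact (RB.nabs_fin_lt_one W _).2 (h1 W (mem_ovr.2 hW))
    · exact (qc2_nabs W x.ne_zero _).2 (h2 W fun h => hW ((qc2_mem_S S W).2 h))

theorem qc2_DvP (hG : Nat.card G = p) (ι : G ≃* (H ≃ₐ[F] H)) (T : Finset (HeightOneSpectrum (𝓞 F)))
    (D : HeightOneSpectrum (𝓞 H) →₀ ℤ)
    (hT : ∀ v ∈ {W : HeightOneSpectrum (𝓞 H) | W.under (𝓞 F) ∈ T}, D v = 0) :
    D ∈ {D : HeightOneSpectrum (𝓞 H) →₀ ℤ |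
      ∀ W W', W.under (𝓞 F) = W'.under (𝓞 F) → D W = D W'} ↔ D ∈ DvP p F H T := by
  constructor
  · intro h
    refine ⟨fun W hW => hT W (mem_ovr.1 hW), fun σ _ W => ?_⟩
    exact h _ _ (under_equiv σ W)
  · rintro ⟨_, h⟩ W W' hWW
    obtain ⟨τ, hτ⟩ := act_trans (F := F) (W := Sum.inr W) (W' := Sum.inr W')
      (congrArg Sum.inr hWW)
    have hτ' : HeightOneSpectrum.equivOfRingEquiv (RingOfIntegers.mapRingEquiv τ.toRingEquiv) W =
      W' := Sum.inr_injective hτ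
    have hp : τ ^ p = 1 := by
      obtain ⟨g, rfl⟩ := ι.surjective τ
      rw [← map_pow, ← hG, pow_card_eq_one', map_one]
    rw [← hτ']
    exact (h τ hp W).symm

theorem qc_H (hp : p.Prime) (hG : Nat.card G = p) (ι : G ≃* (H ≃ₐ[F] H)) (S : Finset (Pl F))
    (T : Finset (HeightOneSpectrum (𝓞 F))) : clH H S T = hJ p F H S.toRight T := by
  unfold clH clNum hJ
  rw [qc2_Dv]
  congr 1
  refine le_antisymm ?_ (sup_le ?_ ?_)
  · rw [AddSubgroup.closure_le]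
    rintro D ⟨hT, hI | hx⟩
    · exact AddSubgroup.mem_sup_right ((qc2_DvP hG ι T D hT).1 hI)
    · exact AddSubgroup.mem_sup_left ((qc2_Pr S T D hT).1 hx)
  · intro D hD
    have hT : ∀ v ∈ {W : HeightOneSpectrum (𝓞 H) | W.under (𝓞 F) ∈ T}, D v = 0 :=
      fun W hW => hD.1 W (mem_ovr.2 hW)
    exact AddSubgroup.subset_closure ⟨hT, Or.inr ((qc2_Pr S T D hT).2 hD)⟩
  · intro D hD
    have hT : ∀ v ∈ {W : HeightOneSpectrum (𝓞 H) | W.under (𝓞 F) ∈ T}, D v = 0 :=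
      fun W hW => hD.1 W (mem_ovr.2 hW)
    exact AddSubgroup.subset_closure ⟨hT, Or.inl ((qc2_DvP hG ι T D hT).2 hD)⟩
end
end Pool.Agent.PD
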