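import Pool.Agent.Lib_helper24.PD.Defs
import Pool.Agent.Lib_helper24.PD.Plain
set_option autoImplicit false
set_option linter.unusedSectionVars false
namespace Pool.Agent.PD
open Pool.Agent Pool.Agent.RSK Pool.Agent.RS2 Pool.Agent.AU
open NumberField IsDedekindDomain Filter Topology Complex
open scoped TensorProduct

section Transport

theorem qc3_int {R R' : Type} [CommRing R] [IsDedekindDomain R] [CommRing R'] [IsDedekindDomain R']
    (e : R ≃+* R') (w : HeightOneSpectrum R) (x : R) :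
    (HeightOneSpectrum.equivOfRingEquiv e w).intValuation (e x) = w.intValuation x := by
  have hmem : ∀ n : ℕ, e x ∈ (HeightOneSpectrum.equivOfRingEquiv e w).asIdeal ^ n ↔
      x ∈ w.asIdeal ^ n := fun n => by
    have h1 : (HeightOneSpectrum.equivOfRingEquiv e w).asIdeal ^ n =
        (w.asIdeal ^ n).map (e : R →+* R') := by
      rw [Ideal.map_pow]
      congr 1
      show Ideal.comap (e.symm : R' →+* R) w.asIdeal = _
      exact Ideal.comap_symm e
    rw [h1]
    have h2 : (w.asIdeal ^ n).map (e : R →+* R') = (w.asIdeal ^ n).comap (e.symm : R' →+* R) :=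
      (Ideal.comap_symm e).symm
    rw [h2, Ideal.mem_comap]
    simp
  refine le_antisymm ?_ ?_
  · by_cases hx : x = 0
    · simp [hx]
    · obtain ⟨n, hn⟩ : ∃ n : ℕ, w.intValuation x = WithZero.exp (-(n : ℤ)) :=
        ⟨_, w.intValuation_if_neg hx⟩
      rw [hn, HeightOneSpectrum.intValuation_le_pow_iff_mem, hmem,
        ← HeightOneSpectrum.intValuation_le_pow_iff_mem, hn]
  · by_cases hx : x = 0
    · simp [hx]
    · have hx' : e x ≠ 0 := by simpa using hx
      obtain ⟨n, hn⟩ : ∃ n : ℕ, (HeightOneSpectrum.equivOfRingEquiv e w).intValuation (e x) =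
        WithZero.exp (-(n : ℤ)) := ⟨_, HeightOneSpectrum.intValuation_if_neg _ hx'⟩
      rw [hn, HeightOneSpectrum.intValuation_le_pow_iff_mem, ← hmem,
        ← HeightOneSpectrum.intValuation_le_pow_iff_mem, hn]

variable {F K K' : Type} [Field F] [NumberField F] [Field K] [NumberField K] [Algebra F K]
  [Field K'] [NumberField K'] [Algebra F K']

/-- the bijection of the finite places -/
noncomputable def qc3_E (e : K ≃ₐ[F] K') : HeightOneSpectrum (𝓞 K) ≃ HeightOneSpectrum (𝓞 K') :=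
  HeightOneSpectrum.equivOfRingEquiv (RingOfIntegers.mapRingEquiv e.toRingEquiv)

theorem qc3_val (e : K ≃ₐ[F] K') (w : HeightOneSpectrum (𝓞 K)) (x : K) :
    (qc3_E e w).valuation K' (e x) = w.valuation K x := by
  obtain ⟨a, b, hb, rfl⟩ := IsFractionRing.div_surjective (A := 𝓞 K) x
  have h : ∀ a : 𝓞 K, (qc3_E e w).valuation K'
      (e (algebraMap (𝓞 K) K a)) = w.valuation K (algebraMap (𝓞 K) K a) := fun a => by
    have h1 : e (algebraMap (𝓞 K) K a) =
      algebraMap (𝓞 K') K' (RingOfIntegers.mapRingEquiv e.toRingEquiv a) := rfl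
    rw [h1, HeightOneSpectrum.valuation_of_algebraMap, HeightOneSpectrum.valuation_of_algebraMap]
    exact qc3_int _ w a
  rw [map_div₀, map_div₀, map_div₀, h, h]

theorem qc3_ord (e : K ≃ₐ[F] K') (w : HeightOneSpectrum (𝓞 K)) (x : K) :
    ordv (qc3_E e w) (e x) = ordv w x := by
  unfold ordv
  rw [qc3_val]

theorem qc3_under (e : K ≃ₐ[F] K') (w : HeightOneSpectrum (𝓞 K)) :
    (qc3_E e w).under (𝓞 F) = w.under (𝓞 F) := by
  ext x
  show (RingOfIntegers.mapRingEquiv e.toRingEquiv).symm (algebraMap (𝓞 F) (𝓞 K') x) ∈ w.asIdeal ↔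
    algebraMap (𝓞 F) (𝓞 K) x ∈ w.asIdeal
  have h : (RingOfIntegers.mapRingEquiv e.toRingEquiv).symm (algebraMap (𝓞 F) (𝓞 K') x) =
      algebraMap (𝓞 F) (𝓞 K) x := by
    rw [RingEquiv.symm_apply_eq]
    ext
    show ((algebraMap (𝓞 F) (𝓞 K') x : 𝓞 K') : K') = e ((algebraMap (𝓞 F) (𝓞 K) x : 𝓞 K) : K)
    exact (e.commutes (x : F)).symm
  rw [h]

theorem qc3_under' (e : K ≃ₐ[F] K') (w : HeightOneSpectrum (𝓞 K')) :
    ((qc3_E e).symm w).under (𝓞 F) = w.under (𝓞 F) := by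
  rw [← qc3_under e, Equiv.apply_symm_apply]

theorem qc3_symm (e : K ≃ₐ[F] K') : (qc3_E e).symm = qc3_E e.symm := by
  ext w x
  rfl

theorem qc3_comp (e : K ≃ₐ[F] K') (σ : K' ≃ₐ[F] K') (w : HeightOneSpectrum (𝓞 K')) :
    (qc3_E e).symm (HeightOneSpectrum.equivOfRingEquiv
      (RingOfIntegers.mapRingEquiv σ.toRingEquiv) w) =
    HeightOneSpectrum.equivOfRingEquiv
      (RingOfIntegers.mapRingEquiv (e.trans (σ.trans e.symm)).toRingEquiv) ((qc3_E e).symm w) := by
  apply HeightOneSpectrum.ext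
  ext x
  show (RingOfIntegers.mapRingEquiv σ.toRingEquiv).symm
    (RingOfIntegers.mapRingEquiv e.toRingEquiv x) ∈ w.asIdeal ↔
    RingOfIntegers.mapRingEquiv e.toRingEquiv ((RingOfIntegers.mapRingEquiv
      (e.trans (σ.trans e.symm)).toRingEquiv).symm x) ∈ w.asIdeal
  have h : (RingOfIntegers.mapRingEquiv σ.toRingEquiv).symm
    (RingOfIntegers.mapRingEquiv e.toRingEquiv x) =
    RingOfIntegers.mapRingEquiv e.toRingEquiv ((RingOfIntegers.mapRingEquiv
      (e.trans (σ.trans e.symm)).toRingEquiv).symm x) := by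
    ext
    show σ.symm (e (x : K)) = e (e.symm (σ.symm (e (x : K))))
    rw [AlgEquiv.apply_symm_apply]
  rw [h]

/-- the isomorphism of the groups of divisors -/
noncomputable def qc3_Φ (e : K ≃ₐ[F] K') :
    (HeightOneSpectrum (𝓞 K) →₀ ℤ) ≃+ (HeightOneSpectrum (𝓞 K') →₀ ℤ) :=
  Finsupp.domCongr (qc3_E e)

theorem qc3_Φ_apply (e : K ≃ₐ[F] K') (D : HeightOneSpectrum (𝓞 K) →₀ ℤ)
    (w : HeightOneSpectrum (𝓞 K')) : qc3_Φ e D w = D ((qc3_E e).symm w) := rfl

theorem qc3_Φ_symm (e : K ≃ₐ[F] K') (D : HeightOneSpectrum (𝓞 K') →₀ ℤ) :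
    qc3_Φ e (qc3_Φ e.symm D) = D := by
  ext w
  rw [qc3_Φ_apply, qc3_Φ_apply, ← qc3_symm, Equiv.symm_symm, Equiv.apply_symm_apply]

variable {S T : Finset (HeightOneSpectrum (𝓞 F))}

theorem qc3_Dv (e : K ≃ₐ[F] K') {D : HeightOneSpectrum (𝓞 K) →₀ ℤ} (hD : D ∈ Dv (ovr K T)) :
    qc3_Φ e D ∈ Dv (ovr K' T) := by
  intro w hw
  rw [qc3_Φ_apply]
  apply hD
  rw [mem_ovr, qc3_under', ← mem_ovr]
  exact hw

theorem qc3_Pr (e : K ≃ₐ[F] K') {D : HeightOneSpectrum (𝓞 K) →₀ ℤ}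
    (hD : D ∈ Pr (ovr K S) (ovr K T)) : qc3_Φ e D ∈ Pr (ovr K' S) (ovr K' T) := by
  obtain ⟨h1, x, hx, h2⟩ := hD
  refine ⟨qc3_Dv e h1, Units.map (e : K →* K') x, ?_, ?_⟩
  · intro w hw
    have h3 := hx ((qc3_E e).symm w) (by rw [mem_ovr, qc3_under', ← mem_ovr]; exact hw)
    rw [← qc3_val e, Equiv.apply_symm_apply, map_sub, map_one] at h3
    exact h3
  · intro w hw
    rw [qc3_Φ_apply, h2 _ (by rw [mem_ovr, qc3_under', ← mem_ovr]; exact hw), ← qc3_ord e,
      Equiv.apply_symm_apply]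
    rfl

theorem qc3_DvP (p : ℕ) (e : K ≃ₐ[F] K') {D : HeightOneSpectrum (𝓞 K) →₀ ℤ}
    (hD : D ∈ DvP p F K T) : qc3_Φ e D ∈ DvP p F K' T := by
  refine ⟨qc3_Dv e hD.1, fun σ hσ w => ?_⟩
  rw [qc3_Φ_apply, qc3_Φ_apply, qc3_comp]
  refine hD.2 (e.trans (σ.trans e.symm)) ?_ _
  have h1 : ∀ n : ℕ, ∀ x : K, ((e.trans (σ.trans e.symm)) ^ n) x = e.symm ((σ ^ n) (e x)) := by
    intro n
    induction n with
    | zero => intro x; simp
    | succ n ih =>
      intro x
      rw [pow_succ, pow_succ, AlgEquiv.mul_apply, AlgEquiv.mul_apply, ih]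
      simp
  ext x
  rw [h1, hσ]
  simp

theorem qc3_map {X : AddSubgroup (HeightOneSpectrum (𝓞 K) →₀ ℤ)}
    {X' : AddSubgroup (HeightOneSpectrum (𝓞 K') →₀ ℤ)} (e : K ≃ₐ[F] K')
    (h : ∀ D ∈ X, qc3_Φ e D ∈ X') (h' : ∀ D ∈ X', qc3_Φ e.symm D ∈ X) :
    X.map (qc3_Φ e).toAddMonoidHom = X' := by
  refine le_antisymm ?_ ?_
  · rintro _ ⟨D, hD, rfl⟩
    exact h D hD
  · intro D hD
    exact ⟨_, h' D hD, qc3_Φ_symm e D⟩

theorem qc3_hJ (p : ℕ) (e : K ≃ₐ[F] K') : hJ p F K S T = hJ p F K' S T := by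
  unfold hJ
  have h1 : (Dv (ovr K T)).map (qc3_Φ e).toAddMonoidHom = Dv (ovr K' T) :=
    qc3_map e (fun D hD => qc3_Dv e hD) fun D hD => qc3_Dv e.symm hD
  have h2 : (Pr (ovr K S) (ovr K T)).map (qc3_Φ e).toAddMonoidHom =
      Pr (ovr K' S) (ovr K' T) :=
    qc3_map e (fun D hD => qc3_Pr e hD) fun D hD => qc3_Pr e.symm hD
  have h3 : (DvP p F K T).map (qc3_Φ e).toAddMonoidHom = DvP p F K' T :=
    qc3_map e (fun D hD => qc3_DvP p e hD) fun D hD => qc3_DvP p e.symm hD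
  rw [← h1, ← h2, ← h3, ← AddSubgroup.map_sup, ← AddSubgroup.relIndex_comap,
    AddSubgroup.comap_map_eq_self_of_injective]
  exact (qc3_Φ e).injective

end Transport

section
variable {F H : Type} [Field F] [NumberField F] [Field H] [NumberField H] [Algebra F H]
  [IsGalois F H] {G : Type} [CommGroup G] [Fintype G] {p : ℕ} {ι : G ≃* (H ≃ₐ[F] H)}
  {S : Finset (Pl F)} {T : Finset (HeightOneSpectrum (𝓞 F))} {r : ℕ} {w : Fin r → Pl H}
  {fr : HeightOneSpectrum (𝓞 F) → G}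
theorem qc_Kf (p : ℕ) (ι : G ≃* (H ≃ₐ[F] H)) (S T : Finset (HeightOneSpectrum (𝓞 F))) :
    hJ p F (Kf ι (⊥ : Subgroup G)) S T = hJ p F H S T := by
  have h : Kf ι (⊥ : Subgroup G) = ⊤ := by
    unfold Kf
    rw [Subgroup.map_bot, IntermediateField.fixedField_bot]
  exact qc3_hJ p ((IntermediateField.equivOfEq h).trans IntermediateField.topEquiv)

theorem qc3_card (K : Type) [Field K] [NumberField K] [Algebra F K]
    (S : Finset (HeightOneSpectrum (𝓞 F))) :
    Fintype.card (InfinitePlace F) + S.card ≤ Fintype.card (PS (ovr K S)) := by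
  classical
  rw [Fintype.card_sum, Fintype.card_coe]
  refine Nat.add_le_add (Fintype.card_le_of_surjective _
    (InfinitePlace.comap_surjective (k := F) (K := K))) ?_
  refine le_trans (Finset.card_le_card (t := (ovr K S).image fun W => W.under (𝓞 F)) ?_)
    Finset.card_image_le
  intro v hv
  obtain ⟨W, hW⟩ := RSK.dn_surj (H := K) (Sum.inr v : Pl F)
  rcases W with W | W
  · exact absurd hW (by simp [dn])
  · have h4 : W.under (𝓞 F) = v := Sum.inr_injective hW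
    exact Finset.mem_image.2 ⟨W, by rw [mem_ovr, h4]; exact hv, h4⟩

theorem qc_cond (hp : p.Prime) (hG : Nat.card G = p) {S : Finset (HeightOneSpectrum (𝓞 F))}
    (hD : One ι S T r w fr) (h1 : p ∣ hA S T) (h2 : p ∣ hJ p F H S T) :
    CondP p 0 ι S T w := by
  refine ⟨Or.inr (by rw [hG, pow_zero, one_mul]; exact h1), ?_⟩
  intro N N' i _ _ hN hi _
  have h3 : N.index ∣ p := by
    rw [← hG]
    exact N.index_dvd_card
  have h4 : 0 < N.index := Nat.pos_of_ne_zero fun h => by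
    rw [h] at h3
    exact hp.ne_zero (Nat.eq_zero_of_zero_dvd h3)
  have h5 : N'.index = 1 ∧ N.index = p := by
    rcases (Nat.dvd_prime hp).1 h3 with h | h
    · rw [h] at hN
      have := Nat.eq_one_of_mul_eq_one_right hN.symm
      exact absurd this hp.one_lt.ne'
    · refine ⟨?_, h⟩
      rw [h] at hN
      exact Nat.eq_of_mul_eq_mul_left hp.pos (by rw [← hN, mul_one])
  have h6 : N = ⊥ := by
    have h7 := N.card_mul_index
    rw [hG, h5.2] at h7
    have h8 : Nat.card N = 1 := Nat.eq_of_mul_eq_mul_right hp.pos (by rw [h7, one_mul])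
    exact Subgroup.card_eq_one.1 h8
  have h7 : i = 0 := by
    have h8 : Nat.card N = 1 := by rw [h6]; exact Subgroup.card_bot
    rw [h8] at hi
    rcases Nat.eq_zero_or_pos i with h | h
    · exact h
    · exact absurd hi.symm (Nat.one_lt_pow h.ne' hp.one_lt).ne'
  refine ⟨1, ?_, ?_⟩
  · rw [pow_one, h6, qc_Kf]
    exact h2
  · rw [h5.1, h7]
    have h8 := qc3_card (F := F) (Kf ι N') S
    have h9 := hD.one
    omega
end
end Pool.Agent.PD
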