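import Pool.Agent.Lib_helper24.PD.Defs
import Pool.Agent.Lib_helper24.PD.Plain
import Pool.Agent.Lib_helper24.PD.P.QA2
import Pool.Agent.Lib_helper24.PD.P.QC1
import Pool.Agent.Lib_helper24.PD.P.QC2
import Pool.Agent.Lib_helper24.PD.P.QC3
set_option autoImplicit false
set_option linter.unusedSectionVars false
namespace Pool.Agent.PD
open Pool.Agent Pool.Agent.RSK Pool.Agent.RS2 Pool.Agent.AU
open NumberField IsDedekindDomain Filter Topology Complex
open scoped TensorProduct
section
variable {F H : Type} [Field F] [NumberField F] [Field H] [NumberField H] [Algebra F H]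
  [IsGalois F H] {G : Type} [CommGroup G] [Fintype G] {p : ℕ} {ι : G ≃* (H ≃ₐ[F] H)}
  {S : Finset (Pl F)} {T : Finset (HeightOneSpectrum (𝓞 F))} {r : ℕ} {w : Fin r → Pl H}
  {fr : HeightOneSpectrum (𝓞 F) → G}

theorem qd_exp (hp : p.Prime) (hG : Nat.card G = p) : Monoid.exponent G = p := by
  have h1 : Monoid.exponent G ∣ p := hG ▸ Group.exponent_dvd_nat_card
  rcases (Nat.dvd_prime hp).1 h1 with h | h
  · exfalso
    have h2 : Subsingleton G := Monoid.exp_eq_one_iff.1 h
    have h3 : Nat.card G = 1 := Nat.card_unique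
    exact hp.one_lt.ne' (hG.symm.trans h3)
  · exact h

theorem qd_mQ (hp : p.Prime) (hG : Nat.card G = p) : CR.mQ p G = 1 := by
  rw [RB.mQ_eq hp (e := 1) (f := 1) (by rw [pow_one]; exact hG)
    (by rw [pow_one]; exact qd_exp hp hG)]
  norm_num

theorem qd_mul {S' : Finset (HeightOneSpectrum (𝓞 F))} {q : ℕ}
    (h : StarkInt q 0 ι S' T w fr) : CRF.StarkMul q 1 ι S' T w fr := by
  intro c Θ hL hΘ M i1 i2 e l hM u hu
  rw [one_smul]
  exact h c Θ hL hΘ M i1 i2 e l hM u hu

/-- integrality at `p` for `#S ≥ r + 2`, and for `#S = r + 1` under the class number condition -/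
theorem qd_int (hp : p.Prime) (hG : Nat.card G = p) (hD : RB.Data ι S T w fr)
    (h : r + 2 ≤ S.card ∨ p ∣ clF S T ∧ p ∣ clH H S T)
    {u : (Fin r → Hˣ) →₀ MonoidAlgebra ℚ G} (hu : RB.Stark ι S T w fr u) :
    LatAt p 1 ι S T u := by
  have hGp : IsPGroup p G := IsPGroup.of_card (n := 1) (by rw [pow_one]; exact hG)
  have hD' := RB.data_of hD
  rw [qa_lat hp u]
  by_cases hS : r + 2 ≤ S.card
  · refine RB.intAt_of hD.arch (KR.starkMul_p ι S.toRight T w fr hD' hp hGp (Or.inl ?_)) hu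
    rw [← RB.card_eq S hD.arch, qd_mQ hp hG]
    omega
  · obtain ⟨h1, h2⟩ := h.resolve_left hS
    have h3 : S.card = r + 1 := by
      have := hD.card
      omega
    rw [qc_F] at h1
    rw [qc_H hp hG ι] at h2
    have h4 := qc_cond hp hG (qa_one hD h3) h1 h2
    exact RB.intAt_of hD.arch (qd_mul (AU.st_final ι S.toRight T w fr hD' hp hGp hp
      (Or.inl ⟨rfl, Or.inl h4⟩))) hu
end
end Pool.Agent.PD
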