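import Pool.Agent.Lib_helper24.PD.Defs
import Pool.Agent.Lib_helper24.PD.Plain
import Pool.Agent.Lib_helper17.HM.Fin
set_option autoImplicit false
set_option linter.unusedSectionVars false
namespace Pool.Agent.PD
open Pool.Agent Pool.Agent.RSK Pool.Agent.RS2 Pool.Agent.AU
open NumberField IsDedekindDomain Filter Topology Complex
open scoped TensorProduct
section
variable {F H : Type} [Field F] [NumberField F] [Field H] [NumberField H] [Algebra F H]
  [IsGalois F H] {G : Type} [CommGroup G] [Fintype G] {p : ℕ} {ι : G ≃* (H ≃ₐ[F] H)}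
  {S : Finset (Pl F)} {T : Finset (HeightOneSpectrum (𝓞 F))} {r : ℕ} {w : Fin r → Pl H}
  {fr : HeightOneSpectrum (𝓞 F) → G}
theorem qe_exists {F₀ L : Type} [Field F₀] [NumberField F₀] [Field L] [NumberField L] [Algebra F₀ F]
    [Algebra F₀ H] [Algebra F₀ L] [Algebra F L] [Algebra H L] [IsScalarTower F₀ F H]
    [IsScalarTower F₀ F L] [IsScalarTower F H L]
    (h : RB.SymP F₀ L ∨ RB.HolT F₀ F H ∨ RB.KumN F₀ F H ∨
      (∀ K : IntermediateField F H, K ≠ ⊥ → IsCyclic (AlgEquiv F K K) → RB.PermK F₀ F K L) ∨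
      ∀ K : IntermediateField F H, IsCyclic (AlgEquiv F K K) → RB.HolM F K)
    (hD : RB.Data ι S T w fr) : ∃ u, RB.Stark ι S T w fr u := by
  rcases h with h | h | h | h | h
  · exact RB.stark_of hD (RB.lay_of (F₀ := F₀) (L := L) ι (Or.inl h))
  · exact RB.stark_of hD (RB.lay_of (F₀ := F₀) (L := L) ι (Or.inr (Or.inl h)))
  · exact RB.stark_of hD (RB.lay_of (F₀ := F₀) (L := L) ι (Or.inr (Or.inr (Or.inl h))))
  · exact RB.stark_of hD (RB.lay_of (F₀ := F₀) (L := L) ι (Or.inr (Or.inr (Or.inr h))))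
  · exact RB.stark_of hD fun N hN _ => HM.holM_lay ι N hN (RB.holM_all ι h N hN)
end
end Pool.Agent.PD
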