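import Pool.Agent.Lib_helper24.PD.Defs
import Pool.Agent.Lib_helper17.RS.P_EG
set_option autoImplicit false
set_option linter.unusedSectionVars false
namespace Pool.Agent.PD
open Pool.Agent Pool.Agent.RSK Pool.Agent.RS2 Pool.Agent.AU
open NumberField IsDedekindDomain Filter Topology Complex
open scoped TensorProduct
section
variable {F H : Type} [Field F] [NumberField F] [Field H] [NumberField H] [Algebra F H]
  [IsGalois F H] {G : Type} [CommGroup G] [Fintype G] {p : ℕ} {ι : G ≃* (H ≃ₐ[F] H)}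
  {S T : Finset (HeightOneSpectrum (𝓞 F))} {r : ℕ} {w : Fin r → Pl H}
  {fr : HeightOneSpectrum (𝓞 F) → G}

theorem hax_of_rel (u : (⋀[MonoidAlgebra ℤ G]^r (UM ι S T)) ⊗[ℤ] ℚ) {n : ℕ}
    (c : Fin n → MonoidAlgebra ℤ G)
    (ψ : Fin n → Fin r → (UM ι S T →ₗ[MonoidAlgebra ℤ G] MonoidAlgebra ℤ G))
    (h : ∀ m : Fin r → UM ι S T, ∑ k, c k * (Matrix.of fun i j => ψ k i (m j)).det = 0) :
    ∑ k, toQ G (c k) * psiQ (ψ k) u = 0 := by
  have h1 : ∑ k, c k • detMap (ψ k) = 0 := by
    apply exteriorPower.linearMap_ext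
    refine AlternatingMap.ext fun m => ?_
    simp only [LinearMap.compAlternatingMap_apply, LinearMap.sum_apply, LinearMap.smul_apply,
      detMap_ι, LinearMap.zero_apply, smul_eq_mul]
    exact h m
  induction u using TensorProduct.induction_on with
  | zero =>
    refine Finset.sum_eq_zero fun k _ => ?_
    unfold psiQ
    rw [map_zero, mul_zero]
  | tmul n q =>
    have h2 : ∑ k, c k * detMap (ψ k) n = 0 := by
      have := congrArg (fun f => f n) h1
      simpa only [LinearMap.sum_apply, LinearMap.smul_apply, smul_eq_mul,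
        LinearMap.zero_apply] using this
    have h3 : ∀ k, toQ G (c k) * psiQ (ψ k) (n ⊗ₜ[ℤ] q) = q • toQ G (c k * detMap (ψ k) n) := by
      intro k
      unfold psiQ
      rw [extQ_tmul, map_mul, ← mul_smul_comm]
      rfl
    rw [Finset.sum_congr rfl fun k _ => h3 k, ← Finset.smul_sum, ← map_sum, h2, map_zero, smul_zero]
  | add x y hx hy =>
    have h3 : ∀ k, toQ G (c k) * psiQ (ψ k) (x + y) =
        toQ G (c k) * psiQ (ψ k) x + toQ G (c k) * psiQ (ψ k) y := by
      intro k
      unfold psiQ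
      rw [map_add, mul_add]
    rw [Finset.sum_congr rfl fun k _ => h3 k, Finset.sum_add_distrib, hx, hy, add_zero]

theorem hax_upd (ψ : Fin r → (UM ι S T →ₗ[MonoidAlgebra ℤ G] MonoidAlgebra ℤ G)) (i : Fin r)
    (x : UM ι S T →ₗ[MonoidAlgebra ℤ G] MonoidAlgebra ℤ G) (m : Fin r → UM ι S T) :
    (Matrix.of fun i' j => Function.update ψ i x i' (m j)) =
      (Matrix.of fun i' j => ψ i' (m j)).updateRow i (fun j => x (m j)) := by
  ext i' j
  by_cases h : i' = i
  · subst h
    simp [Matrix.updateRow_self]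
  · simp [Matrix.updateRow_ne h, Function.update_of_ne h]

theorem ha_add (u : (⋀[MonoidAlgebra ℤ G]^r (UM ι S T)) ⊗[ℤ] ℚ)
    (ψ : Fin r → (UM ι S T →ₗ[MonoidAlgebra ℤ G] MonoidAlgebra ℤ G)) (i : Fin r)
    (x y : UM ι S T →ₗ[MonoidAlgebra ℤ G] MonoidAlgebra ℤ G) :
    psiQ (Function.update ψ i (x + y)) u =
      psiQ (Function.update ψ i x) u + psiQ (Function.update ψ i y) u := by
  have h := hax_of_rel u (n := 3) ![1, -1, -1]
    ![Function.update ψ i (x + y), Function.update ψ i x, Function.update ψ i y] (fun m => by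
      simp only [Fin.sum_univ_three, Matrix.cons_val_zero, Matrix.cons_val_one,
        Matrix.cons_val_two, Matrix.head_cons, Matrix.tail_cons, Matrix.cons_val]
      rw [hax_upd, hax_upd, hax_upd]
      have : (fun j => (x + y) (m j)) = (fun j => x (m j)) + fun j => y (m j) := rfl
      rw [this, Matrix.det_updateRow_add]
      ring)
  simp only [Fin.sum_univ_three, Matrix.cons_val_zero, Matrix.cons_val_one,
        Matrix.cons_val_two, Matrix.head_cons, Matrix.tail_cons, Matrix.cons_val, map_one, map_neg] at h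
  linear_combination h

theorem ha_smul (u : (⋀[MonoidAlgebra ℤ G]^r (UM ι S T)) ⊗[ℤ] ℚ)
    (ψ : Fin r → (UM ι S T →ₗ[MonoidAlgebra ℤ G] MonoidAlgebra ℤ G)) (i : Fin r)
    (a : MonoidAlgebra ℤ G) (x : UM ι S T →ₗ[MonoidAlgebra ℤ G] MonoidAlgebra ℤ G) :
    psiQ (Function.update ψ i (a • x)) u = toQ G a * psiQ (Function.update ψ i x) u := by
  have h := hax_of_rel u (n := 2) ![1, -a]
    ![Function.update ψ i (a • x), Function.update ψ i x] (fun m => by
      simp only [Fin.sum_univ_two, Matrix.cons_val_zero, Matrix.cons_val_one]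
      rw [hax_upd, hax_upd]
      have : (fun j => (a • x) (m j)) = a • (fun j => x (m j)) := rfl
      rw [this, Matrix.det_updateRow_smul]
      ring)
  simp only [Fin.sum_univ_two, Matrix.cons_val_zero, Matrix.cons_val_one, map_one, map_neg] at h
  linear_combination h

theorem ha_eq (u : (⋀[MonoidAlgebra ℤ G]^r (UM ι S T)) ⊗[ℤ] ℚ)
    (ψ : Fin r → (UM ι S T →ₗ[MonoidAlgebra ℤ G] MonoidAlgebra ℤ G)) {i j : Fin r} (hij : i ≠ j)
    (h : ψ i = ψ j) : psiQ ψ u = 0 := by
  have h := hax_of_rel u (n := 1) ![1] ![ψ] (fun m => by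
      simp only [Fin.sum_univ_one, Matrix.cons_val_zero, one_mul]
      exact Matrix.det_zero_of_row_eq hij (by ext k; simp [h]))
  simpa only [Fin.sum_univ_one, Matrix.cons_val_zero, map_one, one_mul] using h

theorem ha_perm (u : (⋀[MonoidAlgebra ℤ G]^r (UM ι S T)) ⊗[ℤ] ℚ)
    (ψ : Fin r → (UM ι S T →ₗ[MonoidAlgebra ℤ G] MonoidAlgebra ℤ G)) (τ : Equiv.Perm (Fin r)) :
    psiQ (fun i => ψ (τ i)) u = psiQ ψ u ∨ psiQ (fun i => ψ (τ i)) u = -psiQ ψ u := by
  have h := hax_of_rel u (n := 2) ![1, -((Equiv.Perm.sign τ : ℤˣ) : ℤ)]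
    ![fun i => ψ (τ i), ψ] (fun m => by
      simp only [Fin.sum_univ_two, Matrix.cons_val_zero, Matrix.cons_val_one]
      have := Matrix.det_permute τ (Matrix.of fun i j => ψ i (m j))
      have h2 : (Matrix.of fun i j => ψ (τ i) (m j)) =
        (Matrix.of fun i j => ψ i (m j)).submatrix τ id := rfl
      rw [h2, this]
      simp)
  simp only [Fin.sum_univ_two, Matrix.cons_val_zero, Matrix.cons_val_one, map_one, map_neg, map_intCast] at h
  rcases Int.units_eq_one_or (Equiv.Perm.sign τ) with h1 | h1 <;> rw [h1] at h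
  · left
    push_cast at h
    linear_combination h
  · right
    push_cast at h
    linear_combination h

/-- equal values at all characters -/
theorem ha_ext {y y' : MonoidAlgebra ℚ G} (h : ∀ χ : G →* ℂˣ, evQ χ y = evQ χ y') : y = y' :=
  evQ_inj h
theorem ha_lead {c c' : (G →* ℂˣ) → ℂ} (h : Lead S T r fr c) (h' : Lead S T r fr c') : c = c' := by
  funext χ
  obtain ⟨Λ, h1, h2, h3⟩ := h χ
  obtain ⟨Λ', h1', h2', h3'⟩ := h' χ
  have h4 := mero_ext h1 h1' (fun s hs => (h2 s hs).trans (h2' s hs).symm) 0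
  refine tendsto_nhds_unique h3 (h3'.congr' ?_)
  filter_upwards [h4] with s hs
  rw [hs]
end
end Pool.Agent.PD
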