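import Pool.Agent.Lib_helper24.PD.Defs
import Pool.Agent.Lib_helper3.AU.CP
import Pool.Agent.Lib_helper3.AU.T1
import Pool.Agent.Lib_helper17.RS.P_UQ
import Pool.Agent.Lib_helper17.RS.P_NM1
set_option autoImplicit false
set_option linter.unusedSectionVars false
namespace Pool.Agent.PD
open Pool.Agent Pool.Agent.RSK Pool.Agent.RS2 Pool.Agent.AU
open NumberField IsDedekindDomain Filter Topology Complex
open scoped TensorProduct

section
variable {G : Type} [CommGroup G] [Fintype G] {p : ℕ}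

theorem hb_nP : nP (⊤ : Subgroup G) = nrm G := by
  classical
  unfold nP nrm
  have : Fintype (⊤ : Subgroup G) := Fintype.ofFinite _
  rw [finsum_eq_sum_of_fintype]
  exact Fintype.sum_equiv (Subgroup.topEquiv (G := G)).toEquiv _ _ (fun h => rfl)

theorem hb_fth (χ : G →* ℂˣ) : Fth (⊤ : Subgroup G) χ ↔ χ ≠ 1 := by
  unfold Fth
  constructor
  · rintro ⟨h, -, hh⟩ h1
    exact hh (by rw [h1]; rfl)
  · intro h
    by_contra hcon
    push Not at hcon
    exact h (MonoidHom.ext fun g => hcon g (Subgroup.mem_top g))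

theorem hb_cyc (hp : p.Prime) (hG : Nat.card G = p) : CycP p 1 (⊤ : Subgroup G) := by
  have : Fact p.Prime := ⟨hp⟩
  refine ⟨hp, one_pos, isCyclic_of_prime_card hG, by rw [hG, pow_one], ?_⟩
  rw [← hG]
  exact Nat.card_congr (Subgroup.topEquiv (G := G)).toEquiv

theorem hb_mM (M : Type) [AddCommGroup M] [Module (MonoidAlgebra ℤ G) M] :
    mM (⊤ : Subgroup G) M = mMinus G M := by
  ext u
  show nP (⊤ : Subgroup G) • u = 0 ↔ nrm G • u = 0
  rw [hb_nP]

end

section
variable {F H : Type} [Field F] [NumberField F] [Field H] [NumberField H] [Algebra F H]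
  [IsGalois F H] {G : Type} [CommGroup G] [Fintype G] {p : ℕ} {ι : G ≃* (H ≃ₐ[F] H)}
  {S T : Finset (HeightOneSpectrum (𝓞 F))} {r : ℕ} {w : Fin r → Pl H}
  {fr : HeightOneSpectrum (𝓞 F) → G}

/-- elements of the minus part with nonvanishing determinants -/
theorem hb_minus (hp : p.Prime) (hG : Nat.card G = p) (hD : Data ι S T r w fr) :
    ∃ b : Fin r → UM ι S T, (∀ j, nrm G • b j = 0) ∧
      ∀ χ : G →* ℂˣ, χ ≠ 1 → evR χ (wmat ι S T w b).det ≠ 0 := by
  classical
  have := RSK.um_finite hD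
  have := RSK.um_tf hD
  have hC := hb_cyc hp hG
  have hdiv : ∀ y : MonoidAlgebra ℚ G, (∀ χ : G →* ℂˣ, Fth ⊤ χ → evQ χ y ≠ 0) →
      ∃ z : MonoidAlgebra ℚ G, ∀ χ : G →* ℂˣ, Fth ⊤ χ → evQ χ z * evQ χ y = 1 := by
    intro y hy
    obtain ⟨z, -, hz⟩ := div_exists_nP (P := (⊤ : Subgroup G)) (1 : MonoidAlgebra ℚ G) y hy
    exact ⟨z, fun χ hχ => by rw [hz χ hχ, map_one]⟩
  have hrk : Module.finrank ℤ (mM (⊤ : Subgroup G) (UM ι S T)) =
      r * (p ^ (1 - 1) * (p - 1)) := by
    rw [hb_mM, RSK.um_rank hp hG hD]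
    simp
  obtain ⟨b, hb, hfin⟩ := bs_main hC hdiv hrk
  rw [hb_mM] at hfin
  have hb' : ∀ j, nrm G • b j = 0 := fun j => by rw [← hb_nP]; exact hb j
  refine ⟨b, hb', ?_⟩
  obtain ⟨σ, hσ⟩ := RSK.nm1_sigma hp hG
  have hidx : (mPlus G (UM ι S T) ⊔ mSpn G b).index ≠ 0 := by
    have h1 := idx_one (M := UM ι S T) hp hG hσ (RSK.um_rank hp hG hD) b hb'
    intro h0
    rw [h0, zero_mul] at h1
    rcases mul_eq_zero.1 h1.symm with h2 | h2
    · exact (pow_pos hp.pos r).ne' h2
    · exact hfin h2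
  obtain ⟨htH, hdH⟩ := RSK.tf_H hD
  have htF : TFree S T := RSK.tf_F (H := H) htH
  obtain ⟨nF, ⟨bF⟩⟩ := un_exists hD.disj htF
  obtain ⟨nH, ⟨bH⟩⟩ := un_exists hdH htH
  obtain ⟨hnF, hrF, -, -⟩ := cnf hD.disj htF bF
  obtain ⟨hnH, hrH, -, -⟩ := cnf hdH htH bH
  obtain ⟨m, hm⟩ : ∃ m, Fintype.card (PS S) = r + m + 1 := by
    have h1 := hD.card
    refine ⟨Fintype.card (PS S) - (r + 1), ?_⟩
    have h2 : Fintype.card (PS S) = Fintype.card (InfinitePlace F) + S.card := by simp [PS]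
    omega
  have h1 := reg_idx hp hG hD hσ bF bH b hb'
  have h2 := reg_HF hp hG hD hσ hm hnF (bu bF) (fun j => Subtype.prop _) b hb'
  rw [h1] at h2
  have h3 : pX (fun χ : G →* ℂˣ => evR χ (wmat ι S T w b).det) ≠ 0 := by
    intro h0
    rw [h0, norm_zero, mul_zero] at h2
    rcases mul_eq_zero.1 h2 with h4 | h4
    · exact hidx (by exact_mod_cast h4)
    · exact hrH.ne' h4
  exact pX_ne_zero.1 h3

/-- the units of `F` -/
theorem hb_plus (hD : One ι S T r w fr) :
    ∃ b : Module.Basis (Fin r) ℤ (Additive (Un S T)),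
      (∀ m : UM ι S T, ∃ (β : MonoidAlgebra ℤ G) (α : Fin r → MonoidAlgebra ℤ G),
        evZ 1 β ≠ 0 ∧ β • m = ∑ k, α k • inc ι S T (b k)) ∧
      evR 1 (wmat ι S T w (fun k => inc ι S T (b k))).det ≠ 0 := by
  classical
  have htf : TFree S T := RSK.tf_F (RSK.tf_H hD.data).1
  obtain ⟨n, ⟨b⟩⟩ := un_exists hD.data.disj htf
  obtain ⟨hn, hR, hh, Z, hZ1, hZ2, hZ3⟩ := cnf hD.data.disj htf b
  have hcardS : Fintype.card (PS S) = r + 1 := by
    rw [← hD.one]
    simp [PS]
  obtain rfl : n = r := by omega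
  refine ⟨b, fun m => ?_, ?_⟩
  · have h1 : nrm G • m ∈ mPlus G (UM ι S T) := RSK.ur_nrm_mem m
    obtain ⟨y, hy⟩ := RSK.rf2_plus _ h1
    refine ⟨nrm G, fun k => (b.repr y k) • (1 : MonoidAlgebra ℤ G), ?_, ?_⟩
    · rw [← al_evZ, px2_evQ_nrm_one]
      exact Nat.cast_ne_zero.2 Nat.card_pos.ne'
    · rw [← hy]
      conv_lhs => rw [← b.sum_repr y]
      rw [map_sum]
      refine Finset.sum_congr rfl fun k _ => ?_
      rw [map_zsmul, smul_assoc, one_smul]
  · set B : Matrix (Fin n) (Fin n) ℝ :=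
      Matrix.of fun i j => lg (dn F (w i)) (bu b j : F) with hB
    have h2 : evR 1 (wmat ι S T w (fun k => RSK.rf2_inc ι S T (b k))).det =
        (Nat.card G : ℂ) ^ n * (B.det : ℝ) := by
      have hds := Matrix.det_smul (B.map (Complex.ofRealHom : ℝ → ℂ)) (Nat.card G : ℂ)
      rw [Fintype.card_fin] at hds
      rw [AlgHom.map_det, show ((B.det : ℝ) : ℂ) = (B.map (Complex.ofRealHom : ℝ → ℂ)).det from
        Complex.ofRealHom.map_det B, ← hds]
      congr 1
      ext i k
      show evR 1 (wl ι S T (w i) (RSK.rf2_inc ι S T (b k))) = (Nat.card G : ℂ) • ((B i k : ℝ) : ℂ)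
      rw [tr1_evR]
      have h3 : ∀ γ : G, (((lg (act (ι γ) (w i)) ((RSK.rf2_inc ι S T (b k)).val : H) : ℝ) : ℂ) *
          (((1 : G →* ℂˣ) γ : ℂˣ) : ℂ)) = ((B i k : ℝ) : ℂ) := by
        intro γ
        rw [MonoidHom.one_apply, Units.val_one, mul_one]
        congr 1
        have h4 : ((RSK.rf2_inc ι S T (b k)).val : H) = algebraMap F H (bu b k : F) := rfl
        rw [h4]
        have h5 : lg (act (ι γ) (w i)) (algebraMap F H (bu b k : F)) =
            lg (w i) (algebraMap F H (bu b k : F)) := by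
          conv_lhs => rw [← (ι γ).commutes (bu b k : F)]
          exact lg_act _ _ _
        rw [h5, t1_lg (hD.data.split i)]
        rfl
      rw [Finset.sum_congr rfl fun γ _ => h3 γ, Finset.sum_const, Finset.card_univ, nsmul_eq_mul,
        Nat.card_eq_fintype_card, smul_eq_mul]
    have h3 : regS S (bu b) = |B.det| :=
      t1_reg (T := T) hD.data.mem hD.data.inj hcardS (bu b)
        (fun j => (Additive.toMul (b j) : Un S T).2)
    have hBne : B.det ≠ 0 := by
      intro h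
      rw [h, abs_zero] at h3
      exact hR.ne' h3
    show evR 1 (wmat ι S T w (fun k => RSK.rf2_inc ι S T (b k))).det ≠ 0
    rw [h2]
    exact mul_ne_zero (pow_ne_zero _ (Nat.cast_ne_zero.2 Nat.card_pos.ne'))
      (Complex.ofReal_ne_zero.2 hBne)

/-- a basis at each character -/
theorem hb_basis (hp : p.Prime) (hG : Nat.card G = p) (hD : One ι S T r w fr) (χ : G →* ℂˣ) :
    ∃ b : Fin r → UM ι S T,
      ∀ m : UM ι S T, ∃ (β : MonoidAlgebra ℤ G) (α : Fin r → MonoidAlgebra ℤ G),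
        evZ χ β ≠ 0 ∧ β • m = ∑ k, α k • b k := by
  by_cases hχ : χ = 1
  · subst hχ
    obtain ⟨b, hb, -⟩ := hb_plus hD
    exact ⟨fun k => inc ι S T (b k), hb⟩
  · obtain ⟨b, hb, hne⟩ := hb_minus hp hG hD.data
    refine ⟨b, fun m => ?_⟩
    have hmm : nrm G • (((p : ℤ) • (1 : MonoidAlgebra ℤ G) - nrm G) • m) = 0 := by
      have h1 : nrm G • m ∈ mPlus G (UM ι S T) := RSK.ur_nrm_mem m
      have h2 := RSK.ur_nrm_plus h1
      rw [sub_smul, smul_sub, smul_assoc, one_smul, h2, hG, smul_comm, sub_self]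
    obtain ⟨n, a, hn, ha⟩ := uq_tors hp hG hD.data hb hne _ hmm
    refine ⟨n • ((p : ℤ) • (1 : MonoidAlgebra ℤ G) - nrm G), a, ?_, ?_⟩
    · rw [map_zsmul, map_sub, map_zsmul, map_one, ← al_evZ, px2_evQ_nrm hχ, sub_zero,
        zsmul_eq_mul, zsmul_eq_mul, mul_one]
      have h1 : (n : ℂ) ≠ 0 := by exact_mod_cast hn
      have h2 : ((p : ℤ) : ℂ) ≠ 0 := by exact_mod_cast hp.ne_zero
      exact mul_ne_zero h1 h2
    · rw [smul_assoc]
      exact ha

theorem hb_evR_toR (χ : G →* ℂˣ) (a : MonoidAlgebra ℤ G) : evR χ (toR G a) = evZ χ a := by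
  rw [uq_ev]
  rfl

/-- in the case `#S = r + 1` the values at `u` are proportional to the determinants -/
theorem hb_star (hp : p.Prime) (hG : Nat.card G = p) (hD : One ι S T r w fr)
    {c : (G →* ℂˣ) → ℂ} {u : (⋀[MonoidAlgebra ℤ G]^r (UM ι S T)) ⊗[ℤ] ℚ}
    (hu : Val ι S T w c u) (χ : G →* ℂˣ) (x : Fin r → UM ι S T)
    (ψ : Fin r → (UM ι S T →ₗ[MonoidAlgebra ℤ G] MonoidAlgebra ℤ G)) :
    evQ χ (psiQ ψ u) * evR χ (wmat ι S T w x).det = c χ⁻¹ * evZ χ (pmat ψ x).det := by
  classical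
  obtain ⟨b, hb⟩ := hb_basis hp hG hD χ
  obtain ⟨z, hz1, hz2⟩ := ln_main w χ b hb u
  choose β α hβ hα using fun j => hb (x j)
  set At : Matrix (Fin r) (Fin r) (MonoidAlgebra ℤ G) := Matrix.of fun l j => α j l with hAt
  have e1 : pmat ψ x * Matrix.diagonal (fun j => β j) = pmat ψ b * At := by
    ext1 i j
    rw [Matrix.mul_diagonal, Matrix.mul_apply]
    have h1 := congrArg (ψ i) (hα j)
    rw [map_smul, map_sum] at h1
    simp only [map_smul, smul_eq_mul] at h1
    show ψ i (x j) * _ = ∑ l, ψ i (b l) * α j l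
    rw [mul_comm, h1]
    exact Finset.sum_congr rfl fun l _ => mul_comm _ _
  have e2 : wmat ι S T w x * Matrix.diagonal (fun j => toR G (β j)) =
      wmat ι S T w b * At.map (toR G) := by
    ext1 i j
    rw [Matrix.mul_diagonal, Matrix.mul_apply]
    have h1 := congrArg (wl ι S T (w i)) (hα j)
    rw [map_smul, map_sum] at h1
    simp only [map_smul] at h1
    show wl ι S T (w i) (x j) * _ = ∑ l, wl ι S T (w i) (b l) * toR G (α j l)
    rw [mul_comm]
    refine Eq.trans (show _ = β j • wl ι S T (w i) (x j) from rfl) ?_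
    rw [h1]
    exact Finset.sum_congr rfl fun l _ => mul_comm _ _
  have d1 := congrArg Matrix.det e1
  have d2 := congrArg Matrix.det e2
  rw [Matrix.det_mul, Matrix.det_mul, Matrix.det_diagonal] at d1 d2
  have d3 : (At.map (toR G)).det = toR G At.det := by
    rw [RingHom.map_det]
    rfl
  rw [d3] at d2
  have f1 := congrArg (fun y => evZ χ y) d1
  have f2 := congrArg (fun y => evR χ y) d2
  simp only [map_mul, map_prod, hb_evR_toR] at f1 f2
  have hN : (∏ i, evZ χ (β i)) ≠ 0 := Finset.prod_ne_zero_iff.2 fun i _ => hβ i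
  have g1 := hz1 ψ
  have g2 := hu χ
  rw [hz2] at g2
  refine mul_right_cancel₀ hN ?_
  rw [g1, ← g2]
  linear_combination (z * evZ χ (pmat ψ b).det) * f2 - (z * evR χ (wmat ι S T w b).det) * f1

theorem hb_ne (hp : p.Prime) (hG : Nat.card G = p) (hD : One ι S T r w fr) :
    ∃ x : Fin r → UM ι S T, ∀ χ : G →* ℂˣ, evR χ (wmat ι S T w x).det ≠ 0 := by
  classical
  obtain ⟨b, hb, hne⟩ := hb_minus hp hG hD.data
  obtain ⟨a, -, ha⟩ := hb_plus hD
  refine ⟨fun j => b j + inc ι S T (a j), fun χ => ?_⟩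
  by_cases hχ : χ = 1
  · subst hχ
    have h1 : evR 1 (wmat ι S T w (fun j => b j + inc ι S T (a j))).det =
        evR 1 (wmat ι S T w (fun k => inc ι S T (a k))).det := by
      rw [AlgHom.map_det, AlgHom.map_det]
      congr 1
      ext i j
      show evR 1 (wl ι S T (w i) (b j + inc ι S T (a j))) = evR 1 (wl ι S T (w i) (inc ι S T (a j)))
      have h2 : evR 1 (wl ι S T (w i) (b j)) = 0 := by
        have h3 : wl ι S T (w i) (nrm G • b j) = 0 := by rw [hb, map_zero]
        rw [map_smul] at h3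
        have h4 : toR G (nrm G) * wl ι S T (w i) (b j) = 0 := h3
        have h5 := congrArg (evR 1) h4
        rw [map_mul, map_zero, hb_evR_toR, ← al_evZ, px2_evQ_nrm_one] at h5
        exact (mul_eq_zero.1 h5).resolve_left (Nat.cast_ne_zero.2 Nat.card_pos.ne')
      rw [map_add, map_add, h2, zero_add]
    rw [h1]
    exact ha
  · have h1 : evR χ (wmat ι S T w (fun j => b j + inc ι S T (a j))).det =
        evR χ (wmat ι S T w b).det := by
      rw [AlgHom.map_det, AlgHom.map_det]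
      congr 1
      ext i j
      show evR χ (wl ι S T (w i) (b j + inc ι S T (a j))) = evR χ (wl ι S T (w i) (b j))
      have h2 : evR χ (wl ι S T (w i) (inc ι S T (a j))) = 0 := by
        have h0 : nrm G • inc ι S T (a j) = ((p : ℤ)) • inc ι S T (a j) := by
          have h := RSK.ur_nrm_plus (RSK.rf2_inc_plus (ι := ι) (S := S) (T := T) (a j))
          rw [hG] at h
          exact h
        have h3 := congrArg (wl ι S T (w i)) h0
        rw [map_smul, map_zsmul] at h3
        have h4 : toR G (nrm G) * wl ι S T (w i) (inc ι S T (a j)) =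
          (p : ℤ) • wl ι S T (w i) (inc ι S T (a j)) := h3
        have h5 := congrArg (evR χ) h4
        rw [map_mul, map_zsmul, hb_evR_toR, ← al_evZ, px2_evQ_nrm hχ, zero_mul] at h5
        have h6 : ((p : ℤ) : ℂ) * evR χ (wl ι S T (w i) (inc ι S T (a j))) = 0 := by
          rw [← zsmul_eq_mul]
          exact h5.symm
        exact (mul_eq_zero.1 h6).resolve_left (by exact_mod_cast hp.ne_zero)
      rw [map_add, map_add, h2, add_zero]
    rw [h1]
    exact hne χ hχ

end
end Pool.Agent.PD
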