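import Pool.Agent.Lib_helper24.PD.Defs
import Pool.Agent.Lib_helper24.PD.Plain
import Pool.Agent.Lib_helper24.PD.P.QA1
import Pool.Agent.Lib_helper24.PD.P.QA2
import Pool.Agent.Lib_helper24.PD.P.QD
import Pool.Agent.Lib_helper24.PD.P.HA
import Pool.Agent.Lib_helper24.PD.P.HB
set_option autoImplicit false
set_option linter.unusedSectionVars false
namespace Pool.Agent.PD
open Pool.Agent Pool.Agent.RSK Pool.Agent.RS2 Pool.Agent.AU
open NumberField IsDedekindDomain Filter Topology Complex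
open scoped TensorProduct
section
variable {F H : Type} [Field F] [NumberField F] [Field H] [NumberField H] [Algebra F H]
  [IsGalois F H] {G : Type} [CommGroup G] [Fintype G] {p : ℕ} {ι : G ≃* (H ≃ₐ[F] H)}
  {S : Finset (Pl F)} {T : Finset (HeightOneSpectrum (𝓞 F))} {r : ℕ} {w : Fin r → Pl H}
  {fr : HeightOneSpectrum (𝓞 F) → G}

theorem qf_sub (f : Fin r → Hˣ → ℝ) (u u' : (Fin r → Hˣ) →₀ MonoidAlgebra ℚ G) :
    RB.dets ι f (u - u') = RB.dets ι f u - RB.dets ι f u' := by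
  have h := RB.dets_add ι f (u - u') u'
  rw [sub_add_cancel] at h
  rw [h, add_sub_cancel_right]

theorem qf_uniq (hp : p.Prime) (hG : Nat.card G = p) (hD : RB.Data ι S T w fr)
    (h1 : S.card = r + 1) {u u' : (Fin r → Hˣ) →₀ MonoidAlgebra ℚ G}
    (hu : ∀ x ∈ u.support, ∀ i, RB.IsU S T (x i)) (hu' : ∀ x ∈ u'.support, ∀ i, RB.IsU S T (x i))
    {c c' : (G →* ℂˣ) → ℂ} (hc : RB.Lead S T r fr c) (hc' : RB.Lead S T r fr c')
    (h : ∀ χ : G →* ℂˣ, ∑ g : G,
      ((RB.dets ι (fun i x => Real.log (RB.nabs (w i) (x : H))) u).coeff g : ℂ) * χ g = c χ⁻¹)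
    (h' : ∀ χ : G →* ℂˣ, ∑ g : G,
      ((RB.dets ι (fun i x => Real.log (RB.nabs (w i) (x : H))) u').coeff g : ℂ) * χ g = c' χ⁻¹)
    (f : Fin r → Hˣ → ℤ)
    (hf : ∀ i x y, RB.IsU S T x → RB.IsU S T y → f i (x * y) = f i x + f i y) :
    RB.dets ι (fun i x => (f i x : ℝ)) u = RB.dets ι (fun i x => (f i x : ℝ)) u' := by
  classical
  have hcc : c = c' := ha_lead (RB.lead_to hc) (RB.lead_to hc')
  subst hcc
  have hOne := qa_one hD h1
  have hsup : ∀ x ∈ (u - u').support, ∀ i, RB.IsU S T (x i) := by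
    intro x hx i
    have := Finsupp.support_sub hx
    rcases Finset.mem_union.1 this with h2 | h2
    · exact hu x h2 i
    · exact hu' x h2 i
  obtain ⟨U, hval, hfψ, -⟩ := qa_lift ι S T w hsup
  have hV : Val ι S.toRight T w (fun _ => 0) U := by
    intro χ
    rw [hval χ, qf_sub]
    have e : ∀ g : G, (((RB.dets ι (fun i x => Real.log (RB.nabs (w i) (x : H))) u -
        RB.dets ι (fun i x => Real.log (RB.nabs (w i) (x : H))) u').coeff g : ℝ) : ℂ) * χ g =
        ((RB.dets ι (fun i x => Real.log (RB.nabs (w i) (x : H))) u).coeff g : ℂ) * χ g -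
        ((RB.dets ι (fun i x => Real.log (RB.nabs (w i) (x : H))) u').coeff g : ℂ) * χ g := by
      intro g
      rw [MonoidAlgebra.coeff_sub, Finsupp.sub_apply]
      push_cast
      ring
    rw [Finset.sum_congr rfl fun g _ => e g, Finset.sum_sub_distrib, h χ, h' χ, sub_self]
  obtain ⟨ψ, hψ⟩ := hfψ f hf
  obtain ⟨x, hx⟩ := hb_ne hp hG hOne
  have h0 : psiQ ψ U = 0 := by
    apply ha_ext
    intro χ
    have h2 := hb_star hp hG hOne hV χ x ψ
    rw [zero_mul] at h2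
    rw [map_zero]
    exact (mul_eq_zero.1 h2).resolve_right (hx χ)
  rw [h0, map_zero, qf_sub] at hψ
  exact sub_eq_zero.1 hψ.symm

theorem qf_exp (hp : p.Prime) (hG : Nat.card G = p) : Monoid.exponent G = p := by
  have : Fact p.Prime := ⟨hp⟩
  have hc : IsCyclic G := isCyclic_of_prime_card hG
  rw [IsCyclic.exponent_eq_card, hG]

/-- in the case of holomorph type Rubin's conjecture is true away from `p` -/
theorem qf_iff {F₀ : Type} [Field F₀] [NumberField F₀] [Algebra F₀ F] [Algebra F₀ H]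
    [IsScalarTower F₀ F H] (hp : p.Prime) (hG : Nat.card G = p)
    (hext : RB.KumN F₀ F H ∨ RB.HolT F₀ F H ∨ RB.SymP F₀ H ∨
      ∀ K : IntermediateField F H, IsCyclic (AlgEquiv F K K) → RB.HolM F K)
    (hD : RB.Data ι S T w fr) {u : (Fin r → Hˣ) →₀ MonoidAlgebra ℚ G}
    (hu : RB.Stark ι S T w fr u) : LatAt p 1 ι S T u ↔ RB.RubinOn ⊤ ι S T w fr := by
  have hku := RB.ku_two (F₀ := F₀) ι S T w fr hext hD
  rcases Nat.lt_or_ge (r + 1) S.card with hS | hS
  · refine iff_of_true (qd_int hp hG hD (Or.inl hS) hu) ?_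
    refine hku.2 p 1 1 hp (by rw [hG, pow_one]) (by rw [qf_exp hp hG, pow_one]) ?_
    simpa using hS
  have h1 : S.card = r + 1 := le_antisymm hS hD.card
  obtain ⟨hus, ⟨c, hL, hv⟩, -⟩ := hu
  constructor
  · intro hlat
    obtain ⟨c₁, u₁, hL₁, hs₁, hv₁, hi₁⟩ := hku.1
    refine ⟨c₁, u₁, hL₁, hs₁, hv₁, fun f hf a => ⟨(hi₁ f hf a).1, fun _ => ?_⟩⟩
    have hE := qf_uniq hp hG hD h1 hus hs₁ hL hL₁ hv hv₁ f hf
    obtain ⟨m, hm, hmn⟩ := hlat f hf
    have hpn := (hi₁ f hf (p : MonoidAlgebra ℤ G)).2 (by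
      rw [hG]
      exact Ideal.mem_span_singleton_self _)
    rw [map_one, one_mul, hE] at hmn
    set D := RB.dets ι (fun i x => (f i x : ℝ)) u₁ with hDdef
    have hco : IsCoprime (m : ℤ) (p : ℤ) :=
      Nat.isCoprime_iff_coprime.2 ((Nat.Prime.coprime_iff_not_dvd hp).2 hm).symm
    obtain ⟨s, t, hst⟩ := hco
    have hint : ∀ g : G, ∃ n : ℤ, D.coeff g = n := by
      intro g
      obtain ⟨n, hn⟩ := hmn g
      obtain ⟨n', hn'⟩ := hpn g
      rw [map_natCast, ← nsmul_eq_mul, MonoidAlgebra.coeff_smul, Finsupp.smul_apply,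
        nsmul_eq_mul] at hn'
      refine ⟨s * n + t * n', ?_⟩
      have h3 : ((s * m + t * p : ℤ) : ℝ) = 1 := by rw [hst]; norm_num
      push_cast at h3 ⊢
      rw [← hn, ← hn']
      linear_combination (-D.coeff g) * h3
    choose d hd using hint
    have hDd : D = toR G (∑ g : G, MonoidAlgebra.single g (d g)) := by
      ext g
      rw [hd g, map_sum]
      simp only [toR, MonoidAlgebra.mapRingHom_single]
      classical
      rw [MonoidAlgebra.coeff_sum, Finset.sum_apply']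
      simp [Finsupp.single_apply]
    intro g
    rw [hDd]
    refine ⟨(a * ∑ g : G, MonoidAlgebra.single g (d g)).coeff g, ?_⟩
    have h4 : MonoidAlgebra.mapRingHom G (Int.castRingHom ℝ) a *
        toR G (∑ g : G, MonoidAlgebra.single g (d g)) =
        toR G (a * ∑ g : G, MonoidAlgebra.single g (d g)) := by
      rw [map_mul]
      rfl
    rw [h4]
    unfold toR
    rw [MonoidAlgebra.coeff_mapRingHom]
    rfl
  · rintro ⟨c₂, u₂, hL₂, hs₂, hv₂, hi₂⟩ f hf
    have hE := qf_uniq hp hG hD h1 hus hs₂ hL hL₂ hv hv₂ f hf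
    refine ⟨1, fun h => hp.one_lt.ne' (Nat.dvd_one.1 h), fun g => ?_⟩
    obtain ⟨n, hn⟩ := (hi₂ f hf 1).2 Submodule.mem_top g
    refine ⟨n, ?_⟩
    rw [map_one, one_mul, hE, Nat.cast_one, one_mul, ← hn, map_one, one_mul]
end
end Pool.Agent.PD
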