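import Pool.Agent.Lib_helper24.PD.Defs
set_option autoImplicit false
set_option linter.unusedSectionVars false
namespace Pool.Agent.PD
open Pool.Agent Pool.Agent.RSK Pool.Agent.RS2 Pool.Agent.AU
open NumberField IsDedekindDomain Filter Topology Complex
open scoped TensorProduct

section
variable {G : Type} [CommGroup G] [Fintype G] {p : ℕ}

theorem ga_coeff (b : MonoidAlgebra ℤ G) (g : G) : (toQ G b).coeff g = (b.coeff g : ℚ) := by
  simp [toQ, MonoidAlgebra.coeff_mapRingHom]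

theorem ga_coeff_nrm (g : G) : (nrm G).coeff g = 1 := by
  classical
  unfold nrm
  rw [MonoidAlgebra.coeff_sum]
  simp [MonoidAlgebra.coeff_single, Finsupp.single_apply]

theorem ga_expand (x : MonoidAlgebra ℤ G) :
    x = ∑ g : G, MonoidAlgebra.single g (x.coeff g) := by
  classical
  ext h
  rw [MonoidAlgebra.coeff_sum]
  simp [MonoidAlgebra.coeff_single]

theorem ga_single_nrm (g : G) : MonoidAlgebra.single g (1 : ℤ) * nrm G = nrm G := by
  unfold nrm
  rw [Finset.mul_sum, ← Equiv.sum_comp (Equiv.mulLeft g) (fun x => MonoidAlgebra.single x (1 : ℤ))]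
  refine Finset.sum_congr rfl fun x _ => ?_
  rw [MonoidAlgebra.single_mul_single, one_mul, Equiv.coe_mulLeft]

theorem ga_nrm_mul (b : MonoidAlgebra ℤ G) : nrm G * b = eps b • nrm G := by
  conv_lhs => rw [ga_expand b]
  rw [Finset.mul_sum, eps, Finset.sum_smul]
  refine Finset.sum_congr rfl fun g _ => ?_
  have h : MonoidAlgebra.single g (b.coeff g) = b.coeff g • MonoidAlgebra.single g (1 : ℤ) := by
    rw [MonoidAlgebra.smul_single, smul_eq_mul, mul_one]
  rw [h, mul_smul_comm, mul_comm, ga_single_nrm]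

theorem ga_eps_nrm : eps (nrm G) = (Nat.card G : ℤ) := by
  unfold eps
  rw [Finset.sum_congr rfl fun g _ => ga_coeff_nrm g]
  simp

theorem ga_evQ_single (χ : G →* ℂˣ) (g : G) (q : ℚ) :
    evQ χ (MonoidAlgebra.single g q) = (q : ℂ) * ((χ g : ℂˣ) : ℂ) := by
  unfold evQ
  rw [MonoidAlgebra.lift_single, Algebra.smul_def]
  rfl

theorem ga_expandQ (x : MonoidAlgebra ℚ G) :
    x = ∑ g : G, MonoidAlgebra.single g (x.coeff g) := by
  classical
  ext h
  rw [MonoidAlgebra.coeff_sum]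
  simp [MonoidAlgebra.coeff_single]

theorem ga_evQ_one (x : MonoidAlgebra ℚ G) : evQ (1 : G →* ℂˣ) x = ((∑ g : G, x.coeff g : ℚ) : ℂ) := by
  conv_lhs => rw [ga_expandQ x]
  rw [map_sum]
  push_cast
  refine Finset.sum_congr rfl fun g _ => ?_
  rw [ga_evQ_single]
  simp

theorem ga_evZ_one (b : MonoidAlgebra ℤ G) : evQ (1 : G →* ℂˣ) (toQ G b) = (eps b : ℂ) := by
  rw [ga_evQ_one, eps]
  push_cast
  exact Finset.sum_congr rfl fun g _ => by rw [ga_coeff]; push_cast; rfl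

theorem ga_nrm_mulQ (y : MonoidAlgebra ℚ G) :
    toQ G (nrm G) * y = (∑ g : G, y.coeff g) • toQ G (nrm G) := by
  conv_lhs => rw [ga_expandQ y]
  rw [Finset.mul_sum, Finset.sum_smul]
  refine Finset.sum_congr rfl fun g _ => ?_
  have h : MonoidAlgebra.single g (y.coeff g) = y.coeff g • toQ G (MonoidAlgebra.single g (1 : ℤ)) := by
    simp [toQ]
  rw [h, mul_smul_comm, mul_comm, ← map_mul, ga_single_nrm]

theorem ga_evQ_nrm {χ : G →* ℂˣ} (h : χ ≠ 1) : evQ χ (toQ G (nrm G)) = 0 := by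
  obtain ⟨g, hg⟩ : ∃ g, χ g ≠ 1 := by
    by_contra h'
    push Not at h'
    exact h (MonoidHom.ext h')
  have h1 := congrArg (fun a => evQ χ (toQ G a)) (ga_single_nrm g)
  have h0 : toQ G (MonoidAlgebra.single g (1 : ℤ)) = MonoidAlgebra.single g (1 : ℚ) := by
    simp [toQ]
  simp only [map_mul] at h1
  rw [h0, ga_evQ_single] at h1
  have h2 : ((χ g : ℂ) - 1) * evQ χ (toQ G (nrm G)) = 0 := by
    push_cast at h1
    linear_combination h1
  rcases mul_eq_zero.1 h2 with h3 | h3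
  · exfalso
    apply hg
    ext
    rw [Units.val_one]
    linear_combination h3
  · exact h3

theorem ga_eps_mul (b c : MonoidAlgebra ℤ G) : eps (b * c) = eps b * eps c := by
  have h := ga_evZ_one (b * c)
  rw [map_mul, map_mul, ga_evZ_one, ga_evZ_one] at h
  exact_mod_cast h.symm

theorem ga_rep_bA (hG : Nat.card G = p) (hp0 : p ≠ 0) (a : ℤ) {y : MonoidAlgebra ℚ G} {m : ℕ}
    {k : ℤ} {b : MonoidAlgebra ℤ G} (h : Rep p y m k b) :
    (m : ℚ) • (bA p G a * y) =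
      (((k + (a - 1) * (k + eps b) : ℤ) : ℚ) / p) • toQ G (nrm G) + toQ G b := by
  have hp : (p : ℚ) ≠ 0 := by exact_mod_cast hp0
  have h1 : (m : ℚ) • (bA p G a * y) = bA p G a * ((m : ℚ) • y) := by
    rw [mul_smul_comm]
  have h2 : toQ G (nrm G) * toQ G (nrm G) = (p : ℚ) • toQ G (nrm G) := by
    rw [← map_mul, ga_nrm_mul, ga_eps_nrm, hG, map_zsmul, ← Int.cast_smul_eq_zsmul ℚ]
    norm_num
  have h3 : toQ G (nrm G) * toQ G b = (eps b : ℚ) • toQ G (nrm G) := by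
    rw [← map_mul, ga_nrm_mul, map_zsmul, ← Int.cast_smul_eq_zsmul ℚ]
  rw [h1, h, bA, add_mul, one_mul, smul_mul_assoc, mul_add, mul_smul_comm, h2, h3, smul_smul,
    smul_add, smul_smul, smul_smul, add_right_comm, ← add_assoc, ← add_smul, ← add_smul]
  congr 2
  push_cast
  field_simp
  ring

theorem ga_one (hp : p.Prime) (y : MonoidAlgebra ℚ G) :
    y ∈ Qa p G 1 ↔ ∃ (m : ℕ) (b : MonoidAlgebra ℤ G), m.Coprime p ∧ (m : ℚ) • y = toQ G b := by
  have h : bA p G 1 * y = y := by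
    unfold bA
    norm_num
  constructor
  · rintro ⟨m, b, hm, hb⟩
    rw [h] at hb
    exact ⟨m, b, hm, hb⟩
  · rintro ⟨m, b, hm, hb⟩
    refine ⟨m, b, hm, ?_⟩
    rw [h]
    exact hb

theorem ga_mul (a : ℤ) (c : MonoidAlgebra ℤ G) {y : MonoidAlgebra ℚ G} (hy : y ∈ Qa p G a) :
    toQ G c * y ∈ Qa p G a := by
  obtain ⟨m, b, hm, hb⟩ := hy
  refine ⟨m, c * b, hm, ?_⟩
  rw [mul_left_comm, ← mul_smul_comm, hb, map_mul]

theorem ga_ev (hp : p.Prime) (hG : Nat.card G = p) {y : MonoidAlgebra ℚ G} {m : ℕ} {k : ℤ}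
    {b : MonoidAlgebra ℤ G} (h : Rep p y m k b) :
    (m : ℂ) * evQ 1 y = ((k + eps b : ℤ) : ℂ) ∧
      ∀ χ : G →* ℂˣ, χ ≠ 1 → (m : ℂ) * evQ χ y = evZ χ b := by
  have hp0 : (p : ℂ) ≠ 0 := by exact_mod_cast hp.ne_zero
  have key : ∀ χ : G →* ℂˣ, (m : ℂ) * evQ χ y =
      ((k : ℂ) / p) * evQ χ (toQ G (nrm G)) + evQ χ (toQ G b) := by
    intro χ
    have h1 := congrArg (evQ χ) h
    rw [map_add, map_smul, map_smul, Algebra.smul_def, Algebra.smul_def] at h1
    have h2 : (algebraMap ℚ ℂ) (m : ℚ) = (m : ℂ) := by simp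
    have h3 : (algebraMap ℚ ℂ) ((k : ℚ) / p) = (k : ℂ) / p := by simp
    rw [h2, h3] at h1
    exact h1
  refine ⟨?_, fun χ hχ => ?_⟩
  · rw [key, ga_evZ_one, ga_evZ_one, ga_eps_nrm, hG]
    push_cast
    field_simp
  · rw [key, ga_evQ_nrm hχ, mul_zero, zero_add]
    rfl

theorem ga_iff (hp : p.Prime) (hG : Nat.card G = p) (a : ℤ) {y : MonoidAlgebra ℚ G} {m : ℕ}
    {k : ℤ} {b : MonoidAlgebra ℤ G} (hm : m.Coprime p) (h : Rep p y m k b) :
    y ∈ Qa p G a ↔ (p : ℤ) ∣ k + (a - 1) * (k + eps b) := by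
  have hp0 : (p : ℚ) ≠ 0 := by exact_mod_cast hp.ne_zero
  have h1 := ga_rep_bA hG hp.ne_zero a h
  constructor
  · rintro ⟨m', b', hm', hb'⟩
    have h2 : (m' : ℚ) • ((m : ℚ) • (bA p G a * y)) = (m : ℚ) • toQ G b' := by
      rw [smul_comm, hb']
    rw [h1] at h2
    have h3 := congrArg (fun z => MonoidAlgebra.coeff z (1 : G)) h2
    simp only [MonoidAlgebra.coeff_smul, MonoidAlgebra.coeff_add, Finsupp.smul_apply,
      Finsupp.add_apply, ga_coeff, ga_coeff_nrm, smul_eq_mul] at h3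
    have h4 : ((m' : ℤ) * (k + (a - 1) * (k + eps b)) : ℤ) =
        p * (m * b'.coeff 1 - m' * b.coeff 1) := by
      have h5 : ((m' : ℚ) * ((k + (a - 1) * (k + eps b) : ℤ) : ℚ)) =
          p * (m * b'.coeff 1 - m' * b.coeff 1) := by
        field_simp at h3
        push_cast at h3 ⊢
        linear_combination h3
      exact_mod_cast h5
    have h6 : (p : ℤ) ∣ (m' : ℤ) * (k + (a - 1) * (k + eps b)) := ⟨_, h4⟩
    refine IsCoprime.dvd_of_dvd_mul_left ?_ h6
    exact (Nat.isCoprime_iff_coprime.2 hm').symm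
  · rintro ⟨t, ht⟩
    refine ⟨m, t • nrm G + b, hm, ?_⟩
    rw [h1, ht, map_add, map_zsmul, ← Int.cast_smul_eq_zsmul ℚ]
    congr 2
    push_cast
    field_simp

theorem ga_congr (hp : p.Prime) (hG : Nat.card G = p) {a a' : ℤ} (h : (p : ℤ) ∣ a - a')
    {y : MonoidAlgebra ℚ G} (hy : R0 p y) : y ∈ Qa p G a ↔ y ∈ Qa p G a' := by
  obtain ⟨m, k, b, hm, hr⟩ := hy
  rw [ga_iff hp hG a hm hr, ga_iff hp hG a' hm hr]
  have h1 : k + (a - 1) * (k + eps b) = k + (a' - 1) * (k + eps b) + (a - a') * (k + eps b) := by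
    ring
  rw [h1]
  exact (dvd_add_left (h.mul_right _))

theorem ga_sig (hp : p.Prime) (hG : Nat.card G = p) (a : ℤ) (g : G) {y : MonoidAlgebra ℚ G}
    (hy : R0 p y) : toQ G (MonoidAlgebra.single g 1 - 1) * y ∈ Qa p G a := by
  obtain ⟨m, k, b, hm, hr⟩ := hy
  have hN : (MonoidAlgebra.single g (1 : ℤ) - 1) * nrm G = 0 := by
    rw [sub_mul, ga_single_nrm, one_mul, sub_self]
  have hr' : Rep p (toQ G (MonoidAlgebra.single g 1 - 1) * y) m 0
      ((MonoidAlgebra.single g 1 - 1) * b) := by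
    show (m : ℚ) • (toQ G (MonoidAlgebra.single g 1 - 1) * y) = _
    rw [← mul_smul_comm, hr, mul_add, mul_smul_comm, ← map_mul, ← map_mul, hN, map_zero,
      smul_zero]
    simp
  have he : eps ((MonoidAlgebra.single g 1 - 1) * b) = 0 := by
    have h1 : eps (MonoidAlgebra.single g (1 : ℤ) - 1) = 0 := by
      have h2 := congrArg eps hN
      rw [ga_eps_mul, ga_eps_nrm, hG] at h2
      have h3 : eps (0 : MonoidAlgebra ℤ G) = 0 := by simp [eps]
      rw [h3] at h2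
      rcases mul_eq_zero.1 h2 with h4 | h4
      · exact h4
      · exact absurd h4 (by exact_mod_cast hp.ne_zero)
    rw [ga_eps_mul, h1, zero_mul]
  rw [ga_iff hp hG a hm hr', he]
  simp

theorem ga_p (hp : p.Prime) (hG : Nat.card G = p) (a : ℤ) {y : MonoidAlgebra ℚ G}
    (hy : R0 p y) : toQ G (p : MonoidAlgebra ℤ G) * y ∈ Qa p G a := by
  obtain ⟨m, k, b, hm, hr⟩ := hy
  have hr' : Rep p (toQ G (p : MonoidAlgebra ℤ G) * y) m (p * k) ((p : MonoidAlgebra ℤ G) * b) := by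
    show (m : ℚ) • (toQ G (p : MonoidAlgebra ℤ G) * y) = _
    rw [← mul_smul_comm, hr, mul_add, mul_smul_comm, ← map_mul, ← map_mul, ← nsmul_eq_mul,
      map_nsmul, ← Nat.cast_smul_eq_nsmul ℚ, smul_smul]
    congr 2
    push_cast
    ring
  have he : eps ((p : MonoidAlgebra ℤ G) * b) = p * eps b := by
    rw [← nsmul_eq_mul]
    unfold eps
    rw [Finset.mul_sum]
    refine Finset.sum_congr rfl fun g _ => ?_
    rw [MonoidAlgebra.coeff_smul, Finsupp.smul_apply, nsmul_eq_mul]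
  rw [ga_iff hp hG a hm hr', he]
  exact ⟨k + (a - 1) * (k + eps b), by ring⟩

/-- if `y` is in `Qa` for `a` and `a'` and the value at the trivial character is prime to `p`, then
`a` and `a'` are congruent -/
theorem ga_uniq (hp : p.Prime) (hG : Nat.card G = p) {a a' : ℤ} {y : MonoidAlgebra ℚ G} {n : ℤ}
    (hn : evQ 1 y = (n : ℂ)) (hpn : ¬ (p : ℤ) ∣ n) (h : y ∈ Qa p G a) (h' : y ∈ Qa p G a') :
    (p : ℤ) ∣ a - a' := by
  have hp0 : (p : ℚ) ≠ 0 := by exact_mod_cast hp.ne_zero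
  obtain ⟨m, b, hm, hb⟩ := h
  obtain ⟨m', b', hm', hb'⟩ := h'
  have hs : (∑ g : G, y.coeff g) = (n : ℚ) := by
    rw [ga_evQ_one] at hn
    exact_mod_cast hn
  have e1 : ∀ a : ℤ, (bA p G a * y) = y + ((((a : ℚ) - 1) / p) * n) • toQ G (nrm G) := by
    intro a
    rw [bA, add_mul, one_mul, smul_mul_assoc, ga_nrm_mulQ, hs, smul_smul]
  have h2 : (m' : ℚ) • ((m : ℚ) • (bA p G a * y)) - (m : ℚ) • ((m' : ℚ) • (bA p G a' * y)) =
      (m' : ℚ) • toQ G b - (m : ℚ) • toQ G b' := by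
    rw [hb, hb']
  rw [e1, e1] at h2
  have h3 := congrArg (fun z => MonoidAlgebra.coeff z (1 : G)) h2
  simp only [MonoidAlgebra.coeff_smul, MonoidAlgebra.coeff_add, MonoidAlgebra.coeff_sub,
    Finsupp.smul_apply, Finsupp.sub_apply,
    Finsupp.add_apply, ga_coeff, ga_coeff_nrm, smul_eq_mul] at h3
  have h4 : ((m : ℤ) * (m' * (n * (a - a'))) : ℤ) = p * (m' * b.coeff 1 - m * b'.coeff 1) := by
    have h5 : ((m : ℚ) * (m' * (n * (a - a')))) = p * (m' * b.coeff 1 - m * b'.coeff 1) := by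
      rw [← h3]
      push_cast
      field_simp
      ring
    exact_mod_cast h5
  have h6 : (p : ℤ) ∣ (m : ℤ) * (m' * (n * (a - a'))) := ⟨_, h4⟩
  have hpi : Prime (p : ℤ) := Nat.prime_iff_prime_int.1 hp
  have c1 : ∀ {m : ℕ}, m.Coprime p → ¬ (p : ℤ) ∣ (m : ℤ) := by
    intro m hm hd
    have h7 : p ∣ m := by exact_mod_cast hd
    exact hp.one_lt.ne' (Nat.eq_one_of_dvd_coprimes hm h7 dvd_rfl)
  rcases hpi.dvd_or_dvd h6 with h7 | h7
  · exact absurd h7 (c1 hm)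
  rcases hpi.dvd_or_dvd h7 with h7 | h7
  · exact absurd h7 (c1 hm')
  rcases hpi.dvd_or_dvd h7 with h7 | h7
  · exact absurd h7 hpn
  · exact h7

end
end Pool.Agent.PD
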