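import Pool.Agent.Lib_helper24.PD.Defs
import Pool.Agent.Lib_helper17.RS.P_IB
set_option autoImplicit false
set_option linter.unusedSectionVars false
namespace Pool.Agent.PD
open Pool.Agent Pool.Agent.RSK Pool.Agent.RS2 Pool.Agent.AU
open NumberField IsDedekindDomain Filter Topology Complex
open scoped TensorProduct

section
variable {G : Type} [CommGroup G] [Fintype G] {p : ℕ}

theorem gb_frob (hp : p.Prime) (hG : Nat.card G = p) (x : MonoidAlgebra ℤ G) (s : Finset G) :
    ∃ r : MonoidAlgebra ℤ G,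
      (∑ g ∈ s, MonoidAlgebra.single g (x.coeff g)) ^ p =
        ((∑ g ∈ s, x.coeff g : ℤ) : MonoidAlgebra ℤ G) + (p : MonoidAlgebra ℤ G) * r := by
  classical
  have hfact : Fact p.Prime := ⟨hp⟩
  induction s using Finset.induction_on with
  | empty => exact ⟨0, by simp [hp.ne_zero]⟩
  | insert g s hg ih =>
    obtain ⟨r, hr⟩ := ih
    obtain ⟨q, hq⟩ := exists_add_pow_prime_eq hp (MonoidAlgebra.single g (x.coeff g))
      (∑ g ∈ s, MonoidAlgebra.single g (x.coeff g))
    have h1 : (p : ℤ) ∣ x.coeff g ^ p - x.coeff g := by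
      rw [← ZMod.intCast_zmod_eq_zero_iff_dvd, Int.cast_sub, Int.cast_pow, ZMod.pow_card, sub_self]
    obtain ⟨c, hc⟩ := h1
    have h2 : (MonoidAlgebra.single g (x.coeff g)) ^ p =
        ((x.coeff g : ℤ) : MonoidAlgebra ℤ G) + (p : MonoidAlgebra ℤ G) * (c : ℤ) := by
      rw [MonoidAlgebra.single_pow, show g ^ p = 1 by rw [← hG]; exact pow_card_eq_one',
        show x.coeff g ^ p = x.coeff g + p * c by linarith]
      have h3 : ∀ n : ℤ, MonoidAlgebra.single (1 : G) n = ((n : ℤ) : MonoidAlgebra ℤ G) := by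
        intro n
        rw [← zsmul_one n, MonoidAlgebra.one_def, MonoidAlgebra.smul_single, smul_eq_mul, mul_one]
      rw [h3]
      push_cast
      ring
    rw [Finset.sum_insert hg, hq, hr, h2, Finset.sum_insert hg]
    exact ⟨c + r + MonoidAlgebra.single g (x.coeff g) *
      (∑ g ∈ s, MonoidAlgebra.single g (x.coeff g)) * q, by push_cast; ring⟩

/-- the product of the values at the nontrivial characters modulo `p` -/
theorem gb_prod (hp : p.Prime) (hG : Nat.card G = p) (b : MonoidAlgebra ℤ G) :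
    ∃ t : ℤ, pX (fun χ => evZ χ b) = t ∧ (p : ℤ) ∣ t - eps b ^ (p - 1) := by
  classical
  have hfact : Fact p.Prime := ⟨hp⟩
  refine ⟨LinearMap.det (iaMul (iaN G (MonoidAlgebra ℤ G)) b), (ib_det_one hp hG b).symm, ?_⟩
  obtain ⟨r, hr⟩ := gb_frob hp hG b Finset.univ
  rw [← ib_expand b] at hr
  set B := ibBasis hp hG with hB
  let f : MonoidAlgebra ℤ G →+* Matrix {g : G // g ≠ 1} {g : G // g ≠ 1} ℤ :=
    ((LinearMap.toMatrixAlgEquiv B : _ ≃ₐ[ℤ] _) : _ →+* _).comp (iaMul (iaN G (MonoidAlgebra ℤ G)))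
  have hf : ∀ x, f x = LinearMap.toMatrix B B (iaMul (iaN G (MonoidAlgebra ℤ G)) x) := fun x => rfl
  let φ : Matrix {g : G // g ≠ 1} {g : G // g ≠ 1} ℤ →+*
      Matrix {g : G // g ≠ 1} {g : G // g ≠ 1} (ZMod p) := (Int.castRingHom (ZMod p)).mapMatrix
  have h1 : (φ (f b)) ^ p = ((eps b : ZMod p)) • 1 := by
    rw [← map_pow, ← map_pow, hr, map_add, map_add, map_mul, map_mul, map_natCast, map_natCast,
      map_intCast, map_intCast]
    have h0 : ((p : ℕ) : Matrix {g : G // g ≠ 1} {g : G // g ≠ 1} (ZMod p)) = 0 := by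
      rw [← nsmul_one, ← Nat.cast_smul_eq_nsmul (ZMod p), ZMod.natCast_self, zero_smul]
    rw [h0, zero_mul, add_zero]
    show ((eps b : ℤ) : Matrix {g : G // g ≠ 1} {g : G // g ≠ 1} (ZMod p)) = _
    rw [← zsmul_one, ← Int.cast_smul_eq_zsmul (ZMod p)]
  have h2 := congrArg Matrix.det h1
  rw [Matrix.det_pow, ZMod.pow_card, Matrix.det_smul, Matrix.det_one, mul_one] at h2
  have h3 : (φ (f b)).det = (((f b).det : ℤ) : ZMod p) := ((Int.castRingHom (ZMod p)).map_det (f b)).symm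
  have h4 : Fintype.card {g : G // g ≠ 1} = p - 1 := by
    rw [Fintype.card_subtype_compl, ← Nat.card_eq_fintype_card, hG]
    simp
  rw [h3, h4, hf, LinearMap.det_toMatrix] at h2
  rw [← ZMod.intCast_zmod_eq_zero_iff_dvd, Int.cast_sub, Int.cast_pow, h2, sub_self]

theorem gb_toQ_coeff (b : MonoidAlgebra ℤ G) (g : G) : (toQ G b).coeff g = (b.coeff g : ℚ) := by
  unfold toQ
  simp

theorem gb_toQ_inj : Function.Injective (toQ G) := by
  intro a b h
  ext g
  have := congrArg (fun z : MonoidAlgebra ℚ G => z.coeff g) h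
  simp only [gb_toQ_coeff] at this
  exact_mod_cast this

theorem gb_const (hp : p.Prime) (hG : Nat.card G = p) {g : G} (hg : g ≠ 1)
    (z : MonoidAlgebra ℚ G) (hz : toQ G (MonoidAlgebra.single g 1 - 1) * z = 0) :
    ∃ c : ℚ, z = c • toQ G (nrm G) := by
  classical
  have hfact : Fact p.Prime := ⟨hp⟩
  have h1 : MonoidAlgebra.single g (1 : ℚ) * z = z := by
    have h2 : toQ G (MonoidAlgebra.single g 1 - 1) = MonoidAlgebra.single g (1 : ℚ) - 1 := by
      rw [map_sub, map_one]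
      simp [toQ]
    rw [h2, sub_mul, one_mul, sub_eq_zero] at hz
    exact hz
  have h3 : ∀ n : ℕ, MonoidAlgebra.single (g ^ n) (1 : ℚ) * z = z := by
    intro n
    induction n with
    | zero => rw [pow_zero, ← MonoidAlgebra.one_def, one_mul]
    | succ n ih =>
      rw [pow_succ, show MonoidAlgebra.single (g ^ n * g) (1 : ℚ) =
        MonoidAlgebra.single (g ^ n) 1 * MonoidAlgebra.single g 1 by
          rw [MonoidAlgebra.single_mul_single, mul_one], mul_assoc, h1, ih]
  have h4 : ∀ h : G, z.coeff h = z.coeff 1 := by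
    intro h
    obtain ⟨n, rfl⟩ : h ∈ Submonoid.powers g := mem_powers_of_prime_card hG hg
    have h5 := congrArg (fun w : MonoidAlgebra ℚ G => w.coeff (g ^ n)) (h3 n)
    have h6 : (MonoidAlgebra.single (g ^ n) (1 : ℚ) * z).coeff (g ^ n) = z.coeff 1 := by
      rw [MonoidAlgebra.coeff_single_mul_apply]
      simp
    exact h5.symm.trans h6
  refine ⟨z.coeff 1, ?_⟩
  ext h
  rw [h4 h, MonoidAlgebra.coeff_smul_apply, gb_toQ_coeff]
  have h6 : (nrm G).coeff h = 1 := by
    unfold nrm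
    rw [MonoidAlgebra.coeff_sum]
    simp [MonoidAlgebra.coeff_single, Finsupp.single_apply]
  rw [h6]
  simp

theorem gb_ev_toQ (b : MonoidAlgebra ℤ G) : evQ (1 : G →* ℂˣ) (toQ G b) = (eps b : ℂ) := by
  have h := ib_ev (1 : G →* ℂˣ) b
  show evZ 1 b = _
  rw [h]
  unfold eps
  simp

/-- `(g - 1) y` is integral at `p` for all `g`, integral augmentation: `y ∈ ℤ_(p)[G] + (1/p) ℤ_(p) N` -/
theorem gb_R0 (hp : p.Prime) (hG : Nat.card G = p) (y : MonoidAlgebra ℚ G)
    (h1 : ∀ g : G, ∃ (m : ℕ) (d : MonoidAlgebra ℤ G), m.Coprime p ∧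
      (m : ℚ) • (toQ G (MonoidAlgebra.single g 1 - 1) * y) = toQ G d)
    (h2 : ∃ n : ℤ, evQ 1 y = n) : R0 p y := by
  classical
  have hfact : Fact p.Prime := ⟨hp⟩
  obtain ⟨g, hg⟩ : ∃ g : G, g ≠ 1 := by
    have : Nontrivial G := by
      rw [← Finite.one_lt_card_iff_nontrivial, hG]
      exact hp.one_lt
    exact exists_ne 1
  obtain ⟨m, d, hm, hd⟩ := h1 g
  obtain ⟨n, hn⟩ := h2
  have h3 : nrm G * d = 0 := by
    apply gb_toQ_inj
    rw [map_mul, ← hd, map_zero, mul_smul_comm, ← mul_assoc, ← map_mul, ib_nrm_sub hp hG hg,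
      map_zero, zero_mul, smul_zero]
  obtain ⟨b, hb⟩ := ib_dvd hp hG hg h3
  obtain ⟨c, hc⟩ := gb_const hp hG hg ((m : ℚ) • y - toQ G b) (by
    rw [mul_sub, mul_smul_comm, hd, hb, map_mul, sub_self])
  have h4 := congrArg (evQ (1 : G →* ℂˣ)) hc
  have h5 : eps (nrm G) = p := by
    have h6 : ∀ h : G, (nrm G).coeff h = 1 := by
      intro h
      unfold nrm
      rw [MonoidAlgebra.coeff_sum]
      simp [MonoidAlgebra.coeff_single, Finsupp.single_apply]
    unfold eps
    rw [Finset.sum_congr rfl fun h _ => h6 h]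
    simp [← Nat.card_eq_fintype_card, hG]
  rw [map_sub, map_smul, map_smul, gb_ev_toQ, gb_ev_toQ, hn, h5] at h4
  have h6 : ((m : ℚ) * n - eps b) = c * p := by
    have h7 : (((m : ℚ) * n - eps b : ℚ) : ℂ) = ((c * p : ℚ) : ℂ) := by
      push_cast
      rw [Algebra.smul_def, Algebra.smul_def] at h4
      simpa using h4
    exact_mod_cast h7
  have hp0 : (p : ℚ) ≠ 0 := by exact_mod_cast hp.ne_zero
  refine ⟨m, m * n - eps b, b, hm, ?_⟩
  show (m : ℚ) • y = _
  have h8 : (((m * n - eps b : ℤ) : ℚ) / p) = c := by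
    push_cast
    rw [h6]
    field_simp
  rw [h8, ← hc]
  abel
end
end Pool.Agent.PD
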