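import Pool.Agent.Lib_helper24.PD.Defs
set_option autoImplicit false
set_option linter.unusedSectionVars false
namespace Pool.Agent.PD
open Pool.Agent Pool.Agent.RSK Pool.Agent.RS2 Pool.Agent.AU
open NumberField IsDedekindDomain Filter Topology Complex
open scoped TensorProduct

theorem gc_zero {L V : Type} [AddCommGroup L] [AddCommGroup V] {r : ℕ} (Z : (Fin r → L) → V)
    (hadd : ∀ (ψ : Fin r → L) (i : Fin r) (x y : L), Z (Function.update ψ i (x + y)) =
      Z (Function.update ψ i x) + Z (Function.update ψ i y))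
    (ψ : Fin r → L) (i : Fin r) : Z (Function.update ψ i 0) = 0 := by
  have h := hadd ψ i 0 0
  rw [add_zero] at h
  exact left_eq_add.1 h

theorem gc_neg {L V : Type} [AddCommGroup L] [AddCommGroup V] {r : ℕ} (Z : (Fin r → L) → V)
    (hadd : ∀ (ψ : Fin r → L) (i : Fin r) (x y : L), Z (Function.update ψ i (x + y)) =
      Z (Function.update ψ i x) + Z (Function.update ψ i y))
    (ψ : Fin r → L) (i : Fin r) (x : L) :
    Z (Function.update ψ i (-x)) = -Z (Function.update ψ i x) := by
  have h := hadd ψ i x (-x)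
  rw [add_neg_cancel, gc_zero Z hadd] at h
  exact eq_neg_of_add_eq_zero_right h.symm

theorem gc_aux {L V : Type} [AddCommGroup L] [AddCommGroup V] {r : ℕ} (Z : (Fin r → L) → V)
    (hadd : ∀ (ψ : Fin r → L) (i : Fin r) (x y : L), Z (Function.update ψ i (x + y)) =
      Z (Function.update ψ i x) + Z (Function.update ψ i y))
    (Q : AddSubgroup V) (B : Set L) (hB : AddSubgroup.closure B = ⊤)
    (h : ∀ ψ : Fin r → L, (∀ i, ψ i ∈ B) → Z ψ ∈ Q) (n : ℕ) :
    n ≤ r → ∀ ψ : Fin r → L, (∀ i : Fin r, n ≤ (i : ℕ) → ψ i ∈ B) → Z ψ ∈ Q := by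
  induction n with
  | zero => exact fun _ ψ hψ => h ψ fun i => hψ i (Nat.zero_le _)
  | succ n ih =>
    intro hn ψ hψ
    have hnr : n < r := by omega
    have key : ∀ x : L, Z (Function.update ψ ⟨n, hnr⟩ x) ∈ Q := by
      intro x
      have hx : x ∈ AddSubgroup.closure B := by rw [hB]; trivial
      refine AddSubgroup.closure_induction
        (p := fun x _ => Z (Function.update ψ ⟨n, hnr⟩ x) ∈ Q) ?_ ?_ ?_ ?_ hx
      · intro y hy
        refine ih (by omega) _ fun i hi => ?_
        by_cases hin : i = ⟨n, hnr⟩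
        · rw [hin, Function.update_self]
          exact hy
        · rw [Function.update_of_ne hin]
          apply hψ
          have : (i : ℕ) ≠ n := fun h0 => hin (Fin.ext h0)
          omega
      · show Z (Function.update ψ ⟨n, hnr⟩ 0) ∈ Q
        rw [gc_zero Z hadd]
        exact Q.zero_mem
      · intro y z _ _ hy hz
        show Z (Function.update ψ ⟨n, hnr⟩ (y + z)) ∈ Q
        rw [hadd]
        exact Q.add_mem hy hz
      · intro y _ hy
        show Z (Function.update ψ ⟨n, hnr⟩ (-y)) ∈ Q
        rw [gc_neg Z hadd]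
        exact Q.neg_mem hy
    have h1 := key (ψ ⟨n, hnr⟩)
    rwa [Function.update_eq_self] at h1

/-- a multilinear map which maps all tuples of generators into a subgroup -/
theorem gc_span {L V : Type} [AddCommGroup L] [AddCommGroup V] {r : ℕ} (Z : (Fin r → L) → V)
    (hadd : ∀ (ψ : Fin r → L) (i : Fin r) (x y : L), Z (Function.update ψ i (x + y)) =
      Z (Function.update ψ i x) + Z (Function.update ψ i y))
    (Q : AddSubgroup V) (B : Set L) (hB : AddSubgroup.closure B = ⊤)
    (h : ∀ ψ : Fin r → L, (∀ i, ψ i ∈ B) → Z ψ ∈ Q) (ψ : Fin r → L) : Z ψ ∈ Q :=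
  gc_aux Z hadd Q B hB h r le_rfl ψ fun i hi => absurd i.2 (by omega)
end Pool.Agent.PD
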