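import Pool.Agent.Lib_helper24.PD.Defs
import Pool.Agent.Lib_helper24.PD.P.HB
import Pool.Agent.Lib_helper17.RS.P_AB
import Pool.Agent.Lib_helper17.RS.P_AD2
import Pool.Agent.Lib_helper17.RS.P_RF1
import Pool.Agent.Lib_helper17.RS.P_RF2
import Pool.Agent.Lib_helper17.RS.P_UQ
set_option autoImplicit false
set_option linter.unusedSectionVars false
namespace Pool.Agent.PD
open Pool.Agent Pool.Agent.RSK Pool.Agent.RS2 Pool.Agent.AU
open NumberField IsDedekindDomain Filter Topology Complex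
open scoped TensorProduct
section
variable {F H : Type} [Field F] [NumberField F] [Field H] [NumberField H] [Algebra F H]
  [IsGalois F H] {G : Type} [CommGroup G] [Fintype G] {p : ℕ} {ι : G ≃* (H ≃ₐ[F] H)}
  {S T : Finset (HeightOneSpectrum (𝓞 F))} {r : ℕ} {w : Fin r → Pl H}
  {fr : HeightOneSpectrum (𝓞 F) → G}

/-- the matrix of the logarithms at the split places -/
noncomputable def hc_L (w : Fin r → Pl H) (b : Module.Basis (Fin r) ℤ (Additive (Un S T))) :
    Matrix (Fin r) (Fin r) ℝ :=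
  Matrix.of fun i j => lg (dn F (w i)) ((bu b j : Fˣ) : F)

theorem hc_wm (hp : p.Prime) (hG : Nat.card G = p) (hD : Data ι S T r w fr)
    (b : Module.Basis (Fin r) ℤ (Additive (Un S T))) :
    evR (1 : G →* ℂˣ) (wmat ι S T w (fun j => inc ι S T (b j))).det =
      (p : ℂ) ^ r * (((hc_L w b).det : ℝ) : ℂ) := by
  obtain ⟨m', eH, eF, h1, h2, h3, h4, h5, h6⟩ := places_HF hp hG hD
  rw [RSK.rf1_ev]
  have hc : Fintype.card G = p := by rw [← hG, Nat.card_eq_fintype_card]
  have e : (Matrix.of fun i j : Fin r => ∑ γ : G, ((lg (act (ι γ) (w i))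
      ((inc ι S T (b j)).val : H) : ℝ) : ℂ) * (((1 : G →* ℂˣ) γ : ℂˣ) : ℂ)) =
      (p : ℂ) • (hc_L w b).map (Complex.ofRealHom : ℝ →+* ℂ) := by
    ext i j
    rw [Matrix.of_apply, Matrix.smul_apply, Matrix.map_apply, smul_eq_mul]
    have e2 : ∀ γ : G, ((lg (act (ι γ) (w i)) ((inc ι S T (b j)).val : H) : ℝ) : ℂ) *
        (((1 : G →* ℂˣ) γ : ℂˣ) : ℂ) = ((lg (dn F (w i)) ((bu b j : Fˣ) : F) : ℝ) : ℂ) := by
      intro γ
      have e3 : ((inc ι S T (b j)).val : H) = algebraMap F H ((bu b j : Fˣ) : F) := rfl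
      rw [e3, h5, MonoidHom.one_apply, Units.val_one, mul_one]
    rw [Finset.sum_congr rfl fun γ _ => e2 γ, Finset.sum_const, Finset.card_univ, hc,
      nsmul_eq_mul]
    rfl
  rw [e, Matrix.det_smul, Fintype.card_fin]
  congr 1
  exact (RingHom.map_det Complex.ofRealHom (hc_L w b)).symm

/-- an invariant element of the group ring is a multiple of the norm element -/
theorem hc_inv {a : MonoidAlgebra ℤ G} (h : ∀ g : G, MonoidAlgebra.single g (1 : ℤ) * a = a) :
    a = (a.coeff 1) • nrm G := by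
  have key : ∀ g, a.coeff g = a.coeff 1 := by
    intro g
    have h1 := congrArg (fun y : MonoidAlgebra ℤ G => y.coeff g) (h g)
    beta_reduce at h1
    rw [MonoidAlgebra.coeff_single_mul_apply, one_mul, inv_mul_cancel] at h1
    exact h1.symm
  ext g
  classical
  rw [key g, nrm, MonoidAlgebra.coeff_smul_apply, MonoidAlgebra.coeff_sum, Finsupp.finsetSum_apply]
  simp only [MonoidAlgebra.coeff_single, Finsupp.single_apply]
  simp

theorem hc_pm (hG : Nat.card G = p) (b : Module.Basis (Fin r) ℤ (Additive (Un S T)))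
    (ψ : Fin r → (UM ι S T →ₗ[MonoidAlgebra ℤ G] MonoidAlgebra ℤ G)) :
    evZ (1 : G →* ℂˣ) (pmat ψ (fun j => inc ι S T (b j))).det = (p : ℂ) ^ r *
      ((Matrix.det (Matrix.of fun i j => (ψ i (inc ι S T (b j))).coeff 1) : ℤ) : ℂ) := by
  rw [RingHom.map_det]
  have e : (evZ (1 : G →* ℂˣ)).mapMatrix (pmat ψ (fun j => inc ι S T (b j))) =
      (p : ℂ) • (Matrix.of fun i j => (ψ i (inc ι S T (b j))).coeff 1).map
        (Int.castRingHom ℂ) := by
    ext i j
    rw [RingHom.mapMatrix_apply, Matrix.map_apply, Matrix.smul_apply, Matrix.map_apply,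
      Matrix.of_apply, smul_eq_mul, pmat, Matrix.of_apply]
    have h1 : ∀ g : G, MonoidAlgebra.single g (1 : ℤ) * ψ i (inc ι S T (b j)) =
        ψ i (inc ι S T (b j)) := by
      intro g
      rw [← smul_eq_mul, ← map_smul]
      congr 1
      exact RSK.rf2_inc_plus (b j) g
    have h2 := hc_inv h1
    rw [ab_evZ_one]
    conv_lhs => rw [h2]
    rw [map_zsmul, ab_eps_nrm hG]
    simp [mul_comm]
  rw [e, Matrix.det_smul, Fintype.card_fin]
  congr 1
  exact (RingHom.map_det (Int.castRingHom ℂ) _).symm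

theorem hc_reg (hp : p.Prime) (hG : Nat.card G = p) (hD : One ι S T r w fr)
    (b : Module.Basis (Fin r) ℤ (Additive (Un S T))) :
    regS S (bu b) = |(hc_L w b).det| := by
  classical
  obtain ⟨m, eH, eF, h1, h2, h3, h4, h5, h6⟩ := places_HF hp hG hD.data
  have hcF : Fintype.card (PS S) = r + m := by
    rw [← Fintype.card_congr eF, Fintype.card_sum, Fintype.card_fin, Fintype.card_fin]
  have hc1 : Fintype.card (PS S) = r + 1 := by
    rw [← hD.one]
    show Fintype.card (InfinitePlace F ⊕ S) = _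
    rw [Fintype.card_sum, Fintype.card_coe]
  have hm : m = 1 := by omega
  subst hm
  set i₀ : PS S := eF (Sum.inr 0) with hi₀
  have key := adet_minor (P := PS S) (Q := Fin r)
    (fun P j => lg P.pl ((bu b j : Fˣ) : F))
    (fun j => sum_lg ((Additive.toMul (b j) : Un S T).2)) (by rw [Fintype.card_fin, hc1]) i₀
  have e1 : adet (fun (i : PS S) (j : Option (Fin r)) =>
      j.elim (1 : ℝ) (fun j => lg i.pl ((bu b j : Fˣ) : F))) = adet (lmat S (bu b)) := by
    congr 1
    funext i j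
    rcases j with _ | j <;> rfl
  have hbij : Function.Bijective (fun i : Fin r => (⟨eF (Sum.inl i), fun h => by
      have h7 := eF.injective (h.trans hi₀)
      cases h7⟩ : {i : PS S // i ≠ i₀})) := by
    constructor
    · intro i j hij
      have h7 := congrArg Subtype.val hij
      exact Sum.inl_injective (eF.injective h7)
    · rintro ⟨x, hx⟩
      obtain ⟨y, rfl⟩ := eF.surjective x
      rcases y with y | y
      · exact ⟨y, rfl⟩
      · exfalso
        apply hx
        rw [hi₀, Subsingleton.elim y 0]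
  have e2 := adet_eq (fun (i : {i : PS S // i ≠ i₀}) (j : Fin r) =>
    lg i.1.pl ((bu b j : Fˣ) : F)) (Equiv.ofBijective _ hbij)
  have e3 : (Matrix.of fun i j : Fin r => lg ((Equiv.ofBijective _ hbij i).1).pl
      ((bu b j : Fˣ) : F)) = hc_L w b := by
    ext i j
    show lg (eF (Sum.inl i)).pl ((bu b j : Fˣ) : F) = lg (dn F (w i)) ((bu b j : Fˣ) : F)
    rw [h2]
  rw [e3] at e2
  have hpos : (0 : ℝ) < Fintype.card (PS S) := by
    rw [hc1]
    positivity
  rw [regS, ← e1, ← e2, div_eq_iff hpos.ne']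
  exact key.symm

theorem hc_lst (fr : HeightOneSpectrum (𝓞 F) → G) (s : ℂ) :
    LST S T fr (1 : G →* ℂˣ) s = zST S T s := by
  unfold LST zST
  simp

/-- the exact value at the trivial character -/
theorem hc_one (hp : p.Prime) (hG : Nat.card G = p) (hD : One ι S T r w fr)
    {u : (⋀[MonoidAlgebra ℤ G]^r (UM ι S T)) ⊗[ℤ] ℚ} (hu : Stk ι S T w fr u)
    (b : Module.Basis (Fin r) ℤ (Additive (Un S T))) :
    ∃ s : ℤ, (s = 1 ∨ s = -1) ∧ ∀ ψ : Fin r → (UM ι S T →ₗ[MonoidAlgebra ℤ G] MonoidAlgebra ℤ G),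
      evQ 1 (psiQ ψ u) = ((s * (hA S T : ℤ) *
        Matrix.det (Matrix.of fun i j => (ψ i (inc ι S T (b j))).coeff 1) : ℤ) : ℂ) := by
  obtain ⟨c, hL, hV⟩ := hu
  obtain ⟨Λ, l1, l2, l3⟩ := hL 1
  obtain ⟨-, hpos, -, Z, z1, z2, z3⟩ := cnf hD.data.disj (RSK.tf_F (RSK.tf_H hD.data).1) b
  have h4 := mero_ext l1 z1 (fun s hs => by rw [l2 s hs, z2 s hs, hc_lst]) 0
  have hc : c 1 = (-1) ^ (T.card + 1) * ((hA S T * regS S (bu b) : ℝ) : ℂ) := by
    refine tendsto_nhds_unique l3 (z3.congr' ?_)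
    filter_upwards [h4] with s hs
    rw [hs]
  have hreg := hc_reg hp hG hD b
  rw [hreg] at hc hpos
  have hL0 : (hc_L w b).det ≠ 0 := abs_pos.1 hpos
  have hL0' : (((hc_L w b).det : ℝ) : ℂ) ≠ 0 := by exact_mod_cast hL0
  have hp0 : (p : ℂ) ^ r ≠ 0 := pow_ne_zero _ (by exact_mod_cast hp.ne_zero)
  obtain ⟨t, ht, ht'⟩ : ∃ t : ℤ, (t = 1 ∨ t = -1) ∧ |(hc_L w b).det| = t * (hc_L w b).det := by
    rcases abs_choice (hc_L w b).det with h | h
    · exact ⟨1, Or.inl rfl, by rw [h]; simp⟩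
    · exact ⟨-1, Or.inr rfl, by rw [h]; simp⟩
  refine ⟨(-1) ^ (T.card + 1) * t, ?_, ?_⟩
  · rcases neg_one_pow_eq_or ℤ (T.card + 1) with h | h <;> rcases ht with h' | h' <;>
      rw [h, h'] <;> simp
  · intro ψ
    have hs := hb_star hp hG hD hV 1 (fun j => inc ι S T (b j)) ψ
    have hinv : ((1 : G →* ℂˣ)⁻¹) = 1 := by
      ext g
      simp
    rw [hc_wm hp hG hD.data, hc_pm hG, hinv, hc, ht'] at hs
    push_cast at hs ⊢
    have h5 : evQ (1 : G →* ℂˣ) (psiQ ψ u) * ((p : ℂ) ^ r * (((hc_L w b).det : ℝ) : ℂ)) =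
        ((-1) ^ (T.card + 1) * (t : ℂ) * (hA S T : ℂ) *
          ((Matrix.det (Matrix.of fun i j => (ψ i (inc ι S T (b j))).coeff 1) : ℤ) : ℂ)) *
          ((p : ℂ) ^ r * (((hc_L w b).det : ℝ) : ℂ)) := by
      push_cast
      rw [hs]
      ring
    have h6 := mul_right_cancel₀ (mul_ne_zero hp0 hL0') h5
    rw [h6]
    try push_cast
    try rfl

end
end Pool.Agent.PD
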