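import Pool.Agent.Lib_helper24.PD.Defs
import Pool.Agent.Lib_helper24.PD.P.HB
import Pool.Agent.Lib_helper17.RS.P_NM1
import Pool.Agent.Lib_helper17.RS.P_RA
import Pool.Agent.Lib_helper17.RS.P_AC
set_option autoImplicit false
set_option linter.unusedSectionVars false
namespace Pool.Agent.PD
open Pool.Agent Pool.Agent.RSK Pool.Agent.RS2 Pool.Agent.AU
open NumberField IsDedekindDomain Filter Topology Complex
open scoped TensorProduct
section
variable {F H : Type} [Field F] [NumberField F] [Field H] [NumberField H] [Algebra F H]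
  [IsGalois F H] {G : Type} [CommGroup G] [Fintype G] {p : ℕ} {ι : G ≃* (H ≃ₐ[F] H)}
  {S T : Finset (HeightOneSpectrum (𝓞 F))} {r : ℕ} {w : Fin r → Pl H}
  {fr : HeightOneSpectrum (𝓞 F) → G}

theorem hd_wmat (a : MonoidAlgebra ℤ G) (x : Fin r → UM ι S T) :
    (wmat ι S T w (fun j => a • x j)).det = toR G a ^ r * (wmat ι S T w x).det := by
  have h : wmat ι S T w (fun j => a • x j) = toR G a • wmat ι S T w x := by
    ext1 i j
    show wl ι S T (w i) (a • x j) = toR G a * wl ι S T (w i) (x j)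
    rw [map_smul]
    rfl
  rw [h, Matrix.det_smul, Fintype.card_fin]

theorem hd_sing (χ : G →* ℂˣ) (g : G) :
    evZ χ (MonoidAlgebra.single g 1 - 1) = ((χ g : ℂˣ) : ℂ) - 1 := by
  rw [map_sub, map_one, er_sing]

theorem hd_pX (hp : p.Prime) (hG : Nat.card G = p) {σ : G} (hσ : σ ≠ 1) :
    ‖pX (fun χ => evZ χ (MonoidAlgebra.single σ 1 - 1))‖ = p := by
  classical
  obtain ⟨e⟩ := ra_ch hG
  rw [ra_pX e]
  have h1 := (ra_vals hp hG hσ e).2
  have h2 : ∏ a : Fin (p - 1), evZ (e a).1 (MonoidAlgebra.single σ 1 - 1) =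
      ∏ a : Fin (p - 1), -(1 - (((e a).1 σ : ℂˣ) : ℂ)) := by
    refine Finset.prod_congr rfl fun a _ => ?_
    rw [hd_sing]
    ring
  rw [h2, norm_prod]
  simp only [norm_neg]
  rw [← norm_prod, h1]
  simp

/-- the exact norm formula, `z = (σ - 1)^r`-part removed -/
theorem hd_norm (hp : p.Prime) (hG : Nat.card G = p) (hD : One ι S T r w fr) {σ : G} (hσ : σ ≠ 1)
    {u : (⋀[MonoidAlgebra ℤ G]^r (UM ι S T)) ⊗[ℤ] ℚ} (hu : Stk ι S T w fr u)
    (x : Fin r → UM ι S T)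
    (ψ : Fin r → (UM ι S T →ₗ[MonoidAlgebra ℤ G] MonoidAlgebra ℤ G))
    (hx : ∀ χ : G →* ℂˣ, χ ≠ 1 → evZ χ (pmat ψ x).det ≠ 0) :
    ∃ k : ℕ, ‖pX (fun χ => evQ χ (psiQ ψ u))‖ * (hA S T * k : ℕ) =
      (hA (ovr H S) (ovr H T) * (mSub (UM ι S T) σ).relIndex (mMinus G (UM ι S T)) : ℕ) *
        ‖pX (fun χ => evZ χ (pmat ψ x).det)‖ := by
  classical
  obtain ⟨c, hL, hV⟩ := hu
  have := RSK.um_finite hD.data
  have := RSK.um_tf hD.data
  set s : MonoidAlgebra ℤ G := MonoidAlgebra.single σ 1 - 1 with hs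
  have hs0 : ∀ χ : G →* ℂˣ, χ ≠ 1 → evZ χ s ≠ 0 := by
    intro χ hχ h0
    have h1 : ‖pX (fun χ => evZ χ s)‖ = p := hd_pX hp hG hσ
    have h2 : pX (fun χ => evZ χ s) ≠ 0 := by
      rw [← norm_ne_zero_iff, h1]
      exact_mod_cast hp.ne_zero
    exact pX_ne_zero.1 h2 χ hχ h0
  set b : Fin r → UM ι S T := fun j => s • x j with hb
  obtain ⟨X, hX0, hX⟩ := div_exists hp hG (psiQ ψ u) (toQ G (s ^ r * (pmat ψ x).det)) (by
    intro χ hχ
    rw [al_evZ, map_mul, map_pow]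
    exact mul_ne_zero (pow_ne_zero _ (hs0 χ hχ)) (hx χ hχ))
  have hbm : ∀ j, nrm G • b j = 0 := by
    intro j
    show nrm G • (s • x j) = 0
    rw [← mul_smul, ac_nrm_mul, zero_smul]
  have hco : Core ι S T w c b X := ⟨hbm, hX0, fun χ hχ => by
    have h1 := hb_star hp hG hD hV χ x ψ
    have h2 := hX χ hχ
    rw [al_evZ, map_mul, map_pow] at h2
    rw [hb, hd_wmat, map_mul, map_pow, hb_evR_toR]
    refine mul_right_cancel₀ (hx χ hχ) ?_
    rw [← h1, ← h2]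
    ring⟩
  have hcard : Fintype.card (PS S) = r + 0 + 1 := by
    have h2 : Fintype.card (PS S) = Fintype.card (InfinitePlace F) + S.card := by simp [PS]
    rw [h2, hD.one]
  have hn := RSK.norm_x hp hG hD.data (m := 0) hcard (fun χ _ => hL χ) hco
  have hi := idx_one (M := UM ι S T) hp hG hσ (RSK.um_rank hp hG hD.data) b hbm
  have hm1 : pX (fun χ => evQ χ (psiQ ψ u)) = pX (fun χ => evQ χ X) *
      (pX (fun χ => evZ χ s) ^ r * pX (fun χ => evZ χ (pmat ψ x).det)) := by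
    rw [← ab_pX_pow, ← ab_pX_mul, ← pX_mul]
    refine pX_congr fun χ hχ => ?_
    rw [← hX χ hχ, al_evZ]
  refine ⟨(mSpn G b).relIndex (mMinus G (UM ι S T)), ?_⟩
  rw [hm1, norm_mul, norm_mul, norm_pow, hd_pX hp hG hσ]
  rw [pow_zero, one_mul] at hn
  have hi' : (((mPlus G (UM ι S T) ⊔ mSpn G b).index : ℕ) : ℝ) *
      ((mSub (UM ι S T) σ).relIndex (mMinus G (UM ι S T)) : ℕ) =
      (p : ℝ) ^ r * ((mSpn G b).relIndex (mMinus G (UM ι S T)) : ℕ) := by
    exact_mod_cast hi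
  push_cast
  rw [← hn]
  linear_combination (-(‖pX (fun χ => evQ χ X)‖ * ‖pX (fun χ => evZ χ (pmat ψ x).det)‖ * hA S T)) * hi'
end
end Pool.Agent.PD
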