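import Pool.Agent.Lib_helper24.PD.Defs
import Pool.Agent.Lib_helper17.RS.P_EE
import Pool.Agent.Lib_helper17.RS.P_ED
set_option autoImplicit false
set_option linter.unusedSectionVars false
namespace Pool.Agent.PD
open Pool.Agent Pool.Agent.RSK Pool.Agent.RS2 Pool.Agent.AU
open NumberField IsDedekindDomain Filter Topology Complex
open scoped TensorProduct
section
variable {F H : Type} [Field F] [NumberField F] [Field H] [NumberField H] [Algebra F H]
  [IsGalois F H] {G : Type} [CommGroup G] [Fintype G] {p : ℕ} {ι : G ≃* (H ≃ₐ[F] H)}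
  {S T : Finset (HeightOneSpectrum (𝓞 F))} {r : ℕ} {w : Fin r → Pl H}
  {fr : HeightOneSpectrum (𝓞 F) → G}

theorem ia_smul_coe (σ : H ≃ₐ[F] H) (x : 𝓞 H) : ((σ • x : 𝓞 H) : H) = σ (x : H) := rfl

/-- Frobenius in the form of `ee_inertia` -/
theorem ia_inertia (hD : Data ι S T r w fr) {W : HeightOneSpectrum (𝓞 H)}
    (hW : W.under (𝓞 F) ∉ S) : W.asIdeal.inertia (H ≃ₐ[F] H) = ⊥ := by
  refine ee_inertia (hD.unram W hW) (τ := ι (fr (W.under (𝓞 F)))) fun x => ?_
  exact hD.frob _ hW W rfl x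

/-- some trace is a unit at `W` -/
theorem ia_trace (hD : Data ι S T r w fr) {W : HeightOneSpectrum (𝓞 H)}
    (hW : W.under (𝓞 F) ∉ S) : ∃ b : 𝓞 H, ∑ g : G, ι g • b ∉ W.asIdeal := by
  classical
  by_contra hcon
  push Not at hcon
  have hpr : W.asIdeal.IsPrime := W.isPrime
  let φ : G → (𝓞 H →* 𝓞 H ⧸ W.asIdeal) := fun g =>
    { toFun := fun b => Ideal.Quotient.mk W.asIdeal (ι g • b)
      map_one' := by rw [smul_one, map_one]
      map_mul' := fun a b => by rw [smul_mul', map_mul] }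
  have hinj : Function.Injective φ := by
    intro g h hgh
    have h1 : ι (g * h⁻¹) ∈ W.asIdeal.inertia (H ≃ₐ[F] H) := by
      intro b
      have h2 := DFunLike.congr_fun hgh ((ι h)⁻¹ • b)
      have h3 : Ideal.Quotient.mk W.asIdeal (ι g • (ι h)⁻¹ • b) =
        Ideal.Quotient.mk W.asIdeal (ι h • (ι h)⁻¹ • b) := h2
      rw [Ideal.Quotient.eq, smul_inv_smul, ← mul_smul, ← map_inv, ← map_mul] at h3
      exact h3
    rw [ia_inertia hD hW, Subgroup.mem_bot] at h1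
    have h4 : g * h⁻¹ = 1 := ι.injective (by rw [h1, map_one])
    exact mul_inv_eq_one.1 h4
  have hli := (linearIndependent_monoidHom (𝓞 H) (𝓞 H ⧸ W.asIdeal)).comp φ hinj
  rw [Fintype.linearIndependent_iff] at hli
  have h5 := hli (fun _ => 1) (by
    funext b
    have h6 := hcon b
    rw [← Ideal.Quotient.eq_zero_iff_mem, map_sum] at h6
    simp only [Function.comp, Finset.sum_apply, Pi.smul_apply, smul_eq_mul, one_mul, Pi.zero_apply]
    exact h6) 1
  exact one_ne_zero h5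

/-- a trace as an element of `F` -/
theorem ia_fix (ι : G ≃* (H ≃ₐ[F] H)) (b : 𝓞 H) : ∃ a : 𝓞 F, algebraMap (𝓞 F) (𝓞 H) a = ∑ g : G, ι g • b := by
  have h0 : ((∑ g : G, ι g • b : 𝓞 H) : H) = algebraMap F H (Algebra.trace F H (b : H)) := by
    rw [trace_eq_sum_automorphisms, ← Equiv.sum_comp ι.toEquiv]
    have : ((∑ g : G, ι g • b : 𝓞 H) : H) = ∑ g : G, ((ι g • b : 𝓞 H) : H) := map_sum (algebraMap (𝓞 H) H) _ _
    rw [this]
    rfl
  have h1 : IsIntegral ℤ (Algebra.trace F H (b : H)) := Algebra.isIntegral_trace b.2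
  refine ⟨⟨_, h1⟩, ?_⟩
  apply RingOfIntegers.ext
  rw [h0]
  rfl

/-- the traces form an ideal -/
noncomputable def ia_J (ι : G ≃* (H ≃ₐ[F] H)) : Ideal (𝓞 F) where
  carrier := {a | ∃ b : 𝓞 H, algebraMap (𝓞 F) (𝓞 H) a = ∑ g : G, ι g • b}
  zero_mem' := ⟨0, by simp⟩
  add_mem' := by
    rintro a a' ⟨b, hb⟩ ⟨b', hb'⟩
    refine ⟨b + b', ?_⟩
    rw [map_add, hb, hb', ← Finset.sum_add_distrib]
    exact Finset.sum_congr rfl fun g _ => (smul_add _ _ _).symm
  smul_mem' := by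
    rintro c a ⟨b, hb⟩
    refine ⟨algebraMap (𝓞 F) (𝓞 H) c * b, ?_⟩
    rw [smul_eq_mul, map_mul, hb, Finset.mul_sum]
    refine Finset.sum_congr rfl fun g _ => ?_
    rw [smul_mul']
    congr 1
    apply RingOfIntegers.ext
    exact ((ι g).commutes (c : F)).symm

/-- an element of trace `1` modulo `T` -/
theorem ia_c (hD : Data ι S T r w fr) : ∃ c : 𝓞 H, ∀ W ∈ ovr H T, ∑ g : G, ι g • c - 1 ∈ W.asIdeal := by
  classical
  have h1 : ia_J ι ⊔ ∏ v ∈ T, v.asIdeal = ⊤ := by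
    by_contra hne
    obtain ⟨m, hm, hle⟩ := Ideal.exists_le_maximal _ hne
    have hJ : ia_J ι ≤ m := le_sup_left.trans hle
    have hP : ∏ v ∈ T, v.asIdeal ≤ m := le_sup_right.trans hle
    obtain ⟨v, hv, hvm⟩ := (hm.isPrime.prod_le).1 hP
    have hvm' : v.asIdeal = m := v.isMaximal.eq_of_le hm.ne_top hvm
    obtain ⟨W, hW⟩ := ed_exists (H := H) v
    have hvS : v ∉ S := fun h => Finset.disjoint_left.1 hD.disj h hv
    obtain ⟨b, hb⟩ := ia_trace hD (W := W) (by rw [hW]; exact hvS)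
    obtain ⟨a, ha⟩ := ia_fix ι b
    have haJ : a ∈ ia_J ι := ⟨b, ha⟩
    have h2 : a ∈ v.asIdeal := hvm' ▸ hJ haJ
    rw [← hW] at h2
    have h3 : algebraMap (𝓞 F) (𝓞 H) a ∈ W.asIdeal := h2
    rw [ha] at h3
    exact hb h3
  have h2 : (1 : 𝓞 F) ∈ ia_J ι ⊔ ∏ v ∈ T, v.asIdeal := h1 ▸ Submodule.mem_top
  obtain ⟨a, ⟨c, hc⟩, m, hm, ham⟩ := Submodule.mem_sup.1 h2
  refine ⟨c, fun W hW => ?_⟩
  rw [mem_ovr] at hW
  have h3 : m ∈ (W.under (𝓞 F)).asIdeal := by
    have : ∏ v ∈ T, v.asIdeal ≤ (W.under (𝓞 F)).asIdeal :=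
      (Ideal.prod_le_inf).trans (Finset.inf_le hW)
    exact this hm
  have h4 : algebraMap (𝓞 F) (𝓞 H) m ∈ W.asIdeal := h3
  have h5 : ∑ g : G, ι g • c - 1 = - algebraMap (𝓞 F) (𝓞 H) m := by
    rw [← hc, ← map_one (algebraMap (𝓞 F) (𝓞 H)), ← ham, map_add]
    ring
  rw [h5]
  exact neg_mem h4

/-- sums over `G` as sums over powers of a generator -/
theorem ia_sum {A : Type} [AddCommMonoid A] (hp : p.Prime) (hG : Nat.card G = p) {σ : G}
    (hσ : σ ≠ 1) (f : G → A) : ∑ g : G, f g = ∑ k ∈ Finset.range p, f (σ ^ k) := by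
  classical
  have hfp : Fact p.Prime := ⟨hp⟩
  have hord : orderOf σ = p := orderOf_eq_prime (by rw [← hG]; exact pow_card_eq_one') hσ
  have himg := IsCyclic.image_range_orderOf (a := σ) (fun x => mem_zpowers_of_prime_card hG hσ)
  rw [hord] at himg
  rw [← himg, Finset.sum_image]
  intro i hi j hj hij
  rw [Finset.coe_range, Set.mem_Iio, ← hord] at hi hj
  exact pow_injOn_Iio_orderOf hi hj hij

theorem ia_prod {A : Type} [CommMonoid A] (hp : p.Prime) (hG : Nat.card G = p) {σ : G}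
    (hσ : σ ≠ 1) (f : G → A) : ∏ g : G, f g = ∏ k ∈ Finset.range p, f (σ ^ k) :=
  ia_sum (A := Additive A) hp hG hσ f

/-- the elements congruent to `1` modulo `T` are stable -/
theorem ia_kt {T : Finset (HeightOneSpectrum (𝓞 F))} (σ : H ≃ₐ[F] H) {x : Hˣ}
    (hx : x ∈ KT (ovr H T)) : σ • x ∈ KT (ovr H T) := by
  have key : ∀ (w : HeightOneSpectrum (𝓞 H)) (y : H), w.valuation H (σ y) =
      (HeightOneSpectrum.equivOfRingEquiv (RingOfIntegers.mapRingEquiv σ.symm.toRingEquiv) w).valuation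
        H y := fun w y => by
    have h := val_equiv σ.symm.toRingEquiv w (σ y)
    have h2 : σ.symm.toRingEquiv (σ y) = y := σ.symm_apply_apply y
    rw [h2] at h
    exact h.symm
  intro w hw
  have e : ((σ • x : Hˣ) : H) - 1 = σ ((x : H) - 1) := by
    rw [map_sub, map_one]
    rfl
  rw [e, key]
  refine hx _ ?_
  rw [mem_ovr, under_equiv]
  rwa [mem_ovr] at hw

/-- the partial norms -/
noncomputable def ia_a (ι : G ≃* (H ≃ₐ[F] H)) (σ : G) (x : Hˣ) (k : ℕ) : Hˣ :=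
  ∏ j ∈ Finset.range k, ι (σ ^ j) • x

theorem ia_a_succ (ι : G ≃* (H ≃ₐ[F] H)) (σ : G) (x : Hˣ) (k : ℕ) :
    ia_a ι σ x (k + 1) = x * ι σ • ia_a ι σ x k := by
  induction k with
  | zero =>
    have e1 : ia_a ι σ x (0 + 1) = ι (σ ^ 0) • x := by
      unfold ia_a
      rw [Finset.prod_range_succ, Finset.prod_range_zero, one_mul]
    have e2 : ia_a ι σ x 0 = 1 := Finset.prod_range_zero _
    rw [e1, e2, pow_zero, map_one, one_smul, smul_one, mul_one]
  | succ k ih =>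
    have h1 : ia_a ι σ x (k + 1 + 1) = ia_a ι σ x (k + 1) * ι (σ ^ (k + 1)) • x :=
      Finset.prod_range_succ _ _
    have h2 : ia_a ι σ x (k + 1) = ia_a ι σ x k * ι (σ ^ k) • x := Finset.prod_range_succ _ _
    rw [h1]
    conv_rhs => rw [h2]
    rw [ih, smul_mul', ← mul_smul, ← map_mul, ← pow_succ', mul_assoc]

/-- Hilbert 90 for the elements congruent to `1` modulo `T` -/
theorem ia_h90 (hp : p.Prime) (hG : Nat.card G = p) (hD : Data ι S T r w fr) {σ : G} (hσ : σ ≠ 1)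
    {x : Hˣ} (hx : x ∈ KT (ovr H T)) (hN : ∏ g : G, ι g • x = 1) :
    ∃ z ∈ KT (ovr H T), (ι σ • z) * z⁻¹ = x := by
  classical
  obtain ⟨c, hc⟩ := ia_c hD
  have ha : ∀ k, ia_a ι σ x k ∈ KT (ovr H T) := fun k =>
    (KT (ovr H T)).prod_mem fun j _ => ia_kt _ hx
  have hap : ia_a ι σ x p = 1 := by
    rw [← hN, ia_prod hp hG hσ]
    rfl
  have hsp : σ ^ p = 1 := by rw [← hG]; exact pow_card_eq_one'
  set f : ℕ → H := fun k => (ia_a ι σ x k : H) * ι (σ ^ k) (c : H) with hf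
  set θ : H := ∑ k ∈ Finset.range p, f k with hθ
  have hfp : f p = f 0 := by
    simp only [hf]
    rw [hap, hsp, pow_zero]
    simp [ia_a]
  have hstep : ∀ k, (x : H) * ι σ (f k) = f (k + 1) := by
    intro k
    simp only [hf]
    rw [ia_a_succ, map_mul, pow_succ', map_mul, AlgEquiv.mul_apply, Units.val_mul, mul_assoc]
    rfl
  have hinv : (x : H) * ι σ θ = θ := by
    rw [hθ, map_sum, Finset.mul_sum, Finset.sum_congr rfl fun k _ => hstep k]
    have h1 := Finset.sum_range_succ f p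
    have h2 := Finset.sum_range_succ' f p
    rw [h1, hfp] at h2
    exact (add_right_cancel h2).symm
  have hval : ∀ W ∈ ovr H T, W.valuation H (θ - 1) < 1 := by
    intro W hW
    have e : θ - 1 = ∑ k ∈ Finset.range p, ((ia_a ι σ x k : H) - 1) * ι (σ ^ k) (c : H) +
        ((∑ g : G, ι g • c - 1 : 𝓞 H) : H) := by
      have h3 : ((∑ g : G, ι g • c - 1 : 𝓞 H) : H) = ∑ k ∈ Finset.range p, ι (σ ^ k) (c : H) - 1 := by
        rw [ia_sum hp hG hσ (fun g => ι g • c)]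
        have h4 : ((∑ k ∈ Finset.range p, ι (σ ^ k) • c - 1 : 𝓞 H) : H) =
          ∑ k ∈ Finset.range p, ((ι (σ ^ k) • c : 𝓞 H) : H) - 1 := by
          show algebraMap (𝓞 H) H (∑ k ∈ Finset.range p, ι (σ ^ k) • c - 1) = _
          rw [map_sub, map_sum, map_one]
        rw [h4]
        rfl
      rw [h3, hθ, ← add_sub_assoc, ← Finset.sum_add_distrib]
      congr 1
      refine Finset.sum_congr rfl fun k _ => ?_
      simp only [hf]
      ring
    rw [e]
    refine Valuation.map_add_lt _ (Valuation.map_sum_lt _ one_ne_zero fun k _ => ?_) ?_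
    · rw [map_mul]
      refine mul_lt_one_of_lt_of_le (ha k W hW) ?_
      exact W.valuation_le_one (ι (σ ^ k) • c)
    · exact (HeightOneSpectrum.valuation_lt_one_iff_mem (K := H) W _).2 (hc W hW)
  have hTne : T.Nonempty := by
    rcases hD.tors with ⟨v, hv, _⟩ | ⟨v, hv, _⟩
    · exact ⟨v, hv⟩
    · exact ⟨v, hv⟩
  have hθ0 : θ ≠ 0 := by
    intro h0
    obtain ⟨v, hv⟩ := hTne
    obtain ⟨W, hW⟩ := ed_exists (H := H) v
    have h1 := hval W (by rw [mem_ovr, hW]; exact hv)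
    rw [h0, zero_sub, Valuation.map_neg, map_one] at h1
    exact lt_irrefl _ h1
  refine ⟨(Units.mk0 θ hθ0)⁻¹, (KT (ovr H T)).inv_mem fun W hW => hval W hW, ?_⟩
  rw [inv_inv, smul_inv', inv_mul_eq_iff_eq_mul]
  apply Units.ext
  rw [Units.val_mul, mul_comm]
  exact hinv.symm

end
end Pool.Agent.PD
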