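import Pool.Agent.Lib_helper24.PD.Defs
import Pool.Agent.Lib_helper24.PD.P.IA
set_option autoImplicit false
set_option linter.unusedSectionVars false
namespace Pool.Agent.PD
open Pool.Agent Pool.Agent.RSK Pool.Agent.RS2 Pool.Agent.AU
open NumberField IsDedekindDomain Filter Topology Complex
open scoped TensorProduct
section
variable {F H : Type} [Field F] [NumberField F] [Field H] [NumberField H] [Algebra F H]
  [IsGalois F H] {G : Type} [CommGroup G] [Fintype G] {p : ℕ} {ι : G ≃* (H ≃ₐ[F] H)}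
  {S T : Finset (HeightOneSpectrum (𝓞 F))} {r : ℕ} {w : Fin r → Pl H}
  {fr : HeightOneSpectrum (𝓞 F) → G}

theorem ib_equiv_not_mem (τ : H ≃ₐ[F] H) {W : HeightOneSpectrum (𝓞 H)} (hW : W ∉ ovr H S) :
    HeightOneSpectrum.equivOfRingEquiv (RingOfIntegers.mapRingEquiv τ.toRingEquiv) W ∉ ovr H S := by
  rw [mem_ovr, under_equiv]
  rwa [mem_ovr] at hW

theorem ib_pow {σ : H ≃ₐ[F] H} {z : Hˣ}
    (h : ∀ W, W ∉ ovr H S → ordv W ((σ • z : Hˣ) : H) = ordv W (z : H)) (n : ℕ) :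
    ∀ W, W ∉ ovr H S → ordv W ((σ ^ n • z : Hˣ) : H) = ordv W (z : H) := by
  induction n with
  | zero => intro W _; rw [pow_zero, one_smul]
  | succ n ih =>
    intro W hW
    rw [pow_succ, mul_smul, RSK.cd_ordv_smul, h _ (ib_equiv_not_mem _ hW), ← RSK.cd_ordv_smul]
    exact ih W hW

theorem ib_inv (hp : p.Prime) (hG : Nat.card G = p) {σ : G} (hσ : σ ≠ 1) {z : Hˣ}
    (h : ∀ W, W ∉ ovr H S → ordv W ((ι σ • z : Hˣ) : H) = ordv W (z : H)) (τ : H ≃ₐ[F] H) :
    ∀ W, W ∉ ovr H S → ordv W ((τ • z : Hˣ) : H) = ordv W (z : H) := by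
  obtain ⟨g, rfl⟩ := ι.surjective τ
  obtain ⟨n, rfl⟩ := RSK.cd_gen hp hG hσ g
  rw [map_pow]
  exact ib_pow h n

theorem ib_under {z : Hˣ}
    (h : ∀ τ : H ≃ₐ[F] H, ∀ W, W ∉ ovr H S → ordv W ((τ • z : Hˣ) : H) = ordv W (z : H))
    {W W' : HeightOneSpectrum (𝓞 H)} (hW : W ∉ ovr H S)
    (hWW : W.under (𝓞 F) = W'.under (𝓞 F)) : ordv W (z : H) = ordv W' (z : H) := by
  obtain ⟨τ, hτ⟩ := act_trans (F := F) (W := Sum.inr W) (W' := Sum.inr W') (congrArg Sum.inr hWW)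
  have hτ' : HeightOneSpectrum.equivOfRingEquiv (RingOfIntegers.mapRingEquiv τ.toRingEquiv) W = W' :=
    Sum.inr_injective hτ
  have h1 := ordv_act τ W (z : H)
  rw [hτ'] at h1
  have hW' : W' ∉ ovr H S := by rw [← hτ']; exact ib_equiv_not_mem τ hW
  rw [← h1]
  exact h τ W' hW'

/-- the divisor of `F` below the divisor of `z` outside `S` -/
theorem ib_div {z : Hˣ}
    (h : ∀ W W' : HeightOneSpectrum (𝓞 H), W ∉ ovr H S → W.under (𝓞 F) = W'.under (𝓞 F) →
      ordv W (z : H) = ordv W' (z : H)) (hz : z ∈ KT (ovr H T)) :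
    ∃ D : HeightOneSpectrum (𝓞 F) →₀ ℤ, D ∈ Dv T ∧ RSK.cd_P S T D z := by
  classical
  choose q hq using up1_surj (F := F) (H := H)
  have hfin : (Function.support (fun v : HeightOneSpectrum (𝓞 F) =>
      if v ∈ S then (0 : ℤ) else ordv (q v) (z : H))).Finite := by
    refine Set.Finite.subset (Set.Finite.preimage (f := q) ?_ (dvx_finite z)) ?_
    · intro v _ v' _ hvv
      rw [← hq v, ← hq v', hvv]
    · intro v hv
      rw [Function.mem_support] at hv
      show dvx z (q v) ≠ 0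
      intro h0
      apply hv
      show (if v ∈ S then (0 : ℤ) else ordv (q v) (z : H)) = 0
      split_ifs
      · rfl
      · exact h0
  refine ⟨Finsupp.ofSupportFinite _ hfin, ?_, hz, ?_⟩
  · intro v hv
    show (if v ∈ S then (0 : ℤ) else ordv (q v) (z : H)) = 0
    split_ifs
    · rfl
    · refine RSK.cd_ordv_of_val ?_
      have h1 := hz (q v) (by rw [mem_ovr, hq]; exact hv)
      have e : (z : H) = ((z : H) - 1) + 1 := by ring
      rw [e, Valuation.map_add_eq_of_lt_right _ (by rw [map_one]; exact h1), map_one]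
  · intro W hW
    have hW' : W.under (𝓞 F) ∉ S := by rwa [mem_ovr] at hW
    show (if W.under (𝓞 F) ∈ S then (0 : ℤ) else ordv (q (W.under (𝓞 F))) (z : H)) = _
    rw [if_neg hW']
    exact (h W (q (W.under (𝓞 F))) hW (hq _).symm).symm

theorem ib_hA {D : HeightOneSpectrum (𝓞 F) →₀ ℤ} (hD : D ∈ Dv T) :
    (hA S T) • D ∈ Pr S T :=
  AddSubgroup.nsmul_relIndex_mem (Pr S T) hD

theorem ib_ordv_prod {κ : Type} (s : Finset κ) (f : κ → Hˣ) (W : HeightOneSpectrum (𝓞 H)) :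
    ordv W ((∏ i ∈ s, f i : Hˣ) : H) = ∑ i ∈ s, ordv W (f i : H) := by
  classical
  induction s using Finset.induction_on with
  | empty => rw [Finset.prod_empty, Finset.sum_empty, Units.val_one, ordv_one]
  | insert a s ha ih => rw [Finset.prod_insert ha, Finset.sum_insert ha, ordv_mul, ih]

theorem ib_norm (hG : Nat.card G = p) (hD : Data ι S T r w fr) {z : Hˣ}
    {D : HeightOneSpectrum (𝓞 F) →₀ ℤ} (hDT : D ∈ Dv T) (hP : RSK.cd_P S T D z)
    (h : ∀ τ : H ≃ₐ[F] H, ∀ W, W ∉ ovr H S → ordv W ((τ • z : Hˣ) : H) = ordv W (z : H)) :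
    p • D ∈ Pr S T := by
  have hfix : ∀ τ : H ≃ₐ[F] H, τ • (∏ g : G, ι g • z) = ∏ g : G, ι g • z := by
    intro τ
    obtain ⟨g, rfl⟩ := ι.surjective τ
    rw [Finset.smul_prod']
    have e : ∀ g' : G, ι g • ι g' • z = ι (Equiv.mulLeft g g') • z := fun g' => by
      rw [Equiv.coe_mulLeft, map_mul, mul_smul]
    rw [Finset.prod_congr rfl fun g' _ => e g']
    exact Equiv.prod_comp (Equiv.mulLeft g) (fun g' => ι g' • z)
  obtain ⟨y, hy⟩ := fixed_unit _ hfix
  have hyK : y ∈ KT T := by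
    rw [← kt_map (H := H), hy]
    exact Subgroup.prod_mem (KT (ovr H T)) (f := fun g : G => ι g • z)
      fun g _ => RSK.cd_kt_smul (ι g) hP.1
  refine ⟨(Dv T).nsmul_mem hDT p, y, hyK, fun v hv => ?_⟩
  obtain ⟨W, hWv⟩ := up1_surj (H := H) v
  have hWS : W ∉ ovr H S := by rw [mem_ovr, hWv]; exact hv
  have hunr := hD.unram W (by rw [hWv]; exact hv)
  have e2 := ordv_unr hunr (y : F)
  have e3 : algebraMap F H (y : F) = ((∏ g : G, ι g • z : Hˣ) : H) := by
    rw [← hy]; rfl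
  rw [e3, ib_ordv_prod, Finset.sum_congr rfl fun g _ => h (ι g) W hWS, Finset.sum_const,
    Finset.card_univ, ← Nat.card_eq_fintype_card, hG, hWv, ← hP.2 W hWS, hWv] at e2
  rw [Finsupp.smul_apply, e2]

theorem ib_minus (hp : p.Prime) (hG : Nat.card G = p) (hD : Data ι S T r w fr) {σ : G} (hσ : σ ≠ 1)
    (hA' : ¬ p ∣ hA S T) : mMinus G (UM ι S T) ≤ mSub (UM ι S T) σ := by
  intro u hu
  have hu0 : nrm G • u = 0 := hu
  have hN : ∏ g : G, ι g • u.val = 1 := by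
    rw [← RSK.cd_nrm_val, hu0]; rfl
  obtain ⟨z, hzT, hz⟩ := ia_h90 hp hG hD hσ u.val_mem.2 hN
  have hinv1 : ∀ W, W ∉ ovr H S → ordv W ((ι σ • z : Hˣ) : H) = ordv W (z : H) := by
    intro W hW
    have h0 := RSK.cd_ordv_of_val (u.val_mem.1 W hW)
    rw [← hz, ordv_mul, ordv_inv] at h0
    linarith
  have hinv2 := ib_inv (ι := ι) hp hG hσ hinv1
  obtain ⟨D, hDT, hP⟩ := ib_div (T := T) (fun W W' hW hWW => ib_under hinv2 hW hWW) hzT
  have h1 : p • D ∈ Pr S T := ib_norm hG hD hDT hP hinv2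
  have h2 : (hA S T) • D ∈ Pr S T := ib_hA hDT
  have h3 : D ∈ Pr S T := by
    have hc : Nat.gcd p (hA S T) = 1 := (Nat.Prime.coprime_iff_not_dvd hp).2 hA'
    have hb : ((Nat.gcd p (hA S T) : ℕ) : ℤ) =
      (p : ℤ) * Nat.gcdA p (hA S T) + (hA S T : ℤ) * Nat.gcdB p (hA S T) :=
      Nat.gcd_eq_gcd_ab p (hA S T)
    rw [hc, Nat.cast_one] at hb
    have e : D = Nat.gcdA p (hA S T) • (p • D) + Nat.gcdB p (hA S T) • ((hA S T) • D) := by
      ext v
      rw [Finsupp.add_apply, Finsupp.smul_apply, Finsupp.smul_apply, Finsupp.smul_apply,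
        Finsupp.smul_apply, smul_eq_mul, smul_eq_mul, nsmul_eq_mul, nsmul_eq_mul]
      linear_combination D v * hb
    rw [e]
    exact (Pr S T).add_mem ((Pr S T).zsmul_mem h1 _) ((Pr S T).zsmul_mem h2 _)
  obtain ⟨_, y, hy, hyD⟩ := h3
  have hPy : RSK.cd_P (H := H) S T D (Units.map (algebraMap F H : F →* H) y) := by
    refine ⟨(kt_map y).2 hy, fun W hW => ?_⟩
    have hW' : W.under (𝓞 F) ∉ S := by rwa [mem_ovr] at hW
    rw [hyD _ hW']
    exact (ordv_unr (hD.unram W hW') (y : F)).symm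
  refine ⟨UM.mk _ (RSK.cd_quot_mem hP hPy), ?_⟩
  refine UM.ext ?_
  show ((MonoidAlgebra.single σ (1 : ℤ) - 1 : MonoidAlgebra ℤ G) •
    UM.mk _ (RSK.cd_quot_mem hP hPy) : UM ι S T).val = _
  rw [RSK.cd_sub_smul, UM.val_mk, smul_mul', smul_inv']
  have e : ι σ • (Units.map (algebraMap F H : F →* H) y) =
      Units.map (algebraMap F H : F →* H) y := by
    ext
    exact (ι σ).commutes (y : F)
  rw [e, mul_inv, inv_inv, ← hz]
  exact (by
    rw [mul_mul_mul_comm, inv_mul_cancel, mul_one])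

end
end Pool.Agent.PD
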