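import Pool.Agent.Lib_helper24.PD.Defs
import Pool.Agent.Lib_helper24.PD.P.IB
set_option autoImplicit false
set_option linter.unusedSectionVars false
namespace Pool.Agent.PD
open Pool.Agent Pool.Agent.RSK Pool.Agent.RS2 Pool.Agent.AU
open NumberField IsDedekindDomain Filter Topology Complex
open scoped TensorProduct
section
variable {F H : Type} [Field F] [NumberField F] [Field H] [NumberField H] [Algebra F H]
  [IsGalois F H] {G : Type} [CommGroup G] [Fintype G] {p : ℕ} {ι : G ≃* (H ≃ₐ[F] H)}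
  {S T : Finset (HeightOneSpectrum (𝓞 F))} {r : ℕ} {w : Fin r → Pl H}
  {fr : HeightOneSpectrum (𝓞 F) → G}

/-- `[U : U⁺ + U⁻] = p^r` if `U⁻ = (σ-1) U` -/
theorem ic_index {M : Type} [AddCommGroup M] [Module (MonoidAlgebra ℤ G) M] [Module.Free ℤ M]
    [Module.Finite ℤ M] (hp : p.Prime) (hG : Nat.card G = p) {g : G} (hg : g ≠ 1) {r : ℕ}
    (hr : Module.finrank ℤ (mMinus G M) = r * (p - 1)) (hm : mMinus G M ≤ mSub M g) :
    (mPlus G M ⊔ mMinus G M).index = p ^ r := by
  have hfact : Fact p.Prime := ⟨hp⟩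
  set T := DistribSMul.toAddMonoidHom M (MonoidAlgebra.single g (1 : ℤ) - 1 : MonoidAlgebra ℤ G)
    with hT
  have hTap : ∀ u : M, T u = MonoidAlgebra.single g (1 : ℤ) • u - u := fun u => by
    show (MonoidAlgebra.single g (1 : ℤ) - 1 : MonoidAlgebra ℤ G) • u = _
    rw [sub_smul, one_smul]
  have hker : T.ker = mPlus G M := by
    ext u
    rw [AddMonoidHom.mem_ker, hTap, sub_eq_zero]
    constructor
    · intro hu x
      obtain ⟨n, rfl⟩ : x ∈ Submonoid.powers g := mem_powers_of_prime_card hG hg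
      show MonoidAlgebra.single (g ^ n) (1 : ℤ) • u = u
      induction n with
      | zero =>
        rw [pow_zero]
        exact one_smul _ u
      | succ n ih =>
        have e : (MonoidAlgebra.single (g ^ (n + 1)) (1 : ℤ)) =
            MonoidAlgebra.single (g ^ n) 1 * MonoidAlgebra.single g 1 := by
          rw [MonoidAlgebra.single_mul_single, one_mul, pow_succ]
        rw [e, mul_smul, hu, ih]
    · intro hu
      exact hu g
  have hnt : nrm G * (MonoidAlgebra.single g (1 : ℤ) - 1) = 0 := by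
    rw [ia_nrm hp hG hg, geom_sum_mul, MonoidAlgebra.single_pow, one_pow,
      show g ^ p = 1 by rw [← hG]; exact pow_card_eq_one', MonoidAlgebra.one_def, sub_self]
  have hrange : T.range ≤ mMinus G M := by
    rintro _ ⟨u, rfl⟩
    show nrm G • (MonoidAlgebra.single g (1 : ℤ) - 1 : MonoidAlgebra ℤ G) • u = 0
    rw [← mul_smul, hnt, zero_smul]
  have hrm : T.range = mMinus G M := le_antisymm hrange hm
  have e2 : (mPlus G M ⊔ mMinus G M).index =
      ((mMinus G M).map T).relIndex T.range := by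
    rw [← AddSubgroup.index_comap, AddSubgroup.comap_map_eq, hker, sup_comm]
  rw [e2, hrm]
  exact idx_pi hp hG hg hr

/-- `[A : p A] = p^n` for `A` free of rank `n` -/
theorem ic_mul {E : Type} [AddCommGroup E] {n : ℕ} (b : Module.Basis (Fin n) ℤ E) :
    ((LinearMap.range ((p : ℤ) • (LinearMap.id : E →ₗ[ℤ] E))).toAddSubgroup).index = p ^ n := by
  have := Module.Free.of_basis b
  have := Module.Finite.of_basis b
  rw [ia_index_range, LinearMap.det_smul, LinearMap.det_id, mul_one,
    Module.finrank_eq_card_basis b, Fintype.card_fin, Int.natAbs_pow, Int.natAbs_natCast]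

theorem ic_norm (hp : p.Prime) (hG : Nat.card G = p) (hD : One ι S T r w fr)
    (hA' : ¬ p ∣ hA S T) {x : UM ι S T} (hx : x ∈ mPlus G (UM ι S T)) :
    ∃ y : UM ι S T, nrm G • y = x := by
  have hcard : 1 < Nat.card G := by rw [hG]; exact hp.one_lt
  have : Nontrivial G := Finite.one_lt_card_iff_nontrivial.1 hcard
  obtain ⟨σ, hσ⟩ := exists_ne (1 : G)
  have hfin := RSK.um_finite hD.data
  have htf := RSK.um_tf hD.data
  obtain ⟨nH, ⟨bH⟩, hH⟩ := RSK.ur_basis hD.data
  have hfree : Module.Free ℤ (UM ι S T) := Module.Free.of_basis bH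
  have hidx := ic_index (M := UM ι S T) hp hG hσ (um_rank hp hG hD.data)
    (ib_minus hp hG hD.data hσ hA')
  -- the norm map
  set ν := DistribSMul.toAddMonoidHom (UM ι S T) (nrm G) with hν
  have hker : ν.ker = mMinus G (UM ι S T) := rfl
  have e1 : (mPlus G (UM ι S T) ⊔ mMinus G (UM ι S T)).index =
      ((mPlus G (UM ι S T)).map ν).relIndex ν.range := by
    rw [← AddSubgroup.index_comap, AddSubgroup.comap_map_eq, hker]
  have hrange : ν.range ≤ mPlus G (UM ι S T) := by
    rintro _ ⟨u, rfl⟩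
    exact RSK.ur_nrm_mem u
  have hmap : (mPlus G (UM ι S T)).map ν ≤ ν.range := by
    rintro _ ⟨u, -, rfl⟩
    exact ⟨u, rfl⟩
  have e2 : ((mPlus G (UM ι S T)).map ν).relIndex ν.range *
      ν.range.relIndex (mPlus G (UM ι S T)) =
      ((mPlus G (UM ι S T)).map ν).relIndex (mPlus G (UM ι S T)) :=
    AddSubgroup.relIndex_mul_relIndex _ _ _ hmap hrange
  -- the rank of the units of `F`
  have htF : TFree S T := RSK.tf_F (RSK.tf_H hD.data).1
  obtain ⟨nF, ⟨bF⟩⟩ := RSK.un_exists hD.data.disj htF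
  have hF := (RSK.cnf hD.data.disj htF bF).1
  have hPS : Fintype.card (PS S) = Fintype.card (InfinitePlace F) + S.card := by simp [PS]
  have hnF : nF = r := by
    have := hD.one
    omega
  have e3 : ((mPlus G (UM ι S T)).map ν).relIndex (mPlus G (UM ι S T)) = p ^ r := by
    have h1 : mPlus G (UM ι S T) = (⊤ : AddSubgroup (Additive (Un S T))).map (RSK.urMap ι S T) := by
      ext u
      rw [RSK.urMap_range]
      constructor
      · rintro ⟨y, hy⟩
        exact ⟨y, trivial, hy⟩
      · rintro ⟨y, -, hy⟩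
        exact ⟨y, hy⟩
    have h2 : (mPlus G (UM ι S T)).map ν =
        ((LinearMap.range ((p : ℤ) • (LinearMap.id : Additive (Un S T) →ₗ[ℤ] _))).toAddSubgroup).map
          (RSK.urMap ι S T) := by
      ext u
      constructor
      · rintro ⟨v, hv, rfl⟩
        obtain ⟨y, rfl⟩ := (RSK.urMap_range _).1 hv
        refine ⟨(p : ℤ) • y, ⟨y, rfl⟩, ?_⟩
        show RSK.urMap ι S T ((p : ℤ) • y) = nrm G • RSK.urMap ι S T y
        rw [RSK.ur_nrm_plus hv, hG, map_zsmul]
      · rintro ⟨_, ⟨y, rfl⟩, rfl⟩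
        have hv : RSK.urMap ι S T y ∈ mPlus G (UM ι S T) := (RSK.urMap_range _).2 ⟨y, rfl⟩
        refine ⟨RSK.urMap ι S T y, hv, ?_⟩
        show nrm G • RSK.urMap ι S T y = RSK.urMap ι S T ((p : ℤ) • y)
        rw [RSK.ur_nrm_plus hv, hG, map_zsmul]
    rw [h2]
    conv_lhs => rw [h1]
    rw [AddSubgroup.relIndex_map_map_of_injective _ _ RSK.urMap_inj, AddSubgroup.relIndex_top_right,
      ic_mul bF, hnF]
  rw [e3, ← e1, hidx] at e2
  have hp0 : 0 < p ^ r := pow_pos hp.pos r
  have e4 : ν.range.relIndex (mPlus G (UM ι S T)) = 1 :=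
    Nat.eq_of_mul_eq_mul_left hp0 (by rw [e2, mul_one])
  have e5 := AddSubgroup.relIndex_eq_one.1 e4
  obtain ⟨y, hy⟩ := e5 hx
  exact ⟨y, hy⟩
end
end Pool.Agent.PD
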