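import Pool.Agent.Lib_helper24.PD.Defs
import Pool.Agent.Lib_helper24.PD.P.IA
import Pool.Agent.Lib_helper24.PD.P.IC
set_option autoImplicit false
set_option linter.unusedSectionVars false
namespace Pool.Agent.PD
open Pool.Agent Pool.Agent.RSK Pool.Agent.RS2 Pool.Agent.AU
open NumberField IsDedekindDomain Filter Topology Complex
open scoped TensorProduct

theorem id_fix {Q : Type*} [AddCommGroup Q] {p : ℕ} (hp : p.Prime) (s : AddMonoid.End Q)
    (hs : s ^ p = 1) {q : Q} (hq : q ≠ 0) (hpq : p • q = 0) :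
    ∃ x : Q, x ≠ 0 ∧ p • x = 0 ∧ s x = x := by
  classical
  have hc : Commute s (-1 : AddMonoid.End Q) := Commute.neg_one_right s
  obtain ⟨Z, h1⟩ : ∃ Z : AddMonoid.End Q, (s + -1) ^ p = s ^ p + (-1) ^ p + (p : AddMonoid.End Q) * Z := by
    obtain ⟨Z, h1⟩ := Commute.exists_add_pow_prime_eq hp hc
    exact ⟨s * -1 * Z, by rw [h1]; simp only [mul_assoc]⟩
  have ht : ((s + -1) ^ p) q = 0 := by
    rw [h1, hs]
    have h2 : (((p : AddMonoid.End Q) * Z : AddMonoid.End Q)) q = 0 := by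
      show ((p : AddMonoid.End Q)) (Z q) = 0
      rw [AddMonoid.End.natCast_apply, ← map_nsmul, hpq, map_zero]
    have h3 : ((1 + (-1 : AddMonoid.End Q) ^ p : AddMonoid.End Q)) q = 0 := by
      rcases hp.eq_two_or_odd' with h | h
      · subst h
        rw [neg_one_sq]
        show q + q = 0
        rw [← two_nsmul]
        exact hpq
      · rw [h.neg_one_pow]
        show q + -q = 0
        exact add_neg_cancel q
    show ((1 + (-1 : AddMonoid.End Q) ^ p : AddMonoid.End Q)) q +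
      (((p : AddMonoid.End Q) * Z : AddMonoid.End Q)) q = 0
    rw [h2, h3, add_zero]
  have hex : ∃ i : ℕ, ((s + -1) ^ i) q = 0 := ⟨p, ht⟩
  have hpos : Nat.find hex ≠ 0 := by
    intro h0
    have h := Nat.find_spec hex
    rw [h0, pow_zero] at h
    exact hq h
  obtain ⟨i, hi⟩ := Nat.exists_eq_succ_of_ne_zero hpos
  refine ⟨((s + -1) ^ i) q, Nat.find_min hex (by omega), ?_, ?_⟩
  · rw [← map_nsmul, hpq, map_zero]
  · have h := Nat.find_spec hex
    rw [hi, Nat.succ_eq_add_one, pow_succ'] at h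
    have h' : s (((s + -1) ^ i) q) + -(((s + -1) ^ i) q) = 0 := h
    rw [← sub_eq_add_neg, sub_eq_zero] at h'
    exact h'

section
variable {F H : Type} [Field F] [NumberField F] [Field H] [NumberField H] [Algebra F H]
  [IsGalois F H] {G : Type} [CommGroup G] [Fintype G] {p : ℕ} {ι : G ≃* (H ≃ₐ[F] H)}
  {S T : Finset (HeightOneSpectrum (𝓞 F))} {r : ℕ} {w : Fin r → Pl H}
  {fr : HeightOneSpectrum (𝓞 F) → G}

/-- the place `τ⁻¹ W` -/
noncomputable def id_E (τ : H ≃ₐ[F] H) : HeightOneSpectrum (𝓞 H) ≃ HeightOneSpectrum (𝓞 H) :=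
  HeightOneSpectrum.equivOfRingEquiv (RingOfIntegers.mapRingEquiv τ.symm.toRingEquiv)

theorem id_E_mul (τ τ' : H ≃ₐ[F] H) (W : HeightOneSpectrum (𝓞 H)) :
    id_E (τ * τ') W = id_E τ' (id_E τ W) := rfl

theorem id_E_one (W : HeightOneSpectrum (𝓞 H)) : id_E (1 : H ≃ₐ[F] H) W = W := rfl

theorem id_E_under (τ : H ≃ₐ[F] H) (W : HeightOneSpectrum (𝓞 H)) :
    (id_E τ W).under (𝓞 F) = W.under (𝓞 F) := under_equiv _ _

theorem id_E_ord (τ : H ≃ₐ[F] H) (W : HeightOneSpectrum (𝓞 H)) (x : Hˣ) :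
    ordv W ((τ • x : Hˣ) : H) = ordv (id_E τ W) (x : H) := RSK.cd_ordv_smul τ W x

/-- the action on divisors -/
noncomputable def id_a (τ : H ≃ₐ[F] H) :
    (HeightOneSpectrum (𝓞 H) →₀ ℤ) →+ (HeightOneSpectrum (𝓞 H) →₀ ℤ) :=
  (Finsupp.domCongr (id_E τ).symm).toAddMonoidHom

theorem id_a_apply (τ : H ≃ₐ[F] H) (D : HeightOneSpectrum (𝓞 H) →₀ ℤ)
    (W : HeightOneSpectrum (𝓞 H)) : id_a τ D W = D (id_E τ W) := rfl

theorem id_a_Dv (τ : H ≃ₐ[F] H) {D : HeightOneSpectrum (𝓞 H) →₀ ℤ} (hD : D ∈ Dv (ovr H T)) :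
    id_a τ D ∈ Dv (ovr H T) := by
  intro W hW
  rw [id_a_apply]
  refine hD _ ?_
  rw [mem_ovr, id_E_under]
  rwa [mem_ovr] at hW

theorem id_a_Pr (τ : H ≃ₐ[F] H) {D : HeightOneSpectrum (𝓞 H) →₀ ℤ}
    (hD : D ∈ Pr (ovr H S) (ovr H T)) : id_a τ D ∈ Pr (ovr H S) (ovr H T) := by
  obtain ⟨h1, x, hx, h2⟩ := hD
  refine ⟨id_a_Dv τ h1, τ • x, RSK.cd_kt_smul τ hx, fun W hW => ?_⟩
  rw [id_a_apply, id_E_ord]
  refine h2 _ ?_
  rw [mem_ovr, id_E_under]
  rwa [mem_ovr] at hW

/-- the action on the divisors prime to `T` -/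
noncomputable def id_f (T : Finset (HeightOneSpectrum (𝓞 F))) (τ : H ≃ₐ[F] H) :
    Dv (ovr H T) →+ Dv (ovr H T) :=
  ((id_a τ).comp (Dv (ovr H T)).subtype).codRestrict (Dv (ovr H T)) (fun D => id_a_Dv τ D.2)

/-- the action on the class group -/
noncomputable def id_s (S T : Finset (HeightOneSpectrum (𝓞 F))) (τ : H ≃ₐ[F] H) :
    AddMonoid.End (Dv (ovr H T) ⧸ ((Pr (ovr H S) (ovr H T)).addSubgroupOf (Dv (ovr H T)))) :=
  QuotientAddGroup.map _ _ (id_f T τ) (by
    intro D hD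
    rw [AddSubgroup.mem_comap, AddSubgroup.mem_addSubgroupOf]
    rw [AddSubgroup.mem_addSubgroupOf] at hD
    exact id_a_Pr τ hD)

theorem id_s_mk (S T : Finset (HeightOneSpectrum (𝓞 F))) (τ : H ≃ₐ[F] H) (D : Dv (ovr H T)) :
    id_s S T τ (QuotientAddGroup.mk D) = QuotientAddGroup.mk (id_f T τ D) := rfl

theorem id_s_pow (S T : Finset (HeightOneSpectrum (𝓞 F))) (τ : H ≃ₐ[F] H) (n : ℕ)
    (D : Dv (ovr H T)) :
    ((id_s S T τ) ^ n) (QuotientAddGroup.mk D) = QuotientAddGroup.mk (id_f T (τ ^ n) D) := by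
  induction n generalizing D with
  | zero =>
    rw [pow_zero, pow_zero]
    show QuotientAddGroup.mk D = _
    congr 1
    exact Subtype.ext (Finsupp.ext fun W => rfl)
  | succ n ih =>
    rw [pow_succ]
    show ((id_s S T τ) ^ n) (id_s S T τ (QuotientAddGroup.mk D)) = _
    rw [id_s_mk, ih]
    congr 1
    refine Subtype.ext (Finsupp.ext fun W => ?_)
    show D.1 (id_E τ (id_E (τ ^ n) W)) = D.1 (id_E (τ ^ (n + 1)) W)
    rw [← id_E_mul, ← pow_succ]

theorem id_kt_ord {K : Type} [Field K] [NumberField K] {T : Finset (HeightOneSpectrum (𝓞 K))}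
    {x : Kˣ} (hx : x ∈ KT T) {v : HeightOneSpectrum (𝓞 K)} (hv : v ∈ T) :
    ordv v (x : K) = 0 := by
  rw [xa1_ordv_iff v x.ne_zero]
  have h := (v.valuation K).map_one_add_of_lt (hx v hv)
  rwa [add_sub_cancel] at h

theorem id_class (hp : p.Prime) (hG : Nat.card G = p) (hD : One ι S T r w fr)
    (hA' : ¬ p ∣ hA S T) : ¬ p ∣ hA (ovr H S) (ovr H T) := by
  classical
  intro hdvd
  have : Fact p.Prime := ⟨hp⟩
  -- a nontrivial element
  obtain ⟨σ, hσ⟩ : ∃ σ : G, σ ≠ 1 := by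
    have h1 : 1 < Nat.card G := by rw [hG]; exact hp.one_lt
    have := Finite.one_lt_card_iff_nontrivial.1 h1
    exact exists_ne 1
  have hσp : σ ^ p = 1 := by
    rw [← hG]; exact pow_card_eq_one'
  -- an invariant class
  obtain ⟨D, hDP, hpD, hinv⟩ : ∃ D : Dv (ovr H T), D.1 ∉ Pr (ovr H S) (ovr H T) ∧
      p • D.1 ∈ Pr (ovr H S) (ovr H T) ∧ id_a (ι σ) D.1 - D.1 ∈ Pr (ovr H S) (ovr H T) := by
    set N := (Pr (ovr H S) (ovr H T)).addSubgroupOf (Dv (ovr H T)) with hN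
    have hcard : Nat.card (Dv (ovr H T) ⧸ N) = hA (ovr H S) (ovr H T) := rfl
    have hpos : 0 < hA (ovr H S) (ovr H T) := by
      obtain ⟨htf, hdis⟩ := tf_H hD.data
      obtain ⟨n, ⟨b⟩⟩ := un_exists hdis htf
      exact (cnf hdis htf b).2.2.1
    have hfin : Finite (Dv (ovr H T) ⧸ N) := Nat.finite_of_card_ne_zero (by rw [hcard]; omega)
    obtain ⟨q, hq⟩ := exists_prime_addOrderOf_dvd_card' (G := Dv (ovr H T) ⧸ N) p
      (by rw [hcard]; exact hdvd)
    have hq0 : q ≠ 0 := by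
      rintro rfl
      rw [addOrderOf_zero] at hq
      exact hp.one_lt.ne hq
    have hpq : p • q = 0 := by rw [← hq]; exact addOrderOf_nsmul_eq_zero q
    have hs : (id_s S T (ι σ)) ^ p = 1 := by
      ext q
      obtain ⟨D, rfl⟩ := QuotientAddGroup.mk_surjective q
      rw [id_s_pow, ← map_pow, hσp, map_one]
      show _ = QuotientAddGroup.mk D
      congr 1
      exact Subtype.ext (Finsupp.ext fun W => rfl)
    obtain ⟨x, hx0, hpx, hsx⟩ := id_fix hp (id_s S T (ι σ)) hs hq0 hpq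
    obtain ⟨D, rfl⟩ := QuotientAddGroup.mk_surjective x
    refine ⟨D, ?_, ?_, ?_⟩
    · intro h
      apply hx0
      rw [QuotientAddGroup.eq_zero_iff, AddSubgroup.mem_addSubgroupOf]
      exact h
    · rw [← QuotientAddGroup.mk_nsmul, QuotientAddGroup.eq_zero_iff,
        AddSubgroup.mem_addSubgroupOf] at hpx
      exact hpx
    · rw [id_s_mk, QuotientAddGroup.eq, AddSubgroup.mem_addSubgroupOf] at hsx
      have h := (Pr (ovr H S) (ovr H T)).neg_mem hsx
      have e : -((-id_f T (ι σ) D + D : Dv (ovr H T)) : HeightOneSpectrum (𝓞 H) →₀ ℤ) =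
          id_a (ι σ) D.1 - D.1 := by
        show -(-(id_a (ι σ) D.1) + D.1) = _
        abel
      rw [← e]
      exact h
  obtain ⟨-, z, hz, hzD⟩ := hinv
  -- the norm of z
  have hEg : ∀ (g : G) (W : HeightOneSpectrum (𝓞 H)), W ∉ ovr H S → id_E (ι g) W ∉ ovr H S := by
    intro g W hW
    rw [mem_ovr, id_E_under]
    rwa [mem_ovr] at hW
  set Nz : Hˣ := ∏ g : G, ι g • z with hNz
  have hordN : ∀ W, W ∉ ovr H S → ordv W (Nz : H) = 0 := by
    intro W hW
    have h1 : ordv W (Nz : H) = ∑ g : G, ordv W ((ι g • z : Hˣ) : H) := by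
      rw [hNz]
      have : ∀ s : Finset G, ordv W ((∏ g ∈ s, ι g • z : Hˣ) : H) =
          ∑ g ∈ s, ordv W ((ι g • z : Hˣ) : H) := by
        intro s
        induction s using Finset.induction_on with
        | empty => rw [Finset.prod_empty, Finset.sum_empty, Units.val_one, ordv_one]
        | insert a s ha ih => rw [Finset.prod_insert ha, Finset.sum_insert ha, ordv_mul, ih]
      exact this _
    have h2 : ∀ g : G, ordv W ((ι g • z : Hˣ) : H) =
        D.1 (id_E (ι (g * σ)) W) - D.1 (id_E (ι g) W) := by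
      intro g
      rw [id_E_ord, ← hzD _ (hEg g W hW), map_mul, id_E_mul]
      rfl
    rw [h1, Finset.sum_congr rfl fun g _ => h2 g, Finset.sum_sub_distrib, sub_eq_zero]
    exact Equiv.sum_comp (Equiv.mulRight σ) (fun g => D.1 (id_E (ι g) W))
  have hNmem : Nz ∈ Un (ovr H S) (ovr H T) := by
    refine ⟨fun W hW => RSK.cd_val_of_ordv (hordN W hW), ?_⟩
    exact Subgroup.prod_mem _ fun g _ => RSK.cd_kt_smul (ι g) hz
  have hNfix : ∀ g : G, ι g • Nz = Nz := by
    intro g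
    rw [hNz, Finset.smul_prod']
    have : ∀ h : G, ι g • ι h • z = ι (g * h) • z := fun h => by rw [map_mul, mul_smul]
    rw [Finset.prod_congr rfl fun h _ => this h]
    exact Equiv.prod_comp (Equiv.mulLeft g) (fun h => ι h • z)
  obtain ⟨y0, hy0⟩ := ic_norm hp hG hD hA' (x := UM.mk (ι := ι) Nz hNmem) (by
    intro g
    refine UM.ext ?_
    rw [um_single_smul, UM.val_mk, hNfix])
  have hy0' : ∏ g : G, ι g • y0.val = Nz := by
    rw [← RSK.cd_nrm_val, hy0, UM.val_mk]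
  obtain ⟨y, hy, hyz⟩ := ia_h90 hp hG hD.data hσ (x := z * y0.val⁻¹)
    ((KT _).mul_mem hz ((KT _).inv_mem y0.val_mem.2)) (by
      have : ∀ g : G, ι g • (z * y0.val⁻¹) = (ι g • z) * (ι g • y0.val)⁻¹ := fun g => by
        rw [smul_mul', smul_inv']
      rw [Finset.prod_congr rfl fun g _ => this g, Finset.prod_mul_distrib,
        Finset.prod_inv_distrib, hy0', ← hNz, mul_inv_cancel])
  -- the invariant divisor
  set E : HeightOneSpectrum (𝓞 H) → ℤ := fun W => D.1 W - ordv W (y : H) with hE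
  have hEfin : (Function.support E).Finite := by
    refine (D.1.hasFiniteSupport.union (dvx_finite y)).subset fun W hW => ?_
    by_contra hcon
    rw [Set.mem_union, not_or] at hcon
    apply hW
    have h1 : D.1 W = 0 := by
      by_contra h; exact hcon.1 h
    have h2 : ordv W (y : H) = 0 := by
      by_contra h; exact hcon.2 h
    show D.1 W - ordv W (y : H) = 0
    rw [h1, h2, sub_zero]
  have hEσ : ∀ W, W ∉ ovr H S → E (id_E (ι σ) W) = E W := by
    intro W hW
    have h1 := hzD W hW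
    have h1' : D.1 (id_E (ι σ) W) - D.1 W = ordv W (z : H) := h1
    have h2 : ordv W (((ι σ • y) * y⁻¹ : Hˣ) : H) = ordv W ((z * y0.val⁻¹ : Hˣ) : H) := by rw [hyz]
    rw [ordv_mul, ordv_inv, ordv_mul, ordv_inv, id_E_ord, RSK.cd_ordv_of_val (y0.val_mem.1 W hW)] at h2
    show D.1 (id_E (ι σ) W) - ordv (id_E (ι σ) W) (y : H) = D.1 W - ordv W (y : H)
    linarith
  have hEn : ∀ (n : ℕ) (W : HeightOneSpectrum (𝓞 H)), W ∉ ovr H S →
      E (id_E (ι (σ ^ n)) W) = E W := by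
    intro n
    induction n with
    | zero => intro W _; rw [pow_zero, map_one, id_E_one]
    | succ n ih =>
      intro W hW
      rw [pow_succ, map_mul, id_E_mul, hEσ _ (hEg _ W hW), ih W hW]
  have hEtr : ∀ W W' : HeightOneSpectrum (𝓞 H), W ∉ ovr H S →
      W.under (𝓞 F) = W'.under (𝓞 F) → E W = E W' := by
    intro W W' hW hWW'
    obtain ⟨τ, hτ⟩ := act_trans (F := F) (W := (Sum.inr W' : Pl H)) (W' := Sum.inr W) (by
      show (Sum.inr (W'.under (𝓞 F)) : Pl F) = Sum.inr (W.under (𝓞 F))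
      rw [hWW'])
    obtain ⟨g, rfl⟩ := ι.surjective τ
    obtain ⟨n, hn⟩ := RSK.cd_gen hp hG hσ g
    have hτ' : HeightOneSpectrum.equivOfRingEquiv
        (RingOfIntegers.mapRingEquiv (ι g).toRingEquiv) W' = W := Sum.inr.inj hτ
    have h3 : id_E (ι g) W = W' := by
      rw [← hτ']
      show id_E (ι g) (id_E (ι g)⁻¹ W') = W'
      rw [← id_E_mul, inv_mul_cancel, id_E_one]
    rw [← h3, ← hn, hEn n W hW]
  -- the divisor of F
  have hex : ∀ v : HeightOneSpectrum (𝓞 F), ∃ W : HeightOneSpectrum (𝓞 H), W.under (𝓞 F) = v := by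
    intro v
    obtain ⟨W, hW⟩ := dn_surj (H := H) (Sum.inr v : Pl F)
    rcases W with W | W
    · exact absurd hW (by simp [dn])
    · exact ⟨W, Sum.inr.inj hW⟩
  choose c hc using hex
  let D0 : HeightOneSpectrum (𝓞 F) →₀ ℤ :=
    Finsupp.ofSupportFinite (fun v => if v ∈ S then 0 else E (c v)) (by
      refine (hEfin.image (fun W => W.under (𝓞 F))).subset fun v hv => ?_
      by_cases hS : v ∈ S
      · exact absurd (if_pos hS) hv
      · refine ⟨c v, ?_, hc v⟩
        intro h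
        apply hv
        show (if v ∈ S then 0 else E (c v)) = 0
        rw [if_neg hS]
        exact h)
  have hD0 : ∀ v, v ∉ S → D0 v = E (c v) := fun v hv => if_neg hv
  have hD0E : ∀ W, W ∉ ovr H S → D0 (W.under (𝓞 F)) = E W := by
    intro W hW
    rw [hD0 _ (by rwa [mem_ovr] at hW)]
    exact (hEtr W _ hW (hc _).symm).symm
  have hD0T : D0 ∈ Dv T := by
    intro v hv
    have hvS : v ∉ S := fun h => Finset.disjoint_left.1 hD.data.disj h hv
    rw [hD0 v hvS]
    have hcT : c v ∈ ovr H T := by rw [mem_ovr, hc]; exact hv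
    show D.1 (c v) - ordv (c v) (y : H) = 0
    rw [D.2 _ hcT, id_kt_ord hy hcT, sub_zero]
  -- multiples
  set h := hA S T with hh
  have hmem : h • D0 ∈ Pr S T := by
    have h1 := AddSubgroup.nsmul_index_mem ((Pr S T).addSubgroupOf (Dv T)) (⟨D0, hD0T⟩ : Dv T)
    rw [AddSubgroup.mem_addSubgroupOf] at h1
    exact h1
  obtain ⟨-, x, hx, hxD⟩ := hmem
  have hmemH : h • D.1 ∈ Pr (ovr H S) (ovr H T) := by
    refine ⟨(Dv (ovr H T)).nsmul_mem D.2 h,
      Units.map (algebraMap F H : F →* H) x * y ^ h,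
      (KT _).mul_mem ((kt_map x).2 hx) ((KT _).pow_mem hy h), fun W hW => ?_⟩
    have hW' : W.under (𝓞 F) ∉ S := by rwa [mem_ovr] at hW
    have e1 : ordv W ((Units.map (algebraMap F H : F →* H) x : Hˣ) : H) =
        ordv (W.under (𝓞 F)) (x : F) := ordv_unr (hD.data.unram W hW') (x : F)
    have e2 : ∀ n : ℕ, ordv W ((y ^ n : Hˣ) : H) = n * ordv W (y : H) := by
      intro n
      induction n with
      | zero => rw [pow_zero, Units.val_one, ordv_one]; simp
      | succ n ih => rw [pow_succ, ordv_mul, ih]; push_cast; ring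
    rw [ordv_mul, e1, e2, ← hxD _ hW']
    have e3 := hD0E W hW
    have e4 : (h • D0) (W.under (𝓞 F)) = (h : ℤ) * E W := by
      rw [Finsupp.smul_apply, e3, nsmul_eq_mul]
    rw [e4, Finsupp.smul_apply, nsmul_eq_mul]
    show (h : ℤ) * D.1 W = (h : ℤ) * (D.1 W - ordv W (y : H)) + h * ordv W (y : H)
    ring
  -- coprimality
  apply hDP
  have hco : IsCoprime (h : ℤ) (p : ℤ) := by
    rw [Nat.isCoprime_iff_coprime]
    exact ((Nat.Prime.coprime_iff_not_dvd hp).2 hA').symm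
  obtain ⟨a, b, hab⟩ := hco
  have e : D.1 = a • (h • D.1) + b • (p • D.1) := by
    rw [← natCast_zsmul, ← natCast_zsmul, smul_smul, smul_smul, ← add_smul, hab, one_smul]
  rw [e]
  exact (Pr (ovr H S) (ovr H T)).add_mem ((Pr _ _).zsmul_mem hmemH a) ((Pr _ _).zsmul_mem hpD b)
end
end Pool.Agent.PD
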