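import Pool.Agent.Lib_helper24.PD.Defs
import Pool.Agent.Lib_helper24.PD.P.IB
set_option autoImplicit false
set_option linter.unusedSectionVars false
namespace Pool.Agent.PD
open Pool.Agent Pool.Agent.RSK Pool.Agent.RS2 Pool.Agent.AU
open NumberField IsDedekindDomain Filter Topology Complex
open scoped TensorProduct

section
variable {G : Type} [CommGroup G] [Fintype G] {M : Type} [AddCommGroup M]
  [Module (MonoidAlgebra ℤ G) M]

theorem ie_psi_coeff (φ : M →+ ℤ) (x : M) (γ : G) :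
    (RB.psi (G := G) φ x).coeff γ = φ (MonoidAlgebra.single γ⁻¹ (1 : ℤ) • x) := by
  classical
  rw [RB.psi_apply, MonoidAlgebra.coeff_sum, Finsupp.finsetSum_apply,
    Finset.sum_eq_single γ]
  · rw [MonoidAlgebra.coeff_single, Finsupp.single_eq_same]
  · intro δ _ hδ
    rw [MonoidAlgebra.coeff_single, Finsupp.single_eq_of_ne hδ.symm]
  · intro h
    exact absurd (Finset.mem_univ γ) h

theorem ie_coeff (ψ : M →ₗ[MonoidAlgebra ℤ G] MonoidAlgebra ℤ G) (x : M) (γ : G) :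
    (ψ x).coeff γ = (ψ (MonoidAlgebra.single γ⁻¹ (1 : ℤ) • x)).coeff 1 := by
  rw [map_smul, smul_eq_mul, MonoidAlgebra.coeff_single_mul_apply, inv_inv, mul_one, one_mul]

theorem ie_nrm (σ : G) (x : M) :
    nrm G • ((MonoidAlgebra.single σ (1 : ℤ) - 1 : MonoidAlgebra ℤ G) • x) = 0 := by
  have h : nrm G * (MonoidAlgebra.single σ (1 : ℤ) - 1 : MonoidAlgebra ℤ G) = 0 := by
    rw [mul_sub, mul_one, sub_eq_zero]
    unfold nrm
    rw [Finset.sum_mul]
    conv_rhs => rw [← Equiv.sum_comp (Equiv.mulRight σ)]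
    refine Finset.sum_congr rfl fun γ _ => ?_
    rw [MonoidAlgebra.single_mul_single, one_mul]
    rfl
  rw [smul_smul, h, zero_smul]

theorem ie_alg [Module.Finite ℤ M] [Module.Free ℤ M] {p : ℕ} (σ : G) (hp : (p : ℤ) ≠ 0)
    (hfix : ∀ x : M, MonoidAlgebra.single σ (1 : ℤ) • x = x → x ∈ mPlus G M)
    (hm : mMinus G M ≤ mSub M σ)
    (ψ : M →ₗ[MonoidAlgebra ℤ G] MonoidAlgebra ℤ G)
    (hψ : ∀ x ∈ mPlus G M, (p : ℤ) ∣ (ψ x).coeff 1) :
    ∃ ψ' ψ'' : M →ₗ[MonoidAlgebra ℤ G] MonoidAlgebra ℤ G,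
      ψ = (p : MonoidAlgebra ℤ G) • ψ' + (MonoidAlgebra.single σ (1 : ℤ) - 1) • ψ'' := by
  classical
  let D : M →ₗ[ℤ] M := (DistribSMul.toAddMonoidHom M
    (MonoidAlgebra.single σ (1 : ℤ) - 1 : MonoidAlgebra ℤ G)).toIntLinearMap
  let N : M →ₗ[ℤ] M := (DistribSMul.toAddMonoidHom M (nrm G)).toIntLinearMap
  have hD : ∀ x, D x = (MonoidAlgebra.single σ (1 : ℤ) - 1 : MonoidAlgebra ℤ G) • x :=
    fun _ => rfl
  have hN : ∀ x, N x = nrm G • x := fun _ => rfl
  obtain ⟨s, hs⟩ := Module.projective_lifting_property D.rangeRestrict LinearMap.id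
    D.surjective_rangeRestrict
  obtain ⟨t, ht⟩ := Module.projective_lifting_property N.rangeRestrict LinearMap.id
    N.surjective_rangeRestrict
  have hs' : ∀ y : LinearMap.range D, D (s y) = y := by
    intro y
    exact congrArg Subtype.val (LinearMap.congr_fun hs y)
  have ht' : ∀ y : LinearMap.range N, N (t y) = y := by
    intro y
    exact congrArg Subtype.val (LinearMap.congr_fun ht y)
  have hρ : ∀ x : M, x - t (N.rangeRestrict x) ∈ LinearMap.range D := by
    intro x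
    have h1 : x - t (N.rangeRestrict x) ∈ mMinus G M := by
      show nrm G • (x - t (N.rangeRestrict x)) = 0
      rw [← hN, map_sub, ht']
      exact sub_self _
    obtain ⟨y, hy⟩ := hm h1
    exact ⟨y, hy⟩
  let ρ : M →ₗ[ℤ] LinearMap.range D :=
    LinearMap.codRestrict (LinearMap.range D) (LinearMap.id - t ∘ₗ N.rangeRestrict) hρ
  let f : M →+ ℤ :=
    { toFun := fun x => (ψ x).coeff 1
      map_zero' := by rw [map_zero]; rfl
      map_add' := fun x y => by rw [map_add]; rfl }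
  let g : M →+ ℤ := (f.toIntLinearMap ∘ₗ s ∘ₗ ρ).toAddMonoidHom
  have hρD : ∀ x, ((ρ (D x) : LinearMap.range D) : M) = D x := by
    intro x
    have h0 : N.rangeRestrict (D x) = 0 := by
      apply Subtype.ext
      show N (D x) = 0
      rw [hN, hD]
      exact ie_nrm σ x
    show D x - t (N.rangeRestrict (D x)) = D x
    rw [h0, map_zero, sub_zero]
  have hfg : ∀ x, (p : ℤ) ∣ f x - g (D x) := by
    intro x
    have h1 : D (x - s (ρ (D x))) = 0 := by
      rw [map_sub, hs', hρD, sub_self]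
    have h2 : x - s (ρ (D x)) ∈ mPlus G M := hfix _ (by
      rw [hD, sub_smul, one_smul] at h1
      exact sub_eq_zero.1 h1)
    have h3 := hψ _ h2
    have h4 : (ψ (x - s (ρ (D x)))).coeff 1 = f x - g (D x) := map_sub f _ _
    rwa [h4] at h3
  choose c hc using hfg
  let f' : M →+ ℤ :=
    { toFun := c
      map_zero' := by
        have h := hc 0
        rw [map_zero, map_zero, map_zero, sub_zero] at h
        rcases mul_eq_zero.1 h.symm with h | h
        · exact absurd h hp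
        · exact h
      map_add' := fun x y => by
        apply mul_left_cancel₀ hp
        rw [mul_add, ← hc, ← hc, ← hc, map_add, map_add, map_add]
        ring }
  refine ⟨RB.psi f', RB.psi g, LinearMap.ext fun x => ?_⟩
  have h5 : (((p : MonoidAlgebra ℤ G) • RB.psi (G := G) f' +
      (MonoidAlgebra.single σ (1 : ℤ) - 1) • RB.psi (G := G) g :
        M →ₗ[MonoidAlgebra ℤ G] MonoidAlgebra ℤ G)) x =
      (p : ℤ) • RB.psi (G := G) f' x + RB.psi (G := G) g (D x) := by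
    rw [hD, map_smul]
    show (p : MonoidAlgebra ℤ G) * RB.psi (G := G) f' x + _ = _
    rw [zsmul_eq_mul]
    push_cast
    rfl
  rw [h5]
  ext γ
  have h6 : MonoidAlgebra.single γ⁻¹ (1 : ℤ) • D x =
      D (MonoidAlgebra.single γ⁻¹ (1 : ℤ) • x) := by
    rw [hD, hD, smul_smul, smul_smul, mul_comm]
  rw [MonoidAlgebra.coeff_add, Finsupp.add_apply, MonoidAlgebra.coeff_smul, Finsupp.smul_apply,
    ie_psi_coeff, ie_psi_coeff, ie_coeff, h6]
  have h7 := hc (MonoidAlgebra.single γ⁻¹ (1 : ℤ) • x)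
  show f (MonoidAlgebra.single γ⁻¹ (1 : ℤ) • x) =
    (p : ℤ) * c (MonoidAlgebra.single γ⁻¹ (1 : ℤ) • x) +
      g (D (MonoidAlgebra.single γ⁻¹ (1 : ℤ) • x))
  linarith

end

section
variable {F H : Type} [Field F] [NumberField F] [Field H] [NumberField H] [Algebra F H]
  [IsGalois F H] {G : Type} [CommGroup G] [Fintype G] {p : ℕ} {ι : G ≃* (H ≃ₐ[F] H)}
  {S T : Finset (HeightOneSpectrum (𝓞 F))} {r : ℕ} {w : Fin r → Pl H}
  {fr : HeightOneSpectrum (𝓞 F) → G}
/-- functionals which vanish modulo `p` on `U_{S,T}(F)` -/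
theorem ie_lift (hp : p.Prime) (hG : Nat.card G = p) (hD : Data ι S T r w fr) {σ : G} (hσ : σ ≠ 1)
    (hA' : ¬ p ∣ hA S T) (ψ : UM ι S T →ₗ[MonoidAlgebra ℤ G] MonoidAlgebra ℤ G)
    (hψ : ∀ x ∈ mPlus G (UM ι S T), (p : ℤ) ∣ (ψ x).coeff 1) :
    ∃ ψ' ψ'' : UM ι S T →ₗ[MonoidAlgebra ℤ G] MonoidAlgebra ℤ G,
      ψ = (p : MonoidAlgebra ℤ G) • ψ' + (MonoidAlgebra.single σ (1 : ℤ) - 1) • ψ'' := by
  obtain ⟨n, ⟨b⟩, _⟩ := ur_basis hD
  have hfin : Module.Finite ℤ (UM ι S T) := Module.Finite.of_basis b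
  have hfree : Module.Free ℤ (UM ι S T) := Module.Free.of_basis b
  refine ie_alg σ (by exact_mod_cast hp.ne_zero) ?_ (ib_minus hp hG hD hσ hA') ψ hψ
  intro x hx g
  have : Fact p.Prime := ⟨hp⟩
  obtain ⟨k, rfl⟩ := mem_powers_of_prime_card hG hσ (g' := g)
  induction k with
  | zero =>
    show MonoidAlgebra.single (σ ^ 0) (1 : ℤ) • x = x
    rw [pow_zero, ← MonoidAlgebra.one_def, one_smul]
  | succ k ih =>
    show MonoidAlgebra.single (σ ^ (k + 1)) (1 : ℤ) • x = x
    have h : (MonoidAlgebra.single (σ ^ (k + 1)) (1 : ℤ) : MonoidAlgebra ℤ G) =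
        MonoidAlgebra.single (σ ^ k) 1 * MonoidAlgebra.single σ 1 := by
      rw [MonoidAlgebra.single_mul_single, one_mul, pow_succ]
    rw [h, mul_smul, hx]
    exact ih
end
end Pool.Agent.PD
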