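import Pool.Agent.Lib_helper24.PD.Defs
import Pool.Agent.Lib_helper24.PD.P.IC
set_option autoImplicit false
set_option linter.unusedSectionVars false
namespace Pool.Agent.PD
open Pool.Agent Pool.Agent.RSK Pool.Agent.RS2 Pool.Agent.AU
open NumberField IsDedekindDomain Filter Topology Complex
open scoped TensorProduct
section
variable {F H : Type} [Field F] [NumberField F] [Field H] [NumberField H] [Algebra F H]
  [IsGalois F H] {G : Type} [CommGroup G] [Fintype G] {p : ℕ} {ι : G ≃* (H ≃ₐ[F] H)}
  {S T : Finset (HeightOneSpectrum (𝓞 F))} {r : ℕ} {w : Fin r → Pl H}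
  {fr : HeightOneSpectrum (𝓞 F) → G}

/-- the augmentation as a ring homomorphism -/
noncomputable def if_aug (G : Type) [CommGroup G] [Fintype G] : MonoidAlgebra ℤ G →+* ℤ :=
  (MonoidAlgebra.lift ℤ ℤ G (1 : G →* ℤ)).toRingHom

theorem if_aug_single (g : G) (n : ℤ) : if_aug G (MonoidAlgebra.single g n) = n := by
  show MonoidAlgebra.lift ℤ ℤ G (1 : G →* ℤ) (MonoidAlgebra.single g n) = n
  rw [MonoidAlgebra.lift_single, MonoidHom.one_apply, smul_eq_mul, mul_one]

theorem if_eps_add (a b : MonoidAlgebra ℤ G) : eps (a + b) = eps a + eps b := by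
  unfold eps
  rw [← Finset.sum_add_distrib]
  exact Finset.sum_congr rfl fun g _ => rfl

theorem if_eps_single (g : G) (n : ℤ) : eps (MonoidAlgebra.single g n) = n := by
  classical
  unfold eps
  rw [Finset.sum_eq_single g]
  · rw [MonoidAlgebra.coeff_single, Finsupp.single_eq_same]
  · intro h _ hne
    rw [MonoidAlgebra.coeff_single, Finsupp.single_eq_of_ne hne]
  · intro h
    exact absurd (Finset.mem_univ g) h

theorem if_eps (a : MonoidAlgebra ℤ G) : if_aug G a = eps a := by
  induction a using MonoidAlgebra.induction_on with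
  | of g =>
    have h : MonoidAlgebra.of ℤ G g = MonoidAlgebra.single g 1 := rfl
    rw [h, if_aug_single, if_eps_single]
  | add a b ha hb => rw [map_add, ha, hb, if_eps_add]
  | smul c a ha =>
    have h1 : if_aug G (c • a) = c • if_aug G a := map_zsmul (if_aug G) c a
    have h2 : eps (c • a) = c • eps a := by
      unfold eps
      rw [Finset.smul_sum]
      exact Finset.sum_congr rfl fun g _ => rfl
    rw [h1, h2, ha]

/-- a torsion-free quotient gives a retraction -/
theorem if_retr {M : Type} [AddCommGroup M] [Module.Finite ℤ M] (P : Submodule ℤ M)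
    (hP : ∀ (n : ℤ) (x : M), n • x ∈ P → n = 0 ∨ x ∈ P) :
    ∃ π : M →ₗ[ℤ] P, ∀ x : P, π x = x := by
  have h1 : Module.IsTorsionFree ℤ (M ⧸ P) := by
    refine Module.IsTorsionFree.of_smul_eq_zero fun n y hy => ?_
    obtain ⟨x, rfl⟩ := P.mkQ_surjective y
    rw [← map_smul] at hy
    have h2 : n • x ∈ P := by
      rw [Submodule.mkQ_apply, Submodule.Quotient.mk_eq_zero] at hy
      exact hy
    rcases hP n x h2 with h3 | h3
    · exact Or.inl h3
    · right
      rw [Submodule.mkQ_apply, Submodule.Quotient.mk_eq_zero]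
      exact h3
  have h2 : Module.Finite ℤ (M ⧸ P) := inferInstance
  have h3 : Module.Free ℤ (M ⧸ P) := inferInstance
  have h4 : Module.Projective ℤ (M ⧸ P) := inferInstance
  obtain ⟨s, hs⟩ := Module.projective_lifting_property P.mkQ LinearMap.id P.mkQ_surjective
  have h5 : ∀ x : M, ((LinearMap.id - s.comp P.mkQ : M →ₗ[ℤ] M)) x ∈ P := by
    intro x
    rw [← Submodule.Quotient.mk_eq_zero, LinearMap.sub_apply, LinearMap.id_apply,
      LinearMap.comp_apply, Submodule.Quotient.mk_sub]
    have h6 : P.mkQ (s (P.mkQ x)) = P.mkQ x := by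
      have h7 := congrArg (fun f => f (P.mkQ x)) hs
      exact h7
    have h8 : (Submodule.Quotient.mk (s (P.mkQ x)) : M ⧸ P) = Submodule.Quotient.mk x := h6
    rw [h8, sub_self]
  refine ⟨LinearMap.codRestrict P (LinearMap.id - s.comp P.mkQ) h5, fun x => ?_⟩
  apply Subtype.ext
  rw [LinearMap.codRestrict_apply, LinearMap.sub_apply, LinearMap.id_apply,
    LinearMap.comp_apply]
  have h6 : P.mkQ (x : M) = 0 := by
    rw [Submodule.mkQ_apply, Submodule.Quotient.mk_eq_zero]
    exact x.2
  rw [h6, map_zero, sub_zero]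

theorem if_inc_inj (ι : G ≃* (H ≃ₐ[F] H)) (S T : Finset (HeightOneSpectrum (𝓞 F))) :
    Function.Injective (inc ι S T) := by
  intro x y h
  have h1 := congrArg UM.val h
  rw [RSK.rf2_inc_val, RSK.rf2_inc_val] at h1
  have h2 : ((Additive.toMul x : Un S T) : Fˣ) = ((Additive.toMul y : Un S T) : Fˣ) := by
    apply Units.ext
    have h3 := congrArg (fun u : Hˣ => (u : H)) h1
    exact (algebraMap F H).injective h3
  exact Additive.toMul.injective (Subtype.ext h2)

theorem if_sat (htf : Module.IsTorsionFree ℤ (UM ι S T)) (n : ℤ) (x : UM ι S T)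
    (h : n • x ∈ mPlus G (UM ι S T)) : n = 0 ∨ x ∈ mPlus G (UM ι S T) := by
  by_cases hn : n = 0
  · exact Or.inl hn
  · right
    intro g
    have h1 : MonoidAlgebra.single g (1 : ℤ) • (n • x) = n • x := h g
    have h2 : n • (MonoidAlgebra.single g (1 : ℤ) • x - x) = 0 := by
      rw [smul_sub, smul_comm n (MonoidAlgebra.single g (1 : ℤ)) x, h1, sub_self]
    have h3 : MonoidAlgebra.single g (1 : ℤ) • x - x = 0 :=
      (smul_eq_zero.1 h2).resolve_left hn
    exact sub_eq_zero.1 h3

theorem if_fun (htf : Module.IsTorsionFree ℤ (UM ι S T)) (hfin : Module.Finite ℤ (UM ι S T))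
    (b : Module.Basis (Fin r) ℤ (Additive (Un S T))) :
    ∃ f : Fin r → (UM ι S T →+ ℤ), ∀ i j, f i (inc ι S T (b j)) = if i = j then 1 else 0 := by
  classical
  let I : Additive (Un S T) →ₗ[ℤ] UM ι S T := (inc ι S T).toIntLinearMap
  have hI : Function.Injective I := if_inc_inj ι S T
  obtain ⟨π, hπ⟩ := if_retr (LinearMap.range I) (by
    intro n x hx
    have h1 : n • x ∈ mPlus G (UM ι S T) := by
      obtain ⟨y, hy⟩ := hx
      rw [← hy]
      exact RSK.rf2_inc_plus y
    rcases if_sat htf n x h1 with h2 | h2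
    · exact Or.inl h2
    · right
      obtain ⟨y, hy⟩ := RSK.rf2_plus x h2
      exact ⟨y, hy⟩)
  let e : Additive (Un S T) ≃ₗ[ℤ] LinearMap.range I := LinearEquiv.ofInjective I hI
  refine ⟨fun i => ((b.coord i).comp (e.symm.toLinearMap.comp π)).toAddMonoidHom, ?_⟩
  intro i j
  show b.coord i (e.symm (π (inc ι S T (b j)))) = _
  have h1 : π (inc ι S T (b j)) = e (b j) := by
    have h2 : inc ι S T (b j) = ((e (b j) : LinearMap.range I) : UM ι S T) := rfl
    rw [h2]
    exact hπ _
  rw [h1, LinearEquiv.symm_apply_apply, Module.Basis.coord_apply, Module.Basis.repr_self,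
    Finsupp.single_apply]
  by_cases hij : i = j
  · rw [if_pos hij, if_pos hij.symm]
  · rw [if_neg hij, if_neg (fun h => hij h.symm)]

theorem if_psi_coeff {M : Type} [AddCommGroup M] [Module (MonoidAlgebra ℤ G) M] (φ : M →+ ℤ)
    (m : M) : (RB.psi (G := G) φ m).coeff (1 : G) = φ m := by
  classical
  rw [RB.psi_apply, MonoidAlgebra.coeff_sum, Finsupp.finsetSum_apply, Finset.sum_eq_single 1]
  · rw [MonoidAlgebra.coeff_single, Finsupp.single_eq_same, inv_one]
    have h : (MonoidAlgebra.single (1 : G) (1 : ℤ)) = 1 := rfl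
    rw [h, one_smul]
  · intro g _ hne
    rw [MonoidAlgebra.coeff_single, Finsupp.single_eq_of_ne hne.symm]
  · intro h
    exact absurd (Finset.mem_univ _) h

theorem if_psi_eps {M : Type} [AddCommGroup M] [Module (MonoidAlgebra ℤ G) M] (φ : M →+ ℤ)
    (m : M) : if_aug G (RB.psi φ m) = φ (nrm G • m) := by
  rw [RB.psi_apply, map_sum]
  have h1 : nrm G • m = ∑ g : G, MonoidAlgebra.single g⁻¹ (1 : ℤ) • m := by
    unfold nrm
    rw [Finset.sum_smul]
    exact (Equiv.sum_comp (Equiv.inv G) (fun g => MonoidAlgebra.single g (1 : ℤ) • m)).symm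
  rw [h1, map_sum]
  exact Finset.sum_congr rfl fun g _ => if_aug_single _ _

/-- functionals dual to a basis of `U_{S,T}(F)`, and elements with these norms -/
theorem if_dual (hp : p.Prime) (hG : Nat.card G = p) (hD : One ι S T r w fr)
    (hA' : ¬ p ∣ hA S T) (b : Module.Basis (Fin r) ℤ (Additive (Un S T))) :
    ∃ (x : Fin r → UM ι S T) (ψ : Fin r → (UM ι S T →ₗ[MonoidAlgebra ℤ G] MonoidAlgebra ℤ G)),
      (∀ j, nrm G • x j = inc ι S T (b j)) ∧
      (∀ i j, (ψ i (inc ι S T (b j))).coeff 1 = if i = j then 1 else 0) ∧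
      eps (pmat ψ x).det = 1 := by
  classical
  have htf := RSK.um_tf hD.data
  have hfin := RSK.um_finite hD.data
  obtain ⟨f, hf⟩ := if_fun (r := r) htf hfin b
  have hx : ∀ j : Fin r, ∃ y : UM ι S T, nrm G • y = inc ι S T (b j) := fun j =>
    ic_norm hp hG hD hA' (RSK.rf2_inc_plus (b j))
  choose x hx using hx
  refine ⟨x, fun i => RB.psi (f i), hx, ?_, ?_⟩
  · intro i j
    rw [if_psi_coeff]
    exact hf i j
  · rw [← if_eps, RingHom.map_det]
    have h1 : (if_aug G).mapMatrix (pmat (fun i => RB.psi (f i)) x) = 1 := by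
      ext i j
      show if_aug G (RB.psi (f i) (x j)) = (1 : Matrix (Fin r) (Fin r) ℤ) i j
      rw [if_psi_eps, hx, hf, Matrix.one_apply]
    rw [h1, Matrix.det_one]

theorem if_basis (hp : p.Prime) (hG : Nat.card G = p) (hD : One ι S T r w fr) :
    Nonempty (Module.Basis (Fin r) ℤ (Additive (Un S T))) := by
  classical
  have h1 := (RSK.tf_H hD.data).1
  have h2 : TFree S T := RSK.tf_F h1
  obtain ⟨n, ⟨b⟩⟩ := RSK.un_exists hD.data.disj h2
  have h3 := (RSK.cnf hD.data.disj h2 b).1
  have h4 : Fintype.card (PS S) = Fintype.card (InfinitePlace F) + S.card := by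
    rw [Fintype.card_sum, Fintype.card_coe]
  have h5 := hD.one
  have h6 : n = r := by omega
  subst h6
  exact ⟨b⟩
end
end Pool.Agent.PD
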