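import Pool.Agent.Lib_helper24.PD.Defs
import Pool.Agent.Lib_helper17.KR.AtP
import Pool.Agent.Lib_helper17.CRF.E_EB
set_option autoImplicit false
set_option linter.unusedSectionVars false
namespace Pool.Agent.PD
open Pool.Agent Pool.Agent.RSK Pool.Agent.RS2 Pool.Agent.AU
open NumberField IsDedekindDomain Filter Topology Complex
open scoped TensorProduct
section
variable {F H : Type} [Field F] [NumberField F] [Field H] [NumberField H] [Algebra F H]
  [IsGalois F H] {G : Type} [CommGroup G] [Fintype G] {p : ℕ} {ι : G ≃* (H ≃ₐ[F] H)}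
  {S T : Finset (HeightOneSpectrum (𝓞 F))} {r : ℕ} {w : Fin r → Pl H}
  {fr : HeightOneSpectrum (𝓞 F) → G}

theorem jr_ker (hp : p.Prime) (hG : Nat.card G = p) {χ : G →* ℂˣ} (hχ : χ ≠ 1) {g : G}
    (hg : χ g = 1) : g = 1 := by
  by_contra h1
  apply hχ
  haveI : Fact p.Prime := ⟨hp⟩
  have h2 : Subgroup.zpowers g = ⊤ := zpowers_eq_top_of_prime_card hG h1
  ext x
  obtain ⟨k, rfl⟩ := Subgroup.mem_zpowers_iff.1 (h2 ▸ Subgroup.mem_top x)
  rw [map_zpow, hg, one_zpow]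
  rfl

/-- in the case `#S = r + 1` all characters contribute -/
theorem jr_cont (hp : p.Prime) (hG : Nat.card G = p) (hD : One ι S T r w fr) (χ : G →* ℂˣ) :
    Cont ι S w χ := by
  refine ⟨fun _ => hD.one, fun hχ W hW h1 => hD.data.all W hW fun σ hσ => ?_⟩
  have h2 := h1 (ι.symm σ) (by rw [MulEquiv.apply_symm_apply]; exact hσ)
  have h3 := jr_ker hp hG hχ h2
  rw [← MulEquiv.apply_symm_apply ι σ, h3, map_one]

/-- `(g - 1) u` is integral at `p`, without any hypothesis -/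
theorem jr_int (hp : p.Prime) (hG : Nat.card G = p) (hD : One ι S T r w fr)
    {u : (⋀[MonoidAlgebra ℤ G]^r (UM ι S T)) ⊗[ℤ] ℚ} (hu : Stk ι S T w fr u)
    (ψ : Fin r → (UM ι S T →ₗ[MonoidAlgebra ℤ G] MonoidAlgebra ℤ G)) (g : G) :
    ∃ (m : ℕ) (d : MonoidAlgebra ℤ G), m.Coprime p ∧
      (m : ℚ) • (toQ G (MonoidAlgebra.single g 1 - 1) * psiQ ψ u) = toQ G d := by
  haveI : Fact p.Prime := ⟨hp⟩
  obtain ⟨c, hL, hV⟩ := hu
  have hG1 : Nat.card G = p ^ 1 := by rw [hG, pow_one]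
  have hcyc : IsCyclic G := isCyclic_of_prime_card hG
  have hex : Monoid.exponent G = p ^ 1 := by rw [IsCyclic.exponent_eq_card, hG1]
  have hm : CR.mQ p G = 1 := by
    rw [RB.mQ_eq hp hG1 hex]
    simp
  have hmem : (MonoidAlgebra.single g 1 - 1 : MonoidAlgebra ℤ G) ∈
      Ideal.span {((Nat.card G : ℕ) : MonoidAlgebra ℤ G)} ⊔ CR.augQ p G ^ CR.mQ p G := by
    refine Submodule.mem_sup_right ?_
    rw [hm, pow_one, RB.augQ_eq hG1]
    exact Ideal.subset_span ⟨g, rfl⟩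
  have h1 := KR.starkMul_p ι S T w fr hD.data hp (IsPGroup.of_card hG1) (Or.inr hmem) c _ hL hV
    (UM ι S T) _ _ _ _ (RB.isMod_wl ι S T w) u ⟨fun a ha => ?_, rfl⟩ ψ
  · obtain ⟨m, d, hm, hd⟩ := h1
    refine ⟨m, d, ((Nat.Prime.coprime_iff_not_dvd hp).2 hm).symm, ?_⟩
    rw [pow_zero, mul_one] at hd
    rw [← hd, ← CR.eb_psiQ_smul, Nat.cast_smul_eq_nsmul]
    rfl
  · have h2 : a = 0 := by
      apply al_toQ_inj
      apply evQ_inj
      intro χ
      rw [map_zero, map_zero]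
      exact ha χ (jr_cont hp hG hD χ)
    rw [h2, zero_smul]
end
end Pool.Agent.PD
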