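import Pool.Agent.Lib_helper24.PD.Defs
import Pool.Agent.Lib_helper24.PD.P.GB
import Pool.Agent.Lib_helper24.PD.P.HA
import Pool.Agent.Lib_helper24.PD.P.HB
import Pool.Agent.Lib_helper24.PD.P.HC
import Pool.Agent.Lib_helper24.PD.P.IF
import Pool.Agent.Lib_helper24.PD.P.JR
set_option autoImplicit false
set_option linter.unusedSectionVars false
namespace Pool.Agent.PD
open Pool.Agent Pool.Agent.RSK Pool.Agent.RS2 Pool.Agent.AU
open NumberField IsDedekindDomain Filter Topology Complex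
open scoped TensorProduct
section
variable {F H : Type} [Field F] [NumberField F] [Field H] [NumberField H] [Algebra F H]
  [IsGalois F H] {G : Type} [CommGroup G] [Fintype G] {p : ℕ} {ι : G ≃* (H ≃ₐ[F] H)}
  {S T : Finset (HeightOneSpectrum (𝓞 F))} {r : ℕ} {w : Fin r → Pl H}
  {fr : HeightOneSpectrum (𝓞 F) → G}
theorem ja_uniq (hp : p.Prime) (hG : Nat.card G = p) (hD : One ι S T r w fr)
    {u u' : (⋀[MonoidAlgebra ℤ G]^r (UM ι S T)) ⊗[ℤ] ℚ} (hu : Stk ι S T w fr u)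
    (hu' : Stk ι S T w fr u')
    (ψ : Fin r → (UM ι S T →ₗ[MonoidAlgebra ℤ G] MonoidAlgebra ℤ G)) : psiQ ψ u = psiQ ψ u' := by
  obtain ⟨c, hL, hV⟩ := hu
  obtain ⟨c', hL', hV'⟩ := hu'
  obtain rfl := ha_lead hL hL'
  obtain ⟨x, hx⟩ := hb_ne hp hG hD
  refine ha_ext fun χ => ?_
  have h1 := hb_star hp hG hD hV χ x ψ
  have h2 := hb_star hp hG hD hV' χ x ψ
  exact mul_right_cancel₀ (hx χ) (h1.trans h2.symm)
theorem ja_R0 (hp : p.Prime) (hG : Nat.card G = p) (hD : One ι S T r w fr)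
    {u : (⋀[MonoidAlgebra ℤ G]^r (UM ι S T)) ⊗[ℤ] ℚ} (hu : Stk ι S T w fr u)
    (ψ : Fin r → (UM ι S T →ₗ[MonoidAlgebra ℤ G] MonoidAlgebra ℤ G)) : R0 p (psiQ ψ u) := by
  obtain ⟨b⟩ := if_basis hp hG hD
  obtain ⟨s, -, hs⟩ := hc_one hp hG hD hu b
  exact gb_R0 hp hG _ (jr_int hp hG hD hu ψ) ⟨_, hs ψ⟩
end
end Pool.Agent.PD
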