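import Pool.Agent.Lib_helper24.PD.Defs
import Pool.Agent.Lib_helper24.PD.P.GA
import Pool.Agent.Lib_helper24.PD.P.GB
import Pool.Agent.Lib_helper24.PD.P.GC
import Pool.Agent.Lib_helper24.PD.P.HA
import Pool.Agent.Lib_helper24.PD.P.HC
import Pool.Agent.Lib_helper24.PD.P.HD
import Pool.Agent.Lib_helper24.PD.P.IB
import Pool.Agent.Lib_helper24.PD.P.ID
import Pool.Agent.Lib_helper24.PD.P.IE
import Pool.Agent.Lib_helper24.PD.P.IF
import Pool.Agent.Lib_helper24.PD.P.JA1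
import Pool.Agent.Lib_helper17.RS.P_PX1
import Pool.Agent.Lib_helper17.RS.P_NM2
import Pool.Agent.Lib_helper17.RS.P_RF2
set_option autoImplicit false
set_option linter.unusedSectionVars false
namespace Pool.Agent.PD
open Pool.Agent Pool.Agent.RSK Pool.Agent.RS2 Pool.Agent.AU
open NumberField IsDedekindDomain Filter Topology Complex
open scoped TensorProduct
section
variable {F H : Type} [Field F] [NumberField F] [Field H] [NumberField H] [Algebra F H]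
  [IsGalois F H] {G : Type} [CommGroup G] [Fintype G] {p : ℕ} {ι : G ≃* (H ≃ₐ[F] H)}
  {S T : Finset (HeightOneSpectrum (𝓞 F))} {r : ℕ} {w : Fin r → Pl H}
  {fr : HeightOneSpectrum (𝓞 F) → G}

theorem ja2_plus (φ : UM ι S T →ₗ[MonoidAlgebra ℤ G] MonoidAlgebra ℤ G)
    (b : Module.Basis (Fin r) ℤ (Additive (Un S T)))
    (h : ∀ j, (φ (inc ι S T (b j))).coeff 1 = 0) {x : UM ι S T} (hx : x ∈ mPlus G (UM ι S T)) :
    (φ x).coeff 1 = 0 := by
  obtain ⟨y, rfl⟩ := RSK.rf2_plus x hx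
  let f : Additive (Un S T) →+ ℤ :=
    { toFun := fun y => (φ (inc ι S T y)).coeff 1
      map_zero' := by rw [map_zero, map_zero]; simp
      map_add' := fun y z => by rw [map_add, map_add]; simp }
  have hf : f.toIntLinearMap = 0 := b.ext fun j => by
    show (φ (inc ι S T (b j))).coeff 1 = 0
    exact h j
  have := congrArg (fun g : Additive (Un S T) →ₗ[ℤ] ℤ => g y) hf
  exact this

theorem ja2_closure (hp : p.Prime) (hG : Nat.card G = p) (hD : One ι S T r w fr) {σ : G}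
    (hσ : σ ≠ 1) (hA' : ¬ p ∣ hA S T) (b : Module.Basis (Fin r) ℤ (Additive (Un S T)))
    (ψ0 : Fin r → (UM ι S T →ₗ[MonoidAlgebra ℤ G] MonoidAlgebra ℤ G))
    (hd : ∀ i j, (ψ0 i (inc ι S T (b j))).coeff 1 = if i = j then 1 else 0) :
    AddSubgroup.closure (Set.range ψ0 ∪
      ({φ | ∃ φ' : UM ι S T →ₗ[MonoidAlgebra ℤ G] MonoidAlgebra ℤ G,
        φ = (p : MonoidAlgebra ℤ G) • φ'} ∪
      {φ | ∃ φ' : UM ι S T →ₗ[MonoidAlgebra ℤ G] MonoidAlgebra ℤ G,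
        φ = (MonoidAlgebra.single σ (1 : ℤ) - 1) • φ'})) = ⊤ := by
  rw [eq_top_iff]
  intro φ _
  set c : Fin r → ℤ := fun i => (φ (inc ι S T (b i))).coeff 1 with hc
  have hz : ∀ j, ((φ - ∑ i, c i • ψ0 i) (inc ι S T (b j))).coeff 1 = 0 := by
    intro j
    have e1 : (φ - ∑ i, c i • ψ0 i) (inc ι S T (b j)) =
        φ (inc ι S T (b j)) - ∑ i, c i • ψ0 i (inc ι S T (b j)) := by
      rw [LinearMap.sub_apply, LinearMap.sum_apply]
      rfl
    let g : MonoidAlgebra ℤ G →+ ℤ :=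
      { toFun := fun y => y.coeff 1
        map_zero' := by simp
        map_add' := fun y z => by simp }
    have e2 : ∀ y : MonoidAlgebra ℤ G, y.coeff 1 = g y := fun _ => rfl
    rw [e1, e2, map_sub, map_sum]
    have e3 : ∀ i, g (c i • ψ0 i (inc ι S T (b j))) = c i * if i = j then 1 else 0 := by
      intro i
      rw [map_zsmul, ← e2, hd, smul_eq_mul]
    rw [Finset.sum_congr rfl fun i _ => e3 i]
    simp [hc, ← e2]
  obtain ⟨ψ', ψ'', h⟩ := ie_lift hp hG hD.data hσ hA' (φ - ∑ i, c i • ψ0 i) fun x hx => by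
    rw [ja2_plus _ b hz hx]
    exact dvd_zero _
  have e : φ = ∑ i, c i • ψ0 i + ((p : MonoidAlgebra ℤ G) • ψ' +
      (MonoidAlgebra.single σ (1 : ℤ) - 1) • ψ'') := by
    rw [← h]
    abel
  have k1 : ∀ i, ψ0 i ∈ AddSubgroup.closure (Set.range ψ0 ∪
      ({φ | ∃ φ' : UM ι S T →ₗ[MonoidAlgebra ℤ G] MonoidAlgebra ℤ G,
        φ = (p : MonoidAlgebra ℤ G) • φ'} ∪
      {φ | ∃ φ' : UM ι S T →ₗ[MonoidAlgebra ℤ G] MonoidAlgebra ℤ G,
        φ = (MonoidAlgebra.single σ (1 : ℤ) - 1) • φ'})) := fun i =>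
    AddSubgroup.subset_closure (Or.inl ⟨i, rfl⟩)
  have k2 := AddSubgroup.subset_closure (k := Set.range ψ0 ∪
      ({φ | ∃ φ' : UM ι S T →ₗ[MonoidAlgebra ℤ G] MonoidAlgebra ℤ G,
        φ = (p : MonoidAlgebra ℤ G) • φ'} ∪
      {φ | ∃ φ' : UM ι S T →ₗ[MonoidAlgebra ℤ G] MonoidAlgebra ℤ G,
        φ = (MonoidAlgebra.single σ (1 : ℤ) - 1) • φ'})) (Or.inr (Or.inl ⟨ψ', rfl⟩))
  have k3 := AddSubgroup.subset_closure (k := Set.range ψ0 ∪
      ({φ | ∃ φ' : UM ι S T →ₗ[MonoidAlgebra ℤ G] MonoidAlgebra ℤ G,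
        φ = (p : MonoidAlgebra ℤ G) • φ'} ∪
      {φ | ∃ φ' : UM ι S T →ₗ[MonoidAlgebra ℤ G] MonoidAlgebra ℤ G,
        φ = (MonoidAlgebra.single σ (1 : ℤ) - 1) • φ'})) (Or.inr (Or.inr ⟨ψ'', rfl⟩))
  rw [e]
  exact AddSubgroup.add_mem _ (AddSubgroup.sum_mem _ fun i _ => AddSubgroup.zsmul_mem _ (k1 i) _)
    (AddSubgroup.add_mem _ k2 k3)

/-- the unit `a` exists -/
theorem ja_exists (hp : p.Prime) (hG : Nat.card G = p) (hD : One ι S T r w fr)
    (hA' : ¬ p ∣ hA S T) : ∃ a : ℤ, ¬ (p : ℤ) ∣ a ∧ Adm p a ι S T w fr := by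
  have hpZ : Prime (p : ℤ) := Nat.prime_iff_prime_int.mp hp
  have hp1 : ¬ (p : ℤ) ∣ 1 := hpZ.not_dvd_one
  by_cases hex : ∃ u, Stk ι S T w fr u
  swap
  · exact ⟨1, hp1, fun u hu => (hex ⟨u, hu⟩).elim⟩
  obtain ⟨u, hu⟩ := hex
  obtain ⟨σ, hσ⟩ := RSK.nm2_sigma hp hG
  obtain ⟨b⟩ := if_basis hp hG hD
  obtain ⟨x, ψ0, hx, hd, he⟩ := if_dual hp hG hD hA' b
  obtain ⟨s, hs, hev⟩ := hc_one hp hG hD hu b
  obtain ⟨m, k, β, hm, hrep⟩ := ja_R0 hp hG hD hu ψ0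
  obtain ⟨g1, g2⟩ := ga_ev hp hG hrep
  have hmp' : ¬ p ∣ m := (Nat.Prime.coprime_iff_not_dvd hp).1 hm.symm
  have hmp : ¬ (p : ℤ) ∣ (m : ℤ) := fun h => hmp' (by exact_mod_cast h)
  have hdet : Matrix.det (Matrix.of fun i j => (ψ0 i (inc ι S T (b j))).coeff 1) = 1 := by
    have : (Matrix.of fun i j => (ψ0 i (inc ι S T (b j))).coeff 1) =
        (1 : Matrix (Fin r) (Fin r) ℤ) := by
      ext i j
      rw [Matrix.of_apply, hd, Matrix.one_apply]
    rw [this, Matrix.det_one]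
  have h1 : (m : ℤ) * (s * (hA S T : ℤ)) = k + eps β := by
    have h0 := hev ψ0
    rw [hdet, mul_one] at h0
    rw [h0] at g1
    exact_mod_cast g1
  have hkE : ¬ (p : ℤ) ∣ k + eps β := by
    rw [← h1]
    intro h
    rcases hpZ.dvd_or_dvd h with h | h
    · exact hmp h
    · rcases hpZ.dvd_or_dvd h with h | h
      · rcases hs with rfl | rfl
        · exact hp1 h
        · exact hp1 ((dvd_neg).1 h)
      · exact hA' (by exact_mod_cast h)
  -- the norm formula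
  obtain ⟨t, ht, ht'⟩ := gb_prod hp hG (pmat ψ0 x).det
  rw [he, one_pow] at ht'
  have htp : ¬ (p : ℤ) ∣ t := fun h => hp1 (by
    have := dvd_sub h ht'
    rwa [sub_sub_cancel] at this)
  have ht0 : t ≠ 0 := fun h => htp (h ▸ dvd_zero _)
  have hne : ∀ χ : G →* ℂˣ, χ ≠ 1 → evZ χ (pmat ψ0 x).det ≠ 0 := by
    apply (pX_ne_zero (φ := fun χ => evZ χ (pmat ψ0 x).det)).1
    rw [ht]
    exact_mod_cast ht0
  obtain ⟨k', hk'⟩ := hd_norm hp hG hD hσ hu x ψ0 hne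
  rw [AddSubgroup.relIndex_eq_one.2 (ib_minus hp hG hD.data hσ hA'), mul_one, ht] at hk'
  obtain ⟨tb, htb, htb'⟩ := gb_prod hp hG β
  have h2 : (m : ℂ) ^ (p - 1) * pX (fun χ => evQ χ (psiQ ψ0 u)) = tb := by
    rw [← pX_const hG, ← pX_mul, ← htb]
    exact pX_congr g2
  have h3 : (m : ℝ) ^ (p - 1) * ‖pX (fun χ => evQ χ (psiQ ψ0 u))‖ = |(tb : ℝ)| := by
    have := congrArg norm h2
    rw [norm_mul, norm_pow, Complex.norm_natCast, Complex.norm_intCast] at this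
    exact this
  rw [Complex.norm_intCast] at hk'
  have h4 : |(tb : ℝ)| * ((hA S T * k' : ℕ) : ℝ) =
      (m : ℝ) ^ (p - 1) * ((hA (ovr H S) (ovr H T) : ℕ) * |(t : ℝ)|) := by
    rw [← hk', ← h3]
    ring
  have h5 : |tb| * ((hA S T * k' : ℕ) : ℤ) =
      (m : ℤ) ^ (p - 1) * ((hA (ovr H S) (ovr H T) : ℕ) * |t|) := by
    exact_mod_cast h4
  have htbp : ¬ (p : ℤ) ∣ tb := by
    intro h
    have h6 : (p : ℤ) ∣ (m : ℤ) ^ (p - 1) * ((hA (ovr H S) (ovr H T) : ℕ) * |t|) := by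
      rw [← h5]
      exact ((dvd_abs _ _).2 h).mul_right _
    rcases hpZ.dvd_or_dvd h6 with h7 | h7
    · exact hmp (hpZ.dvd_of_dvd_pow h7)
    · rcases hpZ.dvd_or_dvd h7 with h8 | h8
      · exact id_class hp hG hD hA' (by exact_mod_cast h8)
      · exact htp ((dvd_abs _ _).1 h8)
  have hep : ¬ (p : ℤ) ∣ eps β := by
    intro h
    apply htbp
    have h6 : (p : ℤ) ∣ eps β ^ (p - 1) := dvd_pow h (by have := hp.two_le; omega)
    have := dvd_add htb' h6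
    rwa [sub_add_cancel] at this
  -- the choice of `a`
  have hco : IsCoprime (k + eps β) (p : ℤ) := ((Irreducible.coprime_iff_not_dvd hpZ.irreducible).2
    hkE).symm
  obtain ⟨c, d, hcd⟩ := hco
  have hadv : (p : ℤ) ∣ c * eps β * (k + eps β) - eps β := ⟨-(d * eps β), by
    linear_combination (eps β) * hcd⟩
  refine ⟨c * eps β, ?_, ?_⟩
  · intro h
    apply hep
    have := dvd_sub (h.mul_right (k + eps β)) hadv
    rwa [sub_sub_cancel] at this
  have hy0 : psiQ ψ0 u ∈ Qa p G (c * eps β) := by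
    rw [ga_iff hp hG _ hm hrep]
    have e : k + (c * eps β - 1) * (k + eps β) = c * eps β * (k + eps β) - eps β := by ring
    rw [e]
    exact hadv
  intro u' hu' ψ
  rw [ja_uniq hp hG hD hu' hu ψ]
  refine gc_span (fun ψ => psiQ ψ u) (fun ψ i x y => ha_add u ψ i x y) (Qa p G (c * eps β)) _
    (ja2_closure hp hG hD hσ hA' b ψ0 hd) ?_ ψ
  intro ψ hψ
  by_cases hc1 : ∃ i, ∃ φ' : UM ι S T →ₗ[MonoidAlgebra ℤ G] MonoidAlgebra ℤ G,
      ψ i = (p : MonoidAlgebra ℤ G) • φ'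
  · obtain ⟨i, φ', hi⟩ := hc1
    have e : ψ = Function.update ψ i ((p : MonoidAlgebra ℤ G) • φ') := by
      rw [← hi, Function.update_eq_self]
    rw [e, ha_smul]
    exact ga_p hp hG _ (ja_R0 hp hG hD hu _)
  by_cases hc2 : ∃ i, ∃ φ' : UM ι S T →ₗ[MonoidAlgebra ℤ G] MonoidAlgebra ℤ G,
      ψ i = (MonoidAlgebra.single σ (1 : ℤ) - 1) • φ'
  · obtain ⟨i, φ', hi⟩ := hc2
    have e : ψ = Function.update ψ i ((MonoidAlgebra.single σ (1 : ℤ) - 1) • φ') := by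
      rw [← hi, Function.update_eq_self]
    rw [e, ha_smul]
    exact ga_sig hp hG _ σ (ja_R0 hp hG hD hu _)
  have hτ : ∀ i, ∃ j, ψ0 j = ψ i := by
    intro i
    rcases hψ i with h | h | h
    · exact h
    · exact (hc1 ⟨i, h⟩).elim
    · exact (hc2 ⟨i, h⟩).elim
  choose τ hτ using hτ
  by_cases hinj : Function.Injective τ
  · have hbij : Function.Bijective τ := Finite.injective_iff_bijective.1 hinj
    have e : ψ = fun i => ψ0 (Equiv.ofBijective τ hbij i) := funext fun i => (hτ i).symm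
    rw [e]
    rcases ha_perm u ψ0 (Equiv.ofBijective τ hbij) with h | h
    · rw [h]
      exact hy0
    · rw [h]
      exact AddSubgroup.neg_mem _ hy0
  · unfold Function.Injective at hinj
    push Not at hinj
    obtain ⟨i, j, hij, hne'⟩ := hinj
    rw [ha_eq u ψ hne' (by rw [← hτ i, ← hτ j, hij])]
    exact AddSubgroup.zero_mem _

end
end Pool.Agent.PD
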