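import Pool.Agent.Lib_helper24.PD.Defs
import Pool.Agent.Lib_helper24.PD.P.GA
import Pool.Agent.Lib_helper24.PD.P.HC
import Pool.Agent.Lib_helper24.PD.P.IF
import Pool.Agent.Lib_helper24.PD.P.JA1
set_option autoImplicit false
set_option linter.unusedSectionVars false
namespace Pool.Agent.PD
open Pool.Agent Pool.Agent.RSK Pool.Agent.RS2 Pool.Agent.AU
open NumberField IsDedekindDomain Filter Topology Complex
open scoped TensorProduct
section
variable {F H : Type} [Field F] [NumberField F] [Field H] [NumberField H] [Algebra F H]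
  [IsGalois F H] {G : Type} [CommGroup G] [Fintype G] {p : ℕ} {ι : G ≃* (H ≃ₐ[F] H)}
  {S T : Finset (HeightOneSpectrum (𝓞 F))} {r : ℕ} {w : Fin r → Pl H}
  {fr : HeightOneSpectrum (𝓞 F) → G}
/-- the unit `a` is unique modulo `p` -/
theorem ja_congr (hp : p.Prime) (hG : Nat.card G = p) (hD : One ι S T r w fr)
    {a a' : ℤ} (h : (p : ℤ) ∣ a - a') (ha : Adm p a ι S T w fr) : Adm p a' ι S T w fr :=
  fun u hu ψ => (ga_congr hp hG h (ja_R0 hp hG hD hu ψ)).1 (ha u hu ψ)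
theorem ja_eq (hp : p.Prime) (hG : Nat.card G = p) (hE : Ext ι) (hD : One ι S T r w fr)
    (hA' : ¬ p ∣ hA S T) {a a' : ℤ} (ha : Adm p a ι S T w fr) (ha' : Adm p a' ι S T w fr) :
    (p : ℤ) ∣ a - a' := by
  classical
  obtain ⟨u, hu⟩ := hE S T r w fr hD
  obtain ⟨b⟩ := if_basis hp hG hD
  obtain ⟨s, hs1, hs⟩ := hc_one hp hG hD hu b
  obtain ⟨x, ψ, -, h2, -⟩ := if_dual hp hG hD hA' b
  have h3 : (Matrix.of fun i j => (ψ i (inc ι S T (b j))).coeff 1) = (1 : Matrix (Fin r) (Fin r) ℤ) := by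
    ext i j
    rw [Matrix.of_apply, h2, Matrix.one_apply]
  refine ga_uniq hp hG (hs ψ) ?_ (ha u hu ψ) (ha' u hu ψ)
  rw [h3, Matrix.det_one, mul_one]
  rcases hs1 with rfl | rfl
  · rw [one_mul]
    exact_mod_cast hA'
  · rw [neg_mul, one_mul, dvd_neg]
    exact_mod_cast hA'
end
end Pool.Agent.PD
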