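import Pool.Agent.Lib_helper24.PD.Defs
import Pool.Agent.Lib_helper17.RS.P_DI
import Pool.Agent.Lib_helper17.RS.P_L1
set_option autoImplicit false
set_option linter.unusedSectionVars false
namespace Pool.Agent.PD
open Pool.Agent Pool.Agent.RSK Pool.Agent.RS2 Pool.Agent.AU
open NumberField IsDedekindDomain Filter Topology Complex
open scoped TensorProduct
section
variable {F H : Type} [Field F] [NumberField F] [Field H] [NumberField H] [Algebra F H]
  [IsGalois F H] {G : Type} [CommGroup G] [Fintype G] {p : ℕ} {ι : G ≃* (H ≃ₐ[F] H)}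
  {S T : Finset (HeightOneSpectrum (𝓞 F))} {r : ℕ} {w : Fin r → Pl H}
  {fr : HeightOneSpectrum (𝓞 F) → G}
theorem ka_fr (hp : p.Prime) (hG : Nat.card G = p) (hD : One ι S T r w fr)
    {v : HeightOneSpectrum (𝓞 F)} (hv : v ∉ S) (hs : Spl H (Sum.inr v : Pl F)) : fr v = 1 := by
  obtain ⟨W, hW⟩ : ∃ W : HeightOneSpectrum (𝓞 H), W.under (𝓞 F) = v := by
    obtain ⟨W, hW⟩ := dn_surj (F := F) (H := H) (Sum.inr v)
    rcases W with W | W
    · exact absurd hW (by simp [dn])
    · exact ⟨W, by simpa [dn] using hW⟩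
  have h := l1_act_fr (hD.data.frob v hv) hW
  have h2 := hs (Sum.inr W) (by
    show Sum.inr (W.under (𝓞 F)) = _
    rw [hW]) _ h
  exact ι.injective (h2.trans (map_one ι).symm)
/-- the data for `S ∪ {v}`, `v` split -/
theorem ka_data (hp : p.Prime) (hG : Nat.card G = p) (hD : One ι S T r w fr)
    {v : HeightOneSpectrum (𝓞 F)} (hv : v ∉ S) (hvT : v ∉ T) {W : HeightOneSpectrum (𝓞 H)}
    (hW : W.under (𝓞 F) = v) (hs : Spl H (Sum.inr v : Pl F)) :
    One ι (Finset.cons v S hv) T (r + 1) (Fin.snoc (α := fun _ => Pl H) w (Sum.inr W)) fr := by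
  refine ⟨data_split hD.data hv hvT (ka_fr hp hG hD hv hs) hW, ?_⟩
  rw [Finset.card_cons]
  have := hD.one
  omega
end
end Pool.Agent.PD
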