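import Pool.Agent.Lib_helper24.PD.Defs
import Pool.Agent.Lib_helper24.PD.P.HA
import Pool.Agent.Lib_helper24.PD.P.HB
import Pool.Agent.Lib_helper24.PD.P.KA1
set_option autoImplicit false
set_option linter.unusedSectionVars false
namespace Pool.Agent.PD
open Pool.Agent Pool.Agent.RSK Pool.Agent.RS2 Pool.Agent.AU
open NumberField IsDedekindDomain Filter Topology Complex
open scoped TensorProduct
section
variable {F H : Type} [Field F] [NumberField F] [Field H] [NumberField H] [Algebra F H]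
  [IsGalois F H] {G : Type} [CommGroup G] [Fintype G] {p : ℕ} {ι : G ≃* (H ≃ₐ[F] H)}
  {S T : Finset (HeightOneSpectrum (𝓞 F))} {r : ℕ} {w : Fin r → Pl H}
  {fr : HeightOneSpectrum (𝓞 F) → G}

/-- a matrix whose last row is zero except for the last entry -/
theorem ka2_det {R : Type} [CommRing R] {r : ℕ} (M : Matrix (Fin (r + 1)) (Fin (r + 1)) R)
    (h : ∀ j : Fin r, M (Fin.last r) j.castSucc = 0) :
    M.det = (Matrix.of fun i j : Fin r => M i.castSucc j.castSucc).det *
      M (Fin.last r) (Fin.last r) := by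
  rw [Matrix.det_succ_row M (Fin.last r), Fin.sum_univ_castSucc,
    Finset.sum_eq_zero (fun j _ => by rw [h j]; ring), zero_add, Fin.val_last,
    Even.neg_one_pow ⟨r, rfl⟩, one_mul, mul_comm]
  congr 2
  ext i j
  rw [Matrix.submatrix_apply, Fin.succAbove_last]
  rfl

/-- `leadx_split` for all characters -/
theorem ka2_lead {v : HeightOneSpectrum (𝓞 F)} (hv : v ∉ S) (hfr : fr v = 1)
    {c : (G →* ℂˣ) → ℂ} (hc : Lead (Finset.cons v S hv) T (r + 1) fr c) :
    Lead S T r fr (fun χ => c χ / (Real.log (nv v) : ℂ)) := by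
  intro χ
  obtain ⟨Λ, h1, h2, h3⟩ := hc χ
  have hlog : (0 : ℝ) < Real.log (nv v) := Real.log_pos (by linarith [le_nv_pos v])
  have hlog' : (Real.log (nv v) : ℂ) ≠ 0 := by exact_mod_cast hlog.ne'
  have hχ1 : (χ (fr v) : ℂ) = 1 := by rw [hfr, map_one, Units.val_one]
  refine ⟨fun s => Λ s / (1 - (χ (fr v) : ℂ) * (nv v : ℂ) ^ (0 - s)), ?_, ?_, ?_⟩
  · exact h1.div (le_mero_pow v _ 0)
  · intro s hs
    have hf0 : 1 - (χ (fr v) : ℂ) * (nv v : ℂ) ^ (-s) ≠ 0 :=
      le_factor v χ (by rw [Complex.neg_re]; linarith)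
    beta_reduce
    rw [h2 s hs, lst_consS hv χ hs, zero_sub]
    field_simp
  · have hd : HasDerivAt (fun s : ℂ => 1 - (nv v : ℂ) ^ (0 - s)) (Real.log (nv v) : ℂ) 0 := by
      have h4 : HasDerivAt (fun s : ℂ => (nv v : ℂ) ^ (0 - s))
          ((nv v : ℂ) ^ ((0 : ℂ) - 0) * Complex.log (nv v : ℂ) * (-1)) 0 := by
        have h5 : HasDerivAt (fun s : ℂ => (0 : ℂ) - s) (-1) 0 := by
          simpa using (hasDerivAt_id (0 : ℂ)).const_sub 0
        exact h5.const_cpow (Or.inl (le_nv_ne v))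
      have h6 := h4.const_sub 1
      have h7 : -((nv v : ℂ) ^ ((0 : ℂ) - 0) * Complex.log (nv v : ℂ) * (-1)) =
          (Real.log (nv v) : ℂ) := by
        rw [sub_zero, Complex.cpow_zero, Complex.natCast_log]
        ring
      rwa [h7] at h6
    have hs := hd.tendsto_slope
    have hs' : Tendsto (fun s : ℂ => (1 - (χ (fr v) : ℂ) * (nv v : ℂ) ^ (0 - s)) / s) (𝓝[≠] 0)
        (𝓝 (Real.log (nv v) : ℂ)) := by
      refine hs.congr fun s => ?_
      rw [slope_def_field, hχ1]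
      simp
    have h5 := h3.div hs' hlog'
    refine h5.congr' ?_
    filter_upwards [self_mem_nhdsWithin] with s hs0
    have hs0' : s ≠ 0 := hs0
    show Λ s / s ^ (r + 1) / (_ / s) = Λ s / _ / s ^ r
    rw [pow_succ]
    by_cases hz : (1 - (χ (fr v) : ℂ) * (nv v : ℂ) ^ (0 - s)) = 0
    · rw [hz]; simp
    · field_simp

/-- the Stark element for `S ∪ {v}` and the valuations above `v` -/
theorem ka_val (hp : p.Prime) (hG : Nat.card G = p) (hD : One ι S T r w fr)
    {v : HeightOneSpectrum (𝓞 F)} (hv : v ∉ S) (hvT : v ∉ T) {W : HeightOneSpectrum (𝓞 H)}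
    (hW : W.under (𝓞 F) = v) (hs : Spl H (Sum.inr v : Pl F))
    {u : (⋀[MonoidAlgebra ℤ G]^r (UM ι S T)) ⊗[ℤ] ℚ} (hu : Stk ι S T w fr u)
    {u' : (⋀[MonoidAlgebra ℤ G]^(r + 1) (UM ι (Finset.cons v S hv) T)) ⊗[ℤ] ℚ}
    (hu' : Stk ι (Finset.cons v S hv) T (Fin.snoc (α := fun _ => Pl H) w (Sum.inr W)) fr u')
    (ψ : Fin r → (UM ι (Finset.cons v S hv) T →ₗ[MonoidAlgebra ℤ G] MonoidAlgebra ℤ G)) :
    psiQ (fun i => (ψ i).comp (l2_inc (S := S) ι T hv)) u =
      -psiQ (Fin.snoc (α := fun _ => UM ι (Finset.cons v S hv) T →ₗ[MonoidAlgebra ℤ G]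
        MonoidAlgebra ℤ G) ψ (l2_f ι (Finset.cons v S hv) T W)) u' := by
  classical
  obtain ⟨c, hc, hval⟩ := hu
  obtain ⟨c', hc', hval'⟩ := hu'
  have hD' := ka_data hp hG hD hv hvT hW hs
  have hfr := ka_fr hp hG hD hv hs
  have hL0 : Real.log (nv v) ≠ 0 := by
    have h2 := nv_two_le v
    have h3 : (1 : ℝ) < nv v := by exact_mod_cast (show 1 < nv v by omega)
    exact (Real.log_pos h3).ne'
  have hL0' : ((Real.log (nv v) : ℝ) : ℂ) ≠ 0 := by exact_mod_cast hL0
  have hdn : dn F (Sum.inr W : Pl H) = (Sum.inr v : Pl F) := by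
    show (Sum.inr (W.under (𝓞 F)) : Pl F) = Sum.inr v
    rw [hW]
  have hlog : Real.log (nv W) = Real.log (nv v) :=
    l2_nv hD.data hv hW (fun σ h => hs _ hdn σ h)
  have hcc : ∀ χ, c χ = c' χ / (Real.log (nv v) : ℂ) := fun χ =>
    congrFun (ha_lead hc (ka2_lead hv hfr hc')) χ
  have hcc' : ∀ χ, c' χ = (Real.log (nv v) : ℂ) * c χ := by
    intro χ
    rw [hcc χ]
    field_simp
  set f := l2_f ι (Finset.cons v S hv) T W with hf
  apply ha_ext
  intro χ
  rw [map_neg]
  obtain ⟨x, hx⟩ := hb_ne hp hG hD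
  obtain ⟨x₂, hx₂⟩ := hb_ne hp hG hD'
  -- a unit whose valuations above `v` have a nonzero value at `χ`
  obtain ⟨y, hy⟩ : ∃ y, evZ χ (f y) ≠ 0 := by
    by_contra hcon
    push Not at hcon
    apply hx₂ χ
    have h0 : evR χ (wmat ι (Finset.cons v S hv) T
        (Fin.snoc (α := fun _ => Pl H) w (Sum.inr W)) x₂).det =
        ((wmat ι (Finset.cons v S hv) T
          (Fin.snoc (α := fun _ => Pl H) w (Sum.inr W)) x₂).map (evR χ)).det :=
      RingHom.map_det (evR χ : MonoidAlgebra ℝ G →+* ℂ) _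
    rw [h0]
    apply Matrix.det_eq_zero_of_row_eq_zero (Fin.last r)
    intro j
    show evR χ (wl ι (Finset.cons v S hv) T
      (Fin.snoc (α := fun _ => Pl H) w (Sum.inr W) (Fin.last r)) (x₂ j)) = 0
    rw [Fin.snoc_last]
    have h1 := l2_evR_wl (ι := ι) (S := Finset.cons v S hv) (T := T) χ W (x₂ j)
    rw [h1, ← hf, hcon, mul_zero]
  set x' : Fin (r + 1) → UM ι (Finset.cons v S hv) T :=
    Fin.snoc (α := fun _ => UM ι (Finset.cons v S hv) T) (fun j => l2_inc (S := S) ι T hv (x j)) y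
    with hx'
  have hx'c : ∀ j : Fin r, x' j.castSucc = l2_inc (S := S) ι T hv (x j) := by
    intro j
    rw [hx']
    exact Fin.snoc_castSucc (α := fun _ => UM ι (Finset.cons v S hv) T) _ _ _
  have hx'l : x' (Fin.last r) = y := by
    rw [hx']
    exact Fin.snoc_last (α := fun _ => UM ι (Finset.cons v S hv) T) _ _
  have hfx : ∀ j : Fin r, f (x' j.castSucc) = 0 := by
    intro j
    rw [hx'c, hf]
    exact l2_f_inc hv hW (x j)
  -- the two determinants
  have hw1 : evR χ (wmat ι (Finset.cons v S hv) T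
      (Fin.snoc (α := fun _ => Pl H) w (Sum.inr W)) x').det =
      evR χ (wmat ι S T w x).det * ((-(Real.log (nv v) : ℝ) : ℂ) * evZ χ (f y)) := by
    have h0 : evR χ (wmat ι (Finset.cons v S hv) T
        (Fin.snoc (α := fun _ => Pl H) w (Sum.inr W)) x').det =
        ((wmat ι (Finset.cons v S hv) T
          (Fin.snoc (α := fun _ => Pl H) w (Sum.inr W)) x').map (evR χ)).det :=
      RingHom.map_det (evR χ : MonoidAlgebra ℝ G →+* ℂ) _
    have h00 : evR χ (wmat ι S T w x).det = ((wmat ι S T w x).map (evR χ)).det :=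
      RingHom.map_det (evR χ : MonoidAlgebra ℝ G →+* ℂ) _
    rw [h0, h00, ka2_det]
    · congr 1
      · congr 1
        ext i j
        show evR χ (wl ι (Finset.cons v S hv) T
          (Fin.snoc (α := fun _ => Pl H) w (Sum.inr W) i.castSucc) (x' j.castSucc)) =
          evR χ (wl ι S T (w i) (x j))
        rw [Fin.snoc_castSucc, hx'c]
        rfl
      · show evR χ (wl ι (Finset.cons v S hv) T
          (Fin.snoc (α := fun _ => Pl H) w (Sum.inr W) (Fin.last r)) (x' (Fin.last r))) = _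
        rw [Fin.snoc_last, hx'l]
        have h1 := l2_evR_wl (ι := ι) (S := Finset.cons v S hv) (T := T) χ W y
        rw [h1, hlog]
    · intro j
      show evR χ (wl ι (Finset.cons v S hv) T
        (Fin.snoc (α := fun _ => Pl H) w (Sum.inr W) (Fin.last r)) (x' j.castSucc)) = 0
      rw [Fin.snoc_last]
      have h1 := l2_evR_wl (ι := ι) (S := Finset.cons v S hv) (T := T) χ W (x' j.castSucc)
      rw [h1, ← hf, hfx, map_zero, mul_zero]
  have hw2 : (pmat (Fin.snoc (α := fun _ => UM ι (Finset.cons v S hv) T →ₗ[MonoidAlgebra ℤ G]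
      MonoidAlgebra ℤ G) ψ f) x').det =
      (pmat (fun i => (ψ i).comp (l2_inc (S := S) ι T hv)) x).det * f y := by
    rw [ka2_det]
    · congr 1
      · congr 1
        refine Matrix.ext fun i j => ?_
        show Fin.snoc (α := fun _ => UM ι (Finset.cons v S hv) T →ₗ[MonoidAlgebra ℤ G]
          MonoidAlgebra ℤ G) ψ f i.castSucc (x' j.castSucc) = ψ i (l2_inc (S := S) ι T hv (x j))
        rw [Fin.snoc_castSucc, hx'c]
      · show Fin.snoc (α := fun _ => UM ι (Finset.cons v S hv) T →ₗ[MonoidAlgebra ℤ G]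
          MonoidAlgebra ℤ G) ψ f (Fin.last r) (x' (Fin.last r)) = f y
        rw [Fin.snoc_last, hx'l]
    · intro j
      show Fin.snoc (α := fun _ => UM ι (Finset.cons v S hv) T →ₗ[MonoidAlgebra ℤ G]
        MonoidAlgebra ℤ G) ψ f (Fin.last r) (x' j.castSucc) = 0
      rw [Fin.snoc_last, hfx]
  have e1 := hb_star hp hG hD hval χ x (fun i => (ψ i).comp (l2_inc (S := S) ι T hv))
  have e2 := hb_star hp hG hD' hval' χ x' (Fin.snoc (α := fun _ => UM ι (Finset.cons v S hv) T
    →ₗ[MonoidAlgebra ℤ G] MonoidAlgebra ℤ G) ψ f)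
  rw [hw1, hw2, map_mul, hcc' χ⁻¹] at e2
  have hx0 := hx χ
  set A := evQ χ (psiQ (fun i => (ψ i).comp (l2_inc (S := S) ι T hv)) u) with hA
  set A' := evQ χ (psiQ (Fin.snoc (α := fun _ => UM ι (Finset.cons v S hv) T
    →ₗ[MonoidAlgebra ℤ G] MonoidAlgebra ℤ G) ψ f) u') with hA'
  set D := evR χ (wmat ι S T w x).det with hDD
  set P := evZ χ (pmat (fun i => (ψ i).comp (l2_inc (S := S) ι T hv)) x).det with hP
  have e3 : (((Real.log (nv v) : ℝ) : ℂ) * evZ χ (f y) * D) * (A + A') = 0 := by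
    linear_combination (((Real.log (nv v) : ℝ) : ℂ) * evZ χ (f y)) * e1 - e2
  have e4 : A + A' = 0 := by
    rcases mul_eq_zero.1 e3 with h | h
    · exact absurd h (mul_ne_zero (mul_ne_zero hL0' hy) hx0)
    · exact h
  linear_combination e4
end
end Pool.Agent.PD
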