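import Pool.Agent.Lib_helper24.PD.Defs
set_option autoImplicit false
set_option linter.unusedSectionVars false
namespace Pool.Agent.PD
open Pool.Agent Pool.Agent.RSK Pool.Agent.RS2 Pool.Agent.AU
open NumberField IsDedekindDomain Filter Topology Complex
open scoped TensorProduct
section
variable {F H : Type} [Field F] [NumberField F] [Field H] [NumberField H] [Algebra F H]
  [IsGalois F H] {G : Type} [CommGroup G] [Fintype G] {p : ℕ} {ι : G ≃* (H ≃ₐ[F] H)}
  {S T : Finset (HeightOneSpectrum (𝓞 F))} {r : ℕ} {w : Fin r → Pl H}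
  {fr : HeightOneSpectrum (𝓞 F) → G}
/-- functionals extend from `U_{S,T}` to `U_{S ∪ {v},T}` -/
theorem ka_ext (hD : One ι S T r w fr)
    {v : HeightOneSpectrum (𝓞 F)} (hv : v ∉ S) (hvT : v ∉ T)
    (ψ : UM ι S T →ₗ[MonoidAlgebra ℤ G] MonoidAlgebra ℤ G) :
    ∃ ψ' : UM ι (Finset.cons v S hv) T →ₗ[MonoidAlgebra ℤ G] MonoidAlgebra ℤ G,
      ψ'.comp (l2_inc (S := S) ι T hv) = ψ := by
  obtain ⟨W, hW⟩ : ∃ W : HeightOneSpectrum (𝓞 H), W.under (𝓞 F) = v := by
    obtain ⟨W, hW⟩ := dn_surj (F := F) (H := H) (Sum.inr v)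
    rcases W with W | W
    · exact absurd hW (by simp [dn])
    · exact ⟨W, by simpa [dn] using hW⟩
  have hfin : Module.Finite ℤ (UM ι (Finset.cons v S hv) T) := by
    by_cases hfr : fr v = 1
    · exact um_finite (data_split hD.data hv hvT hfr hW)
    · exact um_finite (data_non hD.data hv hvT hfr)
  obtain ⟨ψ₁, h⟩ := ext_lat (l2_inc ι T hv) (l2_inc_inj hv)
    (fun n u hn hu => l2_sat hv hW n u hn hu) ψ
  exact ⟨ψ₁, LinearMap.ext h⟩
end
end Pool.Agent.PD
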