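import Pool.Agent.Lib_helper24.PD.Defs
import Pool.Agent.Lib_helper24.PD.P.KA1
import Pool.Agent.Lib_helper24.PD.P.KA2
import Pool.Agent.Lib_helper24.PD.P.KA3
set_option autoImplicit false
set_option linter.unusedSectionVars false
namespace Pool.Agent.PD
open Pool.Agent Pool.Agent.RSK Pool.Agent.RS2 Pool.Agent.AU
open NumberField IsDedekindDomain Filter Topology Complex
open scoped TensorProduct
section
variable {F H : Type} [Field F] [NumberField F] [Field H] [NumberField H] [Algebra F H]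
  [IsGalois F H] {G : Type} [CommGroup G] [Fintype G] {p : ℕ} {ι : G ≃* (H ≃ₐ[F] H)}
  {S T : Finset (HeightOneSpectrum (𝓞 F))} {r : ℕ} {w : Fin r → Pl H}
  {fr : HeightOneSpectrum (𝓞 F) → G}
theorem ka_step (hp : p.Prime) (hG : Nat.card G = p) (hE : Ext ι) (hD : One ι S T r w fr)
    {v : HeightOneSpectrum (𝓞 F)} (hv : v ∉ S) (hvT : v ∉ T) {W : HeightOneSpectrum (𝓞 H)}
    (hW : W.under (𝓞 F) = v) (hs : Spl H (Sum.inr v : Pl F)) {a : ℤ}
    (h : Adm p a ι (Finset.cons v S hv) T (Fin.snoc (α := fun _ => Pl H) w (Sum.inr W)) fr) :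
    Adm p a ι S T w fr := by
  intro u hu ψ
  have hD' := ka_data hp hG hD hv hvT hW hs
  obtain ⟨u', hu'⟩ := hE _ _ _ _ _ hD'
  choose ψ' hψ' using fun i => ka_ext hD hv hvT (ψ i)
  have h1 := ka_val hp hG hD hv hvT hW hs hu hu' ψ'
  have h2 : (fun i => (ψ' i).comp (l2_inc (S := S) ι T hv)) = ψ := funext hψ'
  rw [h2] at h1
  rw [h1]
  exact (Qa p G a).neg_mem (h u' hu' _)
end
end Pool.Agent.PD
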