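import Pool.Agent.Lib_helper24.PD.Defs
import Pool.Agent.Lib_helper17.RS.P_DI
import Pool.Agent.Lib_helper35.RS2.P_RT2
/-! PDR block LA1 (helper48): adding a place to `T` -/
set_option autoImplicit false
set_option linter.unusedSectionVars false
namespace Pool.Agent.PD
open Pool.Agent Pool.Agent.RSK Pool.Agent.RS2 Pool.Agent.AU
open NumberField IsDedekindDomain Filter Topology Complex
open scoped TensorProduct
section
variable {F H : Type} [Field F] [NumberField F] [Field H] [NumberField H] [Algebra F H]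
  [IsGalois F H] {G : Type} [CommGroup G] [Fintype G] {p : ℕ} {ι : G ≃* (H ≃ₐ[F] H)}
  {S T : Finset (HeightOneSpectrum (𝓞 F))} {r : ℕ} {w : Fin r → Pl H}
  {fr : HeightOneSpectrum (𝓞 F) → G}
theorem la_data (hD : One ι S T r w fr) {v : HeightOneSpectrum (𝓞 F)} (hv : v ∉ T) (hvS : v ∉ S) :
    One ι S (Finset.cons v T hv) r w fr :=
  ⟨data_T hD.data hv hvS, hD.one⟩

theorem la1_inj {v : HeightOneSpectrum (𝓞 F)} (hv : v ∉ T)
    {x y : UM ι S (Finset.cons v T hv)}
    (h : l4_inc ι S (Finset.subset_cons hv) x = l4_inc ι S (Finset.subset_cons hv) y) : x = y := by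
  have h1 := congrArg (fun z : UM ι S T => z.val) h
  exact UM.ext h1

theorem la1_mem {v : HeightOneSpectrum (𝓞 F)} {g : G} (hg : IsFr v (ι g)) (hv : v ∉ T)
    (hvS : v ∉ S) (u : UM ι S T) :
    ((MonoidAlgebra.single g (1 : ℤ) - (nv v : MonoidAlgebra ℤ G)) • u).val ∈
      Un (ovr H S) (ovr H (Finset.cons v T hv)) := by
  obtain ⟨f, hf⟩ := res_T2 hg hv hvS
  rw [← hf, map_smul]
  obtain ⟨a, ha⟩ := Ideal.Quotient.mk_surjective (f u)
  rw [← ha]
  have h1 : (MonoidAlgebra.single g (1 : ℤ) - (nv v : MonoidAlgebra ℤ G)) =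
      (1 - MonoidAlgebra.single g⁻¹ (nv v : ℤ)) * MonoidAlgebra.single g (1 : ℤ) := by
    have h2 : (nv v : MonoidAlgebra ℤ G) = MonoidAlgebra.single 1 (nv v : ℤ) := by
      rw [← nsmul_one, MonoidAlgebra.one_def, MonoidAlgebra.smul_single]
      simp
    rw [sub_mul, one_mul, MonoidAlgebra.single_mul_single, inv_mul_cancel, mul_one, h2]
  rw [h1]
  show Ideal.Quotient.mk _ ((1 - MonoidAlgebra.single g⁻¹ (nv v : ℤ)) *
    MonoidAlgebra.single g (1 : ℤ) * a) = 0
  rw [Ideal.Quotient.eq_zero_iff_mem, mul_assoc]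
  exact Ideal.mul_mem_right _ _ (Ideal.mem_span_singleton_self _)

/-- for `φ'` on `U_{S,T ∪ {v}}` the functional `x ↦ φ'((Fr_v - N v) x)` on `U_{S,T}` -/
theorem la_phi (hD : One ι S T r w fr) {v : HeightOneSpectrum (𝓞 F)} (hv : v ∉ T) (hvS : v ∉ S)
    (φ' : UM ι S (Finset.cons v T hv) →ₗ[MonoidAlgebra ℤ G] MonoidAlgebra ℤ G) :
    ∃ φ : UM ι S T →ₗ[MonoidAlgebra ℤ G] MonoidAlgebra ℤ G,
      (∀ x : UM ι S (Finset.cons v T hv), φ (l4_inc ι S (Finset.subset_cons hv) x) =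
        (MonoidAlgebra.single (fr v) (1 : ℤ) - (nv v : MonoidAlgebra ℤ G)) * φ' x) ∧
      ∀ x : UM ι S T, ∃ y : UM ι S (Finset.cons v T hv),
        l4_inc ι S (Finset.subset_cons hv) y =
          (MonoidAlgebra.single (fr v) (1 : ℤ) - (nv v : MonoidAlgebra ℤ G)) • x ∧ φ x = φ' y := by
  have hm := la1_mem (T := T) (hD.data.frob v hvS) hv hvS
  set δ : MonoidAlgebra ℤ G := MonoidAlgebra.single (fr v) (1 : ℤ) - (nv v : MonoidAlgebra ℤ G)
    with hδ
  have key : ∀ u : UM ι S T, l4_inc ι S (Finset.subset_cons hv)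
      (UM.mk (δ • u).val (hm u)) = δ • u := fun u => UM.ext rfl
  let g : UM ι S T →ₗ[MonoidAlgebra ℤ G] UM ι S (Finset.cons v T hv) :=
    { toFun := fun u => UM.mk (δ • u).val (hm u)
      map_add' := fun a b => by
        refine la1_inj hv ?_
        rw [map_add, key, key, key, smul_add]
      map_smul' := fun c a => by
        refine la1_inj hv ?_
        rw [RingHom.id_apply, map_smul, key, key, smul_smul, smul_smul, mul_comm] }
  have hg : ∀ u, l4_inc ι S (Finset.subset_cons hv) (g u) = δ • u := key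
  refine ⟨φ'.comp g, fun x => ?_, fun x => ⟨g x, hg x, rfl⟩⟩
  have h1 : g (l4_inc ι S (Finset.subset_cons hv) x) = δ • x := by
    refine la1_inj hv ?_
    rw [hg, map_smul]
  rw [LinearMap.comp_apply, h1, map_smul, smul_eq_mul]
end
end Pool.Agent.PD
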