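import Pool.Agent.Lib_helper24.PD.Defs
import Pool.Agent.Lib_helper24.PD.P.HA
import Pool.Agent.Lib_helper24.PD.P.HB
import Pool.Agent.Lib_helper24.PD.P.LA1
set_option autoImplicit false
set_option linter.unusedSectionVars false
namespace Pool.Agent.PD
open Pool.Agent Pool.Agent.RSK Pool.Agent.RS2 Pool.Agent.AU
open NumberField IsDedekindDomain Filter Topology Complex
open scoped TensorProduct
section
variable {F H : Type} [Field F] [NumberField F] [Field H] [NumberField H] [Algebra F H]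
  [IsGalois F H] {G : Type} [CommGroup G] [Fintype G] {p : ℕ} {ι : G ≃* (H ≃ₐ[F] H)}
  {S T : Finset (HeightOneSpectrum (𝓞 F))} {r : ℕ} {w : Fin r → Pl H}
  {fr : HeightOneSpectrum (𝓞 F) → G}

/-- `leadx_addT` for all characters -/
theorem la2_lead {v : HeightOneSpectrum (𝓞 F)} (hv : v ∉ T) {c : (G →* ℂˣ) → ℂ}
    (hc : Lead S T r fr c) : Lead S (Finset.cons v T hv) r fr
      (fun χ => (1 - (χ (fr v) : ℂ) * (nv v : ℂ)) * c χ) := by
  intro χ
  obtain ⟨Λ, h1, h2, h3⟩ := hc χ
  refine ⟨fun s => (1 - (χ (fr v) : ℂ) * (nv v : ℂ) ^ (1 - s)) * Λ s, ?_, ?_, ?_⟩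
  · exact (le_mero_pow v _ 1).mul h1
  · intro s hs
    beta_reduce
    rw [h2 s hs, lst_consT hv χ s]
  · have h5 := (le_cont v (χ (fr v) : ℂ) 1).mul h3
    simp only [Complex.cpow_one] at h5
    refine h5.congr fun s => ?_
    show _ * (Λ s / s ^ r) = _ * Λ s / s ^ r
    rw [mul_div_assoc]

/-- the Stark element for `T ∪ {v}` -/
theorem la_val (hp : p.Prime) (hG : Nat.card G = p) (hD : One ι S T r w fr)
    {v : HeightOneSpectrum (𝓞 F)} (hv : v ∉ T) (hvS : v ∉ S)
    {u : (⋀[MonoidAlgebra ℤ G]^r (UM ι S T)) ⊗[ℤ] ℚ} (hu : Stk ι S T w fr u)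
    {u' : (⋀[MonoidAlgebra ℤ G]^r (UM ι S (Finset.cons v T hv))) ⊗[ℤ] ℚ}
    (hu' : Stk ι S (Finset.cons v T hv) w fr u')
    (φ' : UM ι S (Finset.cons v T hv) →ₗ[MonoidAlgebra ℤ G] MonoidAlgebra ℤ G)
    (φ : UM ι S T →ₗ[MonoidAlgebra ℤ G] MonoidAlgebra ℤ G)
    (hφ : ∀ x : UM ι S (Finset.cons v T hv), φ (l4_inc ι S (Finset.subset_cons hv) x) =
      (MonoidAlgebra.single (fr v) (1 : ℤ) - (nv v : MonoidAlgebra ℤ G)) * φ' x)
    (ψ : Fin r → (UM ι S T →ₗ[MonoidAlgebra ℤ G] MonoidAlgebra ℤ G)) (i : Fin r) :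
    psiQ (Function.update (fun j => (ψ j).comp (l4_inc ι S (Finset.subset_cons hv))) i φ') u' =
      toQ G (MonoidAlgebra.single (fr v)⁻¹ 1) * psiQ (Function.update ψ i φ) u := by
  classical
  obtain ⟨c, hc, hval⟩ := hu
  obtain ⟨c', hc', hval'⟩ := hu'
  have hD' := la_data hD hv hvS
  have hcc : ∀ χ, c' χ = (1 - (χ (fr v) : ℂ) * (nv v : ℂ)) * c χ := fun χ =>
    congrFun (ha_lead hc' (la2_lead hv hc)) χ
  apply ha_ext
  intro χ
  rw [map_mul, l4_ev_single, Int.cast_one, one_mul]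
  obtain ⟨x, hx⟩ := hb_ne hp hG hD'
  set inc' := l4_inc ι S (T := T) (Finset.subset_cons hv) with hinc
  have hwm : wmat ι S T w (fun j => inc' (x j)) = wmat ι S (Finset.cons v T hv) w x := rfl
  have hpm : (pmat (Function.update ψ i φ) (fun j => inc' (x j))).det =
      (MonoidAlgebra.single (fr v) (1 : ℤ) - (nv v : MonoidAlgebra ℤ G)) *
        (pmat (Function.update (fun j => (ψ j).comp inc') i φ') x).det := by
    have h1 : pmat (Function.update ψ i φ) (fun j => inc' (x j)) =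
        Matrix.updateRow (pmat (Function.update (fun j => (ψ j).comp inc') i φ') x) i
          ((MonoidAlgebra.single (fr v) (1 : ℤ) - (nv v : MonoidAlgebra ℤ G)) •
            (pmat (Function.update (fun j => (ψ j).comp inc') i φ') x) i) := by
      refine Matrix.ext fun k j => ?_
      by_cases hk : k = i
      · subst hk
        rw [Matrix.updateRow_self]
        show Function.update ψ k φ k (inc' (x j)) =
          (MonoidAlgebra.single (fr v) (1 : ℤ) - (nv v : MonoidAlgebra ℤ G)) *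
            Function.update (fun j => (ψ j).comp inc') k φ' k (x j)
        rw [Function.update_self, Function.update_self]
        exact hφ (x j)
      · rw [Matrix.updateRow_ne hk]
        show Function.update ψ i φ k (inc' (x j)) =
          Function.update (fun j => (ψ j).comp inc') i φ' k (x j)
        rw [Function.update_of_ne hk, Function.update_of_ne hk]
        rfl
    rw [h1, Matrix.det_updateRow_smul, Matrix.updateRow_eq_self]
  have e1 := hb_star hp hG hD hval χ (fun j => inc' (x j)) (Function.update ψ i φ)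
  have e2 := hb_star hp hG hD' hval' χ x (Function.update (fun j => (ψ j).comp inc') i φ')
  have hev : evZ χ (MonoidAlgebra.single (fr v) (1 : ℤ) - (nv v : MonoidAlgebra ℤ G)) =
      (χ (fr v) : ℂ) - (nv v : ℂ) := by
    rw [map_sub, map_natCast]
    congr 1
    show evQ χ (toQ G (MonoidAlgebra.single (fr v) (1 : ℤ))) = _
    rw [l4_ev_single, Int.cast_one, one_mul]
  have hinv : ((χ (fr v)⁻¹ : ℂˣ) : ℂ) * (χ (fr v) : ℂ) = 1 := by
    rw [map_inv, Units.inv_mul]
  have hinv' : ((χ⁻¹ (fr v) : ℂˣ) : ℂ) = ((χ (fr v)⁻¹ : ℂˣ) : ℂ) := by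
    rw [MonoidHom.inv_apply, map_inv]
  rw [hpm, map_mul, hev, hwm] at e1
  rw [hcc χ⁻¹, hinv'] at e2
  have hx0 := hx χ
  set A := evQ χ (psiQ (Function.update ψ i φ) u) with hA
  set A' := evQ χ (psiQ (Function.update (fun j => (ψ j).comp inc') i φ') u') with hA'
  set D := evR χ (wmat ι S (Finset.cons v T hv) w x).det with hDD
  set P := evZ χ (pmat (Function.update (fun j => (ψ j).comp inc') i φ') x).det with hP
  have e3 : (A' - ((χ (fr v)⁻¹ : ℂˣ) : ℂ) * A) * D = 0 := by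
    linear_combination e2 - ((χ (fr v)⁻¹ : ℂˣ) : ℂ) * e1 - c χ⁻¹ * P * hinv
  have e4 : A' - ((χ (fr v)⁻¹ : ℂˣ) : ℂ) * A = 0 := (mul_eq_zero.1 e3).resolve_right hx0
  linear_combination e4
end
end Pool.Agent.PD
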