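import Pool.Agent.Lib_helper24.PD.Defs
import Pool.Agent.Lib_helper17.RS.P_XC
set_option autoImplicit false
set_option linter.unusedSectionVars false
namespace Pool.Agent.PD
open Pool.Agent Pool.Agent.RSK Pool.Agent.RS2 Pool.Agent.AU
open NumberField IsDedekindDomain Filter Topology Complex
open scoped TensorProduct

section ma2
variable {k : Type} [Field k] [NumberField k]

/-- an element congruent to `1` modulo `T` with valuation one at `v` -/
theorem ma2_unif {T : Finset (HeightOneSpectrum (𝓞 k))} {v : HeightOneSpectrum (𝓞 k)}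
    (hv : v ∉ T) : ∃ x ∈ KT T, ordv v (x : k) = 1 := by
  classical
  obtain ⟨π, hπ⟩ := v.intValuation_exists_uniformizer
  obtain ⟨y, hy⟩ := IsDedekindDomain.exists_forall_sub_mem_ideal (s := Finset.cons v T hv)
    (fun u : HeightOneSpectrum (𝓞 k) => u.asIdeal) (fun u => if u = v then 2 else 1)
    (fun u _ => u.prime) (fun u _ u' _ h => fun h' => h (HeightOneSpectrum.ext h'))
    (fun u => if u.1 = v then π else 1)
  have hyv : y - π ∈ v.asIdeal ^ 2 := by
    have := hy v (Finset.mem_cons_self v T)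
    simpa using this
  have hyT : ∀ u ∈ T, y - 1 ∈ u.asIdeal := by
    intro u hu
    have hne : u ≠ v := fun h => hv (h ▸ hu)
    have := hy u (Finset.mem_cons_of_mem hu)
    simpa [hne] using this
  have hval : v.intValuation y = WithZero.exp (-1 : ℤ) := by
    have h1 : v.intValuation (y - π) ≤ WithZero.exp (-(2 : ℕ) : ℤ) :=
      (v.intValuation_le_pow_iff_mem _ _).2 hyv
    have h2 : v.intValuation (y - π) < v.intValuation π := by
      rw [hπ]
      refine lt_of_le_of_lt h1 ?_
      rw [WithZero.exp_lt_exp]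
      norm_num
    have e : y = (y - π) + π := by ring
    rw [e, Valuation.map_add_eq_of_lt_right _ h2, hπ]
  have hy0 : y ≠ 0 := by
    rintro rfl
    rw [map_zero] at hval
    exact WithZero.exp_ne_zero hval.symm
  have hyk : ((y : 𝓞 k) : k) ≠ 0 := fun h => hy0 (by exact_mod_cast h)
  refine ⟨Units.mk0 (y : k) hyk, fun u hu => ?_, ?_⟩
  · have h3 := (xb_lt_iff (v := u) y 1).2 (hyT u hu)
    simpa using h3
  · unfold ordv
    rw [Units.val_mk0, show ((y : 𝓞 k) : k) = algebraMap (𝓞 k) k y from rfl,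
      HeightOneSpectrum.valuation_of_algebraMap, hval, WithZero.log_exp]
    norm_num

/-- the elements of `KT T` which are units at `v` -/
def ma2_K (T : Finset (HeightOneSpectrum (𝓞 k))) (v : HeightOneSpectrum (𝓞 k)) : Subgroup kˣ :=
  KT T ⊓ K0 {v}

theorem ma2_KT_le {T : Finset (HeightOneSpectrum (𝓞 k))} {v : HeightOneSpectrum (𝓞 k)}
    (hv : v ∉ T) : KT (Finset.cons v T hv) ≤ ma2_K T v := by
  intro x hx
  refine ⟨fun u hu => hx u (Finset.mem_cons_of_mem hu), fun u hu => ?_⟩
  rw [Finset.mem_singleton] at hu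
  subst hu
  exact xc_KT_val hx (Finset.mem_cons_self _ _)

/-- `[K_{T,v} : K_{T+v}] = N v - 1` -/
theorem ma2_index {T : Finset (HeightOneSpectrum (𝓞 k))} {v : HeightOneSpectrum (𝓞 k)}
    (hv : v ∉ T) : (KT (Finset.cons v T hv)).relIndex (ma2_K T v) = nv v - 1 := by
  classical
  have h1 : KT (Finset.cons v T hv) = KT {v} ⊓ ma2_K T v := by
    ext x
    constructor
    · intro hx
      refine ⟨fun u hu => ?_, ma2_KT_le hv hx⟩
      rw [Finset.mem_singleton] at hu
      subst hu
      exact hx _ (Finset.mem_cons_self _ _)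
    · rintro ⟨h1, h2, -⟩ u hu
      rw [Finset.mem_cons] at hu
      rcases hu with rfl | hu
      · exact h1 _ (Finset.mem_singleton_self _)
      · exact h2 u hu
  have h2 : KT {v} ⊔ ma2_K T v = K0 {v} := by
    refine le_antisymm (sup_le (fun x hx u hu => xc_KT_val hx hu) inf_le_right) ?_
    intro x hx
    have hxv : v.valuation k (x : k) = 1 := hx v (Finset.mem_singleton_self v)
    obtain ⟨a, ha⟩ := HeightOneSpectrum.exists_valuation_sub_lt_of_integer (v := v) (K := k)
      (x := (x : k)) (le_of_eq hxv) (γ := 1)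
    have ha' : v.valuation k ((a : k) - (x : k)) < 1 := by simpa using ha
    obtain ⟨b, hb⟩ := xb_approx (Finset.cons v T hv) (fun u => if u.1 = v then a else 1)
    have hbv : v.valuation k ((b : k) - (a : k)) < 1 := by
      refine (xb_lt_iff _ _).2 ?_
      have := hb ⟨v, Finset.mem_cons_self v T⟩
      simpa using this
    have hbT : ∀ u ∈ T, u.valuation k ((b : k) - 1) < 1 := by
      intro u hu
      have hne : u ≠ v := fun h => hv (h ▸ hu)
      have h := hb ⟨u, Finset.mem_cons_of_mem hu⟩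
      have h' : b - 1 ∈ u.asIdeal := by simpa [hne] using h
      have h3 := (xb_lt_iff (v := u) b 1).2 h'
      simpa using h3
    have hbx : v.valuation k ((b : k) - (x : k)) < 1 := by
      have e : (b : k) - (x : k) = ((b : k) - (a : k)) + ((a : k) - (x : k)) := by ring
      rw [e]
      exact Valuation.map_add_lt _ hbv ha'
    have hb1 : v.valuation k (b : k) = 1 := by
      have e : (b : k) = ((b : k) - (x : k)) + (x : k) := by ring
      rw [e, Valuation.map_add_eq_of_lt_right _ (by rw [hxv]; exact hbx), hxv]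
    have hb0 : (b : k) ≠ 0 := by
      intro h
      rw [h, map_zero] at hb1
      exact zero_ne_one hb1
    set y : kˣ := Units.mk0 (b : k) hb0 with hy
    have hyv : v.valuation k (y : k) = 1 := hb1
    rw [Subgroup.mem_sup]
    refine ⟨y⁻¹ * x, fun u hu => ?_, y, ⟨fun u hu => hbT u hu, fun u hu => ?_⟩, ?_⟩
    · rw [Finset.mem_singleton] at hu
      subst hu
      rw [xb_div hyv, Valuation.map_sub_swap]
      exact hbx
    · rw [Finset.mem_singleton] at hu
      subst hu
      exact hb1
    · rw [mul_comm, mul_inv_cancel_left]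
  have h3 : (KT {v}).relIndex (K0 {v}) = nv v - 1 := by
    rw [index_KT, Finset.prod_singleton]
  rw [h1, Subgroup.inf_relIndex_right, ← Subgroup.relIndex_sup_left, h2, h3]

/-- the first step -/
theorem ma2_first {S T : Finset (HeightOneSpectrum (𝓞 k))} {v : HeightOneSpectrum (𝓞 k)}
    (hv : v ∉ T) : (Pr S T).relIndex (Dv (Finset.cons v T hv)) = hA S T := by
  have h1 : Pr S T ⊔ Dv (Finset.cons v T hv) = Dv T := by
    refine le_antisymm (sup_le (fun D hD => hD.1) (fun D hD u hu =>
      hD u (Finset.mem_cons_of_mem hu))) ?_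
    intro D hD
    obtain ⟨x, hx, hx1⟩ := ma2_unif hv
    set y : kˣ := x ^ (D v) with hy
    have hyK : y ∈ KT T := (KT T).zpow_mem hx _
    set E : HeightOneSpectrum (𝓞 k) →₀ ℤ := Multiplicative.toAdd (xc_div y) with hE
    have hEv : ∀ u, E u = ordv u (y : k) := fun u => xc_div_apply y u
    have hEvv : E v = D v := by
      have e : E = (D v) • Multiplicative.toAdd (xc_div x) := by
        rw [hE, hy, map_zpow]
        rfl
      rw [e, Finsupp.smul_apply, xc_div_apply, hx1]
      simp
    have hE1 : E ∈ Pr S T := by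
      refine ⟨fun u hu => ?_, y, hyK, fun u _ => hEv u⟩
      rw [hEv]
      exact xc_ordv_zero.2 (xc_KT_val hyK hu)
    rw [AddSubgroup.mem_sup]
    refine ⟨E, hE1, D - E, fun u hu => ?_, by abel⟩
    rw [Finset.mem_cons] at hu
    rcases hu with rfl | hu
    · rw [Finsupp.sub_apply, hEvv, sub_self]
    · rw [Finsupp.sub_apply, hD u hu, hE1.1 u hu, sub_self]
  rw [← AddSubgroup.relIndex_sup_left, h1]
  rfl

/-- the second step -/
theorem ma2_second {S T : Finset (HeightOneSpectrum (𝓞 k))} {v : HeightOneSpectrum (𝓞 k)}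
    (hv : v ∉ T) (hvS : v ∉ S) (hST : Disjoint S T) :
    (Pr S (Finset.cons v T hv)).relIndex (Pr S T ⊓ Dv (Finset.cons v T hv)) *
      (Un S (Finset.cons v T hv)).relIndex (Un S T) = nv v - 1 := by
  set T' := Finset.cons v T hv with hT'
  have hUK : Un S T ≤ ma2_K T v := by
    intro x hx
    refine ⟨hx.2, fun u hu => ?_⟩
    rw [Finset.mem_singleton] at hu
    subst hu
    exact hx.1 _ hvS
  have hle : KT T' ⊔ Un S T ≤ ma2_K T v := sup_le (ma2_KT_le hv) hUK
  have h1 : (KT T').relIndex (KT T' ⊔ Un S T) * (KT T' ⊔ Un S T).relIndex (ma2_K T v) =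
      (KT T').relIndex (ma2_K T v) := Subgroup.relIndex_mul_relIndex _ _ _ le_sup_left hle
  have h2 : (KT T').relIndex (KT T' ⊔ Un S T) = (Un S T').relIndex (Un S T) := by
    rw [Subgroup.relIndex_sup_left, ← Subgroup.inf_relIndex_right]
    congr 1
    ext x
    constructor
    · rintro ⟨hx1, hx2⟩
      exact ⟨hx2.1, hx1⟩
    · intro hx
      exact ⟨hx.2, hx.1, fun u hu => hx.2 u (Finset.mem_cons_of_mem hu)⟩
  -- the divisors
  have h3 : (AddSubgroup.toSubgroup (Pr S T')).comap xc_div ⊓ ma2_K T v = KT T' ⊔ Un S T := by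
    ext x
    constructor
    · rintro ⟨⟨hx0, y, hy, hD⟩, hx⟩
      have hD' : ∀ u, u ∉ S → ordv u (x : k) = ordv u (y : k) := fun u hu => hD u hu
      rw [Subgroup.mem_sup]
      refine ⟨y, hy, y⁻¹ * x, ⟨fun u hu => ?_, ?_⟩, by rw [mul_inv_cancel_left]⟩
      · refine xc_ordv_zero.1 ?_
        rw [ordv_mul, ordv_inv, hD' u hu]
        ring
      · exact (KT T).mul_mem ((KT T).inv_mem (ma2_KT_le hv hy).1) hx.1
    · intro hx
      refine ⟨?_, hle hx⟩
      have hxK := hle hx
      rw [Subgroup.mem_sup] at hx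
      obtain ⟨y, hy, z, hz, rfl⟩ := hx
      refine ⟨fun u hu => ?_, y, hy, fun u hu => ?_⟩
      · show ordv u ((y * z : kˣ) : k) = 0
        rw [Finset.mem_cons] at hu
        rcases hu with rfl | hu
        · exact xc_ordv_zero.2 (hxK.2 _ (Finset.mem_singleton_self _))
        · exact xc_ordv_zero.2 (xc_KT_val hxK.1 hu)
      · show ordv u ((y * z : kˣ) : k) = ordv u (y : k)
        rw [ordv_mul, xc_ordv_zero.2 (hz.1 u hu), add_zero]
  -- `P₁ = Pr S T' + div (K)`
  have h4 : AddSubgroup.toSubgroup (Pr S T') ⊔ (ma2_K T v).map xc_div =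
      AddSubgroup.toSubgroup (Pr S T ⊓ Dv T') := by
    refine le_antisymm (sup_le ?_ ?_) ?_
    · rintro D ⟨hD, x, hx, hDx⟩
      exact ⟨⟨fun u hu => hD u (Finset.mem_cons_of_mem hu), x, (ma2_KT_le hv hx).1, hDx⟩, hD⟩
    · rintro _ ⟨x, hx, rfl⟩
      have hx0 : ∀ u ∈ T', ordv u (x : k) = 0 := by
        intro u hu
        rw [hT', Finset.mem_cons] at hu
        rcases hu with rfl | hu
        · exact xc_ordv_zero.2 (hx.2 _ (Finset.mem_singleton_self _))
        · exact xc_ordv_zero.2 (xc_KT_val hx.1 hu)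
      exact ⟨⟨fun u hu => hx0 u (Finset.mem_cons_of_mem hu), x, hx.1, fun u _ => rfl⟩,
        fun u hu => hx0 u hu⟩
    · rintro D ⟨⟨hDT, x, hx, hDx⟩, hD⟩
      have hxK : x ∈ ma2_K T v := by
        refine ⟨hx, fun u hu => ?_⟩
        rw [Finset.mem_singleton] at hu
        subst hu
        refine xc_ordv_zero.1 ?_
        rw [← hDx _ hvS]
        exact hD _ (Finset.mem_cons_self _ _)
      rw [Subgroup.mem_sup]
      refine ⟨D * (xc_div x)⁻¹, ?_, xc_div x, ⟨x, hxK, rfl⟩, by rw [inv_mul_cancel_right]⟩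
      refine ⟨fun u hu => ?_, 1, (KT T').one_mem, fun u hu => ?_⟩
      · show (Multiplicative.toAdd D) u - (Multiplicative.toAdd (xc_div x)) u = 0
        have huS : u ∉ S := by
          intro h
          rw [hT', Finset.mem_cons] at hu
          rcases hu with rfl | hu
          · exact hvS h
          · exact Finset.disjoint_left.1 hST h hu
        have e : (Multiplicative.toAdd D) u = ordv u (x : k) := hDx u huS
        rw [e, xc_div_apply, sub_self]
      · show (Multiplicative.toAdd D) u - (Multiplicative.toAdd (xc_div x)) u = _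
        have e : (Multiplicative.toAdd D) u = ordv u (x : k) := hDx u hu
        rw [e, xc_div_apply, sub_self, Units.val_one, ordv_one]
  have h5 : (Pr S T').relIndex (Pr S T ⊓ Dv T') =
      (KT T' ⊔ Un S T).relIndex (ma2_K T v) := by
    rw [← AddSubgroup.relIndex_toSubgroup, ← h4, Subgroup.relIndex_sup_left,
      ← Subgroup.relIndex_comap, ← Subgroup.inf_relIndex_right, h3]
  rw [h5, ← h2, mul_comm, h1, ma2_index]

/-- the two steps -/
theorem ma2_mul {S T : Finset (HeightOneSpectrum (𝓞 k))} {v : HeightOneSpectrum (𝓞 k)}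
    (hv : v ∉ T) :
    (Pr S (Finset.cons v T hv)).relIndex (Pr S T ⊓ Dv (Finset.cons v T hv)) * hA S T =
      hA S (Finset.cons v T hv) := by
  rw [← ma2_first (S := S) hv, ← AddSubgroup.inf_relIndex_right (Pr S T)]
  unfold hA
  refine AddSubgroup.relIndex_mul_relIndex _ _ _ ?_ inf_le_right
  rintro D ⟨hD, x, hx, hDx⟩
  exact ⟨⟨fun u hu => hD u (Finset.mem_cons_of_mem hu), x, (ma2_KT_le hv hx).1, hDx⟩, hD⟩

end ma2

section
variable {F H : Type} [Field F] [NumberField F] [Field H] [NumberField H] [Algebra F H]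
  [IsGalois F H] {G : Type} [CommGroup G] [Fintype G] {p : ℕ} {ι : G ≃* (H ≃ₐ[F] H)}
  {S T : Finset (HeightOneSpectrum (𝓞 F))} {r : ℕ} {w : Fin r → Pl H}
  {fr : HeightOneSpectrum (𝓞 F) → G}
/-- the change of `T` -/
theorem ma_exact {v : HeightOneSpectrum (𝓞 F)} (hv : v ∉ T) (hvS : v ∉ S) (hST : Disjoint S T) :
    hA S (Finset.cons v T hv) * (Un S (Finset.cons v T hv)).relIndex (Un S T) =
      hA S T * (nv v - 1) := by
  rw [← ma2_mul hv, ← ma2_second (S := S) hv hvS hST]
  ring
theorem ma_T {v : HeightOneSpectrum (𝓞 F)} (hv : v ∉ T) (hvS : v ∉ S) (hST : Disjoint S T) :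
    hA S T ∣ hA S (Finset.cons v T hv) :=
  ⟨_, by rw [← ma2_mul hv, mul_comm]⟩
end
end Pool.Agent.PD
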