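import Pool.Agent.Lib_helper24.PD.Defs
import Pool.Agent.Lib_helper24.PD.P.MA2
set_option autoImplicit false
set_option linter.unusedSectionVars false
namespace Pool.Agent.PD
open Pool.Agent Pool.Agent.RSK Pool.Agent.RS2 Pool.Agent.AU
open NumberField IsDedekindDomain Filter Topology Complex
open scoped TensorProduct
section
variable {F H : Type} [Field F] [NumberField F] [Field H] [NumberField H] [Algebra F H]
  [IsGalois F H] {G : Type} [CommGroup G] [Fintype G] {p : ℕ} {ι : G ≃* (H ≃ₐ[F] H)}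
  {S T : Finset (HeightOneSpectrum (𝓞 F))} {r : ℕ} {w : Fin r → Pl H}
  {fr : HeightOneSpectrum (𝓞 F) → G}

theorem ma3_mem (v : HeightOneSpectrum (𝓞 F)) (a : 𝓞 F) :
    a ∈ v.asIdeal ↔ v.valuation F (algebraMap (𝓞 F) F a) < 1 := by
  rw [HeightOneSpectrum.valuation_of_algebraMap, HeightOneSpectrum.intValuation_lt_one_iff_mem]

/-- reduction modulo `v` -/
theorem ma3_hom {v : HeightOneSpectrum (𝓞 F)} (hvS : v ∉ S) (T : Finset (HeightOneSpectrum (𝓞 F))) :
    ∃ ρ : Un S T →* (𝓞 F ⧸ v.asIdeal)ˣ,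
      ∀ x : Un S T, ρ x = 1 ↔ v.valuation F (((x : Fˣ) : F) - 1) < 1 := by
  classical
  have h1 : ∀ x : Un S T, v.valuation F ((x : Fˣ) : F) = 1 := fun x => x.2.1 v hvS
  have h2 : ∀ x : Un S T, ∃ a : 𝓞 F,
      v.valuation F (algebraMap (𝓞 F) F a - ((x : Fˣ) : F)) < 1 := fun x => by
    obtain ⟨a, ha⟩ := HeightOneSpectrum.exists_valuation_sub_lt_of_integer v
      (K := F) (x := ((x : Fˣ) : F)) (h1 x).le 1
    exact ⟨a, by simpa using ha⟩
  choose a ha using h2
  have key : ∀ (x : Un S T) (b : 𝓞 F), v.valuation F (algebraMap (𝓞 F) F b - ((x : Fˣ) : F)) < 1 →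
      Ideal.Quotient.mk v.asIdeal (a x) = Ideal.Quotient.mk v.asIdeal b := by
    intro x b hb
    rw [Ideal.Quotient.eq, ma3_mem]
    have e : algebraMap (𝓞 F) F (a x - b) = (algebraMap (𝓞 F) F (a x) - ((x : Fˣ) : F)) -
        (algebraMap (𝓞 F) F b - ((x : Fˣ) : F)) := by
      rw [map_sub]; ring
    rw [e]
    exact Valuation.map_sub_lt _ (ha x) hb
  let m : Un S T →* (𝓞 F ⧸ v.asIdeal) :=
    { toFun := fun x => Ideal.Quotient.mk v.asIdeal (a x)
      map_one' := by
        rw [key 1 1 (by simp), map_one]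
      map_mul' := by
        intro x y
        rw [key (x * y) (a x * a y), map_mul]
        have e : algebraMap (𝓞 F) F (a x * a y) - (((x * y : Un S T) : Fˣ) : F) =
            (algebraMap (𝓞 F) F (a x) - ((x : Fˣ) : F)) * algebraMap (𝓞 F) F (a y) +
              ((x : Fˣ) : F) * (algebraMap (𝓞 F) F (a y) - ((y : Fˣ) : F)) := by
          rw [map_mul, Subgroup.coe_mul, Units.val_mul]; ring
        rw [e]
        refine Valuation.map_add_lt _ ?_ ?_
        · rw [map_mul]
          exact mul_lt_one_of_lt_of_le (ha x) (HeightOneSpectrum.valuation_le_one v (a y))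
        · rw [map_mul, h1 x, one_mul]
          exact ha y }
  refine ⟨m.toHomUnits, fun x => ?_⟩
  rw [Units.ext_iff]
  change Ideal.Quotient.mk v.asIdeal (a x) = 1 ↔ _
  constructor
  · intro h
    have h3 : Ideal.Quotient.mk v.asIdeal (a x) = Ideal.Quotient.mk v.asIdeal 1 := by
      rw [h, map_one]
    rw [Ideal.Quotient.eq, ma3_mem, map_sub, map_one] at h3
    have e : ((x : Fˣ) : F) - 1 = (algebraMap (𝓞 F) F (a x) - 1) -
        (algebraMap (𝓞 F) F (a x) - ((x : Fˣ) : F)) := by ring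
    rw [e]
    exact Valuation.map_sub_lt _ h3 (ha x)
  · intro h
    rw [key x 1, map_one]
    rw [map_one, Valuation.map_sub_swap]
    exact h

theorem ma3_card (v : HeightOneSpectrum (𝓞 F)) :
    Nat.card (𝓞 F ⧸ v.asIdeal)ˣ = nv v - 1 := by
  haveI : v.asIdeal.IsMaximal := v.isMaximal
  letI : Field (𝓞 F ⧸ v.asIdeal) := Ideal.Quotient.field v.asIdeal
  haveI : Finite (𝓞 F ⧸ v.asIdeal) := Ideal.finiteQuotientOfFreeOfNeBot v.asIdeal v.ne_bot
  rw [Nat.card_units, nv, Ideal.absNorm_apply, Submodule.cardQuot_apply]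

/-- the index is the order of a subgroup of a cyclic group of order `nv v - 1` -/
theorem ma3_index {v : HeightOneSpectrum (𝓞 F)} (hv : v ∉ T) (hvS : v ∉ S) :
    ∃ B : Subgroup (𝓞 F ⧸ v.asIdeal)ˣ,
      (Un S (Finset.cons v T hv)).relIndex (Un S T) = Nat.card B ∧
      (∀ n : ℕ, (∀ x ∈ Un S T, v.valuation F ((x : F) ^ n - 1) < 1) ↔ ∀ b ∈ B, b ^ n = 1) := by
  obtain ⟨ρ, hρ⟩ := ma3_hom hvS T
  refine ⟨ρ.range, ?_, fun n => ?_⟩
  · rw [← Subgroup.index_ker, Subgroup.relIndex]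
    congr 1
    ext x
    rw [MonoidHom.mem_ker, hρ x, Subgroup.mem_subgroupOf]
    constructor
    · intro h
      exact h.2 v (Finset.mem_cons_self v T)
    · intro h
      refine ⟨x.2.1, fun v' hv' => ?_⟩
      rcases Finset.mem_cons.1 hv' with rfl | h'
      · exact h
      · exact x.2.2 v' h'
  · constructor
    · rintro h b ⟨x, rfl⟩
      rw [← map_pow, hρ]
      have := h x x.2
      simpa using this
    · intro h x hx
      have h1 := h (ρ ⟨x, hx⟩) ⟨_, rfl⟩
      rw [← map_pow, hρ] at h1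
      simpa using h1

/-- if `p` does not divide the new class number, then `U_{S,T}(F)` has an element which is not a
`p`-th power modulo `v` (if `p` divides `N v - 1`) -/
theorem ma_unit (hp : p.Prime) {v : HeightOneSpectrum (𝓞 F)} (hv : v ∉ T) (hvS : v ∉ S)
    (hST : Disjoint S T) (hA' : ¬ p ∣ hA S (Finset.cons v T hv)) (hpv : p ∣ nv v - 1) :
    ∃ x ∈ Un S T, ¬ v.valuation F ((x : F) ^ ((nv v - 1) / p) - 1) < 1 := by
  by_contra hcon
  push Not at hcon
  obtain ⟨B, hB, hn⟩ := ma3_index (S := S) (T := T) hv hvS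
  have hBp := (hn ((nv v - 1) / p)).1 hcon
  have hex := ma_exact (S := S) (T := T) hv hvS hST
  rw [hB] at hex
  haveI : v.asIdeal.IsMaximal := v.isMaximal
  letI : Field (𝓞 F ⧸ v.asIdeal) := Ideal.Quotient.field v.asIdeal
  haveI : Finite (𝓞 F ⧸ v.asIdeal) := Ideal.finiteQuotientOfFreeOfNeBot v.asIdeal v.ne_bot
  have hc : IsCyclic B := inferInstance
  obtain ⟨g, hg⟩ := hc.exists_generator
  have hord : orderOf g = Nat.card B := orderOf_eq_card_of_forall_mem_zpowers hg
  have hdv : Nat.card B ∣ (nv v - 1) / p := by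
    rw [← hord]
    apply orderOf_dvd_of_pow_eq_one
    apply Subtype.ext
    rw [Subgroup.coe_pow, Subgroup.coe_one]
    exact hBp g g.2
  obtain ⟨k, hk⟩ := hdv
  have hq : nv v - 1 = p * (Nat.card B * k) := by
    rw [← hk, Nat.mul_div_cancel' hpv]
  have hBpos : 0 < Nat.card B := Nat.card_pos
  rw [hq] at hex
  apply hA'
  refine ⟨hA S T * k, ?_⟩
  apply Nat.eq_of_mul_eq_mul_right hBpos
  rw [hex]
  ring

/-- and conversely -/
theorem ma_conv (hp : p.Prime) {v : HeightOneSpectrum (𝓞 F)} (hv : v ∉ T) (hvS : v ∉ S)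
    (hST : Disjoint S T) (hA' : ¬ p ∣ hA S T)
    (h : p ∣ nv v - 1 → ∃ x ∈ Un S T, ¬ v.valuation F ((x : F) ^ ((nv v - 1) / p) - 1) < 1) :
    ¬ p ∣ hA S (Finset.cons v T hv) := by
  intro hdvd
  obtain ⟨B, hB, hn⟩ := ma3_index (S := S) (T := T) hv hvS
  have hex := ma_exact (S := S) (T := T) hv hvS hST
  rw [hB] at hex
  have hcard := ma3_card v
  haveI : v.asIdeal.IsMaximal := v.isMaximal
  letI : Field (𝓞 F ⧸ v.asIdeal) := Ideal.Quotient.field v.asIdeal
  haveI : Finite (𝓞 F ⧸ v.asIdeal) := Ideal.finiteQuotientOfFreeOfNeBot v.asIdeal v.ne_bot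
  have hpq : p ∣ nv v - 1 := by
    have : p ∣ hA S T * (nv v - 1) := by rw [← hex]; exact dvd_mul_of_dvd_left hdvd _
    exact (hp.dvd_mul.1 this).resolve_left hA'
  obtain ⟨x, hx, hxv⟩ := h hpq
  have hnB : ¬ ∀ b ∈ B, b ^ ((nv v - 1) / p) = 1 := fun hh =>
    hxv ((hn _).2 hh x hx)
  push Not at hnB
  obtain ⟨b, hb, hb1⟩ := hnB
  have hq0 : nv v - 1 ≠ 0 := by
    rw [← hcard]; exact Nat.card_pos.ne'
  obtain ⟨e, q0, hq0p, hqe⟩ := Nat.exists_eq_pow_mul_and_not_dvd hq0 p hp.ne_one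
  have he : 0 < e := by
    rcases Nat.eq_zero_or_pos e with h0 | h0
    · exfalso
      rw [h0, pow_zero, one_mul] at hqe
      exact hq0p (hqe ▸ hpq)
    · exact h0
  have hordq : orderOf b ∣ nv v - 1 := by
    rw [← hcard]; exact orderOf_dvd_natCard b
  have hpe : p ^ e ∣ orderOf b := by
    by_contra hne
    apply hb1
    apply orderOf_dvd_iff_pow_eq_one.1
    have h5 : (nv v - 1) / p = p ^ (e - 1) * q0 := by
      rw [hqe]
      have : p ^ e = p * p ^ (e - 1) := by
        rw [← pow_succ', Nat.sub_add_cancel he]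
      rw [this, mul_assoc, Nat.mul_div_cancel_left _ hp.pos]
    rw [h5]
    obtain ⟨i, m, hmp, hm⟩ := Nat.exists_eq_pow_mul_and_not_dvd (orderOf_pos b).ne' p hp.ne_one
    have hi : i < e := by
      by_contra hie
      push Not at hie
      exact hne (by rw [hm]; exact dvd_mul_of_dvd_left (pow_dvd_pow p hie) m)
    have hmq : m ∣ q0 := by
      have h7 : m ∣ p ^ e * q0 := by
        rw [← hqe]; exact dvd_trans ⟨p ^ i, by rw [hm, mul_comm]⟩ hordq
      exact (Nat.Coprime.pow_right e (((Nat.Prime.coprime_iff_not_dvd hp).2 hmp).symm)).dvd_of_dvd_mul_left h7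
    rw [hm]
    exact mul_dvd_mul (pow_dvd_pow p (by omega)) hmq
  have hcB : orderOf b ∣ Nat.card B := by
    have := Subgroup.orderOf_dvd_natCard B hb
    exact this
  obtain ⟨i0, hi0⟩ := dvd_trans hpe hcB
  rw [hi0, hqe] at hex
  have hfin : hA S (Finset.cons v T hv) * i0 = hA S T * q0 := by
    apply Nat.eq_of_mul_eq_mul_left (pow_pos hp.pos e)
    calc p ^ e * (hA S (Finset.cons v T hv) * i0)
        = hA S (Finset.cons v T hv) * (p ^ e * i0) := by ring
      _ = hA S T * (p ^ e * q0) := hex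
      _ = p ^ e * (hA S T * q0) := by ring
  have : p ∣ hA S T * q0 := by rw [← hfin]; exact dvd_mul_of_dvd_left hdvd _
  rcases hp.dvd_mul.1 this with h6 | h6
  · exact hA' h6
  · exact hq0p h6
end
end Pool.Agent.PD
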