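import Pool.Agent.Lib_helper24.PD.Defs
import Pool.Agent.Lib_helper24.PD.P.MA3
import Pool.Agent.Lib_helper24.PD.P.LA1
set_option autoImplicit false
set_option linter.unusedSectionVars false
namespace Pool.Agent.PD
open Pool.Agent Pool.Agent.RSK Pool.Agent.RS2 Pool.Agent.AU
open NumberField IsDedekindDomain Filter Topology Complex
open scoped TensorProduct
section
variable {F H : Type} [Field F] [NumberField F] [Field H] [NumberField H] [Algebra F H]
  [IsGalois F H] {G : Type} [CommGroup G] [Fintype G] {p : ℕ} {ι : G ≃* (H ≃ₐ[F] H)}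
  {S T : Finset (HeightOneSpectrum (𝓞 F))} {r : ℕ} {w : Fin r → Pl H}
  {fr : HeightOneSpectrum (𝓞 F) → G}

/-- a functional whose value at an element not divisible by `p` is prime to `p` -/
theorem lb1_func {M : Type} [AddCommGroup M] [Module.Finite ℤ M] [Module.IsTorsionFree ℤ M]
    {p : ℕ} (y : M) (hy : ∀ z : M, y ≠ p • z) : ∃ f : M →+ ℤ, ¬ (p : ℤ) ∣ f y := by
  classical
  by_contra hcon
  push Not at hcon
  have hfree : Module.Free ℤ M := Module.free_of_finite_type_torsion_free'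
  let b := Module.Free.chooseBasis ℤ M
  have h1 : ∀ i, ∃ c : ℤ, b.repr y i = p * c := by
    intro i
    exact hcon ((b.coord i).toAddMonoidHom)
  choose c hc using h1
  apply hy (∑ i, c i • b i)
  rw [Finset.smul_sum]
  conv_lhs => rw [← b.sum_repr y]
  refine Finset.sum_congr rfl fun i _ => ?_
  rw [hc i, ← natCast_zsmul, smul_smul]

theorem lb1_val_nsmul (n : ℕ) (u : UM ι S T) : (n • u).val = u.val ^ n := by
  induction n with
  | zero =>
    rw [zero_smul, pow_zero]
    rfl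
  | succ n ih => rw [succ_nsmul, UM.val_add, ih, pow_succ]

/-- an `S`-unit of `F` -/
theorem lb1_F (hp : p.Prime) (hD : One ι S T r w fr) (hr : 0 < r)
    {v : HeightOneSpectrum (𝓞 F)} (hv : v ∉ T) (hvS : v ∉ S)
    (hA' : ¬ p ∣ hA S (Finset.cons v T hv)) :
    ∃ x ∈ Un S T, ∀ z ∈ Un S (Finset.cons v T hv), z ^ p ≠ x ^ (nv v - 1) := by
  classical
  have hD' := la_data hD hv hvS
  have htf := RSK.tf_F (RSK.tf_H hD.data).1
  have hsub : ∀ z ∈ Un S (Finset.cons v T hv), z ∈ Un S T := fun z hz =>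
    ⟨hz.1, fun v' hv' => hz.2 v' (Finset.mem_cons_of_mem hv')⟩
  by_cases hpv : p ∣ nv v - 1
  · obtain ⟨x, hx, hnx⟩ := ma_unit hp hv hvS hD.data.disj hA' hpv
    refine ⟨x, hx, fun z hz h => hnx ?_⟩
    set k := (nv v - 1) / p with hk
    have hk1 : k * p = nv v - 1 := Nat.div_mul_cancel hpv
    have h1 : (z * (x ^ k)⁻¹) ^ p = 1 := by
      rw [mul_pow, inv_pow, ← pow_mul, hk1, h, mul_inv_cancel]
    have h2 : z * (x ^ k)⁻¹ = 1 :=
      htf _ ((Un S T).mul_mem (hsub z hz) ((Un S T).inv_mem ((Un S T).pow_mem hx k))) p hp.pos h1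
    have h3 : z = x ^ k := by rwa [mul_inv_eq_one] at h2
    have h4 := hz.2 v (Finset.mem_cons_self v T)
    rw [h3] at h4
    push_cast at h4
    exact h4
  · have hTF := RSK.tf_F (RSK.tf_H hD'.data).1
    obtain ⟨n, ⟨b⟩⟩ := RSK.un_exists hD'.data.disj hTF
    have hn := (cnf hD'.data.disj hTF b).1
    have hcard : Fintype.card (PS S) = Fintype.card (InfinitePlace F) + S.card := by
      rw [Fintype.card_sum, Fintype.card_coe]
    have hnr : n = r := by
      have := hD.one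
      omega
    subst hnr
    set i₀ : Fin n := ⟨0, hr⟩ with hi₀
    set x : Un S (Finset.cons v T hv) := Additive.toMul (b i₀) with hx
    refine ⟨(x : Fˣ), hsub _ x.2, fun z hz h => ?_⟩
    have hcop : Nat.Coprime p (nv v - 1) := (Nat.Prime.coprime_iff_not_dvd hp).2 hpv
    have hbez := Nat.gcd_eq_gcd_ab p (nv v - 1)
    rw [hcop.gcd_eq_one] at hbez
    set α := Nat.gcdA p (nv v - 1) with hα
    set β := Nat.gcdB p (nv v - 1) with hβ
    set z' : Un S (Finset.cons v T hv) := ⟨z, hz⟩ with hz'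
    have h' : z' ^ p = x ^ (nv v - 1) := Subtype.ext h
    have h1 : x = (x ^ α * z' ^ β) ^ p := by
      have h2 : (x ^ α * z' ^ β) ^ p = (x ^ (p : ℤ)) ^ α * (z' ^ p) ^ β := by
        rw [mul_pow, ← zpow_natCast, ← zpow_natCast, ← zpow_natCast, ← zpow_mul, ← zpow_mul,
          ← zpow_mul, ← zpow_mul, mul_comm α, mul_comm β]
      rw [h2, h', ← zpow_mul, ← zpow_natCast x (nv v - 1), ← zpow_mul, ← zpow_add]
      have h3 : (p : ℤ) * α + ((nv v - 1 : ℕ) : ℤ) * β = 1 := by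
        have := hbez
        push_cast at this ⊢
        linarith
      rw [h3, zpow_one]
    have h4 : b i₀ = p • Additive.ofMul (x ^ α * z' ^ β) := by
      rw [← ofMul_pow, ← h1]
      rfl
    have h5 := congrArg (fun m => b.repr m i₀) h4
    simp only [Module.Basis.repr_self, Finsupp.single_eq_same, map_nsmul, Finsupp.smul_apply] at h5
    have h6 : (p : ℤ) ∣ 1 := ⟨_, by rw [h5, nsmul_eq_mul]⟩
    have h7 := Int.natCast_dvd_natCast.1 (by exact_mod_cast h6 : ((p : ℕ) : ℤ) ∣ ((1 : ℕ) : ℤ))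
    exact hp.one_lt.ne' (Nat.dvd_one.1 h7)

/-- a functional of this form which does not vanish modulo `p` on `U_{S,T}(F)` -/
theorem lb_phi (hp : p.Prime) (hG : Nat.card G = p) (hD : One ι S T r w fr) (hr : 0 < r)
    {v : HeightOneSpectrum (𝓞 F)} (hv : v ∉ T) (hvS : v ∉ S)
    (hA' : ¬ p ∣ hA S (Finset.cons v T hv)) :
    ∃ (φ' : UM ι S (Finset.cons v T hv) →ₗ[MonoidAlgebra ℤ G] MonoidAlgebra ℤ G)
      (φ : UM ι S T →ₗ[MonoidAlgebra ℤ G] MonoidAlgebra ℤ G),
      (∀ x : UM ι S (Finset.cons v T hv), φ (l4_inc ι S (Finset.subset_cons hv) x) =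
        (MonoidAlgebra.single (fr v) (1 : ℤ) - (nv v : MonoidAlgebra ℤ G)) * φ' x) ∧
      ∃ x ∈ mPlus G (UM ι S T), ¬ (p : ℤ) ∣ (φ x).coeff 1 := by
  classical
  have hD' := la_data hD hv hvS
  have hfin := RSK.um_finite hD'.data
  have htf := RSK.um_tf hD'.data
  obtain ⟨x₀, hx₀, hnx⟩ := lb1_F hp hD hr hv hvS hA'
  set x : UM ι S T := RSK.rf2_inc ι S T (Additive.ofMul ⟨x₀, hx₀⟩) with hx
  have hxp : x ∈ mPlus G (UM ι S T) := RSK.rf2_inc_plus _
  -- the element `y` with `y = (Fr - N v) x`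
  obtain ⟨_, -, hall⟩ := la_phi (ι := ι) hD hv hvS 0
  obtain ⟨y, hy, -⟩ := hall x
  have hinj : Function.Injective (l4_inc ι S (T := T) (Finset.subset_cons hv)) := by
    intro a b hab
    apply UM.ext
    have h1 := congrArg UM.val hab
    rwa [l4_inc_val, l4_inc_val] at h1
  have hact : (MonoidAlgebra.single (fr v) (1 : ℤ) - (nv v : MonoidAlgebra ℤ G)) • x =
      x - nv v • x := by
    rw [sub_smul, hxp (fr v), Nat.cast_smul_eq_nsmul]
  rw [hact] at hy
  have hnv : 1 ≤ nv v := by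
    have := nv_two_le v
    omega
  have hyp : ∀ g : G, MonoidAlgebra.single g (1 : ℤ) • y = y := by
    intro g
    apply hinj
    rw [map_smul, hy, smul_sub, smul_comm, hxp g]
  have hyn : ∀ z : UM ι S (Finset.cons v T hv), y ≠ p • z := by
    intro z hz
    have hzp : z ∈ mPlus G (UM ι S (Finset.cons v T hv)) := by
      intro g
      have h1 : (p : ℤ) • (MonoidAlgebra.single g (1 : ℤ) • z - z) = 0 := by
        rw [natCast_zsmul, nsmul_sub, smul_comm, ← hz, hyp g, sub_self]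
      have h2 : MonoidAlgebra.single g (1 : ℤ) • z - z = 0 :=
        (smul_eq_zero.1 h1).resolve_left (by exact_mod_cast hp.ne_zero)
      exact sub_eq_zero.1 h2
    obtain ⟨z₀, hz₀⟩ := RSK.rf2_plus z hzp
    set z₁ : Un S (Finset.cons v T hv) := Additive.toMul z₀ with hz₁
    have h3 : z.val ^ p = x.val * (x.val ^ nv v)⁻¹ := by
      have h4 := congrArg UM.val hy
      rw [l4_inc_val, hz, lb1_val_nsmul, sub_eq_add_neg, UM.val_add, UM.val_neg,
        lb1_val_nsmul] at h4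
      exact h4
    have h5 : z.val = Units.map (algebraMap F H : F →* H) (z₁ : Fˣ) := by
      rw [← hz₀, RSK.rf2_inc_val]
    have h6 : x.val = Units.map (algebraMap F H : F →* H) x₀ := by
      rw [hx, RSK.rf2_inc_val]
      rfl
    rw [h5, h6, ← map_pow, ← map_pow, ← map_inv, ← map_mul] at h3
    have h7 := Units.map_injective (f := (algebraMap F H : F →* H)) (algebraMap F H).injective h3
    apply hnx (z₁ : Fˣ)⁻¹ ((Un S (Finset.cons v T hv)).inv_mem z₁.2)
    rw [inv_pow, h7, mul_inv, inv_inv]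
    obtain ⟨m, hm⟩ : ∃ m, nv v = m + 1 := ⟨nv v - 1, by omega⟩
    rw [hm, Nat.add_sub_cancel, pow_succ, mul_comm, mul_inv_cancel_right]
  obtain ⟨f, hf⟩ := lb1_func y hyn
  obtain ⟨φ, hφ1, hφ2⟩ := la_phi (ι := ι) hD hv hvS (RB.psi f)
  refine ⟨RB.psi f, φ, hφ1, x, hxp, ?_⟩
  obtain ⟨y₂, hy₂, hy₃⟩ := hφ2 x
  rw [hact, ← hy] at hy₂
  rw [hy₃, hinj hy₂, RB.psi_apply]
  have h1 : (∑ γ : G, MonoidAlgebra.single γ
      (f (MonoidAlgebra.single γ⁻¹ (1 : ℤ) • y))).coeff 1 = f y := by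
    simp only [MonoidAlgebra.coeff_sum, MonoidAlgebra.coeff_single, Finsupp.finsetSum_apply,
      Finsupp.single_apply, Finset.sum_ite_eq', Finset.mem_univ, if_true]
    rw [hyp]
  rw [h1]
  exact hf
end
end Pool.Agent.PD
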