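import Pool.Agent.Lib_helper24.PD.Defs
import Pool.Agent.Lib_helper24.PD.P.GA
import Pool.Agent.Lib_helper24.PD.P.HC
import Pool.Agent.Lib_helper24.PD.P.IF
import Pool.Agent.Lib_helper24.PD.P.LA2
import Pool.Agent.Lib_helper24.PD.P.LB1
import Pool.Agent.Lib_helper24.PD.P.MA2
set_option autoImplicit false
set_option linter.unusedSectionVars false
namespace Pool.Agent.PD
open Pool.Agent Pool.Agent.RSK Pool.Agent.RS2 Pool.Agent.AU
open NumberField IsDedekindDomain Filter Topology Complex
open scoped TensorProduct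
section
variable {F H : Type} [Field F] [NumberField F] [Field H] [NumberField H] [Algebra F H]
  [IsGalois F H] {G : Type} [CommGroup G] [Fintype G] {p : ℕ} {ι : G ≃* (H ≃ₐ[F] H)}
  {S T : Finset (HeightOneSpectrum (𝓞 F))} {r : ℕ} {w : Fin r → Pl H}
  {fr : HeightOneSpectrum (𝓞 F) → G}

/-- the determinant of an identity matrix with one row changed -/
theorem lb2_det {n : ℕ} (j : Fin n) (f : Fin n → ℤ) :
    Matrix.det (Matrix.of fun i k : Fin n => if i = j then f k else if i = k then 1 else 0) =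
      f j := by
  have h : (Matrix.of fun i k : Fin n => if i = j then f k else if i = k then 1 else 0) =
      (1 : Matrix (Fin n) (Fin n) ℤ).updateRow j f := by
    ext i k
    rw [Matrix.updateRow_apply, Matrix.of_apply, Matrix.one_apply]
  rw [h, ← Matrix.det_transpose, ← Matrix.updateCol_transpose, Matrix.transpose_one]
  have h2 := Matrix.cramer_one (n := Fin n) (α := ℤ)
  have h3 := Matrix.cramer_apply (1 : Matrix (Fin n) (Fin n) ℤ) f j
  rw [← h3, h2]
  rfl

theorem lb_step (hp : p.Prime) (hG : Nat.card G = p) (hE : Ext ι) (hD : One ι S T r w fr)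
    (hr : 0 < r) {v : HeightOneSpectrum (𝓞 F)} (hv : v ∉ T) (hvS : v ∉ S)
    (hA' : ¬ p ∣ hA S (Finset.cons v T hv)) {a a' : ℤ} (ha : Adm p a ι S T w fr)
    (ha' : Adm p a' ι S (Finset.cons v T hv) w fr) : (p : ℤ) ∣ a - a' := by
  classical
  have hD' : One ι S (Finset.cons v T hv) r w fr :=
    ⟨data_T hD.data hv hvS, hD.one⟩
  have hA0 : ¬ p ∣ hA S T := fun h => hA' (h.trans (ma_T hv hvS hD.data.disj))
  obtain ⟨b⟩ := if_basis hp hG hD
  obtain ⟨φ', φ, hφ, x, hx, hpx⟩ := lb_phi hp hG hD hr hv hvS hA'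
  obtain ⟨x0, ψ0, -, hψ0, -⟩ := if_dual hp hG hD hA0 b
  obtain ⟨y, hy⟩ := RSK.rf2_plus x hx
  -- some basis element
  obtain ⟨j, hj⟩ : ∃ j, ¬ (p : ℤ) ∣ (φ (inc ι S T (b j))).coeff 1 := by
    by_contra hcon
    push Not at hcon
    apply hpx
    rw [← hy, ← b.sum_repr y, map_sum, map_sum]
    have h1 : (∑ i, φ (RSK.rf2_inc ι S T ((b.repr y) i • b i))).coeff 1 =
        ∑ i, (b.repr y) i * (φ (inc ι S T (b i))).coeff 1 := by
      rw [MonoidAlgebra.coeff_sum]
      rw [Finset.sum_apply']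
      refine Finset.sum_congr rfl fun i _ => ?_
      rw [map_zsmul, map_zsmul]
      rw [MonoidAlgebra.coeff_smul]
      rfl
    rw [h1]
    exact Finset.dvd_sum fun i _ => Dvd.dvd.mul_left (hcon i) _
  obtain ⟨u, hu⟩ := hE S T r w fr hD
  obtain ⟨u', hu'⟩ := hE S (Finset.cons v T hv) r w fr hD'
  obtain ⟨s, hs, hs1⟩ := hc_one hp hG hD hu b
  have hval := hs1 (Function.update ψ0 j φ)
  have hdet : Matrix.det (Matrix.of fun i k =>
      (Function.update ψ0 j φ i (inc ι S T (b k))).coeff 1) = (φ (inc ι S T (b j))).coeff 1 := by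
    rw [← lb2_det j fun k => (φ (inc ι S T (b k))).coeff 1]
    congr 1
    ext i k
    rw [Matrix.of_apply, Matrix.of_apply]
    by_cases hij : i = j
    · subst hij
      rw [Function.update_self, if_pos rfl]
    · rw [Function.update_of_ne hij, if_neg hij, hψ0]
  rw [hdet] at hval
  have hy1 := ha u hu (Function.update ψ0 j φ)
  have hy2 := la_val hp hG hD hv hvS hu hu' φ' φ hφ ψ0 j
  have hy3 := ha' u' hu' (Function.update (fun j => (ψ0 j).comp
    (l4_inc ι S (Finset.subset_cons hv))) j φ')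
  rw [hy2] at hy3
  have hy4 := ga_mul a' (MonoidAlgebra.single (fr v) 1) hy3
  rw [← mul_assoc, ← map_mul, MonoidAlgebra.single_mul_single, mul_inv_cancel, one_mul] at hy4
  have h1 : (MonoidAlgebra.single (1 : G) (1 : ℤ)) = 1 := rfl
  rw [h1, map_one, one_mul] at hy4
  refine ga_uniq hp hG hval ?_ hy1 hy4
  intro hdiv
  have hpp : Prime (p : ℤ) := Nat.prime_iff_prime_int.mp hp
  rcases hpp.dvd_or_dvd hdiv with h | h
  · rcases hpp.dvd_or_dvd h with h | h
    · rcases hs with rfl | rfl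
      · exact hpp.not_isUnit (isUnit_of_dvd_one h)
      · exact hpp.not_isUnit (isUnit_of_dvd_one (by simpa using h))
    · exact hA0 (Int.natCast_dvd_natCast.mp h)
  · exact hj h
end
end Pool.Agent.PD
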