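import Pool.Agent.Lib_helper24.PD.Defs
set_option autoImplicit false
set_option linter.unusedSectionVars false
namespace Pool.Agent.PD
open Pool.Agent Pool.Agent.RSK Pool.Agent.RS2 Pool.Agent.AU
open NumberField IsDedekindDomain Filter Topology Complex
open scoped TensorProduct
section
variable {F H : Type} [Field F] [NumberField F] [Field H] [NumberField H] [Algebra F H]
  [IsGalois F H] {G : Type} [CommGroup G] [Fintype G] {p : ℕ} {ι : G ≃* (H ≃ₐ[F] H)}
  {S T : Finset (HeightOneSpectrum (𝓞 F))} {r : ℕ} {w : Fin r → Pl H}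
  {fr : HeightOneSpectrum (𝓞 F) → G}
theorem ma_S {v : HeightOneSpectrum (𝓞 F)} (hv : v ∉ S) (hvT : v ∉ T) (hST : Disjoint S T) :
    hA (Finset.cons v S hv) T ∣ hA S T := by
  unfold hA
  refine AddSubgroup.relIndex_dvd_of_le_left (Dv T) ?_
  rintro D ⟨hT, x, hx, hd⟩
  exact ⟨hT, x, hx, fun u hu => hd u (fun h => hu (Finset.mem_cons_of_mem h))⟩
end
end Pool.Agent.PD
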