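import Pool.Agent.Lib_helper24.PD.Defs
import Pool.Agent.Lib_helper17.RS.P_EE
import Pool.Agent.Lib_helper17.RS.P_ED
import Pool.Agent.Lib_helper17.RS.P_XB
set_option autoImplicit false
set_option linter.unusedSectionVars false
namespace Pool.Agent.PD
open Pool.Agent Pool.Agent.RSK Pool.Agent.RS2 Pool.Agent.AU
open NumberField IsDedekindDomain Filter Topology Complex
open scoped TensorProduct Pointwise
section
variable {F H : Type} [Field F] [NumberField F] [Field H] [NumberField H] [Algebra F H]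
  [IsGalois F H] {G : Type} [CommGroup G] [Fintype G] {p : ℕ} {ι : G ≃* (H ≃ₐ[F] H)}
  {S T : Finset (HeightOneSpectrum (𝓞 F))} {r : ℕ} {w : Fin r → Pl H}
  {fr : HeightOneSpectrum (𝓞 F) → G}

/-- in a finite field with `q ^ p` elements, the elements of the subfield with `q` elements are norms -/
theorem na1_ff {K : Type} [Field K] [Finite K] {q p : ℕ} (hq : 2 ≤ q) (hc : Nat.card K = q ^ p)
    {z : K} (hz : z ≠ 0) (hzq : z ^ q = z) :
    ∃ u : K, u ≠ 0 ∧ u ^ (∑ k ∈ Finset.range p, q ^ k) = z := by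
  classical
  have hfin : Fintype K := Fintype.ofFinite K
  obtain ⟨γ, hγ⟩ := IsCyclic.exists_generator (α := Kˣ)
  have hord : orderOf γ = q ^ p - 1 := by
    rw [orderOf_eq_card_of_forall_mem_zpowers hγ, Nat.card_units, hc]
  have hz1 : (Units.mk0 z hz) ^ (q - 1) = 1 := by
    apply Units.ext
    rw [Units.val_pow_eq_pow_val, Units.val_mk0, Units.val_one]
    have h1 : z * z ^ (q - 1) = z * 1 := by
      rw [← pow_succ', Nat.sub_add_cancel (by omega), hzq, mul_one]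
    exact mul_left_cancel₀ hz h1
  have hfo : IsOfFinOrder γ := isOfFinOrder_of_finite γ
  obtain ⟨k, hk⟩ := (hfo.mem_powers_iff_mem_zpowers).2 (hγ (Units.mk0 z hz))
  have hk' : γ ^ k = Units.mk0 z hz := hk
  have hm : (q - 1) * (∑ k ∈ Finset.range p, q ^ k) = q ^ p - 1 := by
    have h := Nat.geomSum_eq hq p
    rw [h]
    exact Nat.mul_div_cancel' (by
      have h2 := Nat.sub_dvd_pow_sub_pow q 1 p
      rwa [one_pow] at h2)
  have h1 : q ^ p - 1 ∣ k * (q - 1) := by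
    rw [← hord, orderOf_dvd_iff_pow_eq_one, pow_mul, hk', hz1]
  rw [← hm, mul_comm k] at h1
  have h2 : (∑ k ∈ Finset.range p, q ^ k) ∣ k := Nat.dvd_of_mul_dvd_mul_left (by omega) h1
  obtain ⟨j, hj⟩ := h2
  refine ⟨((γ ^ j : Kˣ) : K), Units.ne_zero _, ?_⟩
  rw [← Units.val_pow_eq_pow_val, ← pow_mul, mul_comm j, ← hj, hk', Units.val_mk0]

/-- CRT -/
theorem na1_crt {v : HeightOneSpectrum (𝓞 F)} (hv : v ∉ T) {B : Finset (HeightOneSpectrum (𝓞 F))}
    (hvB : v ∉ B) {W₀ : HeightOneSpectrum (𝓞 H)} (hW₀ : W₀.under (𝓞 F) = v) (y₀ : 𝓞 H) :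
    ∃ y : 𝓞 H, y - y₀ ∈ W₀.asIdeal ∧
      (∀ W : HeightOneSpectrum (𝓞 H), W.under (𝓞 F) = v → W ≠ W₀ → y - 1 ∈ W.asIdeal) ∧
      (∀ W ∈ ovr H T, y - 1 ∈ W.asIdeal) ∧ (∀ W ∈ ovr H B, y - 1 ∈ W.asIdeal) := by
  classical
  obtain ⟨y, hy⟩ := xb_approx (ovr H (insert v (T ∪ B)))
    (fun W => if W.1 = W₀ then y₀ else 1)
  have h1 : ∀ W : HeightOneSpectrum (𝓞 H), W.under (𝓞 F) ∈ insert v (T ∪ B) → W ≠ W₀ →
      y - 1 ∈ W.asIdeal := fun W hW hne => by
    have h := hy ⟨W, mem_ovr.2 hW⟩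
    simpa only [if_neg hne] using h
  refine ⟨y, ?_, fun W hW hne => h1 W (by rw [hW]; exact Finset.mem_insert_self _ _) hne,
    fun W hW => ?_, fun W hW => ?_⟩
  · have h := hy ⟨W₀, mem_ovr.2 (by rw [hW₀]; exact Finset.mem_insert_self _ _)⟩
    simpa using h
  · rw [mem_ovr] at hW
    refine h1 W (Finset.mem_insert_of_mem (Finset.mem_union_left _ hW)) ?_
    rintro rfl
    rw [hW₀] at hW
    exact hv hW
  · rw [mem_ovr] at hW
    refine h1 W (Finset.mem_insert_of_mem (Finset.mem_union_right _ hW)) ?_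
    rintro rfl
    rw [hW₀] at hW
    exact hvB hW

theorem na1_norm (ι : G ≃* (H ≃ₐ[F] H)) (b : 𝓞 H) :
    ∃ a : 𝓞 F, algebraMap (𝓞 F) (𝓞 H) a = ∏ g : G, ι g • b := by
  have h0 : ((∏ g : G, ι g • b : 𝓞 H) : H) = algebraMap F H (Algebra.norm F (b : H)) := by
    rw [Algebra.norm_eq_prod_automorphisms, ← Equiv.prod_comp ι.toEquiv]
    have : ((∏ g : G, ι g • b : 𝓞 H) : H) = ∏ g : G, ((ι g • b : 𝓞 H) : H) :=
      map_prod (algebraMap (𝓞 H) H) _ _
    rw [this]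
    rfl
  have h1 : IsIntegral ℤ (Algebra.norm F (b : H)) := Algebra.isIntegral_norm F b.2
  refine ⟨⟨_, h1⟩, ?_⟩
  apply RingOfIntegers.ext
  rw [h0]
  rfl

theorem na1_fin {v : HeightOneSpectrum (𝓞 F)} {B : Finset (HeightOneSpectrum (𝓞 F))}
    {W₀ : HeightOneSpectrum (𝓞 H)} (hW₀ : W₀.under (𝓞 F) = v) {y₀ : 𝓞 H} (hy₀ : y₀ ∉ W₀.asIdeal)
    {y : 𝓞 H} (h1 : y - y₀ ∈ W₀.asIdeal)
    (h2 : ∀ W : HeightOneSpectrum (𝓞 H), W.under (𝓞 F) = v → W ≠ W₀ → y - 1 ∈ W.asIdeal)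
    (h3 : ∀ W ∈ ovr H T, y - 1 ∈ W.asIdeal) (h4 : ∀ W ∈ ovr H B, y - 1 ∈ W.asIdeal)
    {g : 𝓞 F} (hn : ∏ σ : G, ι σ • y - algebraMap (𝓞 F) (𝓞 H) g ∈ W₀.asIdeal) :
    ∃ y : Hˣ, y ∈ KT (ovr H T) ∧ y ∈ KT (ovr H B) ∧ (∀ W : HeightOneSpectrum (𝓞 H),
      W.under (𝓞 F) = v → W.valuation H (y : H) = 1) ∧
      ∃ x : Fˣ, Units.map (algebraMap F H : F →* H) x = ∏ σ : G, ι σ • y ∧
        v.valuation F ((x : F) - (g : F)) < 1 := by
  have hyW : ∀ W : HeightOneSpectrum (𝓞 H), W.under (𝓞 F) = v → y ∉ W.asIdeal := by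
    intro W hW hyW
    by_cases hWW : W = W₀
    · subst hWW
      exact hy₀ ((Submodule.sub_mem_iff_right _ hyW).1 h1)
    · have h := (Submodule.sub_mem_iff_right _ hyW).1 (h2 W hW hWW)
      exact W.isPrime.ne_top ((Ideal.eq_top_iff_one _).2 h)
  have hy0 : (y : H) ≠ 0 := by
    intro h
    have h' : y = 0 := RingOfIntegers.ext h
    exact hyW W₀ hW₀ (h' ▸ W₀.asIdeal.zero_mem)
  have hone : ∀ W : HeightOneSpectrum (𝓞 H), y - 1 ∈ W.asIdeal → W.valuation H ((y : H) - 1) < 1 := by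
    intro W hW
    have h := (xb_lt_iff (v := W) y 1).2 hW
    rwa [show ((1 : 𝓞 H) : H) = 1 from map_one _] at h
  obtain ⟨a, ha⟩ := na1_norm ι y
  have ha0 : (a : F) ≠ 0 := by
    intro h
    have h' : a = 0 := RingOfIntegers.ext h
    rw [h', map_zero] at ha
    obtain ⟨σ, -, hσ⟩ := Finset.prod_eq_zero_iff.1 ha.symm
    have h5 : y = 0 := by
      have h6 := congrArg (fun t => (ι σ)⁻¹ • t) hσ
      simpa using h6
    exact hy0 (by rw [h5]; rfl)
  refine ⟨Units.mk0 (y : H) hy0, fun W hW => hone W (h3 W hW), fun W hW => hone W (h4 W hW),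
    fun W hW => ?_, Units.mk0 (a : F) ha0, ?_, ?_⟩
  · have hpr := W.isPrime
    rw [Units.val_mk0, show ((y : 𝓞 H) : H) = algebraMap (𝓞 H) H y from rfl,
      HeightOneSpectrum.valuation_eq_one_iff_notMem]
    exact hyW W hW
  · apply Units.ext
    have e1 : ((∏ σ : G, ι σ • Units.mk0 (y : H) hy0 : Hˣ) : H) = ∏ σ : G, ι σ (y : H) := by
      rw [Units.coe_prod]
      rfl
    have e2 : ((∏ σ : G, ι σ • y : 𝓞 H) : H) = ∏ σ : G, ι σ (y : H) := by
      rw [show ((∏ σ : G, ι σ • y : 𝓞 H) : H) = ∏ σ : G, ((ι σ • y : 𝓞 H) : H) from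
        map_prod (algebraMap (𝓞 H) H) _ _]
      rfl
    rw [e1, ← e2, ← ha]
    rfl
  · rw [Units.val_mk0, xb_lt_iff, ← hW₀]
    show algebraMap (𝓞 F) (𝓞 H) (a - g) ∈ W₀.asIdeal
    rw [map_sub, ha]
    exact hn

theorem na_res (hp : p.Prime) (hG : Nat.card G = p) (hD : Data ι S T r w fr)
    {v : HeightOneSpectrum (𝓞 F)} (hv : v ∉ T) (hvS : v ∉ S) (B : Finset (HeightOneSpectrum (𝓞 F)))
    (hvB : v ∉ B) {g : 𝓞 F} (hg : g ∉ v.asIdeal) :
    ∃ y : Hˣ, y ∈ KT (ovr H T) ∧ y ∈ KT (ovr H B) ∧ (∀ W : HeightOneSpectrum (𝓞 H),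
      W.under (𝓞 F) = v → W.valuation H (y : H) = 1) ∧
      ∃ x : Fˣ, Units.map (algebraMap F H : F →* H) x = ∏ σ : G, ι σ • y ∧
        v.valuation F ((x : F) - (g : F)) < 1 := by
  classical
  obtain ⟨W₀, hW₀⟩ := ed_exists (H := H) v
  have hunr : Algebra.IsUnramifiedAt (𝓞 F) W₀.asIdeal := hD.unram W₀ (by rw [hW₀]; exact hvS)
  have hfr : ∀ x : 𝓞 H, ι (fr v) • x - x ^ nv (W₀.under (𝓞 F)) ∈ W₀.asIdeal := by
    intro x
    rw [hW₀]
    exact hD.frob v hvS W₀ hW₀ x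
  have hin := ee_inertia hunr hfr
  obtain ⟨f, hf0, hfn, hfc⟩ := ee_f (k := F) W₀
  rw [hin, Subgroup.card_bot, one_mul] at hfc
  have hcard : Nat.card (H ≃ₐ[F] H) = p := by
    rw [← hG]
    exact (Nat.card_congr ι.toEquiv).symm
  have hdvd : f ∣ p := by
    rw [← hfc, ← hcard]
    exact Subgroup.card_subgroup_dvd_card _
  have hg' : algebraMap (𝓞 F) (𝓞 H) g ∉ W₀.asIdeal := by
    intro h
    apply hg
    rw [← hW₀]
    exact h
  have hq2 : 2 ≤ nv v := ed_nv_two v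
  rw [hW₀] at hfr hfn
  rcases (Nat.dvd_prime hp).1 hdvd with rfl | rfl
  · -- split
    obtain ⟨y, h1, h2, h3, h4⟩ := na1_crt hv hvB hW₀ (algebraMap (𝓞 F) (𝓞 H) g)
    refine na1_fin hW₀ hg' h1 h2 h3 h4 (G := G) (ι := ι) ?_
    have hst : ∀ σ : G, σ ≠ 1 → ι σ • y - 1 ∈ W₀.asIdeal := by
      intro σ hσ
      have hns : (ι σ)⁻¹ ∉ MulAction.stabilizer (H ≃ₐ[F] H) W₀.asIdeal := by
        intro h
        rw [Subgroup.eq_bot_of_card_eq _ hfc, Subgroup.mem_bot, inv_eq_one] at h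
        exact hσ (ι.injective (by rw [h, map_one]))
      have h5 := h2 (HeightOneSpectrum.equivOfRingEquiv
        (RingOfIntegers.mapRingEquiv ((ι σ)⁻¹).toRingEquiv) W₀) (by rw [under_equiv, hW₀]) (by
          intro h
          apply hns
          rw [MulAction.mem_stabilizer_iff, ← ee_asIdeal, h])
      rw [ee_asIdeal, Ideal.mem_pointwise_smul_iff_inv_smul_mem, inv_inv, smul_sub, smul_one] at h5
      exact h5
    rw [← Ideal.Quotient.eq, map_prod, Finset.prod_eq_single (1 : G)]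
    · rw [map_one, one_smul]
      exact Ideal.Quotient.eq.2 h1
    · intro σ _ hσ
      rw [← map_one (Ideal.Quotient.mk W₀.asIdeal)]
      exact Ideal.Quotient.eq.2 (hst σ hσ)
    · intro h
      exact absurd (Finset.mem_univ _) h
  · -- inert
    have hmax : W₀.asIdeal.IsMaximal := W₀.isMaximal
    let _ : Field (𝓞 H ⧸ W₀.asIdeal) := Ideal.Quotient.field W₀.asIdeal
    have hfin : Finite (𝓞 H ⧸ W₀.asIdeal) := inferInstance
    have hcardK : Nat.card (𝓞 H ⧸ W₀.asIdeal) = nv v ^ f := by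
      rw [← hfn, ee_nv]
    have hfr1 : fr v ≠ 1 := by
      intro h
      refine ee_frob_ne (k := F) hp.two_le (by rw [hW₀]; exact hfn) (τ := ι (fr v))
        (by rw [hW₀]; exact hfr) ?_
      rw [h, map_one]
    have hpow : ∀ (k : ℕ) (x : 𝓞 H), Ideal.Quotient.mk W₀.asIdeal (ι (fr v ^ k) • x) =
        Ideal.Quotient.mk W₀.asIdeal x ^ (nv v ^ k) := by
      intro k
      induction k with
      | zero => intro x; rw [pow_zero, map_one, one_smul, pow_zero, pow_one]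
      | succ k ih =>
        intro x
        rw [pow_succ', map_mul, mul_smul]
        have h := Ideal.Quotient.eq.2 (hfr (ι (fr v ^ k) • x))
        rw [h, map_pow, ih, ← pow_mul, pow_succ]
    have hgq : Ideal.Quotient.mk W₀.asIdeal (algebraMap (𝓞 F) (𝓞 H) g) ^ nv v =
        Ideal.Quotient.mk W₀.asIdeal (algebraMap (𝓞 F) (𝓞 H) g) := by
      have h := hpow 1 (algebraMap (𝓞 F) (𝓞 H) g)
      rw [pow_one, pow_one] at h
      rw [← h]
      congr 1
      apply RingOfIntegers.ext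
      exact (ι (fr v)).commutes (g : F)
    obtain ⟨u, hu0, hu⟩ := na1_ff hq2 hcardK
      (z := Ideal.Quotient.mk W₀.asIdeal (algebraMap (𝓞 F) (𝓞 H) g))
      (by rw [Ne, Ideal.Quotient.eq_zero_iff_mem]; exact hg') hgq
    obtain ⟨y₀, rfl⟩ := Ideal.Quotient.mk_surjective u
    have hy₀ : y₀ ∉ W₀.asIdeal := by
      rwa [Ne, Ideal.Quotient.eq_zero_iff_mem] at hu0
    obtain ⟨y, h1, h2, h3, h4⟩ := na1_crt hv hvB hW₀ y₀
    refine na1_fin hW₀ hy₀ h1 h2 h3 h4 (G := G) (ι := ι) ?_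
    have hfp : Fact f.Prime := ⟨hp⟩
    have hord : orderOf (fr v) = f := orderOf_eq_prime (by rw [← hG]; exact pow_card_eq_one') hfr1
    have himg := IsCyclic.image_range_orderOf (a := fr v)
      (fun x => mem_zpowers_of_prime_card hG hfr1)
    rw [hord] at himg
    rw [← Ideal.Quotient.eq, map_prod, ← hu, ← himg, Finset.prod_image]
    · rw [← Finset.prod_pow_eq_pow_sum]
      refine Finset.prod_congr rfl fun k _ => ?_
      rw [hpow, Ideal.Quotient.eq.2 h1]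
    · intro i hi j hj hij
      rw [Finset.coe_range, Set.mem_Iio, ← hord] at hi hj
      exact pow_injOn_Iio_orderOf hi hj hij

end
end Pool.Agent.PD
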