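import Pool.Agent.Lib_helper24.PD.Defs
import Pool.Agent.Lib_helper24.PD.P.MA1
import Pool.Agent.Lib_helper24.PD.P.MA2
import Pool.Agent.Lib_helper24.PD.P.MA3
import Pool.Agent.Lib_helper24.PD.P.NA1
import Pool.Agent.Lib_helper17.RS.P_XA1
import Pool.Agent.Lib_helper17.RS.P_RT
import Pool.Agent.Lib_helper17.RS.P_PH
import Pool.Agent.Lib_helper17.RS.P_CD
set_option autoImplicit false
set_option linter.unusedSectionVars false
namespace Pool.Agent.PD
open Pool.Agent Pool.Agent.RSK Pool.Agent.RS2 Pool.Agent.AU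
open NumberField IsDedekindDomain Filter Topology Complex
open scoped TensorProduct

section
variable {k : Type} [Field k] [NumberField k]

/-- `h D` is principal -/
theorem na2_pow_mem {S T : Finset (HeightOneSpectrum (𝓞 k))}
    {D : HeightOneSpectrum (𝓞 k) →₀ ℤ} (hD : D ∈ Dv T) : hA S T • D ∈ Pr S T := by
  have h := AddSubgroup.nsmul_index_mem ((Pr S T).addSubgroupOf (Dv T)) ⟨D, hD⟩
  rw [AddSubgroup.mem_addSubgroupOf] at h
  exact h

/-- enlarging `S` -/
theorem na2_dvd {S T : Finset (HeightOneSpectrum (𝓞 k))} (hST : Disjoint S T)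
    (P : Finset (HeightOneSpectrum (𝓞 k))) : (∀ v ∈ P, v ∉ S) → (∀ v ∈ P, v ∉ T) →
    ∀ S' : Finset (HeightOneSpectrum (𝓞 k)), (∀ v, v ∈ S' ↔ v ∈ S ∨ v ∈ P) →
      hA S' T ∣ hA S T := by
  classical
  induction P using Finset.induction_on with
  | empty =>
    intro _ _ S' hS'
    have h : S' = S := by
      ext v
      rw [hS']
      simp
    rw [h]
  | insert a P ha ih =>
    intro hPS hPT S' hS'
    have h1 : a ∉ S ∪ P := by
      rw [Finset.mem_union]
      rintro (h | h)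
      · exact hPS a (Finset.mem_insert_self _ _) h
      · exact ha h
    have h2 : S' = Finset.cons a (S ∪ P) h1 := by
      ext v
      rw [hS', Finset.mem_cons, Finset.mem_union, Finset.mem_insert]
      tauto
    have h3 : Disjoint (S ∪ P) T := by
      rw [Finset.disjoint_union_left]
      refine ⟨hST, Finset.disjoint_left.2 fun v hv => hPT v (Finset.mem_insert_of_mem hv)⟩
    have h4 := ma_S (S := S ∪ P) (T := T) h1 (hPT a (Finset.mem_insert_self _ _)) h3
    have h5 := ih (fun v hv => hPS v (Finset.mem_insert_of_mem hv))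
      (fun v hv => hPT v (Finset.mem_insert_of_mem hv)) (S ∪ P) (fun v => by
        rw [Finset.mem_union])
    rw [h2]
    exact h4.trans h5

/-- a generator of the residue field -/
theorem na2_gen (v : HeightOneSpectrum (𝓞 k)) : ∃ g : 𝓞 k, g ∉ v.asIdeal ∧
    ∀ x : rt_U v, v.valuation k (((x : kˣ) : k) - (g : k)) < 1 →
      orderOf (rt_red v x) = nv v - 1 := by
  obtain ⟨u, hu⟩ := IsCyclic.exists_generator (α := (𝓞 k ⧸ v.asIdeal)ˣ)
  obtain ⟨g, hg⟩ := Ideal.Quotient.mk_surjective (u : 𝓞 k ⧸ v.asIdeal)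
  refine ⟨g, fun h => ?_, fun x hx => ?_⟩
  · rw [Ideal.Quotient.eq_zero_iff_mem.2 h] at hg
    exact u.ne_zero hg.symm
  · have h1 : rt_red v x = u := by
      refine Units.ext ?_
      have hx1 : v.valuation k ((x : kˣ) : k) = 1 := x.2
      rw [rt_red_val, ← hg]
      refine rt_res_eq hx1.le ?_
      rw [Valuation.map_sub_swap]
      exact hx
    rw [h1, orderOf_eq_card_of_forall_mem_zpowers hu, rt_card_units]

/-- the element `x^h / z^p` -/
theorem na2_elt {p : ℕ} (hp : p.Prime) (v : HeightOneSpectrum (𝓞 k)) {x z : kˣ}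
    (hx : x ∈ rt_U v) (hz : z ∈ rt_U v) (ho : orderOf (rt_red v ⟨x, hx⟩) = nv v - 1)
    {h : ℕ} (hh : ¬ p ∣ h) (hpv : p ∣ nv v - 1) :
    ¬ v.valuation k (((x ^ h * (z ^ p)⁻¹ : kˣ) : k) ^ ((nv v - 1) / p) - 1) < 1 := by
  intro hlt
  obtain ⟨m, hm⟩ := hpv
  have hn2 := nv_two_le v
  have hm0 : m ≠ 0 := by
    rintro rfl
    omega
  have hmp : (nv v - 1) / p = m := by
    rw [hm, Nat.mul_div_cancel_left _ hp.pos]
  rw [hmp] at hlt
  have h1 : rt_red v ((⟨x, hx⟩ ^ h * (⟨z, hz⟩ ^ p)⁻¹) ^ m) = 1 := by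
    rw [rt_red_one_iff]
    exact hlt
  have h2 : rt_red v ⟨z, hz⟩ ^ (p * m) = 1 := by
    rw [← hm, ← rt_card_units]
    exact pow_card_eq_one'
  rw [map_pow, map_mul, map_inv, map_pow, map_pow, mul_pow, ← pow_mul, inv_pow, ← pow_mul, h2,
    inv_one, mul_one, ← orderOf_dvd_iff_pow_eq_one, ho, hm] at h1
  exact hh (Nat.dvd_of_mul_dvd_mul_right (Nat.pos_of_ne_zero hm0) h1)

end

section
variable {F H : Type} [Field F] [NumberField F] [Field H] [NumberField H] [Algebra F H]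
  [IsGalois F H] {G : Type} [CommGroup G] [Fintype G] {p : ℕ} {ι : G ≃* (H ≃ₐ[F] H)}
  {S T : Finset (HeightOneSpectrum (𝓞 F))} {r : ℕ} {w : Fin r → Pl H}
  {fr : HeightOneSpectrum (𝓞 F) → G}

theorem na2_ordv_prod {κ : Type} (s : Finset κ) (f : κ → Hˣ) (W : HeightOneSpectrum (𝓞 H)) :
    ordv W ((∏ i ∈ s, f i : Hˣ) : H) = ∑ i ∈ s, ordv W ((f i : Hˣ) : H) := by
  classical
  induction s using Finset.induction_on with
  | empty => rw [Finset.prod_empty, Finset.sum_empty, Units.val_one, ordv_one]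
  | insert a s ha ih => rw [Finset.prod_insert ha, Finset.sum_insert ha, ordv_mul, ih]

/-- norms have orders divisible by `p` at the places which do not split -/
theorem na2_norm (hp : p.Prime) (hG : Nat.card G = p) (hD : Data ι S T r w fr)
    {v' : HeightOneSpectrum (𝓞 F)} (hv' : v' ∉ S) (hs : ¬ Spl H (Sum.inr v' : Pl F))
    {x : Fˣ} {y : Hˣ} (hx : Units.map (algebraMap F H : F →* H) x = ∏ σ : G, ι σ • y) :
    (p : ℤ) ∣ ordv v' (x : F) := by
  unfold Spl at hs
  push Not at hs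
  obtain ⟨W, hW, σ, hσ, hσ1⟩ := hs
  have hG' : Nat.card (H ≃ₐ[F] H) = p := by rw [← hG]; exact (Nat.card_congr ι.toEquiv).symm
  have hall : ∀ σ : H ≃ₐ[F] H, act σ W = W := by
    rcases RSK.ph_dich hp hG' W with h | h
    · exact absurd (h σ hσ) hσ1
    · exact h
  rcases W with W | W
  · exact absurd hW (by simp [dn])
  · have hWv : W.under (𝓞 F) = v' := Sum.inr_injective hW
    have hun : Algebra.IsUnramifiedAt (𝓞 F) W.asIdeal := hD.unram W (by rw [hWv]; exact hv')
    have h1 := ordv_unr hun (x : F)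
    rw [hWv] at h1
    have h2 : algebraMap F H (x : F) = ((∏ σ : G, ι σ • y : Hˣ) : H) := by
      rw [← hx]
      rfl
    have h3 : ∀ σ : G, ordv W ((ι σ • y : Hˣ) : H) = ordv W (y : H) := by
      intro σ
      rw [RSK.cd_ordv_smul]
      have h4 : HeightOneSpectrum.equivOfRingEquiv
          (RingOfIntegers.mapRingEquiv (ι σ).symm.toRingEquiv) W = W :=
        Sum.inr_injective (hall (ι σ).symm)
      rw [h4]
    rw [← h1, h2, na2_ordv_prod, Finset.sum_congr rfl fun σ _ => h3 σ, Finset.sum_const,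
      Finset.card_univ, ← Nat.card_eq_fintype_card, hG, nsmul_eq_mul]
    exact dvd_mul_right _ _

/-- split places which make the class number prime to `p` -/
theorem na_main (hp : p.Prime) (hG : Nat.card G = p) (hD : Data ι S T r w fr)
    (hA' : ¬ p ∣ hA S T) {v : HeightOneSpectrum (𝓞 F)} (hv : v ∉ T) (hvS : v ∉ S)
    (B : Finset (HeightOneSpectrum (𝓞 F))) :
    ∃ P : Finset (HeightOneSpectrum (𝓞 F)), (∀ v' ∈ P, Spl H (Sum.inr v' : Pl F) ∧ v' ∉ S ∧
      v' ∉ T ∧ v' ≠ v ∧ v' ∉ B) ∧ ∀ S' : Finset (HeightOneSpectrum (𝓞 F)),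
        (∀ v', v' ∈ S' ↔ v' ∈ S ∨ v' ∈ P) → ¬ p ∣ hA S' (Finset.cons v T hv) := by
  classical
  by_cases hpv : p ∣ nv v - 1
  swap
  · refine ⟨∅, fun v' hv' => absurd hv' (Finset.notMem_empty v'), fun S' hS' => ?_⟩
    have h : S' = S := by
      ext v
      rw [hS']
      simp
    rw [h]
    exact ma_conv hp hv hvS hD.disj hA' (fun h => absurd h hpv)
  obtain ⟨g, hg, hgen⟩ := na2_gen v
  obtain ⟨y, hyT, hyB, -, x, hxy, hxg⟩ := na_res hp hG hD hv hvS (B.erase v)
    (Finset.notMem_erase v B) hg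
  have hval : ∀ v' : HeightOneSpectrum (𝓞 F), ordv v' (x : F) = 0 ↔
      v'.valuation F (x : F) = 1 := fun v' => xc_ordv_zero
  have hprod : ∀ {T' : Finset (HeightOneSpectrum (𝓞 F))}, y ∈ KT (ovr H T') → x ∈ KT T' := by
    intro T' hy
    rw [← kt_map (H := H), hxy]
    exact Subgroup.prod_mem _ fun σ _ => RSK.cd_kt_smul (ι σ) hy
  have hxT : x ∈ KT T := hprod hyT
  have hxB : x ∈ KT (B.erase v) := hprod hyB
  have hxv : v.valuation F (x : F) = 1 := by
    have hg1 : v.valuation F (g : F) = 1 := by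
      have h1 : v.valuation F (algebraMap (𝓞 F) F g) ≤ 1 := HeightOneSpectrum.valuation_le_one v g
      have h2 : ¬ v.valuation F (algebraMap (𝓞 F) F g) < 1 := by
        rw [rt_val_lt]
        exact hg
      exact le_antisymm h1 (not_lt.1 h2)
    have e : (x : F) = ((x : F) - (g : F)) + (g : F) := by ring
    rw [e, Valuation.map_add_eq_of_lt_right _ (by rw [hg1]; exact hxg), hg1]
  have hxv0 : ordv v (x : F) = 0 := (hval v).2 hxv
  set P : Finset (HeightOneSpectrum (𝓞 F)) :=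
    (dvx_finite x).toFinset.filter (fun v' => Spl H (Sum.inr v' : Pl F) ∧ v' ∉ S) with hP
  have hmem : ∀ v', v' ∈ P ↔ ordv v' (x : F) ≠ 0 ∧ Spl H (Sum.inr v' : Pl F) ∧ v' ∉ S := by
    intro v'
    rw [hP, Finset.mem_filter, Set.Finite.mem_toFinset, Function.mem_support]
    rfl
  have hPT : ∀ v' ∈ P, v' ∉ T := fun v' hv' hT => ((hmem v').1 hv').1
    ((hval v').2 (xc_KT_val hxT hT))
  have hPv : ∀ v' ∈ P, v' ≠ v := fun v' hv' h => ((hmem v').1 hv').1 (by rw [h]; exact hxv0)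
  refine ⟨P, fun v' hv' => ⟨((hmem v').1 hv').2.1, ((hmem v').1 hv').2.2, hPT v' hv',
    hPv v' hv', fun hB => ((hmem v').1 hv').1 ((hval v').2 (xc_KT_val hxB
      (Finset.mem_erase.2 ⟨hPv v' hv', hB⟩)))⟩, fun S' hS' => ?_⟩
  -- the orders outside `S'`
  have hdvd : ∀ v', v' ∉ S → v' ∉ P → (p : ℤ) ∣ ordv v' (x : F) := by
    intro v' h1 h2
    by_cases h3 : Spl H (Sum.inr v' : Pl F)
    · have h4 : ordv v' (x : F) = 0 := by
        by_contra h5
        exact h2 ((hmem v').2 ⟨h5, h3, h1⟩)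
      rw [h4]
      exact dvd_zero _
    · exact na2_norm hp hG hD h1 h3 hxy
  -- the divisor
  set D : HeightOneSpectrum (𝓞 F) →₀ ℤ := Finsupp.onFinset (dvx_finite x).toFinset
    (fun v' => if v' ∈ P then 0 else ordv v' (x : F) / p) (by
      intro v' h
      rw [Set.Finite.mem_toFinset, Function.mem_support]
      intro h0
      apply h
      have h1 : ordv v' (x : F) = 0 := h0
      rw [h1]
      simp) with hDdef
  have hDap : ∀ v', D v' = if v' ∈ P then 0 else ordv v' (x : F) / p := fun v' => rfl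
  have hDT : D ∈ Dv T := by
    intro v' hv'
    rw [hDap, (hval v').2 (xc_KT_val hxT hv')]
    simp
  obtain ⟨-, z, hzT, hz⟩ := na2_pow_mem (S := S) hDT
  have hzv : ordv v (z : F) = 0 := by
    rw [← hz v hvS, Finsupp.smul_apply, hDap, hxv0]
    simp
  have hzv1 : v.valuation F (z : F) = 1 := xc_ordv_zero.1 hzv
  have hvS' : v ∉ S' := by
    rw [hS']
    rintro (h | h)
    · exact hvS h
    · exact hPv v h rfl
  have hST' : Disjoint S' T := by
    rw [Finset.disjoint_left]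
    intro v' h
    rw [hS'] at h
    rcases h with h | h
    · exact Finset.disjoint_left.1 hD.disj h
    · exact hPT v' h
  have hA2 : ¬ p ∣ hA S' T := fun h => hA' (h.trans
    (na2_dvd hD.disj P (fun v' hv' => ((hmem v').1 hv').2.2) hPT S' hS'))
  refine ma_conv hp hv hvS' hST' hA2 fun _ => ⟨x ^ hA S T * (z ^ p)⁻¹, ⟨fun v' hv' => ?_,
    (KT T).mul_mem ((KT T).pow_mem hxT _) ((KT T).inv_mem ((KT T).pow_mem hzT _))⟩, ?_⟩
  · have hpow : ∀ (t : Fˣ) (n : ℕ), ordv v' ((t ^ n : Fˣ) : F) = n * ordv v' (t : F) := by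
      intro t n
      induction n with
      | zero => rw [pow_zero, Units.val_one, ordv_one]; simp
      | succ n ih => rw [pow_succ, ordv_mul, ih]; push_cast; ring
    rw [hS', not_or] at hv'
    apply xc_ordv_zero.1
    obtain ⟨c, hc⟩ := hdvd v' hv'.1 hv'.2
    have hp0 : (p : ℤ) ≠ 0 := by exact_mod_cast hp.ne_zero
    rw [ordv_mul, ordv_inv, hpow, hpow, ← hz v' hv'.1, Finsupp.smul_apply, hDap, if_neg hv'.2,
      hc, Int.mul_ediv_cancel_left _ hp0, nsmul_eq_mul]
    ring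
  · exact na2_elt hp v hxv hzv1 (hgen ⟨x, hxv⟩ hxg) hA' hpv
end
end Pool.Agent.PD
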