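import Pool.Agent.Lib_helper24.PD.Defs
import Pool.Agent.Lib_helper24.PD.P.HA
import Pool.Agent.Lib_helper24.PD.P.HB
set_option autoImplicit false
set_option linter.unusedSectionVars false
namespace Pool.Agent.PD
open Pool.Agent Pool.Agent.RSK Pool.Agent.RS2 Pool.Agent.AU
open NumberField IsDedekindDomain Filter Topology Complex
open scoped TensorProduct

section
variable {G : Type} [CommGroup G] [Fintype G]

theorem oa_qa_mul {p : ℕ} {a : ℤ} (c : MonoidAlgebra ℤ G) {y : MonoidAlgebra ℚ G}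
    (h : y ∈ Qa p G a) : toQ G c * y ∈ Qa p G a := by
  obtain ⟨m, b, hm, hb⟩ := h
  refine ⟨m, c * b, hm, ?_⟩
  rw [map_mul, ← hb, mul_smul_comm]
  congr 1
  ring

theorem oa_evR_toR (χ : G →* ℂˣ) (a : MonoidAlgebra ℤ G) : evR χ (toR G a) = evZ χ a := by
  induction a using MonoidAlgebra.induction_on with
  | of g =>
    have h : MonoidAlgebra.of ℤ G g = MonoidAlgebra.single g 1 := rfl
    rw [h]
    simp [toR, evZ, toQ, evQ, evR]
  | add a b ha hb => rw [map_add, map_add, map_add, ha, hb]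
  | smul c a ha => rw [map_zsmul, map_zsmul, map_zsmul, ha]

end

section
variable {F H : Type} [Field F] [NumberField F] [Field H] [NumberField H] [Algebra F H]
  [IsGalois F H] {G : Type} [CommGroup G] [Fintype G] {p : ℕ} {ι : G ≃* (H ≃ₐ[F] H)}
  {S T : Finset (HeightOneSpectrum (𝓞 F))} {r : ℕ} {w : Fin r → Pl H}
  {fr : HeightOneSpectrum (𝓞 F) → G}

theorem oa_evR_smul (χ : G →* ℂˣ) (a : MonoidAlgebra ℤ G)
    (u : (⋀[MonoidAlgebra ℤ G]^r (UM ι S T)) ⊗[ℤ] ℚ) :
    evR χ (extQ (detMap (fun i => wl ι S T (w i))).toAddMonoidHom (a • u)) =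
      evZ χ a * evR χ (extQ (detMap (fun i => wl ι S T (w i))).toAddMonoidHom u) := by
  rw [← oa_evR_toR, ← map_mul]
  congr 1
  induction u using TensorProduct.induction_on with
  | zero => rw [smul_zero, map_zero, mul_zero]
  | tmul n q =>
    rw [TensorProduct.smul_tmul', extQ_tmul, extQ_tmul]
    show q • detMap (fun i => wl ι S T (w i)) (a • n) =
      toR G a * (q • detMap (fun i => wl ι S T (w i)) n)
    rw [map_smul, mul_smul_comm]
    rfl
  | add x y hx hy => rw [smul_add, map_add, map_add, hx, hy, mul_add]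

/-- `(g W)^*(λ(u)) = g⁻¹ W^*(λ(u))` -/
theorem oa_wl (g : G) (W : Pl H) (u : UM ι S T) :
    wl ι S T (act (ι g) W) u = MonoidAlgebra.single g⁻¹ (1 : ℝ) * wl ι S T W u := by
  show ∑ γ : G, MonoidAlgebra.single γ (lg (act (ι γ) (act (ι g) W)) (u.val : H)) =
    MonoidAlgebra.single g⁻¹ (1 : ℝ) *
      ∑ γ : G, MonoidAlgebra.single γ (lg (act (ι γ) W) (u.val : H))
  rw [Finset.mul_sum]
  refine Fintype.sum_equiv (Equiv.mulRight g) _ _ fun γ => ?_
  rw [Equiv.coe_mulRight, MonoidAlgebra.single_mul_single, one_mul, ← act_mul, ← map_mul]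
  congr 1
  show γ = g⁻¹ * (γ * g)
  rw [mul_comm γ g, inv_mul_cancel_left]

/-- uniqueness of the Frobenius -/
theorem oa_fr {fr' : HeightOneSpectrum (𝓞 F) → G} {r' : ℕ} {w' : Fin r' → Pl H}
    (hD : Data ι S T r w fr) (hD' : Data ι S T r' w' fr')
    (v : HeightOneSpectrum (𝓞 F)) (hv : v ∉ S) : fr v = fr' v := by
  obtain ⟨W, hW⟩ := up1_surj (H := H) v
  apply ι.injective
  have h1 := hD.frob v hv W hW
  have h2 := hD'.frob v hv W hW
  refine ee_uniq (hD.unram W (by rw [hW]; exact hv)) (fun x => ?_) (fun x => ?_)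
  · rw [hW]; exact h1 x
  · rw [hW]; exact h2 x

theorem oa_lst {fr' : HeightOneSpectrum (𝓞 F) → G} (hST : Disjoint S T)
    (h : ∀ v, v ∉ S → fr v = fr' v) (χ : G →* ℂˣ) (s : ℂ) :
    LST S T fr χ s = LST S T fr' χ s := by
  unfold LST
  congr 1
  · refine Finset.prod_congr rfl fun v hv => ?_
    rw [h v (Finset.disjoint_right.mp hST hv)]
  · refine tprod_congr fun v => ?_
    rw [h v.1 v.2]

theorem oa_perm {w' : Fin r → Pl H} {fr' : HeightOneSpectrum (𝓞 F) → G}
    (hD : Data ι S T r w fr) (hD' : Data ι S T r w' fr') :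
    ∃ (π : Equiv.Perm (Fin r)) (g : Fin r → G), ∀ i, w' i = act (ι (g i)) (w (π i)) := by
  have h1 : ∀ i, ∃ i' : Fin r, dn F (w' i) = dn F (w i') := fun i =>
    hD.all _ (hD'.mem i) (hD'.split i)
  choose π hπ using h1
  have hg : ∀ i, ∃ g : G, w' i = act (ι g) (w (π i)) := by
    intro i
    obtain ⟨σ, hσ⟩ := act_trans (F := F) (hπ i).symm
    refine ⟨ι.symm σ, ?_⟩
    rw [MulEquiv.apply_symm_apply, hσ]
  choose g hg using hg
  have hinj : Function.Injective π := by
    intro i j hij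
    apply hD'.inj
    rw [hπ i, hπ j, hij]
  exact ⟨Equiv.ofBijective π (Finite.injective_iff_bijective.1 hinj), g, hg⟩

/-- the determinants for `w'` and `w` -/
theorem oa_det {w' : Fin r → Pl H} (π : Equiv.Perm (Fin r)) (g : Fin r → G)
    (hg : ∀ i, w' i = act (ι (g i)) (w (π i))) (n : ⋀[MonoidAlgebra ℤ G]^r (UM ι S T)) :
    detMap (fun i => wl ι S T (w' i)) n =
      toR G (((Equiv.Perm.sign π : ℤ)) • MonoidAlgebra.single (∏ i, g i)⁻¹ 1) *
        detMap (fun i => wl ι S T (w i)) n := by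
  have hn : n ∈ Submodule.span (MonoidAlgebra ℤ G)
      (Set.range (exteriorPower.ιMulti (MonoidAlgebra ℤ G) r (M := UM ι S T))) := by
    rw [exteriorPower.ιMulti_span]
    trivial
  induction hn using Submodule.span_induction with
  | mem n hn =>
    obtain ⟨m, rfl⟩ := hn
    rw [detMap_ι, detMap_ι]
    have h1 : (Matrix.of fun i j => wl ι S T (w' i) (m j)) =
        Matrix.of fun i j => (MonoidAlgebra.single (g i)⁻¹ (1 : ℝ)) *
          ((Matrix.of fun i j => wl ι S T (w i) (m j)).submatrix π id) i j := by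
      ext1 i j
      show wl ι S T (w' i) (m j) = MonoidAlgebra.single (g i)⁻¹ (1 : ℝ) * wl ι S T (w (π i)) (m j)
      rw [hg i, oa_wl]
    rw [h1, Matrix.det_mul_column, Matrix.det_permute]
    have h2 : (∏ i, MonoidAlgebra.single (g i)⁻¹ (1 : ℝ)) =
        MonoidAlgebra.single (∏ i, g i)⁻¹ (1 : ℝ) := by
      have h3 : ∀ i, MonoidAlgebra.single (g i)⁻¹ (1 : ℝ) = MonoidAlgebra.of ℝ G (g i)⁻¹ :=
        fun i => rfl
      rw [Finset.prod_congr rfl fun i _ => h3 i, ← map_prod, Finset.prod_inv_distrib]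
      rfl
    have h4 : toR G (((Equiv.Perm.sign π : ℤ)) • MonoidAlgebra.single (∏ i, g i)⁻¹ 1) =
        ((Equiv.Perm.sign π : ℤ) : MonoidAlgebra ℝ G) *
          MonoidAlgebra.single (∏ i, g i)⁻¹ (1 : ℝ) := by
      rw [map_zsmul, zsmul_eq_mul]
      congr 1
      simp [toR]
    rw [h2, h4]
    ring
  | zero => rw [map_zero, map_zero, mul_zero]
  | add a b _ _ ha hb => rw [map_add, map_add, ha, hb, mul_add]
  | smul c a _ ha =>
    have e1 := (detMap (fun i => wl ι S T (w' i))).map_smul c a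
    have e2 := (detMap (fun i => wl ι S T (w i))).map_smul c a
    rw [e1, e2, ha]
    exact (mul_smul_comm c _ _).symm

theorem oa_val {w' : Fin r → Pl H} (π : Equiv.Perm (Fin r)) (g : Fin r → G)
    (hg : ∀ i, w' i = act (ι (g i)) (w (π i)))
    (u : (⋀[MonoidAlgebra ℤ G]^r (UM ι S T)) ⊗[ℤ] ℚ) :
    extQ (detMap (fun i => wl ι S T (w' i))).toAddMonoidHom u =
      extQ (detMap (fun i => wl ι S T (w i))).toAddMonoidHom
        ((((Equiv.Perm.sign π : ℤ)) • (MonoidAlgebra.single (∏ i, g i)⁻¹ 1 : MonoidAlgebra ℤ G)) • u) := by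
  induction u using TensorProduct.induction_on with
  | zero => rw [smul_zero, map_zero, map_zero]
  | tmul n q =>
    rw [TensorProduct.smul_tmul', extQ_tmul, extQ_tmul]
    congr 1
    show detMap (fun i => wl ι S T (w' i)) n = detMap (fun i => wl ι S T (w i)) (_ • n)
    rw [oa_det π g hg]
    exact ((detMap (fun i => wl ι S T (w i))).map_smul _ n).symm
  | add x y hx hy => rw [smul_add, map_add, map_add, hx, hy]

/-- other places `w_i` above the same places, other Frobenius data -/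
theorem oa_main (hp : p.Prime) (hG : Nat.card G = p) (hD : One ι S T r w fr) {r' : ℕ}
    {w' : Fin r' → Pl H} {fr' : HeightOneSpectrum (𝓞 F) → G} (hD' : One ι S T r' w' fr') {a : ℤ}
    (h : Adm p a ι S T w fr) : Adm p a ι S T w' fr' := by
  have hr : r = r' := by
    have h1 := hD.one
    have h2 := hD'.one
    omega
  subst hr
  obtain ⟨π, g, hg⟩ := oa_perm hD.data hD'.data
  have hfr : ∀ v, v ∉ S → fr v = fr' v := oa_fr hD.data hD'.data
  rintro u ⟨c, hc, hu⟩ ψ
  set ε : ℤ := (Equiv.Perm.sign π : ℤ) with hε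
  set b : MonoidAlgebra ℤ G := ε • MonoidAlgebra.single (∏ i, g i)⁻¹ 1 with hb
  have hS : Stk ι S T w fr (b • u) := by
    refine ⟨c, ?_, ?_⟩
    · intro χ
      obtain ⟨Λ, h1, h2, h3⟩ := hc χ
      exact ⟨Λ, h1, fun s hs => by rw [h2 s hs, oa_lst hD.data.disj hfr], h3⟩
    · intro χ
      rw [hb, ← oa_val π g hg]
      exact hu χ
  have h1 := h _ hS ψ
  rw [er_psiQ] at h1
  have h2 := oa_qa_mul (ε • MonoidAlgebra.single (∏ i, g i) 1) h1
  have hε2 : ε * ε = 1 := by
    rw [hε, ← Units.val_mul, Int.units_mul_self]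
    rfl
  have h3 : (ε • MonoidAlgebra.single (∏ i, g i) 1 : MonoidAlgebra ℤ G) * b = 1 := by
    rw [hb, smul_mul_smul_comm, MonoidAlgebra.single_mul_single, mul_inv_cancel, mul_one, hε2,
      one_smul]
    rfl
  rw [← mul_assoc, ← map_mul, h3, map_one, one_mul] at h2
  exact h2
end
end Pool.Agent.PD
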