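import Pool.Agent.Lib_helper24.PD.Defs
import Pool.Agent.Lib_helper24.PD.P.JA2
import Pool.Agent.Lib_helper24.PD.P.JA3
import Pool.Agent.Lib_helper24.PD.P.KA4
import Pool.Agent.Lib_helper24.PD.P.MA1
set_option autoImplicit false
set_option linter.unusedSectionVars false
namespace Pool.Agent.PD
open Pool.Agent Pool.Agent.RSK Pool.Agent.RS2 Pool.Agent.AU
open NumberField IsDedekindDomain Filter Topology Complex
open scoped TensorProduct
section
variable {F H : Type} [Field F] [NumberField F] [Field H] [NumberField H] [Algebra F H]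
  [IsGalois F H] {G : Type} [CommGroup G] [Fintype G] {p : ℕ} {ι : G ≃* (H ≃ₐ[F] H)}
  {S T : Finset (HeightOneSpectrum (𝓞 F))} {r : ℕ} {w : Fin r → Pl H}
  {fr : HeightOneSpectrum (𝓞 F) → G}

theorem pa1_exists (H : Type) [Field H] [NumberField H] [Algebra F H]
    (v : HeightOneSpectrum (𝓞 F)) :
    ∃ W : HeightOneSpectrum (𝓞 H), W.under (𝓞 F) = v := by
  obtain ⟨W, hW⟩ := dn_surj (F := F) (H := H) (Sum.inr v)
  rcases W with W | W
  · exact absurd hW (by simp [dn])
  · exact ⟨W, by simpa [dn] using hW⟩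

/-- one split place -/
theorem pa1_one (hp : p.Prime) (hG : Nat.card G = p) (hE : Ext ι) (hD : One ι S T r w fr)
    {v : HeightOneSpectrum (𝓞 F)} (hv : v ∉ S) (hvT : v ∉ T)
    (hs : Spl H (Sum.inr v : Pl F)) (hA' : ¬ p ∣ hA S T) :
    ∃ (w' : Fin (r + 1) → Pl H), One ι (Finset.cons v S hv) T (r + 1) w' fr ∧
      ¬ p ∣ hA (Finset.cons v S hv) T ∧
      ∀ a : ℤ, Adm p a ι S T w fr ↔ Adm p a ι (Finset.cons v S hv) T w' fr := by
  obtain ⟨W, hW⟩ := pa1_exists H v
  have hD' := ka_data hp hG hD hv hvT hW hs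
  have hA2 : ¬ p ∣ hA (Finset.cons v S hv) T := fun h =>
    hA' (dvd_trans h (ma_S (S := S) (T := T) hv hvT hD.data.disj))
  refine ⟨_, hD', hA2, fun a => ⟨fun ha => ?_, fun ha => ka_step hp hG hE hD hv hvT hW hs ha⟩⟩
  obtain ⟨a', _, ha'⟩ := ja_exists hp hG hD' hA2
  have h1 : Adm p a' ι S T w fr := ka_step hp hG hE hD hv hvT hW hs ha'
  have h2 : (p : ℤ) ∣ a' - a := ja_eq hp hG hE hD hA' h1 ha
  exact ja_congr hp hG hD' h2 ha'

/-- adding several split places -/
theorem pa_S (hp : p.Prime) (hG : Nat.card G = p) (hE : Ext ι) (hD : One ι S T r w fr)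
    (P : Finset (HeightOneSpectrum (𝓞 F))) (hP : ∀ v ∈ P, Spl H (Sum.inr v : Pl F) ∧ v ∉ T)
    {S' : Finset (HeightOneSpectrum (𝓞 F))} (hS' : ∀ v', v' ∈ S' ↔ v' ∈ S ∨ v' ∈ P)
    (hA' : ¬ p ∣ hA S T) :
    ∃ (r' : ℕ) (w' : Fin r' → Pl H), One ι S' T r' w' fr ∧ r ≤ r' ∧ ¬ p ∣ hA S' T ∧
      ∀ a : ℤ, Adm p a ι S T w fr ↔ Adm p a ι S' T w' fr := by
  classical
  induction P using Finset.induction_on generalizing S' with
  | empty =>
    have e : S' = S := by
      ext v'
      rw [hS' v']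
      simp
    subst e
    exact ⟨r, w, hD, le_refl r, hA', fun a => Iff.rfl⟩
  | insert v P hvP ih =>
    obtain ⟨r1, w1, hD1, hr1, hA1, h1⟩ := ih (S' := S ∪ P)
      (fun v' hv' => hP v' (Finset.mem_insert_of_mem hv'))
      (fun v' => Finset.mem_union)
    obtain ⟨hs, hvT⟩ := hP v (Finset.mem_insert_self v P)
    by_cases hv : v ∈ S ∪ P
    · have e : S' = S ∪ P := by
        ext v'
        rw [hS' v', Finset.mem_union, Finset.mem_insert]
        constructor
        · rintro (h | rfl | h)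
          · exact Or.inl h
          · exact Finset.mem_union.1 hv
          · exact Or.inr h
        · rintro (h | h)
          · exact Or.inl h
          · exact Or.inr (Or.inr h)
      subst e
      exact ⟨r1, w1, hD1, hr1, hA1, h1⟩
    · have e : S' = Finset.cons v (S ∪ P) hv := by
        ext v'
        rw [hS' v', Finset.mem_cons, Finset.mem_union, Finset.mem_insert]
        tauto
      subst e
      obtain ⟨w2, hD2, hA2, h2⟩ := pa1_one hp hG hE hD1 hv hvT hs hA1
      exact ⟨r1 + 1, w2, hD2, by omega, hA2, fun a => (h1 a).trans (h2 a)⟩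
end
end Pool.Agent.PD
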