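import Pool.Agent.Lib_helper24.PD.Defs
import Pool.Agent.Lib_helper24.PD.P.JA2
import Pool.Agent.Lib_helper24.PD.P.JA3
import Pool.Agent.Lib_helper24.PD.P.LB2
import Pool.Agent.Lib_helper24.PD.P.MA2
set_option autoImplicit false
set_option linter.unusedSectionVars false
namespace Pool.Agent.PD
open Pool.Agent Pool.Agent.RSK Pool.Agent.RS2 Pool.Agent.AU
open NumberField IsDedekindDomain Filter Topology Complex
open scoped TensorProduct
section
variable {F H : Type} [Field F] [NumberField F] [Field H] [NumberField H] [Algebra F H]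
  [IsGalois F H] {G : Type} [CommGroup G] [Fintype G] {p : ℕ} {ι : G ≃* (H ≃ₐ[F] H)}
  {S T : Finset (HeightOneSpectrum (𝓞 F))} {r : ℕ} {w : Fin r → Pl H}
  {fr : HeightOneSpectrum (𝓞 F) → G}

/-- the data for another `T` -/
theorem pa2_one {T' : Finset (HeightOneSpectrum (𝓞 F))} (h : One ι S T r w fr)
    (hd : Disjoint S T')
    (ht : (∃ v ∈ T', ∃ v' ∈ T', ringChar (𝓞 F ⧸ v.asIdeal) ≠ ringChar (𝓞 F ⧸ v'.asIdeal)) ∨
      ∃ v ∈ T', Module.finrank ℚ F + 1 < ringChar (𝓞 F ⧸ v.asIdeal)) : One ι S T' r w fr :=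
  ⟨⟨hd, h.data.unram, ht, h.data.mem, h.data.split, h.data.inj, h.data.all, h.data.card,
    h.data.frob⟩, h.one⟩

theorem pa2_step (hp : p.Prime) (hG : Nat.card G = p) (hE : Ext ι)
    {T₀ T₁ : Finset (HeightOneSpectrum (𝓞 F))} (hD : One ι S T₀ r w fr)
    (hr : 0 < r) {v : HeightOneSpectrum (𝓞 F)} (hv : v ∉ T₀) (hvS : v ∉ S)
    (hT : T₁ = Finset.cons v T₀ hv) (hA' : ¬ p ∣ hA S T₁) :
    ¬ p ∣ hA S T₀ ∧ ∀ a : ℤ, Adm p a ι S T₀ w fr ↔ Adm p a ι S T₁ w fr := by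
  subst hT
  have hd0 : Disjoint S T₀ := hD.data.disj
  have h0 : ¬ p ∣ hA S T₀ := fun h => hA' (h.trans (ma_T hv hvS hd0))
  have hd1 : Disjoint S (Finset.cons v T₀ hv) := by
    rw [Finset.disjoint_left] at hd0 ⊢
    intro x hx hx'
    rcases Finset.mem_cons.1 hx' with rfl | hx'
    · exact hvS hx
    · exact hd0 hx hx'
  have hD1 : One ι S (Finset.cons v T₀ hv) r w fr := by
    refine pa2_one hD hd1 ?_
    rcases hD.data.tors with ⟨x, hx, y, hy, hxy⟩ | ⟨x, hx, hx'⟩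
    · exact Or.inl ⟨x, Finset.mem_cons.2 (Or.inr hx), y, Finset.mem_cons.2 (Or.inr hy), hxy⟩
    · exact Or.inr ⟨x, Finset.mem_cons.2 (Or.inr hx), hx'⟩
  obtain ⟨a₀, -, ha₀⟩ := ja_exists hp hG hD h0
  obtain ⟨a₁, -, ha₁⟩ := ja_exists hp hG hD1 hA'
  have h01 : (p : ℤ) ∣ a₀ - a₁ := lb_step hp hG hE hD hr hv hvS hA' ha₀ ha₁
  refine ⟨h0, fun a => ⟨fun ha => ?_, fun ha => ?_⟩⟩
  · have h1 : (p : ℤ) ∣ a₀ - a := ja_eq hp hG hE hD h0 ha₀ ha
    refine ja_congr hp hG hD1 (a := a₁) ?_ ha₁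
    have : a₁ - a = (a₀ - a) - (a₀ - a₁) := by ring
    rw [this]
    exact dvd_sub h1 h01
  · have h1 : (p : ℤ) ∣ a₁ - a := ja_eq hp hG hE hD1 hA' ha₁ ha
    refine ja_congr hp hG hD (a := a₀) ?_ ha₀
    have : a₀ - a = (a₁ - a) + (a₀ - a₁) := by ring
    rw [this]
    exact dvd_add h1 h01

theorem pa2_all (hp : p.Prime) (hG : Nat.card G = p) (hE : Ext ι) (hD : One ι S T r w fr)
    (hr : 0 < r) {v : HeightOneSpectrum (𝓞 F)} (hvS : v ∉ S)
    (hvc : Module.finrank ℚ F + 1 < ringChar (𝓞 F ⧸ v.asIdeal))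
    (T₁ : Finset (HeightOneSpectrum (𝓞 F))) : ∀ (hv : v ∉ T₁), Disjoint S T₁ →
    ¬ p ∣ hA S (Finset.cons v T₁ hv) →
    ¬ p ∣ hA S {v} ∧
      ∀ a : ℤ, Adm p a ι S (Finset.cons v T₁ hv) w fr ↔ Adm p a ι S {v} w fr := by
  induction T₁ using Finset.cons_induction with
  | empty =>
    intro hv _ h
    have e : Finset.cons v ∅ hv = {v} := rfl
    rw [e] at h ⊢
    exact ⟨h, fun a => Iff.rfl⟩
  | cons t T₂ ht ih =>
    intro hv hd h
    have hvt : v ≠ t := fun e => hv (Finset.mem_cons.2 (Or.inl e))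
    have hv2 : v ∉ T₂ := fun e => hv (Finset.mem_cons.2 (Or.inr e))
    have hd2 : Disjoint S T₂ := hd.mono_right (Finset.subset_cons ht)
    have htS : t ∉ S := fun e => Finset.disjoint_left.1 hd e (Finset.mem_cons_self t T₂)
    have ht1 : t ∉ Finset.cons v T₂ hv2 := by
      rw [Finset.mem_cons]
      rintro (e | e)
      · exact hvt e.symm
      · exact ht e
    have hd1 : Disjoint S (Finset.cons v T₂ hv2) := by
      rw [Finset.disjoint_left] at hd2 ⊢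
      intro x hx hx'
      rcases Finset.mem_cons.1 hx' with rfl | hx'
      · exact hvS hx
      · exact hd2 hx hx'
    have hD1 : One ι S (Finset.cons v T₂ hv2) r w fr :=
      pa2_one hD hd1 (Or.inr ⟨v, Finset.mem_cons_self v T₂, hvc⟩)
    have e : Finset.cons v (Finset.cons t T₂ ht) hv =
        Finset.cons t (Finset.cons v T₂ hv2) ht1 := by
      ext x
      simp only [Finset.mem_cons]
      tauto
    obtain ⟨h1, h2⟩ := pa2_step hp hG hE hD1 hr ht1 htS e h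
    obtain ⟨h3, h4⟩ := ih hv2 hd2 h1
    exact ⟨h3, fun a => (h2 a).symm.trans (h4 a)⟩

/-- changing `T` -/
theorem pa_T (hp : p.Prime) (hG : Nat.card G = p) (hE : Ext ι) (hD : One ι S T r w fr)
    (hr : 0 < r) {v : HeightOneSpectrum (𝓞 F)} (hv : v ∉ T) (hvS : v ∉ S)
    (hvc : Module.finrank ℚ F + 1 < ringChar (𝓞 F ⧸ v.asIdeal))
    (hA' : ¬ p ∣ hA S (Finset.cons v T hv)) :
    One ι S {v} r w fr ∧ ¬ p ∣ hA S {v} ∧ ∀ a : ℤ, Adm p a ι S T w fr ↔ Adm p a ι S {v} w fr := by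
  have hd : Disjoint S T := hD.data.disj
  have hd1 : Disjoint S {v} := by
    rw [Finset.disjoint_singleton_right]
    exact hvS
  obtain ⟨h1, h2⟩ := pa2_all hp hG hE hD hr hvS hvc T hv hd hA'
  obtain ⟨-, h4⟩ := pa2_step hp hG hE hD hr hv hvS rfl hA'
  exact ⟨pa2_one hD hd1 (Or.inr ⟨v, Finset.mem_singleton_self v, hvc⟩), h1,
    fun a => (h4 a).trans (h2 a)⟩
end
end Pool.Agent.PD
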