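import Pool.Agent.Lib_helper24.PD.Defs
import Pool.Agent.Lib_helper24.PD.P.JA3
import Pool.Agent.Lib_helper24.PD.P.NA2
import Pool.Agent.Lib_helper24.PD.P.OA
import Pool.Agent.Lib_helper24.PD.P.PA1
import Pool.Agent.Lib_helper24.PD.P.PA2
import Pool.Agent.Lib_helper17.RS.P_PH
import Pool.Agent.Lib_helper17.RS.P_UP2
import Pool.Agent.Lib_helper17.RS.P_CB
set_option autoImplicit false
set_option linter.unusedSectionVars false
namespace Pool.Agent.PD
open Pool.Agent Pool.Agent.RSK Pool.Agent.RS2 Pool.Agent.AU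
open NumberField IsDedekindDomain Filter Topology Complex
open scoped TensorProduct
section
variable {F H : Type} [Field F] [NumberField F] [Field H] [NumberField H] [Algebra F H]
  [IsGalois F H] {G : Type} [CommGroup G] [Fintype G] {p : ℕ} {ι : G ≃* (H ≃ₐ[F] H)}
  {S T : Finset (HeightOneSpectrum (𝓞 F))} {r : ℕ} {w : Fin r → Pl H}
  {fr : HeightOneSpectrum (𝓞 F) → G}

theorem pa_spl_of {W₀ : Pl H} (h : ∀ σ : H ≃ₐ[F] H, act σ W₀ = W₀ → σ = 1) :
    Spl H (dn F W₀) := by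
  intro W hW σ hσ
  obtain ⟨τ, hτ⟩ := RSK.act_trans (F := F) hW
  have h1 : act (τ * σ * τ⁻¹) W₀ = W₀ := by
    rw [← hτ, act_mul, act_mul, ← act_mul τ⁻¹ τ, inv_mul_cancel, act_one, hσ]
  have h2 := h _ h1
  have h3 : τ * σ = τ := by
    have := congrArg (· * τ) h2
    simpa using this
  simpa using h3

/-- the places in `S` other than the nonsplit place `v₀` split -/
theorem pa_spl (hp : p.Prime) (hG : Nat.card G = p) (hD : One ι S T r w fr)
    {v₀ : HeightOneSpectrum (𝓞 F)} (h0 : v₀ ∈ S) (hs : ¬ Spl H (Sum.inr v₀ : Pl F))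
    {v : HeightOneSpectrum (𝓞 F)} (hv : v ∈ S) (hne : v ≠ v₀) : Spl H (Sum.inr v : Pl F) := by
  classical
  obtain ⟨m, eH, eF, h1, h2, h3, h4, -, -⟩ := RSK.places_HF hp hG hD.data
  have hc := Fintype.card_congr eF
  rw [Fintype.card_sum, Fintype.card_fin, Fintype.card_fin] at hc
  have hc2 : Fintype.card (PS S) = Fintype.card (InfinitePlace F) + S.card := by simp [PS]
  have hm : m = 1 := by
    have := hD.one
    omega
  subst hm
  have key : ∀ P : PS S, (∃ i, P = eF (Sum.inl i)) → Spl H P.pl := by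
    rintro P ⟨i, rfl⟩
    rw [h2]
    exact pa_spl_of (hD.data.split i)
  obtain ⟨x0, hx0⟩ := eF.surjective (Sum.inr ⟨v₀, h0⟩)
  obtain ⟨x, hx⟩ := eF.surjective (Sum.inr ⟨v, hv⟩)
  rcases x0 with i | q0
  · exact absurd (key (Sum.inr ⟨v₀, h0⟩) ⟨i, hx0.symm⟩) hs
  rcases x with i | q
  · exact key (Sum.inr ⟨v, hv⟩) ⟨i, hx.symm⟩
  · exfalso
    have hq : q = q0 := Subsingleton.elim _ _
    rw [hq, hx0] at hx
    have h5 := Sum.inr.inj hx
    exact hne (congrArg Subtype.val h5).symm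

theorem pa_pos (hp : p.Prime) (hp2 : p ≠ 2) (hG : Nat.card G = p) (hD : Data ι S T r w fr) :
    0 < r := by
  classical
  obtain ⟨W⟩ : Nonempty (InfinitePlace H) := inferInstance
  have hG' : Nat.card (H ≃ₐ[F] H) = p := by rw [← hG]; exact (Nat.card_congr ι.toEquiv).symm
  obtain ⟨i, -⟩ := hD.all (Sum.inl W) trivial (fun σ hσ => by
    have h1 : σ • W = W := Sum.inl.inj hσ
    by_contra hne
    have h2 : orderOf σ = p := by
      have h3 : orderOf σ ∣ p := hG' ▸ orderOf_dvd_natCard σ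
      rcases (Nat.dvd_prime hp).1 h3 with h4 | h4
      · exact absurd (orderOf_eq_one_iff.1 h4) hne
      · exact h4
    have h5 : σ ∈ MulAction.stabilizer (H ≃ₐ[F] H) W := h1
    have h6 : orderOf (⟨σ, h5⟩ : MulAction.stabilizer (H ≃ₐ[F] H) W) = p := by
      rw [Subgroup.orderOf_mk]
      exact h2
    have h7 : p ∣ Nat.card (MulAction.stabilizer (H ≃ₐ[F] H) W) := h6 ▸ orderOf_dvd_natCard _
    rcases InfinitePlace.nat_card_stabilizer_eq_one_or_two F W with h8 | h8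
    · rw [h8] at h7
      exact hp.one_lt.ne' (Nat.dvd_one.1 h7)
    · rw [h8] at h7
      exact hp2 ((Nat.prime_dvd_prime_iff_eq hp Nat.prime_two).1 h7))
  exact i.pos

theorem pa_place (B : Finset (HeightOneSpectrum (𝓞 F))) (N : ℕ) :
    ∃ v : HeightOneSpectrum (𝓞 F), v ∉ B ∧ N < ringChar (𝓞 F ⧸ v.asIdeal) := by
  classical
  obtain ⟨q, hq, hqp⟩ := Nat.exists_infinite_primes
    (N + 1 + ∑ v ∈ B, ringChar (𝓞 F ⧸ v.asIdeal) + 1)
  have h1 : Ideal.span {((q : ℕ) : 𝓞 F)} ≠ ⊤ := by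
    intro h
    have h2 : Ideal.absNorm (Ideal.span {((q : ℕ) : 𝓞 F)}) = 1 := by
      rw [h, Ideal.absNorm_top]
    rw [Ideal.absNorm_span_natCast] at h2
    have h3 : Module.finrank ℤ (𝓞 F) ≠ 0 := by
      rw [RingOfIntegers.rank]
      exact Module.finrank_pos.ne'
    rcases pow_eq_one_iff.1 h2 with h4 | h4
    · exact hqp.one_lt.ne' h4
    · exact h3 h4
  obtain ⟨M, hM, hle⟩ := Ideal.exists_le_maximal _ h1
  have hqM : ((q : ℕ) : 𝓞 F) ∈ M := hle (Ideal.mem_span_singleton_self _)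
  have hM0 : M ≠ ⊥ := by
    rintro rfl
    have : ((q : ℕ) : 𝓞 F) = 0 := by simpa using hqM
    exact hqp.ne_zero (by exact_mod_cast this)
  let v : HeightOneSpectrum (𝓞 F) := ⟨M, hM.isPrime, hM0⟩
  have hv : ringChar (𝓞 F ⧸ v.asIdeal) = q := RSK.cb_char v hqp hqM
  refine ⟨v, ?_, by rw [hv]; omega⟩
  intro hvB
  have h5 := Finset.single_le_sum (f := fun v : HeightOneSpectrum (𝓞 F) =>
    ringChar (𝓞 F ⧸ v.asIdeal)) (fun _ _ => Nat.zero_le _) hvB
  beta_reduce at h5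
  rw [hv] at h5
  omega

/-- the unit `a` depends only on `H/F` and the nonsplit place `v₀` -/
theorem pa_main (hp : p.Prime) (hp2 : p ≠ 2) (hG : Nat.card G = p) (hE : Ext ι)
    (hD : One ι S T r w fr) (hA' : ¬ p ∣ hA S T) {v₀ : HeightOneSpectrum (𝓞 F)} (h0 : v₀ ∈ S)
    (hs : ¬ Spl H (Sum.inr v₀ : Pl F)) {S' T' : Finset (HeightOneSpectrum (𝓞 F))} {r' : ℕ}
    {w' : Fin r' → Pl H} {fr' : HeightOneSpectrum (𝓞 F) → G} (hD' : One ι S' T' r' w' fr')
    (hA'' : ¬ p ∣ hA S' T') (h0' : v₀ ∈ S') {a : ℤ} (h : Adm p a ι S T w fr) :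
    Adm p a ι S' T' w' fr' := by
  classical
  obtain ⟨v, hvB, hvc⟩ := pa_place (S ∪ T ∪ S' ∪ T') (Module.finrank ℚ F + 1)
  simp only [Finset.mem_union, not_or] at hvB
  obtain ⟨⟨⟨hvS, hvT⟩, hvS'⟩, hvT'⟩ := hvB
  -- one path for both sides
  have path : ∀ {S T : Finset (HeightOneSpectrum (𝓞 F))} {r : ℕ} {w : Fin r → Pl H}
      {fr : HeightOneSpectrum (𝓞 F) → G}, One ι S T r w fr → ¬ p ∣ hA S T → v ∉ S → v ∉ T →
      v₀ ∈ S → ∃ (S₁ : Finset (HeightOneSpectrum (𝓞 F))) (r₁ : ℕ) (w₁ : Fin r₁ → Pl H),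
        One ι S₁ {v} r₁ w₁ fr ∧ ¬ p ∣ hA S₁ {v} ∧ v₀ ∈ S₁ ∧ v ∉ S₁ ∧
        ∀ a : ℤ, Adm p a ι S T w fr ↔ Adm p a ι S₁ {v} w₁ fr := by
    intro S T r w fr hD hA' hvS hvT h0
    obtain ⟨P, hP1, hP2⟩ := na_main hp hG hD.data hA' hvT hvS ∅
    obtain ⟨r₁, w₁, hD1, hr1, hA1, hAd1⟩ := pa_S hp hG hE hD P
      (fun v' h => ⟨(hP1 v' h).1, (hP1 v' h).2.2.1⟩) (S' := S ∪ P)
      (fun v' => Finset.mem_union) hA'
    have hvS1 : v ∉ S ∪ P := by
      rw [Finset.mem_union, not_or]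
      exact ⟨hvS, fun hvP => (hP1 v hvP).2.2.2.1 rfl⟩
    obtain ⟨hD2, hA2, hAd2⟩ := pa_T hp hG hE hD1 (pa_pos hp hp2 hG hD1.data) hvT hvS1 hvc
      (hP2 (S ∪ P) (fun _ => Finset.mem_union))
    exact ⟨S ∪ P, r₁, w₁, hD2, hA2, Finset.mem_union_left _ h0, hvS1,
      fun a => (hAd1 a).trans (hAd2 a)⟩
  obtain ⟨S₁, r₁, w₁, hD1, hA1, h01, hv1, hAd1⟩ := path hD hA' hvS hvT h0
  obtain ⟨S₂, r₂, w₂, hD2, hA2, h02, hv2, hAd2⟩ := path hD' hA'' hvS' hvT' h0'
  obtain ⟨r₃, w₃, hD3, -, -, hAd3⟩ := pa_S hp hG hE hD1 (S₂.erase v₀)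
    (fun v' h => by
      rw [Finset.mem_erase] at h
      refine ⟨pa_spl hp hG hD2 h02 hs h.2 h.1, ?_⟩
      rw [Finset.mem_singleton]
      rintro rfl
      exact hv2 h.2) (S' := S₁ ∪ S₂)
    (fun v' => by
      rw [Finset.mem_union, Finset.mem_erase]
      constructor
      · rintro (h | h)
        · exact Or.inl h
        · by_cases h3 : v' = v₀
          · exact Or.inl (h3 ▸ h01)
          · exact Or.inr ⟨h3, h⟩
      · rintro (h | h)
        · exact Or.inl h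
        · exact Or.inr h.2) hA1
  obtain ⟨r₄, w₄, hD4, -, -, hAd4⟩ := pa_S hp hG hE hD2 (S₁.erase v₀)
    (fun v' h => by
      rw [Finset.mem_erase] at h
      refine ⟨pa_spl hp hG hD1 h01 hs h.2 h.1, ?_⟩
      rw [Finset.mem_singleton]
      rintro rfl
      exact hv1 h.2) (S' := S₁ ∪ S₂)
    (fun v' => by
      rw [Finset.mem_union, Finset.mem_erase]
      constructor
      · rintro (h | h)
        · by_cases h3 : v' = v₀
          · exact Or.inl (h3 ▸ h02)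
          · exact Or.inr ⟨h3, h⟩
        · exact Or.inl h
      · rintro (h | h)
        · exact Or.inr h
        · exact Or.inl h.2) hA2
  have h5 := oa_main hp hG hD3 hD4 ((hAd3 a).1 ((hAd1 a).1 h))
  exact (hAd2 a).2 ((hAd4 a).2 h5)
end
end Pool.Agent.PD
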