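import Pool.Agent.Lib_helper24.PD.Defs
import Pool.Agent.Lib_helper24.PD.P.JA2
import Pool.Agent.Lib_helper24.PD.P.JA3
import Pool.Agent.Lib_helper24.PD.P.PA3
set_option autoImplicit false
set_option linter.unusedSectionVars false
namespace Pool.Agent.PD
open Pool.Agent Pool.Agent.RSK Pool.Agent.RS2 Pool.Agent.AU
open NumberField IsDedekindDomain Filter Topology Complex
open scoped TensorProduct
section
variable {F H : Type} [Field F] [NumberField F] [Field H] [NumberField H] [Algebra F H]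
  [IsGalois F H] {G : Type} [CommGroup G] [Fintype G] {p : ℕ} {ι : G ≃* (H ≃ₐ[F] H)}
  {S T : Finset (HeightOneSpectrum (𝓞 F))} {r : ℕ} {w : Fin r → Pl H}
  {fr : HeightOneSpectrum (𝓞 F) → G}

/-- archimedean places split completely in an extension of odd prime degree -/
theorem pz_arch (hp : p.Prime) (hp2 : p ≠ 2) (hG : Nat.card G = p) (ι : G ≃* (H ≃ₐ[F] H))
    (v : InfinitePlace F) : Spl H (Sum.inl v : Pl F) := by
  intro W hW σ hσ
  cases W with
  | inr W => exact absurd hW (by simp [dn])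
  | inl W =>
    have h1 : σ • W = W := by
      have := hσ
      simpa [act] using this
    have h2 : Nat.card (MulAction.stabilizer (H ≃ₐ[F] H) W) ∣ p := by
      have h3 := Subgroup.card_subgroup_dvd_card (MulAction.stabilizer (H ≃ₐ[F] H) W)
      rwa [← Nat.card_congr ι.toEquiv, hG] at h3
    have h4 : Nat.card (MulAction.stabilizer (H ≃ₐ[F] H) W) = 1 := by
      rcases InfinitePlace.nat_card_stabilizer_eq_one_or_two F W with h | h
      · exact h
      · rw [h] at h2
        rcases (Nat.dvd_prime hp).1 h2 with h5 | h5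
        · omega
        · exact absurd h5.symm hp2
    have h5 : MulAction.stabilizer (H ≃ₐ[F] H) W = ⊥ := Subgroup.card_eq_one.1 h4
    have h6 : σ ∈ MulAction.stabilizer (H ≃ₐ[F] H) W := h1
    rw [h5] at h6
    exact Subgroup.mem_bot.1 h6

/-- one unit `a` for all `(S, T)` -/
theorem pz_main (hp : p.Prime) (hG : Nat.card G = p) (hE : Ext ι) (v₀ : Pl F)
    (hv₀ : ¬ Spl H v₀) : ∃ a : ℤ, ¬ (p : ℤ) ∣ a ∧
      ∀ (S T : Finset (HeightOneSpectrum (𝓞 F))) (r : ℕ) (w : Fin r → Pl H)
        (fr : HeightOneSpectrum (𝓞 F) → G), One ι S T r w fr → InS S v₀ → ¬ p ∣ hA S T →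
          Adm p a ι S T w fr := by
  have hp1 : ¬ (p : ℤ) ∣ 1 := by
    intro h
    have h1 : p ∣ 1 := by exact_mod_cast h
    exact hp.one_lt.ne' (Nat.dvd_one.1 h1)
  by_cases hp2 : p = 2
  · refine ⟨1, hp1, ?_⟩
    intro S T r w fr hD _ hA
    obtain ⟨a, ha, h⟩ := ja_exists hp hG hD hA
    refine ja_congr hp hG hD ?_ h
    subst hp2
    push_cast at ha ⊢
    omega
  · cases v₀ with
    | inl v => exact absurd (pz_arch hp hp2 hG ι v) hv₀
    | inr v =>
      by_cases hex : ∃ (S T : Finset (HeightOneSpectrum (𝓞 F))) (r : ℕ) (w : Fin r → Pl H)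
        (fr : HeightOneSpectrum (𝓞 F) → G), One ι S T r w fr ∧ InS S (Sum.inr v : Pl F) ∧
          ¬ p ∣ hA S T
      · obtain ⟨S, T, r, w, fr, hD, hS, hA'⟩ := hex
        obtain ⟨a, ha, h⟩ := ja_exists hp hG hD hA'
        refine ⟨a, ha, ?_⟩
        intro S' T' r' w' fr' hD' hS' hA''
        exact pa_main hp hp2 hG hE hD hA' hS hv₀ hD' hA'' hS' h
      · refine ⟨1, hp1, ?_⟩
        intro S T r w fr hD hS hA'
        exact absurd ⟨S, T, r, w, fr, hD, hS, hA'⟩ hex
end
end Pool.Agent.PD
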