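import Pool.Agent.Lib_helper24.PD.Defs
import Pool.Agent.Lib_helper24.PD.Plain
import Pool.Agent.Lib_helper24.PD.P.QA2
set_option autoImplicit false
set_option linter.unusedSectionVars false
namespace Pool.Agent.PD
open Pool.Agent Pool.Agent.RSK Pool.Agent.RS2 Pool.Agent.AU
open NumberField IsDedekindDomain Filter Topology Complex
open scoped TensorProduct
section
variable {F H : Type} [Field F] [NumberField F] [Field H] [NumberField H] [Algebra F H]
  [IsGalois F H] {G : Type} [CommGroup G] [Fintype G] {p : ℕ} {ι : G ≃* (H ≃ₐ[F] H)}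
  {S : Finset (Pl F)} {T : Finset (HeightOneSpectrum (𝓞 F))} {r : ℕ} {w : Fin r → Pl H}
  {fr : HeightOneSpectrum (𝓞 F) → G}

theorem qb_inr {S : Finset (HeightOneSpectrum (𝓞 F))} {v : HeightOneSpectrum (𝓞 F)} :
    (Sum.inr v : Pl F) ∈ (Finset.univ : Finset (InfinitePlace F)).disjSum S ↔ v ∈ S :=
  Finset.inr_mem_disjSum

theorem qb_inS {S : Finset (HeightOneSpectrum (𝓞 F))} {v : Pl F} :
    v ∈ (Finset.univ : Finset (InfinitePlace F)).disjSum S ↔ RSK.InS S v := by
  rcases v with v | v
  · exact ⟨fun _ => trivial, fun _ => Finset.inl_mem_disjSum.2 (Finset.mem_univ v)⟩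
  · exact qb_inr

theorem qb_data {S : Finset (HeightOneSpectrum (𝓞 F))} (hD : Data ι S T r w fr) :
    ∃ S' : Finset (Pl F), S'.toRight = S ∧ RB.Data ι S' T w fr := by
  refine ⟨(Finset.univ : Finset (InfinitePlace F)).disjSum S, ?_, ?_⟩
  · ext v
    rw [Finset.mem_toRight]
    exact qb_inr
  · refine
      { arch := fun v => Finset.inl_mem_disjSum.2 (Finset.mem_univ v)
        unram := fun W hW => hD.unram W (fun hh => hW (qb_inr.2 hh))
        disj := fun v hv hh => (Finset.disjoint_left.1 hD.disj) (qb_inr.1 hh) hv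
        tors := hD.tors
        inj := fun i j hij => hD.inj i j (by rw [← RB.below_eq, ← RB.below_eq]; exact hij)
        split := ?_
        card := ?_
        frob := ?_ }
    · intro W
      constructor
      · rintro ⟨i, hi⟩
        rw [RB.below_eq, RB.below_eq] at hi
        refine ⟨?_, ?_⟩
        · rw [RB.below_eq, qb_inS, hi]
          exact hD.mem i
        · intro σ hσ
          have h1 : RSK.act σ W = W := (RB.inv_iff σ W).1 hσ
          obtain ⟨τ, hτ⟩ := RSK.act_trans (F := F) hi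
          have h2 : RSK.act (τ * σ * τ⁻¹) (w i) = w i := by
            rw [← hτ, ← RSK.act_mul, mul_assoc, inv_mul_cancel, mul_one, RSK.act_mul, h1]
          have h3 := hD.split i _ h2
          have h4 : σ = τ⁻¹ * (τ * σ * τ⁻¹) * τ := by group
          rw [h4, h3, mul_one, inv_mul_cancel]
      · rintro ⟨hW, hs⟩
        rw [RB.below_eq, qb_inS] at hW
        obtain ⟨i, hi⟩ := hD.all W hW (fun σ hσ => hs σ ((RB.inv_iff σ W).2 hσ))
        exact ⟨i, by rw [RB.below_eq, RB.below_eq]; exact hi⟩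
    · rw [Finset.card_disjSum, Finset.card_univ]
      exact hD.card
    · intro v hv W hW x
      have h0 := hD.frob v (fun hh => hv (qb_inr.2 hh)) W hW x
      have h2 : ι (fr v) (x : H) - (x : H) ^ Ideal.absNorm v.asIdeal =
          algebraMap (𝓞 H) H (RingOfIntegers.mapRingEquiv (ι (fr v)).toRingEquiv x -
            x ^ RSK.nv v) := by
        rw [map_sub, map_pow]
        rfl
      rw [RB.nabs_fin_lt_one, h2]
      exact (HeightOneSpectrum.valuation_lt_one_iff_mem W _).2 h0

theorem qb_ext (hS : ∀ (S : Finset (Pl F)) (T : Finset (HeightOneSpectrum (𝓞 F))) (r : ℕ)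
    (w : Fin r → Pl H) (fr : HeightOneSpectrum (𝓞 F) → G), RB.Data ι S T w fr →
      ∃ u, RB.Stark ι S T w fr u) : Ext ι := by
  intro S T r w fr hO
  obtain ⟨S', rfl, hD⟩ := qb_data hO.data
  obtain ⟨u, hu⟩ := hS S' T r w fr hD
  have h1 : S'.card = r + 1 := by
    rw [RB.card_eq S' hD.arch]
    exact hO.one
  obtain ⟨U, hU, -⟩ := qa_stk (p := 2) hD h1 hu
  exact ⟨U, hU⟩

theorem qb_spl {v : Pl F} (hv : RB.Dg ι v ≠ ⊥) : ¬ Spl H v := by
  intro hs
  apply hv
  rw [RB.dg_eq, Subgroup.eq_bot_iff_forall]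
  intro g hg
  obtain ⟨W, hW⟩ := RSK.dn_surj (H := H) v
  have h1 : ι g = 1 := hs W hW (ι g) (hg W hW)
  exact (map_eq_one_iff ι ι.injective).1 h1

end
end Pool.Agent.PD
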