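import Pool.Agent.Lib_helper24.PD.P.QA2
import Pool.Agent.Lib_helper24.PD.P.QB
import Pool.Agent.Lib_helper24.PD.P.QC1
import Pool.Agent.Lib_helper24.PD.P.PZ
set_option autoImplicit false
set_option linter.unusedSectionVars false
namespace Pool.Agent.PD
open Pool.Agent Pool.Agent.RSK Pool.Agent.RS2 Pool.Agent.AU
open NumberField IsDedekindDomain Filter Topology Complex
open scoped TensorProduct
section
variable {F H : Type} [Field F] [NumberField F] [Field H] [NumberField H] [Algebra F H]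
  [IsGalois F H] {G : Type} [CommGroup G] [Fintype G] {p : ℕ} {ι : G ≃* (H ≃ₐ[F] H)}
  {S : Finset (Pl F)} {T : Finset (HeightOneSpectrum (𝓞 F))} {r : ℕ} {w : Fin r → Pl H}
  {fr : HeightOneSpectrum (𝓞 F) → G}

theorem qg_onePlus (p : ℕ) : onePlus G ((((1 : ℤ) : ℚ) - 1) / p) = 1 := by
  simp [onePlus]

theorem qg_two (hp : p.Prime) (hG : Nat.card G = p)
    (hS : ∀ (S : Finset (Pl F)) (T : Finset (HeightOneSpectrum (𝓞 F))) (r : ℕ)
      (w : Fin r → Pl H) (fr : HeightOneSpectrum (𝓞 F) → G), RB.Data ι S T w fr →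
        ∃ u, RB.Stark ι S T w fr u) {v₀ : Pl F} (hv₀ : RB.Dg ι v₀ ≠ ⊥) :
    ∃ a : ℤ, ¬ (p : ℤ) ∣ a ∧ ∀ (S : Finset (Pl F)) (T : Finset (HeightOneSpectrum (𝓞 F))) (r : ℕ)
      (w : Fin r → Pl H) (fr : HeightOneSpectrum (𝓞 F) → G) (u : (Fin r → Hˣ) →₀ MonoidAlgebra ℚ G),
      RB.Data ι S T w fr → RB.Stark ι S T w fr u → v₀ ∈ S → S.card = r + 1 → ¬ p ∣ clF S T →
        LatAt p (onePlus G (((a : ℚ) - 1) / p)) ι S T u ∧
          (LatAt p 1 ι S T u ↔ (p : ℤ) ∣ a - 1) := by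
  have hE : Ext ι := qb_ext hS
  obtain ⟨a, ha, hmain⟩ := pz_main hp hG hE v₀ (qb_spl hv₀)
  refine ⟨a, ha, fun S T r w fr u hD hu h0 h1 hcl => ?_⟩
  have hOne := qa_one hD h1
  have hIn : InS S.toRight v₀ := (RB.inS_iff S hD.arch v₀).2 h0
  have hcl' : ¬ p ∣ hA S.toRight T := by rwa [← qc_F]
  have hAdm := hmain _ _ _ _ _ hOne hIn hcl'
  obtain ⟨U, hU, -, hLa⟩ := qa_stk (p := p) hD h1 hu
  refine ⟨(hLa a hp hG).2 (fun ψ => hAdm U hU ψ), ?_⟩
  have h1' : LatAt p 1 ι S T u ↔ Adm p 1 ι S.toRight T w fr := by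
    have h2 := hLa 1 hp hG
    rw [qg_onePlus] at h2
    rw [h2]
    constructor
    · intro h U' hU' ψ
      rw [ja_uniq hp hG hOne hU' hU ψ]
      exact h ψ
    · intro h ψ
      exact h U hU ψ
  rw [h1']
  exact ⟨fun h => ja_eq hp hG hE hOne hcl' hAdm h, fun h => ja_congr hp hG hOne h hAdm⟩
end
end Pool.Agent.PD
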